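import Mathlib

section

/-!
# Supergradients of log-concave functions
-/

namespace Pool.Agent.Lib.MP_8d00da_gt.h42

open Set Filter
open scoped Topology

/-- Log-concavity in multiplicative form. -/
def LogConc {F : Type*} [AddCommGroup F] [Module ℝ F] (G : F → ℝ) : Prop :=
  ∀ a : ℝ, 0 < a → a < 1 → ∀ x y : F, G x ^ (1 - a) * G y ^ a ≤ G ((1 - a) • x + a • y)

variable {F : Type*} [NormedAddCommGroup F] [InnerProductSpace ℝ F] [FiniteDimensional ℝ F]

theorem exists_supergradient {G : F → ℝ} (hG0 : ∀ b, 0 ≤ G b) (hG : LogConc G)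
    {r ε : ℝ} (hr : 0 < r) (hε : 0 < ε) (hball : ∀ b, ‖b‖ < r → ε ≤ G b) :
    ∃ l : F, ∀ b, G b ≤ G 0 * Real.exp (inner ℝ l b) := by
  have hG00 : 0 < G 0 := lt_of_lt_of_le hε (hball 0 (by simpa using hr))
  set S : Set (F × ℝ) := {p | 0 < G p.1 ∧ p.2 < Real.log (G p.1)} with hS
  have hSconv : Convex ℝ S := by
    rintro ⟨x, s⟩ ⟨hx, hs⟩ ⟨y, t⟩ ⟨hy, ht⟩ α β hα hβ hαβ
    simp only at hx hs hy ht
    rcases eq_or_lt_of_le hα with h0 | hα
    · have : β = 1 := by linarith
      subst this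
      rw [← h0]
      simpa [hS] using ⟨hy, ht⟩
    rcases eq_or_lt_of_le hβ with h0 | hβ
    · have : α = 1 := by linarith
      subst this
      rw [← h0]
      simpa [hS] using ⟨hx, hs⟩
    have hα' : α = 1 - β := by linarith
    have h1 := hG β hβ (by linarith) x y
    rw [← hα'] at h1
    have h2 : 0 < G x ^ α * G y ^ β := mul_pos (Real.rpow_pos_of_pos hx _) (Real.rpow_pos_of_pos hy _)
    have h3 : 0 < G (α • x + β • y) := lt_of_lt_of_le h2 h1
    refine ⟨h3, ?_⟩
    simp only [Prod.fst_add, Prod.snd_add, Prod.smul_fst, Prod.smul_snd, smul_eq_mul]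
    have h4 := Real.log_le_log h2 h1
    rw [Real.log_mul (Real.rpow_pos_of_pos hx _).ne' (Real.rpow_pos_of_pos hy _).ne',
      Real.log_rpow hx, Real.log_rpow hy] at h4
    nlinarith
  have hint : ∀ b : F, ‖b‖ < r → ∀ t, t < Real.log ε → (b, t) ∈ interior S := by
    intro b hb t ht
    rw [mem_interior]
    refine ⟨Metric.ball (0 : F) r ×ˢ Iio (Real.log ε), ?_, Metric.isOpen_ball.prod isOpen_Iio,
      ⟨by simpa using hb, ht⟩⟩
    rintro ⟨b', t'⟩ ⟨hb', ht'⟩
    have h1 := hball b' (by simpa using hb')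
    refine ⟨lt_of_lt_of_le hε h1, ?_⟩
    exact lt_of_lt_of_le ht' (Real.log_le_log hε h1)
  have hx0 : ((0 : F), Real.log (G 0)) ∉ interior S := by
    intro h
    have := interior_subset h
    exact lt_irrefl _ this.2
  obtain ⟨f, hf⟩ := geometric_hahn_banach_open_point hSconv.interior isOpen_interior hx0
  set c : ℝ := f (0, 1) with hc
  have hfd : ∀ (b : F) (t : ℝ), f (b, t) = f (b, 0) + t * c := by
    intro b t
    have : ((b, t) : F × ℝ) = (b, 0) + t • ((0 : F), (1 : ℝ)) := by simp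
    rw [this, map_add, map_smul, smul_eq_mul]
  have hf0 : f ((0 : F), (0 : ℝ)) = 0 := by
    have : ((0 : F), (0 : ℝ)) = 0 := rfl
    rw [this, map_zero]
  have hlogε : Real.log ε ≤ Real.log (G 0) :=
    Real.log_le_log hε (hball 0 (by simpa using hr))
  have hcpos : 0 < c := by
    have h1 := hf _ (hint 0 (by simpa using hr) (Real.log ε - 1) (by linarith))
    rw [hfd, hfd 0 (Real.log (G 0)), hf0] at h1
    by_contra hn
    push Not at hn
    have : (Real.log (G 0) - (Real.log ε - 1)) * c ≤ 0 :=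
      mul_nonpos_of_nonneg_of_nonpos (by linarith) hn
    linarith
  have hne : (interior S).Nonempty := ⟨_, hint 0 (by simpa using hr) (Real.log ε - 1) (by linarith)⟩
  have hall : ∀ p ∈ S, f p ≤ f (0, Real.log (G 0)) := by
    intro p hp
    have h1 : p ∈ closure (interior S) := by
      rw [hSconv.closure_interior_eq_closure_of_nonempty_interior hne]
      exact subset_closure hp
    have h2 : IsClosed {p : F × ℝ | f p ≤ f (0, Real.log (G 0))} :=
      isClosed_le f.continuous continuous_const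
    exact closure_minimal (fun q hq => (hf q hq).le) h2 h1
  have hlog : ∀ b, 0 < G b → Real.log (G b) ≤ Real.log (G 0) - f (b, 0) / c := by
    intro b hb
    refine le_of_forall_lt fun t ht => ?_
    -- pick a slightly larger t
    obtain ⟨t', ht1, ht2⟩ := exists_between ht
    have h1 := hall (b, t') ⟨hb, ht2⟩
    rw [hfd, hfd 0 (Real.log (G 0)), hf0] at h1
    have h2 : t' ≤ Real.log (G 0) - f (b, 0) / c := by
      rw [le_sub_iff_add_le, ← le_sub_iff_add_le', div_le_iff₀ hcpos]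
      linarith
    linarith
  -- Riesz representation
  set g : F →L[ℝ] ℝ := -(c⁻¹ • (f.comp (ContinuousLinearMap.inl ℝ F ℝ))) with hg
  refine ⟨(InnerProductSpace.toDual ℝ F).symm g, fun b => ?_⟩
  rw [InnerProductSpace.toDual_symm_apply]
  have hgb : g b = -(f (b, 0) / c) := by
    rw [hg]
    simp
    ring
  rcases eq_or_lt_of_le (hG0 b) with h0 | hb
  · rw [← h0]; positivity
  · have h1 := Real.exp_le_exp.2 (hlog b hb)
    rw [Real.exp_log hb, sub_eq_add_neg, Real.exp_add, Real.exp_log hG00] at h1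
    rw [hgb]
    exact h1

end Pool.Agent.Lib.MP_8d00da_gt.h42
end

section

namespace Pool.Agent.Lib.MP_8d00da_gt.h25
end Pool.Agent.Lib.MP_8d00da_gt.h25
namespace Pool.Agent.Lib.MP_8d00da_gt.h42
end Pool.Agent.Lib.MP_8d00da_gt.h42


/-!
# Log-concave weights which are invariant under signed permutations of the coordinates
-/

namespace Pool.Agent.Lib.MP_8d00da_gt.h42s

open MeasureTheory Set Filter
open Pool.Agent.Lib.MP_8d00da_gt.h25 Pool.Agent.Lib.MP_8d00da_gt.h42
open scoped Topology NNReal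

/-- `ℝⁿ` with the Euclidean norm. -/
abbrev Vn (n : ℕ) := EuclideanSpace ℝ (Fin n)

variable {n : ℕ}

/-- Change of sign of the `i`-th coordinate. -/
noncomputable def fl (i : Fin n) : Vn n ≃ₗᵢ[ℝ] Vn n :=
  LinearIsometryEquiv.piLpCongrRight 2 fun j =>
    if j = i then LinearIsometryEquiv.neg ℝ else LinearIsometryEquiv.refl ℝ ℝ

/-- Swap of two coordinates. -/
noncomputable def sw (i j : Fin n) : Vn n ≃ₗᵢ[ℝ] Vn n :=
  LinearIsometryEquiv.piLpCongrLeft 2 ℝ ℝ (Equiv.swap i j)

/-- The standard basis vectors. -/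
noncomputable def ee (i : Fin n) : Vn n := EuclideanSpace.single i (1 : ℝ)

/-- The `ℓ₁` norm. -/
noncomputable def N1 (x : Vn n) : ℝ := ∑ i, |x i|

/-- Invariance under signed permutations. -/
structure SymW (h : Vn n → ℝ) : Prop where
  flip : ∀ i x, h (fl i x) = h x
  swap : ∀ i j x, h (sw i j x) = h x

lemma fl_apply (i j : Fin n) (x : Vn n) : fl i x j = if j = i then - x j else x j := by
  simp only [fl, LinearIsometryEquiv.piLpCongrRight_apply]
  split_ifs <;> simp

lemma sw_apply (i j k : Fin n) (x : Vn n) : sw i j x k = x (Equiv.swap i j k) := by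
  simp only [sw, LinearIsometryEquiv.piLpCongrLeft_apply]
  simp [Equiv.piCongrLeft'_apply]

lemma ee_apply (i j : Fin n) : ee i j = if j = i then (1 : ℝ) else 0 := by
  simp [ee]

lemma inner_ee (i : Fin n) (x : Vn n) : inner ℝ x (ee i) = x i := by
  rw [ee, EuclideanSpace.inner_single_right]; simp

lemma fl_fl (i : Fin n) (x : Vn n) : fl i (fl i x) = x := by
  ext j; simp only [fl_apply]; split_ifs <;> simp

lemma fl_ee (i : Fin n) : fl i (ee i) = - ee i := by
  ext j; simp only [fl_apply, ee_apply, PiLp.neg_apply]; split_ifs <;> simp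

lemma fl_ee_ne {i j : Fin n} (hij : j ≠ i) : fl i (ee j) = ee j := by
  ext k; simp only [fl_apply, ee_apply]
  split_ifs with h1 h2
  · exact absurd (h2.symm.trans h1) hij
  · simp
  · rfl
  · rfl

lemma fl_comm (i j : Fin n) (x : Vn n) : fl i (fl j x) = fl j (fl i x) := by
  ext k; simp only [fl_apply]; split_ifs <;> simp

lemma sw_sw (i j : Fin n) (x : Vn n) : sw i j (sw i j x) = x := by
  ext k; simp [sw_apply]

lemma N1_fl (i : Fin n) (x : Vn n) : N1 (fl i x) = N1 x := by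
  unfold N1
  refine Finset.sum_congr rfl fun j _ => ?_
  rw [fl_apply]; split_ifs <;> simp

lemma N1_sw (i j : Fin n) (x : Vn n) : N1 (sw i j x) = N1 x := by
  unfold N1
  simp only [sw_apply]
  exact Equiv.sum_comp (Equiv.swap i j) fun k => |x k|

lemma N1_nonneg (x : Vn n) : 0 ≤ N1 x := Finset.sum_nonneg fun _ _ => abs_nonneg _

lemma abs_le_N1 (i : Fin n) (x : Vn n) : |x i| ≤ N1 x :=
  Finset.single_le_sum (f := fun j => |x j|) (fun _ _ => abs_nonneg _) (Finset.mem_univ i)

lemma N1_add (x y : Vn n) : N1 (x + y) ≤ N1 x + N1 y := by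
  unfold N1
  rw [← Finset.sum_add_distrib]
  exact Finset.sum_le_sum fun i _ => abs_add_le _ _

lemma N1_smul (c : ℝ) (x : Vn n) : N1 (c • x) = |c| * N1 x := by
  unfold N1
  rw [Finset.mul_sum]
  exact Finset.sum_congr rfl fun i _ => by simp [abs_mul]

lemma norm_le_N1 (x : Vn n) : ‖x‖ ≤ N1 x := by
  rw [← Real.sqrt_sq (N1_nonneg x), EuclideanSpace.norm_eq]
  apply Real.sqrt_le_sqrt
  unfold N1
  rw [sq, Finset.sum_mul]
  refine Finset.sum_le_sum fun i _ => ?_
  rw [Real.norm_eq_abs, sq]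
  exact mul_le_mul_of_nonneg_left (abs_le_N1 i x) (abs_nonneg _)

lemma N1_le_norm (x : Vn n) : N1 x ≤ Real.sqrt n * ‖x‖ := by
  rw [EuclideanSpace.norm_eq, ← Real.sqrt_mul (Nat.cast_nonneg n)]
  apply Real.le_sqrt_of_sq_le
  unfold N1
  have := Finset.sum_mul_sq_le_sq_mul_sq Finset.univ (fun _ : Fin n => (1 : ℝ)) (fun i => |x i|)
  simpa using this

lemma N1_sub (x y : Vn n) : |N1 x - N1 y| ≤ Real.sqrt n * ‖x - y‖ := by
  have key : ∀ x y : Vn n, N1 x - N1 y ≤ Real.sqrt n * ‖x - y‖ := fun x y => by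
    have h1 := N1_add y (x - y)
    rw [add_sub_cancel] at h1
    have h2 := N1_le_norm (x - y)
    linarith
  rw [abs_le]
  refine ⟨?_, key x y⟩
  have := key y x
  rw [norm_sub_rev] at this
  linarith

lemma N1_cont : Continuous (N1 : Vn n → ℝ) := by
  unfold N1
  fun_prop

end Pool.Agent.Lib.MP_8d00da_gt.h42s
end

section

/-!
# Gaussian smoothing of bounded functions
-/

namespace Pool.Agent.Lib.MP_8d00da_gt.h25

open MeasureTheory Set Filter
open scoped Topology NNReal

/-- Cauchy–Schwarz for integrals. -/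
lemma cs_int {α : Type*} [MeasurableSpace α] {μ : Measure α} {a b : α → ℝ}
    (ha : Integrable (fun x => a x ^ 2) μ) (hb : Integrable (fun x => b x ^ 2) μ)
    (hab : Integrable (fun x => a x * b x) μ) :
    (∫ x, a x * b x ∂μ) ^ 2 ≤ (∫ x, a x ^ 2 ∂μ) * (∫ x, b x ^ 2 ∂μ) := by
  have key : ∀ s : ℝ, 0 ≤ (∫ x, a x ^ 2 ∂μ) * (s * s) + (2 * ∫ x, a x * b x ∂μ) * s +
      ∫ x, b x ^ 2 ∂μ := by
    intro s
    have h1 : 0 ≤ ∫ x, (s * a x + b x) ^ 2 ∂μ := integral_nonneg fun x => sq_nonneg _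
    have h2 : (fun x => (s * a x + b x) ^ 2) =
        fun x => s * s * a x ^ 2 + 2 * s * (a x * b x) + b x ^ 2 := by
      ext x; ring
    rw [h2, integral_add, integral_add, integral_const_mul, integral_const_mul] at h1
    · linarith
    · exact ha.const_mul _
    · exact hab.const_mul _
    · exact (ha.const_mul _).add (hab.const_mul _)
    · exact hb
  have := discrim_le_zero key
  rw [discrim] at this
  nlinarith

variable {F : Type*} [NormedAddCommGroup F] [InnerProductSpace ℝ F]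

/-- The Gaussian kernel. -/
noncomputable def ker (η : ℝ) (z : F) : ℝ := Real.exp (-(‖z‖ ^ 2 / (2 * η)))

variable {η : ℝ}

omit [InnerProductSpace ℝ F] in
lemma ker_pos (z : F) : 0 < ker η z := Real.exp_pos _

omit [InnerProductSpace ℝ F] in
lemma ker_le_one (hη : 0 < η) (z : F) : ker η z ≤ 1 := by
  unfold ker
  rw [Real.exp_le_one_iff]
  have : 0 ≤ ‖z‖ ^ 2 / (2 * η) := by positivity
  linarith

omit [InnerProductSpace ℝ F] in
lemma ker_comm (x y : F) : ker η (x - y) = ker η (y - x) := by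
  unfold ker; rw [norm_sub_rev]

omit [InnerProductSpace ℝ F] in
lemma ker_neg (x : F) : ker η (-x) = ker η x := by
  unfold ker; rw [norm_neg]

omit [InnerProductSpace ℝ F] in
@[fun_prop]
lemma ker_cont : Continuous (ker η : F → ℝ) := by
  unfold ker; fun_prop

/-- Parallelogram law for the kernel. -/
lemma ker_mid (hη : 0 < η) (y x x' : F) :
    ker η (y - x) * ker η (y - x') * Real.exp ((1 / η) * ‖x - x'‖ ^ 2 / 4) =
      ker η (y - (1 / 2 : ℝ) • (x + x')) ^ 2 := by
  unfold ker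
  rw [← Real.exp_add, ← Real.exp_add, ← Real.exp_nat_mul]
  congr 1
  have e1 : x - x' = (y - x') - (y - x) := by abel
  have e2 : y - (1 / 2 : ℝ) • (x + x') = (1 / 2 : ℝ) • ((y - x') + (y - x)) := by
    have : y = (1 / 2 : ℝ) • (y + y) := by
      rw [← two_smul ℝ y, smul_smul]; norm_num
    nth_rewrite 1 [this]
    rw [← smul_sub]
    congr 1
    abel
  rw [e1, e2, norm_smul, mul_pow]
  set a := y - x' with ha
  set b := y - x with hb
  have h1 : ‖a - b‖ ^ 2 = ‖a‖ ^ 2 - 2 * inner ℝ a b + ‖b‖ ^ 2 := norm_sub_sq_real a b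
  have h2 : ‖a + b‖ ^ 2 = ‖a‖ ^ 2 + 2 * inner ℝ a b + ‖b‖ ^ 2 := norm_add_sq_real a b
  have h3 : ‖(1 / 2 : ℝ)‖ ^ 2 = 1 / 4 := by norm_num
  rw [h1, h2, h3]
  push_cast
  field_simp
  ring

lemma ker_hasFDerivAt (hη : 0 < η) (z : F) :
    HasFDerivAt (ker η) ((-(1 / η) * ker η z) • (innerSL ℝ z : F →L[ℝ] ℝ)) z := by
  have h1 : HasFDerivAt (fun z : F => ‖z‖ ^ 2) (2 • (innerSL ℝ z : F →L[ℝ] ℝ)) z :=
    (hasStrictFDerivAt_norm_sq z).hasFDerivAt
  have h2 : HasFDerivAt (fun z : F => -(‖z‖ ^ 2 / (2 * η)))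
      (-(2 * η)⁻¹ • (2 • (innerSL ℝ z : F →L[ℝ] ℝ))) z := by
    have := h1.const_mul (-(2 * η)⁻¹)
    refine this.congr_of_eventuallyEq (Eventually.of_forall fun w => ?_)
    simp only
    rw [div_eq_mul_inv]; ring
  have h3 := h2.exp
  refine h3.congr_fderiv ?_
  ext w
  simp only [smul_apply, innerSL_apply_apply, smul_eq_mul, nsmul_eq_mul,
    Nat.cast_ofNat]
  unfold ker
  field_simp

omit [InnerProductSpace ℝ F] in
/-- A bound for the first moment. -/
lemma norm_mul_ker_le (hη : 0 < η) (z : F) :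
    ‖z‖ * ker η z ≤ Real.sqrt (4 * η) * ker (2 * η) z := by
  set s : ℝ := ‖z‖ / Real.sqrt (4 * η) with hs
  have h4 : 0 < Real.sqrt (4 * η) := Real.sqrt_pos.2 (by positivity)
  have hz : ‖z‖ = Real.sqrt (4 * η) * s := by rw [hs]; field_simp
  have hz2 : ‖z‖ ^ 2 = 4 * η * s ^ 2 := by
    rw [hz, mul_pow, Real.sq_sqrt (by positivity)]
  have h1 : s ≤ Real.exp (s ^ 2) := by
    have h2 : s ^ 2 + 1 ≤ Real.exp (s ^ 2) := Real.add_one_le_exp _
    nlinarith [sq_nonneg (s - 1 / 2)]
  have h3 : ker η z = Real.exp (-(s ^ 2)) * ker (2 * η) z := by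
    unfold ker
    rw [← Real.exp_add, hz2]
    congr 1
    field_simp
    ring
  rw [h3]
  nth_rewrite 1 [hz]
  have h5 : s * Real.exp (-(s ^ 2)) ≤ 1 := by
    rw [Real.exp_neg, ← div_eq_mul_inv, div_le_one (Real.exp_pos _)]
    exact h1
  have h6 : 0 < ker (2 * η) z := ker_pos z
  calc Real.sqrt (4 * η) * s * (Real.exp (-(s ^ 2)) * ker (2 * η) z)
      = Real.sqrt (4 * η) * (s * Real.exp (-(s ^ 2))) * ker (2 * η) z := by ring
    _ ≤ Real.sqrt (4 * η) * 1 * ker (2 * η) z := by gcongr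
    _ = _ := by ring

omit [InnerProductSpace ℝ F] in
/-- Comparison of the kernel at nearby points. -/
lemma ker_shift (hη : 0 < η) {z z' : F} (h : ‖z - z'‖ ≤ 1) :
    ker η z' ≤ Real.exp (1 / (2 * η)) * ker (2 * η) z := by
  unfold ker
  rw [← Real.exp_add]
  apply Real.exp_le_exp.2
  have h1 : ‖z‖ ≤ ‖z'‖ + 1 := by
    have := norm_add_le (z - z') z'
    rw [sub_add_cancel] at this
    linarith
  have h2 : ‖z‖ ^ 2 ≤ 2 * ‖z'‖ ^ 2 + 2 := by
    have h0 := norm_nonneg z
    nlinarith [norm_nonneg z', sq_nonneg (‖z'‖ - 1)]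
  have e1 : ‖z‖ ^ 2 / (2 * (2 * η)) ≤ (2 * ‖z'‖ ^ 2 + 2) / (2 * (2 * η)) := by gcongr
  have e2 : (2 * ‖z'‖ ^ 2 + 2) / (2 * (2 * η)) = ‖z'‖ ^ 2 / (2 * η) + 1 / (2 * η) := by
    field_simp
  linarith

variable [FiniteDimensional ℝ F] [MeasurableSpace F] [BorelSpace F]

lemma ker_integrable (hη : 0 < η) : Integrable (ker η : F → ℝ) := by
  have hb : 0 < 1 / (2 * η) := by positivity
  have h := GaussianFourier.integral_rexp_neg_mul_sq_norm (V := F) hb
  have h2 : ∫ v : F, Real.exp (-(1 / (2 * η)) * ‖v‖ ^ 2) ≠ 0 := by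
    rw [h]
    exact (Real.rpow_pos_of_pos (by positivity) _).ne'
  have h3 : (fun v : F => Real.exp (-(1 / (2 * η)) * ‖v‖ ^ 2)) = ker η := by
    ext v; unfold ker; congr 1; ring
  rw [← h3]
  by_contra hn
  exact h2 (integral_undef hn)

lemma ker_int_pos (hη : 0 < η) : 0 < ∫ y : F, ker η y :=
  integral_pos_of_pos (ker_integrable hη) ker_pos
where
  integral_pos_of_pos {f : F → ℝ} (hf : Integrable f) (h : ∀ x, 0 < f x) : 0 < ∫ x, f x := by
    rw [integral_pos_iff_support_of_nonneg (fun x => (h x).le) hf]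
    have : Function.support f = univ := by
      ext x; simp [(h x).ne']
    rw [this]
    simp [Measure.measure_univ_pos, NeZero.ne]

lemma ker_sub_integrable (hη : 0 < η) (y : F) : Integrable fun x : F => ker η (y - x) :=
  (ker_integrable hη).comp_sub_left y

/-- Smoothing of a function. -/
noncomputable def cv (η : ℝ) (φ : F → ℝ) (y : F) : ℝ := ∫ x, φ x * ker η (y - x)

lemma cv_integrable (hη : 0 < η) {φ : F → ℝ} (hφ : Measurable φ) {B : ℝ}
    (hB : ∀ x, |φ x| ≤ B) (y : F) : Integrable fun x => φ x * ker η (y - x) :=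
  (ker_sub_integrable hη y).bdd_mul hφ.aestronglyMeasurable (Eventually.of_forall fun x => by
    rw [Real.norm_eq_abs]; exact hB x)

/-- The derivative of the smoothed kernel. -/
noncomputable def kd (η : ℝ) (z : F) : F →L[ℝ] ℝ := (-(1 / η) * ker η z) • (innerSL ℝ z : F →L[ℝ] ℝ)

omit [FiniteDimensional ℝ F] [MeasurableSpace F] [BorelSpace F] in
lemma kd_norm (hη : 0 < η) (z : F) : ‖kd η z‖ = (1 / η) * (‖z‖ * ker η z) := by
  unfold kd
  rw [norm_smul, innerSL_apply_norm, Real.norm_eq_abs, abs_mul, abs_neg, abs_of_pos (ker_pos z),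
    abs_of_pos (by positivity)]
  ring

omit [FiniteDimensional ℝ F] [MeasurableSpace F] [BorelSpace F] in
lemma kd_cont : Continuous (kd η : F → F →L[ℝ] ℝ) := by
  unfold kd
  exact (continuous_const.mul ker_cont).smul (innerSL ℝ).continuous

lemma kd_bound_integrable (hη : 0 < η) (y : F) (B : ℝ) :
    Integrable fun x : F => B * ((1 / η) * (Real.sqrt (4 * η) *
      (Real.exp (1 / (2 * (2 * η))) * ker (2 * (2 * η)) (y - x)))) :=
  ((((ker_sub_integrable (by positivity) y).const_mul _).const_mul _).const_mul _).const_mul _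

omit [FiniteDimensional ℝ F] [MeasurableSpace F] [BorelSpace F] in
lemma kd_bound (hη : 0 < η) {φ : F → ℝ} {B : ℝ} (hB : ∀ x, |φ x| ≤ B) (y y' x : F)
    (hy : ‖y - y'‖ ≤ 1) :
    ‖φ x • kd η (y' - x)‖ ≤ B * ((1 / η) * (Real.sqrt (4 * η) *
      (Real.exp (1 / (2 * (2 * η))) * ker (2 * (2 * η)) (y - x)))) := by
  have hB0 : 0 ≤ B := (abs_nonneg _).trans (hB x)
  rw [norm_smul, kd_norm hη, Real.norm_eq_abs]
  have h1 := norm_mul_ker_le hη (y' - x)
  have h2 := ker_shift (η := 2 * η) (by positivity) (z := y - x) (z' := y' - x)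
    (by rw [sub_sub_sub_cancel_right]; exact hy)
  have h3 : ‖y' - x‖ * ker η (y' - x) ≤ Real.sqrt (4 * η) *
      (Real.exp (1 / (2 * (2 * η))) * ker (2 * (2 * η)) (y - x)) :=
    h1.trans (mul_le_mul_of_nonneg_left h2 (Real.sqrt_nonneg _))
  have h4 : 0 ≤ ‖y' - x‖ * ker η (y' - x) := mul_nonneg (norm_nonneg _) (ker_pos _).le
  exact mul_le_mul (hB x) (mul_le_mul_of_nonneg_left h3 (by positivity)) (by positivity) hB0

lemma kd_integrable (hη : 0 < η) {φ : F → ℝ} (hφ : Measurable φ) {B : ℝ}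
    (hB : ∀ x, |φ x| ≤ B) (y : F) : Integrable fun x => φ x • kd η (y - x) := by
  refine (kd_bound_integrable hη y B).mono' ?_ (Eventually.of_forall fun x =>
    kd_bound hη hB y y x (by simp))
  exact (hφ.aestronglyMeasurable).smul (kd_cont.comp (by fun_prop)).aestronglyMeasurable

lemma cv_hasFDerivAt (hη : 0 < η) {φ : F → ℝ} (hφ : Measurable φ) {B : ℝ}
    (hB : ∀ x, |φ x| ≤ B) (y : F) :
    HasFDerivAt (cv η φ) (∫ x, φ x • kd η (y - x)) y := by
  refine hasFDerivAt_integral_of_dominated_of_fderiv_le (F' := fun y x => φ x • kd η (y - x))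
    (Metric.ball_mem_nhds y one_pos) ?_ (cv_integrable hη hφ hB y)
    (kd_integrable hη hφ hB y).aestronglyMeasurable ?_ (kd_bound_integrable hη y B) ?_
  · exact Eventually.of_forall fun y' => (cv_integrable hη hφ hB y').aestronglyMeasurable
  · refine Eventually.of_forall fun x y' hy' => kd_bound hη hB y y' x ?_
    rw [Metric.mem_ball, dist_eq_norm, norm_sub_rev] at hy'
    exact hy'.le
  · refine Eventually.of_forall fun x y' _ => ?_
    have h1 : HasFDerivAt (fun y : F => ker η (y - x)) (kd η (y' - x)) y' := by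
      have := (ker_hasFDerivAt hη (y' - x)).comp y' ((hasFDerivAt_id y').sub_const x)
      exact this.congr_fderiv (by ext w; rfl)
    exact h1.const_mul (φ x)

lemma cv_fderiv (hη : 0 < η) {φ : F → ℝ} (hφ : Measurable φ) {B : ℝ}
    (hB : ∀ x, |φ x| ≤ B) (y θ : F) :
    fderiv ℝ (cv η φ) y θ = (1 / η) * ∫ x, φ x * (inner ℝ (x - y) θ * ker η (y - x)) := by
  rw [(cv_hasFDerivAt hη hφ hB y).fderiv, ContinuousLinearMap.integral_apply
    (kd_integrable hη hφ hB y), ← integral_const_mul]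
  refine integral_congr_ae (Eventually.of_forall fun x => ?_)
  simp only [kd, smul_apply, innerSL_apply_apply, smul_eq_mul]
  have : inner ℝ (x - y) θ = - inner ℝ (y - x) θ := by rw [← inner_neg_left, neg_sub]
  rw [this]; ring

lemma inner_ker_integrable (hη : 0 < η) {φ : F → ℝ} (hφ : Measurable φ) {B : ℝ}
    (hB : ∀ x, |φ x| ≤ B) (y θ : F) :
    Integrable fun x => φ x * (inner ℝ (x - y) θ * ker η (y - x)) := by
  have h1 : Integrable fun x => (φ x • kd η (y - x)) θ :=
    (kd_integrable hη hφ hB y).apply_continuousLinearMap θ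
  have h2 := h1.const_mul η
  refine h2.congr (Eventually.of_forall fun x => ?_)
  simp only [kd, smul_apply, innerSL_apply_apply, smul_eq_mul]
  have : inner ℝ (x - y) θ = - inner ℝ (y - x) θ := by rw [← inner_neg_left, neg_sub]
  rw [this]
  field_simp

lemma cv_differentiable (hη : 0 < η) {φ : F → ℝ} (hφ : Measurable φ) {B : ℝ}
    (hB : ∀ x, |φ x| ≤ B) : Differentiable ℝ (cv η φ) := fun y =>
  (cv_hasFDerivAt hη hφ hB y).differentiableAt

lemma cv_cont (hη : 0 < η) {φ : F → ℝ} (hφ : Measurable φ) {B : ℝ}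
    (hB : ∀ x, |φ x| ≤ B) : Continuous (cv η φ) :=
  (cv_differentiable hη hφ hB).continuous

end Pool.Agent.Lib.MP_8d00da_gt.h25
end
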