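import Mathlib
import Pool.Agent.Lib.MP_8d00da_gt.h42k.KA4
import Pool.Agent.Lib.MP_8d00da_gt.h25.Ker
import Pool.Agent.Lib.MP_8d00da_gt.h62a.Words

section

/-!
# Integration by parts
-/

namespace Pool.Agent.Lib.MP_8d00da_gt.h42k

open MeasureTheory Set Filter
open scoped Topology NNReal ENNReal ContDiff

set_option linter.unusedSectionVars false
set_option linter.unusedVariables false

variable {ι : Type*} [Fintype ι] [DecidableEq ι]

variable {κ M : ℝ} {V : (ι → ℝ) → ℝ}

variable {f g φ : (ι → ℝ) → ℝ}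

private theorem KA5_expd (H : Nice κ M V) (x : ι → ℝ) (i : ι) :
    fderiv ℝ (fun x => Real.exp (-V x)) x (Pi.single i 1) = -(pd i V x * Real.exp (-V x)) := by
  have h1 : HasFDerivAt V (fderiv ℝ V x) x :=
    ((H.c2.differentiable (by norm_num)) x).hasFDerivAt
  have h2 := h1.neg.exp
  have h3 : fderiv ℝ (fun x => Real.exp (-V x)) x = Real.exp (-V x) • -fderiv ℝ V x := h2.fderiv
  rw [h3]
  unfold pd
  simp
  ring

/-- `E ∂_i f = E f ∂_i V`: `∫ ∂_i (f exp(-V)) = 0` (`integral_fderiv_eq_zero`-type lemma for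
integrable functions with integrable derivative, or cut-off). -/
theorem ibp (H : Nice κ M V) (hf : T1 f) (i : ι) :
    ex V (pd i f) = ex V (fun x => f x * pd i V x) := by
  have hI1 : Integrable fun x => pd i f x * Real.exp (-V x) := H.int (hf.pdt0 i)
  have hI2 : Integrable fun x => (f x * pd i V x) * Real.exp (-V x) :=
    H.int (hf.t0.mul (H.t1.pdt0 i))
  have hI3 : Integrable fun x => f x * Real.exp (-V x) := H.int hf.t0
  have key := integral_mul_fderiv_eq_neg_fderiv_mul_of_integrable (μ := volume) (f := f)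
    (g := fun x => Real.exp (-V x)) (v := Pi.single i (1 : ℝ)) hI1
    (by
      have h : (fun x => f x * fderiv ℝ (fun x => Real.exp (-V x)) x (Pi.single i 1)) =
          fun x => -((f x * pd i V x) * Real.exp (-V x)) := by
        funext x
        rw [KA5_expd H]
        ring
      rw [h]
      exact hI2.neg) hI3
    (fun x _ => (hf.c1.differentiable (by norm_num)) x)
    (fun x _ => (((H.c2.differentiable (by norm_num)) x).hasFDerivAt.neg.exp).differentiableAt)
  have h : (fun x => f x * fderiv ℝ (fun x => Real.exp (-V x)) x (Pi.single i 1)) =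
      fun x => -((f x * pd i V x) * Real.exp (-V x)) := by
    funext x
    rw [KA5_expd H]
    ring
  rw [h, integral_neg, neg_inj] at key
  unfold ex
  rw [key]
  rfl

theorem ibp_mul (H : Nice κ M V) (hf : T1 f) (hg : T1 g) (i : ι) :
    ex V (fun x => f x * pd i g x) =
      ex V (fun x => f x * g x * pd i V x) - ex V (fun x => pd i f x * g x) := by
  have h1 := ibp H (hf.mul hg) i
  have h2 : pd i (fun x => f x * g x) = fun x => pd i f x * g x + f x * pd i g x :=
    funext fun x => pd_mul (hf.c1.differentiable (by norm_num))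
      (hg.c1.differentiable (by norm_num)) i x
  rw [h2, ex_add H ((hf.pdt0 i).mul hg.t0) (hf.t0.mul (hg.pdt0 i))] at h1
  linarith

/-- `E f Lφ = E ∇f·∇φ`. -/
theorem ibp_LL (H : Nice κ M V) (hf : T1 f) (hφ : Cc φ) :
    ex V (fun x => f x * LL V φ x) = ex V (fun x => ∑ i, pd i f x * pd i φ x) := by
  have h1 : (fun x => f x * LL V φ x) =
      fun x => ∑ i, (f x * pd i φ x * pd i V x - f x * pd i (pd i φ) x) := by
    funext x
    unfold LL
    rw [Finset.mul_sum]
    refine Finset.sum_congr rfl fun i _ => ?_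
    ring
  have hp : ∀ i, T1 (pd i φ) := fun i => (hφ.pdc i).t1
  have ha : ∀ i, T0 (fun x => f x * pd i φ x * pd i V x) := fun i =>
    (hf.t0.mul (hp i).t0).mul (H.t1.pdt0 i)
  have hb : ∀ i, T0 (fun x => f x * pd i (pd i φ) x) := fun i => hf.t0.mul ((hp i).pdt0 i)
  rw [h1, ex_sum H Finset.univ fun i _ => (ha i).sub (hb i),
    ex_sum H Finset.univ fun i _ => (hf.pdt0 i).mul (hp i).t0]
  refine Finset.sum_congr rfl fun i _ => ?_
  rw [ex_sub H (ha i) (hb i)]
  have h2 := ibp_mul H hf (hp i) i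
  linarith

theorem ex_LL (H : Nice κ M V) (hφ : Cc φ) : ex V (LL V φ) = 0 := by
  have h1 := ibp_LL H (T1.const (1 : ℝ)) hφ
  have h2 : (fun x => (1 : ℝ) * LL V φ x) = LL V φ := by
    funext x
    rw [one_mul]
  have h3 : (fun x => ∑ i, pd i (fun _ : ι → ℝ => (1 : ℝ)) x * pd i φ x) = fun _ => 0 := by
    funext x
    refine Finset.sum_eq_zero fun i _ => ?_
    rw [pd_const, zero_mul]
  rw [h2, h3, ex_const H] at h1
  exact h1

end Pool.Agent.Lib.MP_8d00da_gt.h42k
end

section

/-!
# Variances and covariances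
-/

namespace Pool.Agent.Lib.MP_8d00da_gt.h42k

open MeasureTheory Set Filter
open scoped Topology NNReal ENNReal ContDiff

set_option linter.unusedSectionVars false
set_option linter.unusedVariables false

variable {ι : Type*} [Fintype ι] [DecidableEq ι]

variable {κ M : ℝ} {V : (ι → ℝ) → ℝ}

variable {f g h : (ι → ℝ) → ℝ}

theorem cov_comm (V f g : (ι → ℝ) → ℝ) : cov V f g = cov V g f := by
  unfold cov
  rw [mul_comm (ex V f)]
  congr 2
  funext x
  exact mul_comm _ _

theorem cov_eq (H : Nice κ M V) (hf : T0 f) (hg : T0 g) :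
    cov V f g = ex V (fun x => (f x - ex V f) * (g x - ex V g)) := by
  have h1 : (fun x => (f x - ex V f) * (g x - ex V g)) =
      fun x => (f x * g x - ex V g * f x) - (ex V f * g x - ex V f * ex V g) := by
    funext x; ring
  have t1 : T0 (fun x => ex V g * f x) := hf.cmul _
  have t2 : T0 (fun x => ex V f * g x) := hg.cmul _
  rw [h1, ex_sub H ((hf.mul hg).sub t1) (t2.sub (T0.const _)), ex_sub H (hf.mul hg) t1,
    ex_sub H t2 (T0.const _), ex_cmul, ex_cmul, ex_const H]
  unfold cov
  ring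

theorem cov_eq_left (H : Nice κ M V) (hf : T0 f) (hg : T0 g) :
    cov V f g = ex V (fun x => (f x - ex V f) * g x) := by
  have h1 : (fun x => (f x - ex V f) * g x) = fun x => f x * g x - ex V f * g x := by
    funext x; ring
  rw [h1, ex_sub H (hf.mul hg) (hg.cmul _), ex_cmul]
  rfl

theorem cov_add (H : Nice κ M V) (hf : T0 f) (hg : T0 g) (hh : T0 h) :
    cov V (fun x => f x + g x) h = cov V f h + cov V g h := by
  unfold cov
  have h1 : (fun x => (f x + g x) * h x) = fun x => f x * h x + g x * h x := by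
    funext x; ring
  rw [h1, ex_add H (hf.mul hh) (hg.mul hh), ex_add H hf hg]
  ring

theorem cov_sub (H : Nice κ M V) (hf : T0 f) (hg : T0 g) (hh : T0 h) :
    cov V (fun x => f x - g x) h = cov V f h - cov V g h := by
  unfold cov
  have h1 : (fun x => (f x - g x) * h x) = fun x => f x * h x - g x * h x := by
    funext x; ring
  rw [h1, ex_sub H (hf.mul hh) (hg.mul hh), ex_sub H hf hg]
  ring

theorem cov_cmul (V f g : (ι → ℝ) → ℝ) (c : ℝ) : cov V (fun x => c * f x) g = c * cov V f g := by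
  unfold cov
  have h1 : (fun x => c * f x * g x) = fun x => c * (f x * g x) := by
    funext x; ring
  rw [h1, ex_cmul, ex_cmul]
  ring

theorem cov_neg (V f g : (ι → ℝ) → ℝ) : cov V (fun x => - f x) g = - cov V f g := by
  unfold cov
  have h1 : (fun x => - f x * g x) = fun x => - (f x * g x) := by
    funext x; ring
  rw [h1, ex_neg, ex_neg]
  ring

theorem cov_const (H : Nice κ M V) (hg : T0 g) (c : ℝ) : cov V (fun _ => c) g = 0 := by
  unfold cov
  rw [ex_cmul, ex_const H]
  ring

theorem cov_addc (H : Nice κ M V) (hf : T0 f) (hg : T0 g) (c : ℝ) :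
    cov V (fun x => f x + c) g = cov V f g := by
  rw [cov_add H hf (T0.const c) hg, cov_const H hg, add_zero]

theorem cov_sum (H : Nice κ M V) {α : Type*} (S : Finset α) {F : α → (ι → ℝ) → ℝ}
    (hF : ∀ a ∈ S, T0 (F a)) (hg : T0 g) :
    cov V (fun x => ∑ a ∈ S, F a x) g = ∑ a ∈ S, cov V (F a) g := by
  unfold cov
  have h1 : (fun x => (∑ a ∈ S, F a x) * g x) = fun x => ∑ a ∈ S, F a x * g x := by
    funext x; exact Finset.sum_mul _ _ _
  rw [h1, ex_sum H S (F := fun a x => F a x * g x) (fun a ha => (hF a ha).mul hg),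
    ex_sum H S hF, Finset.sum_mul, ← Finset.sum_sub_distrib]

theorem cov_cs (H : Nice κ M V) (hf : T0 f) (hg : T0 g) : cov V f g ^ 2 ≤ var V f * var V g := by
  have t1 : T0 (fun x => f x - ex V f) := hf.sub (T0.const _)
  have t2 : T0 (fun x => g x - ex V g) := hg.sub (T0.const _)
  have h1 := ex_cs H t1 t2
  rw [← cov_eq H hf hg] at h1
  have h2 : ex V (fun x => (f x - ex V f) ^ 2) = var V f := by
    unfold var
    rw [cov_eq H hf hf]
    congr 1
    funext x; ring
  have h3 : ex V (fun x => (g x - ex V g) ^ 2) = var V g := by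
    unfold var
    rw [cov_eq H hg hg]
    congr 1
    funext x; ring
  rwa [h2, h3] at h1

theorem var_nonneg (H : Nice κ M V) (hf : T0 f) : 0 ≤ var V f := by
  unfold var
  rw [cov_eq H hf hf]
  exact ex_nonneg V fun x => mul_self_nonneg _

theorem var_eq (H : Nice κ M V) (hf : T0 f) :
    var V f = ex V (fun x => (f x - ex V f) ^ 2) := by
  unfold var
  rw [cov_eq H hf hf]
  congr 1
  funext x; ring

theorem var_eq' (V f : (ι → ℝ) → ℝ) : var V f = ex V (fun x => f x ^ 2) - ex V f ^ 2 := by
  unfold var cov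
  rw [pow_two (ex V f)]
  congr 2
  funext x; ring

theorem var_le (H : Nice κ M V) (hf : T0 f) (c : ℝ) : var V f ≤ ex V (fun x => (f x - c) ^ 2) := by
  have h1 : (fun x => (f x - c) ^ 2) = fun x => (f x ^ 2 - 2 * c * f x) + c ^ 2 := by
    funext x; ring
  have t1 : T0 (fun x => 2 * c * f x) := hf.cmul _
  rw [h1, ex_add H ((hf.pow 2).sub t1) (T0.const _), ex_sub H (hf.pow 2) t1, ex_cmul,
    ex_const H, var_eq']
  nlinarith [sq_nonneg (ex V f - c)]

theorem var_cmul (V f : (ι → ℝ) → ℝ) (c : ℝ) : var V (fun x => c * f x) = c ^ 2 * var V f := by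
  unfold var
  rw [cov_cmul, cov_comm, cov_cmul]
  ring

theorem var_addc (H : Nice κ M V) (hf : T0 f) (c : ℝ) : var V (fun x => f x + c) = var V f := by
  unfold var
  rw [cov_addc H hf (hf.add (T0.const c)), cov_comm, cov_addc H hf hf]

theorem var_add (H : Nice κ M V) (hf : T0 f) (hg : T0 g) :
    var V (fun x => f x + g x) = var V f + 2 * cov V f g + var V g := by
  unfold var
  rw [cov_add H hf hg (hf.add hg), cov_comm V f (fun x => f x + g x),
    cov_comm V g (fun x => f x + g x), cov_add H hf hg hf, cov_add H hf hg hg, cov_comm V g f]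
  ring

theorem var_add_le (H : Nice κ M V) (hf : T0 f) (hg : T0 g) :
    var V (fun x => f x + g x) ≤ 2 * var V f + 2 * var V g := by
  have h1 := var_nonneg H (hf.sub hg)
  have h2 : var V (fun x => f x - g x) = var V f - 2 * cov V f g + var V g := by
    unfold var
    rw [cov_sub H hf hg (hf.sub hg), cov_comm V f (fun x => f x - g x),
      cov_comm V g (fun x => f x - g x), cov_sub H hf hg hf, cov_sub H hf hg hg, cov_comm V g f]
    ring
  rw [var_add H hf hg]
  linarith

/-- Triangle inequality for standard deviations. -/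
theorem sd_add_le (H : Nice κ M V) (hf : T0 f) (hg : T0 g) :
    √(var V (fun x => f x + g x)) ≤ √(var V f) + √(var V g) := by
  have h1 := var_nonneg H hf
  have h2 := var_nonneg H hg
  have h3 := cov_cs H hf hg
  rw [Real.sqrt_le_left (by positivity)]
  rw [var_add H hf hg, add_sq, Real.sq_sqrt h1, Real.sq_sqrt h2]
  have h4 : cov V f g ≤ √(var V f) * √(var V g) := by
    rw [← Real.sqrt_mul h1]
    exact Real.le_sqrt_of_sq_le h3
  linarith

theorem sd_sum_le (H : Nice κ M V) {α : Type*} (S : Finset α) {F : α → (ι → ℝ) → ℝ}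
    (hF : ∀ a ∈ S, T0 (F a)) : √(var V (fun x => ∑ a ∈ S, F a x)) ≤ ∑ a ∈ S, √(var V (F a)) := by
  classical
  induction S using Finset.induction_on with
  | empty =>
    simp only [Finset.sum_empty]
    have h1 : var V (fun _ : ι → ℝ => (0 : ℝ)) = 0 := by
      unfold var cov
      simp [ex]
    rw [h1, Real.sqrt_zero]
  | insert a S ha ih =>
    have h1 : (fun x => ∑ b ∈ insert a S, F b x) = fun x => F a x + ∑ b ∈ S, F b x := by
      funext x; exact Finset.sum_insert ha
    rw [h1, Finset.sum_insert ha]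
    have hS : ∀ b ∈ S, T0 (F b) := fun b hb => hF b (Finset.mem_insert_of_mem hb)
    have h2 := sd_add_le H (hF a (Finset.mem_insert_self a S)) (T0.sum S hS)
    exact h2.trans (by linarith [ih hS])

/-- `var (∑ over S) ≤ |S| ∑ var`. -/
theorem var_sum_le (H : Nice κ M V) {α : Type*} (S : Finset α) {F : α → (ι → ℝ) → ℝ}
    (hF : ∀ a ∈ S, T0 (F a)) :
    var V (fun x => ∑ a ∈ S, F a x) ≤ S.card * ∑ a ∈ S, var V (F a) := by
  have h0 : 0 ≤ ∑ a ∈ S, √(var V (F a)) := Finset.sum_nonneg fun a _ => Real.sqrt_nonneg _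
  have h1 := sd_sum_le H S hF
  rw [Real.sqrt_le_left h0] at h1
  refine h1.trans ?_
  refine (sq_sum_le_card_mul_sum_sq).trans (le_of_eq ?_)
  congr 1
  exact Finset.sum_congr rfl fun a ha => Real.sq_sqrt (var_nonneg H (hF a ha))

theorem var_dt (H : Nice κ M V) (θ : ι → ℝ) :
    var V (fun x => dt θ x) = ∑ i, ∑ j, θ i * θ j * CM V i j := by
  unfold var dt
  have ht : ∀ i ∈ Finset.univ, T0 (fun x : ι → ℝ => θ i * x i) :=
    fun i _ => (T0.coord i).cmul (θ i)
  rw [cov_sum H Finset.univ (F := fun i x => θ i * x i) ht (T0.sum Finset.univ ht)]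
  refine Finset.sum_congr rfl fun i _ => ?_
  rw [cov_comm, cov_sum H Finset.univ (F := fun j x => θ j * x j) ht ((T0.coord i).cmul (θ i))]
  refine Finset.sum_congr rfl fun j _ => ?_
  rw [cov_cmul, cov_comm, cov_cmul]
  unfold CM
  rw [Matrix.of_apply]
  ring

theorem CM_symm (V : (ι → ℝ) → ℝ) (i j : ι) : CM V i j = CM V j i := by
  unfold CM
  rw [Matrix.of_apply, Matrix.of_apply, cov_comm]

theorem CM_diag (V : (ι → ℝ) → ℝ) (i : ι) : CM V i i = var V (fun x => x i) := by
  unfold CM var
  rw [Matrix.of_apply]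

theorem CLe.mono {a b : ℝ} (h : CLe V a) (hab : a ≤ b) : CLe V b := by
  intro θ
  exact (h θ).trans (mul_le_mul_of_nonneg_right hab (sq_nn θ))

/-- `∑_i cov(f, x_i)² ≤ a var f` if `Cov(V) ≤ a`: apply `cov_cs` to `θ·x`, `θ_i = cov(f, x_i)`. -/
theorem CLe.cov_sq (H : Nice κ M V) {a : ℝ} (ha : CLe V a) (hf : T0 f) :
    ∑ i, cov V f (fun x => x i) ^ 2 ≤ a * var V f := by
  set θ : ι → ℝ := fun i => cov V f (fun x => x i) with hθ
  have hsq : ∑ i, cov V f (fun x => x i) ^ 2 = sq θ := rfl
  have hv := var_nonneg H hf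
  rw [hsq]
  have hcov : cov V f (fun x => dt θ x) = sq θ := by
    rw [cov_comm]
    unfold dt
    rw [cov_sum H Finset.univ (F := fun i x => θ i * x i)
      (fun i _ => (T0.coord i).cmul (θ i)) hf]
    unfold sq
    refine Finset.sum_congr rfl fun i _ => ?_
    rw [cov_cmul, cov_comm, pow_two]
  have h1 := cov_cs H hf (T0.dtf θ)
  change cov V f (fun x => dt θ x) ^ 2 ≤ var V f * var V (fun x => dt θ x) at h1
  rw [hcov] at h1
  have h2 := ha θ
  rcases isEmpty_or_nonempty ι with hι | hι
  · have e1 : sq θ = 0 := by unfold sq; simp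
    have e2 : var V f = 0 := by
      have e3 : f = fun _ => f 0 := by
        funext x
        rw [Subsingleton.elim x 0]
      rw [e3]
      unfold var
      exact cov_const H (T0.const _) _
    rw [e1, e2, mul_zero]
  · obtain ⟨i⟩ := hι
    have h3 := ha (Pi.single i 1)
    rw [sq_single] at h3
    have h4 := var_nonneg H (T0.dtf (Pi.single i 1 : ι → ℝ))
    change 0 ≤ var V (fun x => dt (Pi.single i 1) x) at h4
    have ha0 : 0 ≤ a := by linarith
    rcases (sq_nn θ).eq_or_lt with h5 | h5
    · rw [← h5]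
      positivity
    · have h6 : sq θ ^ 2 ≤ (a * var V f) * sq θ := by
        calc sq θ ^ 2 ≤ var V f * var V (fun x => dt θ x) := h1
          _ ≤ var V f * (a * sq θ) := mul_le_mul_of_nonneg_left h2 hv
          _ = (a * var V f) * sq θ := by ring
      rw [pow_two] at h6
      exact le_of_mul_le_mul_right h6 h5

end Pool.Agent.Lib.MP_8d00da_gt.h42k
end

section

/-!
# Conditional expectations for a Gaussian channel with a log-concave input
-/

namespace Pool.Agent.Lib.MP_8d00da_gt.h25

open MeasureTheory Set Filter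
open scoped Topology NNReal

variable {F : Type*} [NormedAddCommGroup F] [InnerProductSpace ℝ F]
    [FiniteDimensional ℝ F] [MeasurableSpace F] [BorelSpace F]

/-- A bounded log-concave weight (midpoint form). -/
structure Wt (h : F → ℝ) (B : ℝ) : Prop where
  meas : Measurable h
  nonneg : ∀ x, 0 ≤ h x
  bdd : ∀ x, h x ≤ B
  mid : ∀ x y, h x * h y ≤ h ((1 / 2 : ℝ) • (x + y)) ^ 2
  ne : ¬ (h =ᵐ[volume] 0)

/-- The conditional expectation. -/
noncomputable def AA (h : F → ℝ) (η : ℝ) (f : F → ℝ) (y : F) : ℝ :=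
  cv η (fun x => f x * h x) y / cv η h y

/-- The (unnormalised) conditional variance. -/
noncomputable def VV (h : F → ℝ) (η : ℝ) (f : F → ℝ) (y : F) : ℝ :=
  ∫ x, (f x - AA h η f y) ^ 2 * (h x * ker η (y - x))

namespace Wt

variable {h : F → ℝ} {B η A : ℝ} {f : F → ℝ} {L : ℝ≥0}

lemma abs_le (H : Wt h B) (x : F) : |h x| ≤ B := by
  rw [abs_of_nonneg (H.nonneg x)]; exact H.bdd x

lemma B_nonneg (H : Wt h B) : 0 ≤ B := (H.nonneg 0).trans (H.bdd 0)

lemma mul_bdd (H : Wt h B) {φ : F → ℝ} {M : ℝ} (hφ : ∀ x, |φ x| ≤ M) (x : F) :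
    |φ x * h x| ≤ M * B := by
  rw [abs_mul]
  exact mul_le_mul (hφ x) (H.abs_le x) (abs_nonneg _) ((abs_nonneg _).trans (hφ x))

lemma Z_pos (H : Wt h B) (hη : 0 < η) (y : F) : 0 < cv η h y := by
  have hi := cv_integrable hη H.meas H.abs_le y
  have h0 : 0 ≤ cv η h y := integral_nonneg fun x => mul_nonneg (H.nonneg x) (ker_pos _).le
  refine lt_of_le_of_ne h0 fun he => H.ne ?_
  have h1 := (integral_eq_zero_iff_of_nonneg
    (fun x => mul_nonneg (H.nonneg x) (ker_pos (η := η) (y - x)).le) hi).1 he.symm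
  filter_upwards [h1] with x hx
  have : h x * ker η (y - x) = 0 := hx
  exact (mul_eq_zero.1 this).resolve_right (ker_pos _).ne'

/-- Integrability against the tilted weight. -/
lemma tilt_integrable (H : Wt h B) (hη : 0 < η) {φ : F → ℝ} (hφ : Measurable φ) {M : ℝ}
    (hM : ∀ x, |φ x| ≤ M) (y : F) : Integrable fun x => φ x * (h x * ker η (y - x)) := by
  have := cv_integrable hη (hφ.mul H.meas) (H.mul_bdd hM) y
  refine this.congr (Eventually.of_forall fun x => ?_)
  simp only [Pi.mul_apply]; ring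

lemma tilt_eq (φ : F → ℝ) (y : F) :
    ∫ x, φ x * (h x * ker η (y - x)) = cv η (fun x => φ x * h x) y := by
  unfold cv
  refine integral_congr_ae (Eventually.of_forall fun x => ?_)
  simp only; ring

lemma AA_mul (H : Wt h B) (hη : 0 < η) (f : F → ℝ) (y : F) :
    AA h η f y * cv η h y = cv η (fun x => f x * h x) y :=
  div_mul_cancel₀ _ (H.Z_pos hη y).ne'

lemma AA_abs_le (H : Wt h B) (hη : 0 < η) (hf : Measurable f) (hA : ∀ x, |f x| ≤ A) (y : F) :
    |AA h η f y| ≤ A := by
  have hZ := H.Z_pos hη y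
  unfold AA
  rw [abs_div, abs_of_pos hZ, div_le_iff₀ hZ]
  have h1 : |cv η (fun x => f x * h x) y| ≤ ∫ x, A * (h x * ker η (y - x)) := by
    unfold cv
    rw [← Real.norm_eq_abs]
    have hi : Integrable fun x => A * (h x * ker η (y - x)) :=
      (cv_integrable hη H.meas H.abs_le y).const_mul A
    refine norm_integral_le_of_norm_le hi (Eventually.of_forall fun x => ?_)
    rw [Real.norm_eq_abs, abs_mul, abs_mul, abs_of_nonneg (H.nonneg x), abs_of_pos (ker_pos _),
      mul_assoc]
    exact mul_le_mul_of_nonneg_right (hA x) (mul_nonneg (H.nonneg x) (ker_pos _).le)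
  rw [integral_const_mul] at h1
  exact h1

lemma VV_nonneg (H : Wt h B) {y : F} : 0 ≤ VV h η f y :=
  integral_nonneg fun x => mul_nonneg (sq_nonneg _) (mul_nonneg (H.nonneg x) (ker_pos _).le)

lemma sq_bdd {φ : F → ℝ} {M : ℝ} (hφ : ∀ x, |φ x| ≤ M) (x : F) : |φ x ^ 2| ≤ M ^ 2 := by
  rw [abs_pow]
  exact pow_le_pow_left₀ (abs_nonneg _) (hφ x) 2

lemma sub_bdd {φ : F → ℝ} {M m : ℝ} (hφ : ∀ x, |φ x| ≤ M) (x : F) : |φ x - m| ≤ M + |m| :=
  (abs_sub _ _).trans (by linarith [hφ x])

/-- Expansion of a square around any constant. -/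
lemma expand (H : Wt h B) (hη : 0 < η) (hf : Measurable f) (hA : ∀ x, |f x| ≤ A) (y : F) (m : ℝ) :
    ∫ x, (f x - m) ^ 2 * (h x * ker η (y - x)) =
      VV h η f y + (AA h η f y - m) ^ 2 * cv η h y := by
  set a := AA h η f y with ha
  have i1 : Integrable fun x => (f x - a) ^ 2 * (h x * ker η (y - x)) :=
    H.tilt_integrable hη ((hf.sub_const a).pow_const 2) (sq_bdd (sub_bdd hA)) y
  have i2 : Integrable fun x => (f x - a) * (h x * ker η (y - x)) :=
    H.tilt_integrable hη (hf.sub_const a) (sub_bdd hA) y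
  have i3 : Integrable fun x => h x * ker η (y - x) := cv_integrable hη H.meas H.abs_le y
  have i4 : Integrable fun x => f x * (h x * ker η (y - x)) := H.tilt_integrable hη hf hA y
  have z : ∫ x, (f x - a) * (h x * ker η (y - x)) = 0 := by
    have e : (fun x => (f x - a) * (h x * ker η (y - x))) =
        fun x => f x * (h x * ker η (y - x)) - a * (h x * ker η (y - x)) := by ext x; ring
    rw [e, integral_sub i4 (i3.const_mul a), integral_const_mul, tilt_eq]
    have := H.AA_mul hη f y
    rw [← ha] at this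
    have h2 : ∫ x, h x * ker η (y - x) = cv η h y := rfl
    rw [h2, this, sub_self]
  have e : (fun x => (f x - m) ^ 2 * (h x * ker η (y - x))) =
      fun x => (f x - a) ^ 2 * (h x * ker η (y - x)) +
        (2 * (a - m)) * ((f x - a) * (h x * ker η (y - x))) +
        (a - m) ^ 2 * (h x * ker η (y - x)) := by ext x; ring
  have i12 : Integrable fun x => (f x - a) ^ 2 * (h x * ker η (y - x)) +
        (2 * (a - m)) * ((f x - a) * (h x * ker η (y - x))) := i1.add (i2.const_mul _)
  rw [e, integral_add i12 (i3.const_mul _), integral_add i1 (i2.const_mul _),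
    integral_const_mul, integral_const_mul, z]
  have h2 : ∫ x, h x * ker η (y - x) = cv η h y := rfl
  rw [h2, VV, ← ha]
  ring

lemma VV_eq (H : Wt h B) (hη : 0 < η) (hf : Measurable f) (hA : ∀ x, |f x| ≤ A) (y : F) :
    cv η (fun x => f x ^ 2 * h x) y = VV h η f y + AA h η f y ^ 2 * cv η h y := by
  have := H.expand hη hf hA y 0
  simp only [sub_zero] at this
  rw [← this, tilt_eq]

/-- Strong log-concavity of the tilted weight. -/
lemma tilt_mid (H : Wt h B) (hη : 0 < η) (y x x' : F) :
    (h x * ker η (y - x)) * (h x' * ker η (y - x')) * Real.exp ((1 / η) * ‖x - x'‖ ^ 2 / 4) ≤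
      (h ((1 / 2 : ℝ) • (x + x')) * ker η (y - (1 / 2 : ℝ) • (x + x'))) ^ 2 := by
  calc (h x * ker η (y - x)) * (h x' * ker η (y - x')) * Real.exp ((1 / η) * ‖x - x'‖ ^ 2 / 4)
      = (h x * h x') * (ker η (y - x) * ker η (y - x') *
          Real.exp ((1 / η) * ‖x - x'‖ ^ 2 / 4)) := by ring
    _ = (h x * h x') * ker η (y - (1 / 2 : ℝ) • (x + x')) ^ 2 := by rw [ker_mid hη]
    _ ≤ h ((1 / 2 : ℝ) • (x + x')) ^ 2 * ker η (y - (1 / 2 : ℝ) • (x + x')) ^ 2 :=
        mul_le_mul_of_nonneg_right (H.mid x x') (sq_nonneg _)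
    _ = _ := by ring

/-- Poincaré for the tilted weight. -/
lemma poin (H : Wt h B) (hη : 0 < η) (hf : LipschitzWith L f) (hA : ∀ x, |f x| ≤ A) (y : F) :
    VV h η f y ≤ η * cv η (fun x => ‖fderiv ℝ f x‖ ^ 2 * h x) y := by
  have key := h42.strong_poincare (κ := 1 / η) (by positivity)
    (ρ := fun x => h x * ker η (y - x))
    (fun x => mul_nonneg (H.nonneg x) (ker_pos _).le)
    (H.meas.mul (ker_cont.measurable.comp (measurable_const.sub measurable_id)))
    (cv_integrable hη H.meas H.abs_le y)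
    (fun x x' => H.tilt_mid hη y x x') hf hA (m := AA h η f y) (by
      rw [tilt_eq]; exact (H.AA_mul hη f y).symm)
  rw [← tilt_eq]
  calc VV h η f y ≤ (1 / (1 / η)) * ∫ x, ‖fderiv ℝ f x‖ ^ 2 * (h x * ker η (y - x)) := key
    _ = _ := by rw [one_div_one_div]

/-- truncation of a linear function -/
noncomputable def cl (θ : F) (M : ℝ) (x : F) : ℝ := max (-M) (min (inner ℝ x θ) M)

omit [FiniteDimensional ℝ F] [MeasurableSpace F] [BorelSpace F] in
lemma cl_lip (θ : F) (M : ℝ) : LipschitzWith ‖θ‖₊ (cl θ M) := by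
  have h1 : LipschitzWith ‖θ‖₊ fun x : F => inner ℝ x θ := by
    refine LipschitzWith.of_dist_le_mul fun x y => ?_
    rw [Real.dist_eq, ← inner_sub_left, dist_eq_norm]
    calc |inner ℝ (x - y) θ| ≤ ‖x - y‖ * ‖θ‖ := abs_real_inner_le_norm _ _
      _ = ‖θ‖ * ‖x - y‖ := mul_comm _ _
  exact ((h1.min_const M).const_max (-M))

omit [FiniteDimensional ℝ F] [MeasurableSpace F] [BorelSpace F] in
lemma cl_abs (θ : F) {M : ℝ} (hM : 0 ≤ M) (x : F) : |cl θ M x| ≤ M := by
  unfold cl
  rw [_root_.abs_le]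
  exact ⟨le_max_left _ _, max_le (by linarith) (min_le_right _ _)⟩

omit [FiniteDimensional ℝ F] [MeasurableSpace F] [BorelSpace F] in
lemma cl_abs_le (θ : F) {M : ℝ} (hM : 0 ≤ M) (x : F) : |cl θ M x| ≤ |inner ℝ x θ| := by
  unfold cl
  set t := inner ℝ x θ
  rcases le_total t 0 with ht | ht
  · rw [min_eq_left (ht.trans hM)]
    rw [_root_.abs_le, abs_of_nonpos ht]
    refine ⟨?_, ?_⟩
    · have := le_max_right (-M) t; linarith
    · exact max_le (by linarith) (by linarith)
  · have h0 : 0 ≤ min t M := le_min ht hM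
    rw [max_eq_right (by linarith), abs_of_nonneg h0, abs_of_nonneg ht]
    exact min_le_left _ _

/-- Covariance bound with linear functions. -/
lemma cov_lin (H : Wt h B) (hη : 0 < η) (hf : Measurable f) (hA : ∀ x, |f x| ≤ A) (y θ : F) :
    (∫ x, (f x - AA h η f y) * (inner ℝ (x - y) θ * (h x * ker η (y - x)))) ^ 2 ≤
      VV h η f y * (η * ‖θ‖ ^ 2 * cv η h y) := by
  set a := AA h η f y with ha
  have hZ := H.Z_pos hη y
  have i3 : Integrable fun x => h x * ker η (y - x) := cv_integrable hη H.meas H.abs_le y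
  have i4 : Integrable fun x => f x * (h x * ker η (y - x)) := H.tilt_integrable hη hf hA y
  have z : ∫ x, (f x - a) * (h x * ker η (y - x)) = 0 := by
    have e : (fun x => (f x - a) * (h x * ker η (y - x))) =
        fun x => f x * (h x * ker η (y - x)) - a * (h x * ker η (y - x)) := by ext x; ring
    rw [e, integral_sub i4 (i3.const_mul a), integral_const_mul, tilt_eq]
    have := H.AA_mul hη f y
    rw [← ha] at this
    have h2 : ∫ x, h x * ker η (y - x) = cv η h y := rfl
    rw [h2, this, sub_self]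
  have iA : Integrable fun x => (f x - a) ^ 2 * (h x * ker η (y - x)) :=
    H.tilt_integrable hη ((hf.sub_const a).pow_const 2) (sq_bdd (sub_bdd hA)) y
  have iz : Integrable fun x => (f x - a) * (h x * ker η (y - x)) :=
    H.tilt_integrable hη (hf.sub_const a) (sub_bdd hA) y
  -- bound for each truncation, written for the shifted linear function
  have bound : ∀ n : ℕ, (∫ x, (f x - a) * (cl θ n (x - y) * (h x * ker η (y - x)))) ^ 2 ≤
      VV h η f y * (η * ‖θ‖ ^ 2 * cv η h y) := by
    intro n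
    set l : F → ℝ := fun x => cl θ n (x - y) with hl
    have hlL : LipschitzWith ‖θ‖₊ l := by
      refine LipschitzWith.of_dist_le_mul fun x x' => ?_
      have := (cl_lip θ (n : ℝ)).dist_le_mul (x - y) (x' - y)
      rwa [dist_sub_right] at this
    have hlm : Measurable l := hlL.continuous.measurable
    have hlA : ∀ x, |l x| ≤ n := fun x => cl_abs θ (Nat.cast_nonneg n) _
    set m := AA h η l y with hm
    have il : Integrable fun x => (l x - m) ^ 2 * (h x * ker η (y - x)) :=
      H.tilt_integrable hη ((hlm.sub_const m).pow_const 2) (sq_bdd (sub_bdd hlA)) y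
    have ifl : Integrable fun x => ((f x - a) * (l x - m)) * (h x * ker η (y - x)) :=
      H.tilt_integrable hη ((hf.sub_const a).mul (hlm.sub_const m)) (M := (A + |a|) * (n + |m|))
        (fun x => by
          show |(f x - a) * (l x - m)| ≤ (A + |a|) * (n + |m|)
          rw [abs_mul]
          exact mul_le_mul (sub_bdd hA x) (sub_bdd hlA x) (abs_nonneg _)
            ((abs_nonneg _).trans (sub_bdd hA x))) y
    have e1 : ∫ x, (f x - a) * (l x * (h x * ker η (y - x))) =
        ∫ x, ((f x - a) * (l x - m)) * (h x * ker η (y - x)) := by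
      have e2 : (fun x => (f x - a) * (l x * (h x * ker η (y - x)))) =
          fun x => ((f x - a) * (l x - m)) * (h x * ker η (y - x)) +
            m * ((f x - a) * (h x * ker η (y - x))) := by ext x; ring
      rw [e2, integral_add ifl (iz.const_mul m), integral_const_mul, z]; ring
    rw [e1]
    -- Cauchy-Schwarz with weights
    have hs : ∀ x, 0 ≤ h x * ker η (y - x) := fun x => mul_nonneg (H.nonneg x) (ker_pos _).le
    set s : F → ℝ := fun x => Real.sqrt (h x * ker η (y - x)) with hsdef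
    have hss : ∀ x, s x ^ 2 = h x * ker η (y - x) := fun x => Real.sq_sqrt (hs x)
    have cs := cs_int (μ := volume) (a := fun x => (f x - a) * s x) (b := fun x => (l x - m) * s x)
      (by
        have : (fun x => ((f x - a) * s x) ^ 2) = fun x => (f x - a) ^ 2 * (h x * ker η (y - x)) := by
          ext x; rw [mul_pow, hss]
        rw [this]; exact iA)
      (by
        have : (fun x => ((l x - m) * s x) ^ 2) = fun x => (l x - m) ^ 2 * (h x * ker η (y - x)) := by
          ext x; rw [mul_pow, hss]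
        rw [this]; exact il)
      (by
        have : (fun x => ((f x - a) * s x) * ((l x - m) * s x)) =
            fun x => ((f x - a) * (l x - m)) * (h x * ker η (y - x)) := by
          ext x; rw [← hss x]; ring
        rw [this]; exact ifl)
    have e3 : ∀ x, ((f x - a) * s x) * ((l x - m) * s x) =
        ((f x - a) * (l x - m)) * (h x * ker η (y - x)) := fun x => by rw [← hss x]; ring
    have e4 : ∀ x, ((f x - a) * s x) ^ 2 = (f x - a) ^ 2 * (h x * ker η (y - x)) := fun x => by
      rw [mul_pow, hss]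
    have e5 : ∀ x, ((l x - m) * s x) ^ 2 = (l x - m) ^ 2 * (h x * ker η (y - x)) := fun x => by
      rw [mul_pow, hss]
    simp_rw [e3, e4, e5] at cs
    refine cs.trans ?_
    have h6 : ∫ x, (f x - a) ^ 2 * (h x * ker η (y - x)) = VV h η f y := rfl
    have h7 : ∫ x, (l x - m) ^ 2 * (h x * ker η (y - x)) = VV h η l y := rfl
    rw [h6, h7]
    refine mul_le_mul_of_nonneg_left ?_ H.VV_nonneg
    refine (H.poin hη hlL hlA y).trans ?_
    rw [mul_assoc]
    refine mul_le_mul_of_nonneg_left ?_ hη.le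
    unfold cv
    rw [← integral_const_mul]
    have hd : ∀ x, ‖fderiv ℝ l x‖ ≤ ‖θ‖ := fun x => norm_fderiv_le_of_lipschitz ℝ hlL
    have hdm : Measurable fun x => ‖fderiv ℝ l x‖ ^ 2 := (measurable_fderiv ℝ l).norm.pow_const 2
    refine integral_mono (cv_integrable hη (hdm.mul H.meas) (B := ‖θ‖ ^ 2 * B) (H.mul_bdd (fun x => by
      rw [abs_of_nonneg (by positivity)]
      exact pow_le_pow_left₀ (norm_nonneg _) (hd x) 2)) y) (i3.const_mul _) fun x => ?_
    simp only
    rw [mul_assoc]
    exact mul_le_mul_of_nonneg_right (pow_le_pow_left₀ (norm_nonneg _) (hd x) 2) (hs x)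
  -- limit
  have hlim : Tendsto (fun n : ℕ => ∫ x, (f x - a) * (cl θ n (x - y) * (h x * ker η (y - x)))) atTop
      (𝓝 (∫ x, (f x - a) * (inner ℝ (x - y) θ * (h x * ker η (y - x))))) := by
    have hdom : Integrable fun x => |((f x - a) * h x) * (inner ℝ (x - y) θ * ker η (y - x))| :=
      (inner_ker_integrable hη ((hf.sub_const a).mul H.meas) (H.mul_bdd (sub_bdd hA)) y θ).abs
    refine tendsto_integral_of_dominated_convergence _ (fun n => ?_) hdom (fun n => ?_) ?_
    · have hm1 : Measurable fun x => cl θ n (x - y) :=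
        ((cl_lip θ (n : ℝ)).continuous.comp (continuous_id.sub continuous_const)).measurable
      exact ((hf.sub_const a).mul (hm1.mul (H.meas.mul
        (ker_cont.measurable.comp (measurable_const.sub measurable_id))))).aestronglyMeasurable
    · refine Eventually.of_forall fun x => ?_
      rw [Real.norm_eq_abs]
      simp only [abs_mul]
      have h1 := cl_abs_le θ (Nat.cast_nonneg n) (x - y)
      have h2 : 0 ≤ |f x - a| * |h x| * |ker η (y - x)| := by positivity
      nlinarith [mul_le_mul_of_nonneg_right h1 h2]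
    · refine Eventually.of_forall fun x => ?_
      refine tendsto_const_nhds.congr' ?_
      obtain ⟨N, hN⟩ := exists_nat_ge |inner ℝ (x - y) θ|
      filter_upwards [eventually_ge_atTop N] with n hn
      have h1 : |inner ℝ (x - y) θ| ≤ n := hN.trans (by exact_mod_cast hn)
      have h2 := _root_.abs_le.1 h1
      have : cl θ n (x - y) = inner ℝ (x - y) θ := by
        unfold cl
        rw [min_eq_left h2.2, max_eq_right h2.1]
      rw [this]
  exact le_of_tendsto' (hlim.pow 2) bound

lemma AA_diff (H : Wt h B) (hη : 0 < η) (hf : Measurable f) (hA : ∀ x, |f x| ≤ A) :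
    Differentiable ℝ (AA h η f) := by
  intro y
  have hZ := H.Z_pos hη y
  have d1 := cv_differentiable hη (hf.mul H.meas) (H.mul_bdd hA) y
  have d2 := cv_differentiable hη H.meas H.abs_le y
  have hinv := (hasDerivAt_inv (𝕜 := ℝ) hZ.ne').comp_hasFDerivAt (𝕜 := ℝ) y d2.hasFDerivAt
  have h3 := d1.mul hinv.differentiableAt
  have e : AA h η f = (cv η (f * h)) * ((fun y => y⁻¹) ∘ cv η h) := by
    ext y'
    simp only [AA, div_eq_mul_inv, Pi.mul_apply, Function.comp_apply]
    rfl
  rw [e]
  exact h3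

/-- The derivative of the conditional expectation. -/
lemma AA_fderiv (H : Wt h B) (hη : 0 < η) (hf : Measurable f) (hA : ∀ x, |f x| ≤ A) (y θ : F) :
    fderiv ℝ (AA h η f) y θ * cv η h y =
      (1 / η) * ∫ x, (f x - AA h η f y) * (inner ℝ (x - y) θ * (h x * ker η (y - x))) := by
  have hZ := H.Z_pos hη y
  have hfh : Measurable fun x => f x * h x := hf.mul H.meas
  have hfB := H.mul_bdd hA
  have d1 := cv_differentiable hη hfh hfB y
  have d2 := cv_differentiable hη H.meas H.abs_le y
  have dA := H.AA_diff hη hf hA y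
  have hprod : AA h η f * cv η h = cv η fun x => f x * h x := by
    ext y'
    exact H.AA_mul hη f y'
  have hm := dA.hasFDerivAt.mul d2.hasFDerivAt
  rw [hprod] at hm
  have hu := congrArg (fun D : F →L[ℝ] ℝ => D θ) (hm.unique d1.hasFDerivAt)
  simp only [add_apply, smul_apply, smul_eq_mul] at hu
  rw [cv_fderiv hη hfh hfB, cv_fderiv hη H.meas H.abs_le] at hu
  set a := AA h η f y
  set Z := cv η h y
  have i1 := inner_ker_integrable hη hfh hfB y θ
  have i2 := inner_ker_integrable hη H.meas H.abs_le y θ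
  have e : (fun x => (f x - a) * (inner ℝ (x - y) θ * (h x * ker η (y - x)))) =
      fun x => f x * h x * (inner ℝ (x - y) θ * ker η (y - x)) -
        a * (h x * (inner ℝ (x - y) θ * ker η (y - x))) := by ext x; ring
  rw [e, integral_sub i1 (i2.const_mul a), integral_const_mul]
  linarith

/-- The gradient of the conditional expectation is controlled by the conditional variance. -/
lemma grad_AA (H : Wt h B) (hη : 0 < η) (hf : Measurable f) (hA : ∀ x, |f x| ≤ A) (y : F) :
    ‖fderiv ℝ (AA h η f) y‖ ^ 2 * cv η h y ≤ (1 / η) * VV h η f y := by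
  have hZ := H.Z_pos hη y
  have hV : 0 ≤ VV h η f y := H.VV_nonneg
  set D := fderiv ℝ (AA h η f) y with hD
  have key : ∀ θ : F, |D θ| ≤ Real.sqrt ((1 / η) * VV h η f y / cv η h y) * ‖θ‖ := by
    intro θ
    have h1 := H.AA_fderiv hη hf hA y θ
    have h2 := H.cov_lin hη hf hA y θ
    have h3 : (D θ * cv η h y) ^ 2 ≤ (1 / η) ^ 2 * (VV h η f y * (η * ‖θ‖ ^ 2 * cv η h y)) := by
      rw [hD, h1, mul_pow]
      exact mul_le_mul_of_nonneg_left h2 (by positivity)
    have h4 : D θ ^ 2 ≤ ((1 / η) * VV h η f y / cv η h y) * ‖θ‖ ^ 2 := by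
      have h5 : D θ ^ 2 * cv η h y ^ 2 ≤ (((1 / η) * VV h η f y / cv η h y) * ‖θ‖ ^ 2) *
          cv η h y ^ 2 := by
        calc D θ ^ 2 * cv η h y ^ 2 = (D θ * cv η h y) ^ 2 := by ring
          _ ≤ _ := h3
          _ = _ := by field_simp
      exact le_of_mul_le_mul_right h5 (by positivity)
    have h6 := Real.sqrt_le_sqrt h4
    rw [Real.sqrt_sq_eq_abs, Real.sqrt_mul (by positivity), Real.sqrt_sq (norm_nonneg _)] at h6
    exact h6
  have h7 : ‖D‖ ≤ Real.sqrt ((1 / η) * VV h η f y / cv η h y) :=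
    D.opNorm_le_bound (Real.sqrt_nonneg _) fun θ => by
      rw [Real.norm_eq_abs]; exact key θ
  have h8 : ‖D‖ ^ 2 ≤ (1 / η) * VV h η f y / cv η h y := by
    have := pow_le_pow_left₀ (norm_nonneg _) h7 2
    rwa [Real.sq_sqrt (by positivity)] at this
  rwa [le_div_iff₀ hZ] at h8

lemma VV_le (H : Wt h B) (hη : 0 < η) (hf : Measurable f) (hA : ∀ x, |f x| ≤ A) (y : F) :
    VV h η f y ≤ A ^ 2 * cv η h y := by
  have h1 := H.VV_eq hη hf hA y
  have h2 : cv η (fun x => f x ^ 2 * h x) y ≤ A ^ 2 * cv η h y := by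
    unfold cv
    rw [← integral_const_mul]
    refine integral_mono (cv_integrable hη ((hf.pow_const 2).mul H.meas) (H.mul_bdd (sq_bdd hA)) y)
      ((cv_integrable hη H.meas H.abs_le y).const_mul _) fun x => ?_
    simp only
    rw [mul_assoc]
    refine mul_le_mul_of_nonneg_right ?_ (mul_nonneg (H.nonneg x) (ker_pos _).le)
    rw [← sq_abs]
    exact pow_le_pow_left₀ (abs_nonneg _) (hA x) 2
  have h3 : 0 ≤ AA h η f y ^ 2 * cv η h y := mul_nonneg (sq_nonneg _) (H.Z_pos hη y).le
  linarith

lemma AA_norm_fderiv (H : Wt h B) (hη : 0 < η) (hf : Measurable f) (hA0 : 0 ≤ A)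
    (hA : ∀ x, |f x| ≤ A) (y : F) : ‖fderiv ℝ (AA h η f) y‖ ≤ A * Real.sqrt (1 / η) := by
  have hZ := H.Z_pos hη y
  refine le_of_sq_le_sq ?_ (by positivity)
  rw [mul_pow, Real.sq_sqrt (by positivity)]
  have h1 := H.grad_AA hη hf hA y
  have h2 := mul_le_mul_of_nonneg_left (H.VV_le hη hf hA y) (by positivity : 0 ≤ 1 / η)
  have h3 : ‖fderiv ℝ (AA h η f) y‖ ^ 2 * cv η h y ≤ (A ^ 2 * (1 / η)) * cv η h y := by linarith
  exact le_of_mul_le_mul_right h3 hZ
where
  le_of_sq_le_sq {a b : ℝ} (h : a ^ 2 ≤ b ^ 2) (hb : 0 ≤ b) : a ≤ b := by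
    by_contra hc
    push Not at hc
    nlinarith

lemma AA_lip (H : Wt h B) (hη : 0 < η) (hf : Measurable f) (hA0 : 0 ≤ A) (hA : ∀ x, |f x| ≤ A) :
    LipschitzWith (Real.toNNReal (A * Real.sqrt (1 / η))) (AA h η f) := by
  refine lipschitzWith_of_nnnorm_fderiv_le (fun y => H.AA_diff hη hf hA y) fun y => ?_
  rw [← NNReal.coe_le_coe, coe_nnnorm, Real.coe_toNNReal _ (by positivity)]
  exact H.AA_norm_fderiv hη hf hA0 hA y

end Wt

end Pool.Agent.Lib.MP_8d00da_gt.h25
end
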