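import Mathlib
import Pool.Agent.Lib.MP_8d00da_gt.h25.Op

/-!
# One round trip through the Gaussian channel
-/

namespace Pool.Agent.Lib.MP_8d00da_gt.h25

open MeasureTheory Set Filter
open scoped Topology NNReal

variable {F : Type*} [NormedAddCommGroup F] [InnerProductSpace ℝ F]
    [FiniteDimensional ℝ F] [MeasurableSpace F] [BorelSpace F]

variable {h : F → ℝ} {B η A : ℝ} {f g : F → ℝ} {L : ℝ≥0}

/-- The constant weight. -/
lemma wt_one : Wt (fun _ : F => (1 : ℝ)) 1 where
  meas := measurable_const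
  nonneg := fun _ => zero_le_one
  bdd := fun _ => le_rfl
  mid := fun _ _ => by norm_num
  ne := by
    intro h
    have h2 : ∀ᵐ x : F, False := by
      filter_upwards [h] with x hx
      simp at hx
    rw [ae_iff] at h2
    simp only [not_false_eq_true, setOf_true] at h2
    exact (Measure.measure_univ_ne_zero.2 (NeZero.ne _)) h2

/-- Gaussian smoothing. -/
noncomputable def SS (η : ℝ) (u : F → ℝ) : F → ℝ := AA (fun _ => 1) η u

lemma cv_one (x : F) : cv η (fun _ : F => (1 : ℝ)) x = ∫ z : F, ker η z := by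
  unfold cv
  simp only [one_mul]
  exact integral_sub_left_eq_self (fun z => ker η z) volume x

lemma SS_mul (hη : 0 < η) (u : F → ℝ) (x : F) : SS η u x * (∫ z : F, ker η z) = cv η u x := by
  have := wt_one.AA_mul hη u x
  rw [cv_one] at this
  simpa [SS] using this

/-- Fubini for the Gaussian channel. -/
lemma fub_prod (hη : 0 < η) {a u : F → ℝ} (ha : Integrable a) (ham : Measurable a)
    (hu : Measurable u) {M : ℝ} (hM : ∀ y, |u y| ≤ M) :
    Integrable (Function.uncurry fun (y x : F) => u y * (a x * ker η (y - x)))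
      ((volume : Measure F).prod (volume : Measure F)) := by
  have hk : Continuous fun p : F × F => ker η (p.1 - p.2) := ker_cont.comp (by fun_prop)
  have hm : Measurable (Function.uncurry fun (y x : F) => u y * (a x * ker η (y - x))) :=
    (hu.comp measurable_fst).mul ((ham.comp measurable_snd).mul hk.measurable)
  have hm2 : Measurable (Function.uncurry fun (y x : F) => a x * ker η (y - x)) :=
    (ham.comp measurable_snd).mul hk.measurable
  have i1 : Integrable (Function.uncurry fun (y x : F) => a x * ker η (y - x))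
      ((volume : Measure F).prod (volume : Measure F)) := by
    rw [integrable_prod_iff' hm2.aestronglyMeasurable]
    constructor
    · refine Eventually.of_forall fun x => ?_
      exact ((ker_integrable hη).comp_sub_right x).const_mul (a x)
    · have e : (fun x : F => ∫ y : F, ‖Function.uncurry (fun (y x : F) => a x * ker η (y - x)) (y, x)‖)
          = fun x => |a x| * ∫ z : F, ker η z := by
        ext x
        have : (fun y : F => ‖Function.uncurry (fun (y x : F) => a x * ker η (y - x)) (y, x)‖) =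
            fun y => |a x| * ker η (y - x) := by
          ext y
          simp only [Function.uncurry_apply_pair]
          rw [norm_mul, Real.norm_eq_abs, Real.norm_eq_abs, abs_of_pos (ker_pos (y - x))]
        rw [this, integral_const_mul, integral_sub_right_eq_self (fun z => ker η z) x]
      rw [e]
      exact ha.abs.mul_const _
  refine (i1.bdd_mul (c := M) (f := fun p : F × F => u p.1)
    (hu.comp measurable_fst).aestronglyMeasurable (Eventually.of_forall fun p => by
      rw [Real.norm_eq_abs]; exact hM _)).congr (Eventually.of_forall fun p => ?_)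
  rfl

lemma fub_int (hη : 0 < η) {a u : F → ℝ} (ha : Integrable a) (ham : Measurable a)
    (hu : Measurable u) {M : ℝ} (hM : ∀ y, |u y| ≤ M) :
    Integrable fun y => u y * cv η a y := by
  have h := (fub_prod hη ha ham hu hM).integral_prod_left
  simp only [Function.uncurry_apply_pair, integral_const_mul] at h
  exact h

lemma fub_int' (hη : 0 < η) {a u : F → ℝ} (ha : Integrable a) (ham : Measurable a)
    (hu : Measurable u) {M : ℝ} (hM : ∀ y, |u y| ≤ M) :
    Integrable fun x => a x * cv η u x := by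
  have h := (fub_prod hη ha ham hu hM).integral_prod_right
  refine h.congr (Eventually.of_forall fun x => ?_)
  simp only [Function.uncurry_apply_pair]
  unfold cv
  rw [← integral_const_mul]
  refine integral_congr_ae (Eventually.of_forall fun y => ?_)
  simp only
  rw [ker_comm y x]; ring

lemma fub_eq (hη : 0 < η) {a u : F → ℝ} (ha : Integrable a) (ham : Measurable a)
    (hu : Measurable u) {M : ℝ} (hM : ∀ y, |u y| ≤ M) :
    ∫ y, u y * cv η a y = ∫ x, a x * cv η u x := by
  have h := integral_integral_swap (fub_prod hη ha ham hu hM)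
  simp only [integral_const_mul] at h
  unfold cv
  rw [h]
  refine integral_congr_ae (Eventually.of_forall fun x => ?_)
  simp only
  rw [← integral_const_mul]
  refine integral_congr_ae (Eventually.of_forall fun y => ?_)
  simp only
  rw [ker_comm y x]; ring

lemma fub_one (hη : 0 < η) {a : F → ℝ} (ha : Integrable a) (ham : Measurable a) :
    ∫ y, cv η a y = (∫ z : F, ker η z) * ∫ x, a x := by
  have := fub_eq hη ha ham (u := fun _ => 1) measurable_const (M := 1) (by simp)
  simp only [one_mul, cv_one, integral_mul_const] at this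
  rw [this, mul_comm]

lemma fub_one_int (hη : 0 < η) {a : F → ℝ} (ha : Integrable a) (ham : Measurable a) :
    Integrable (cv η a) := by
  have := fub_int hη ha ham (u := fun _ => 1) measurable_const (M := 1) (by simp)
  simpa using this

/-- Differentiation commutes with smoothing. -/
lemma SS_fderiv (hη : 0 < η) (hg : LipschitzWith L g) (hA : ∀ x, |g x| ≤ A)
    (hd : Differentiable ℝ g) (x θ : F) :
    fderiv ℝ (SS η g) x θ = SS η (fun y => fderiv ℝ g y θ) x := by
  set c : ℝ := ∫ z : F, ker η z with hc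
  have hc0 : 0 < c := ker_int_pos hη
  have hgm : Measurable g := hg.continuous.measurable
  have hL : ∀ y, ‖fderiv ℝ g y‖ ≤ L := fun y => norm_fderiv_le_of_lipschitz ℝ hg
  have e1 : ∀ x, SS η g x * c = ∫ z : F, g (x - z) * ker η z := by
    intro x
    rw [hc, SS_mul hη]
    unfold cv
    have := integral_sub_left_eq_self (fun y => g y * ker η (x - y)) (volume : Measure F) x
    rw [← this]
    simp
  have hmd : Measurable fun y => fderiv ℝ g y := measurable_fderiv ℝ g
  have H : HasFDerivAt (fun x => ∫ z : F, g (x - z) * ker η z)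
      (∫ z : F, ker η z • fderiv ℝ g (x - z)) x := by
    refine hasFDerivAt_integral_of_dominated_of_fderiv_le
      (F' := fun x z => ker η z • fderiv ℝ g (x - z)) (bound := fun z => L * ker η z)
      (Metric.ball_mem_nhds x one_pos) ?_ ?_ ?_ ?_ ((ker_integrable hη).const_mul _) ?_
    · refine Eventually.of_forall fun y => ?_
      exact ((hgm.comp (measurable_const.sub measurable_id)).mul
        ker_cont.measurable).aestronglyMeasurable
    · exact (ker_integrable hη).bdd_mul (c := A)
        (hgm.comp (measurable_const.sub measurable_id)).aestronglyMeasurable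
        (Eventually.of_forall fun z => by rw [Real.norm_eq_abs]; exact hA _)
    · exact (ker_cont.measurable.aestronglyMeasurable).smul
        (hmd.comp (measurable_const.sub measurable_id)).aestronglyMeasurable
    · refine Eventually.of_forall fun z y _ => ?_
      rw [norm_smul, Real.norm_eq_abs, abs_of_pos (ker_pos z), mul_comm]
      exact mul_le_mul_of_nonneg_right (hL _) (ker_pos z).le
    · refine Eventually.of_forall fun z y _ => ?_
      have h1 : HasFDerivAt (fun y : F => g (y - z)) (fderiv ℝ g (y - z)) y := by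
        have := ((hd (y - z)).hasFDerivAt).comp y ((hasFDerivAt_id y).sub_const z)
        exact this.congr_fderiv (by ext w; rfl)
      exact h1.mul_const (ker η z)
  have hfun : (fun x => ∫ z : F, g (x - z) * ker η z) = fun x => SS η g x * c := by
    ext y; exact (e1 y).symm
  rw [hfun] at H
  have hSd : DifferentiableAt ℝ (SS η g) x := wt_one.AA_diff hη hgm hA x
  have h2 := (hSd.hasFDerivAt.mul_const c).unique H
  have h3 := congrArg (fun D : F →L[ℝ] ℝ => D θ) h2
  have hint : Integrable fun z : F => ker η z • fderiv ℝ g (x - z) := by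
    refine ((ker_integrable hη).const_mul (L : ℝ)).mono'
      ((ker_cont.measurable.aestronglyMeasurable).smul
        (hmd.comp (measurable_const.sub measurable_id)).aestronglyMeasurable) ?_
    refine Eventually.of_forall fun z => ?_
    rw [norm_smul, Real.norm_eq_abs, abs_of_pos (ker_pos z), mul_comm]
    exact mul_le_mul_of_nonneg_right (hL _) (ker_pos z).le
  simp only [smul_apply, smul_eq_mul, ContinuousLinearMap.integral_apply hint] at h3
  have h4 : SS η (fun y => fderiv ℝ g y θ) x * c = ∫ z : F, ker η z * fderiv ℝ g (x - z) θ := by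
    rw [hc, SS_mul hη]
    unfold cv
    have := integral_sub_left_eq_self (fun y => fderiv ℝ g y θ * ker η (x - y)) (volume : Measure F) x
    rw [← this]
    refine integral_congr_ae (Eventually.of_forall fun z => ?_)
    simp only [sub_sub_cancel]
    ring
  have h5 : fderiv ℝ (SS η g) x θ * c = SS η (fun y => fderiv ℝ g y θ) x * c := by
    rw [h4, ← h3]; ring
  exact mul_right_cancel₀ hc0.ne' h5

/-- Invariance of smoothing. -/
lemma cv_comp (φ : F → ℝ) (T : F ≃ₗᵢ[ℝ] F) (hT : ∀ x, φ (T x) = φ x) (y : F) :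
    cv η φ (T y) = cv η φ y := by
  unfold cv
  have h1 := T.measurePreserving.integral_comp T.toHomeomorph.measurableEmbedding
    (fun x => φ x * ker η (T y - x))
  rw [← h1]
  refine integral_congr_ae (Eventually.of_forall fun x => ?_)
  simp only
  rw [hT, ← map_sub]
  unfold ker
  rw [T.norm_map]

lemma AA_comp (T : F ≃ₗᵢ[ℝ] F) (hh : ∀ x, h (T x) = h x) (hf : ∀ x, f (T x) = f x) (y : F) :
    AA h η f (T y) = AA h η f y := by
  unfold AA
  rw [cv_comp _ T (fun x => by rw [hh, hf]), cv_comp _ T hh]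

lemma norm_sq_fderiv {ι : Type*} [Fintype ι] (b : OrthonormalBasis ι ℝ F) (D : F →L[ℝ] ℝ) :
    ‖D‖ ^ 2 = ∑ i, (D (b i)) ^ 2 := by
  set v := (InnerProductSpace.toDual ℝ F).symm D with hv
  have h1 : ‖D‖ = ‖v‖ := ((InnerProductSpace.toDual ℝ F).symm.norm_map D).symm
  have h2 : ∀ w, D w = inner ℝ v w := fun w => by
    rw [hv, InnerProductSpace.toDual_symm_apply]
  rw [h1, ← b.sum_sq_norm_inner_right v]
  refine Finset.sum_congr rfl fun i _ => ?_
  rw [h2, real_inner_comm, Real.norm_eq_abs, sq_abs]

/-- The abstract second order inequality: `|∇f|² ≤ C |D²f|²` on the support of `h` for invariant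
functions. -/
def HessIneq {ι : Type*} [Fintype ι] (b : OrthonormalBasis ι ℝ F) (G : Set (F ≃ₗᵢ[ℝ] F))
    (h : F → ℝ) (C : ℝ) : Prop :=
  ∀ f : F → ℝ, Differentiable ℝ f → (∀ i, Differentiable ℝ fun x => fderiv ℝ f x (b i)) →
    (∀ T ∈ G, ∀ x, f (T x) = f x) → ∀ x, h x ≠ 0 →
      ‖fderiv ℝ f x‖ ^ 2 ≤ C * ∑ i, ‖fderiv ℝ (fun y => fderiv ℝ f y (b i)) x‖ ^ 2

/-- The energy. -/
noncomputable def En (h f : F → ℝ) : ℝ := ∫ x, ‖fderiv ℝ f x‖ ^ 2 * h x

lemma En_nonneg (H : Wt h B) : 0 ≤ En h f :=
  integral_nonneg fun x => mul_nonneg (sq_nonneg _) (H.nonneg x)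

lemma sq_fderiv_bdd (hf : LipschitzWith L f) (x : F) : |‖fderiv ℝ f x‖ ^ 2| ≤ (L : ℝ) ^ 2 := by
  rw [abs_of_nonneg (sq_nonneg _)]
  exact pow_le_pow_left₀ (norm_nonneg _) (norm_fderiv_le_of_lipschitz ℝ hf) 2

lemma bdd_int (hi : Integrable h) {φ : F → ℝ} (hφ : Measurable φ) {M : ℝ}
    (hM : ∀ x, |φ x| ≤ M) : Integrable fun x => φ x * h x :=
  hi.bdd_mul hφ.aestronglyMeasurable (Eventually.of_forall fun x => by
    rw [Real.norm_eq_abs]; exact hM x)

/-- The round trip. -/
noncomputable def RT (h : F → ℝ) (η : ℝ) (f : F → ℝ) : F → ℝ := SS η (AA h η f)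

section main

variable (H : Wt h B) (hi : Integrable h) (hη : 0 < η) (hf : LipschitzWith L f)
  (hA : ∀ x, |f x| ≤ A)

include H hη hf hA in
lemma VV_cont : Continuous (VV h η f) := by
  have hfm : Measurable f := hf.continuous.measurable
  have e : VV h η f = fun y => cv η (fun x => f x ^ 2 * h x) y - AA h η f y ^ 2 * cv η h y := by
    ext y; rw [H.VV_eq hη hfm hA y]; ring
  rw [e]
  have c1 := cv_cont hη ((hfm.pow_const 2).mul H.meas) (B := A ^ 2 * B)
    (H.mul_bdd (Wt.sq_bdd hA))
  have c2 := (H.AA_diff hη hfm hA).continuous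
  have c3 := cv_cont hη H.meas H.abs_le
  exact c1.sub ((c2.pow 2).mul c3)

include H hi hη hf hA in
lemma VV_int : Integrable (VV h η f) := by
  have hfm : Measurable f := hf.continuous.measurable
  have i1 : Integrable (cv η fun x => f x ^ 2 * h x) :=
    fub_one_int hη (bdd_int hi (hfm.pow_const 2) (Wt.sq_bdd hA)) ((hfm.pow_const 2).mul H.meas)
  refine i1.mono' (VV_cont H hη hf hA).aestronglyMeasurable (Eventually.of_forall fun y => ?_)
  rw [Real.norm_eq_abs, abs_of_nonneg H.VV_nonneg, H.VV_eq hη hfm hA y]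
  have : 0 ≤ AA h η f y ^ 2 * cv η h y := mul_nonneg (sq_nonneg _) (H.Z_pos hη y).le
  linarith

include H hi hη hf hA in
/-- Step (c): the first conditional variance. -/
lemma step_c : ∫ y, VV h η f y ≤ η * ((∫ z : F, ker η z) * En h f) := by
  have hdm : Measurable fun x => ‖fderiv ℝ f x‖ ^ 2 := (measurable_fderiv ℝ f).norm.pow_const 2
  have ig : Integrable fun x => ‖fderiv ℝ f x‖ ^ 2 * h x := bdd_int hi hdm (sq_fderiv_bdd hf)
  have i1 : Integrable (cv η fun x => ‖fderiv ℝ f x‖ ^ 2 * h x) :=
    fub_one_int hη ig (hdm.mul H.meas)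
  unfold En
  rw [← fub_one hη ig (hdm.mul H.meas), ← integral_const_mul]
  exact integral_mono (VV_int H hi hη hf hA) (i1.const_mul _) fun y => H.poin hη hf hA y

include H hi hη hf hA in
/-- Step (a). -/
lemma step_a : (∫ z : F, ker η z) * ∫ x, f x ^ 2 * h x =
    (∫ y, VV h η f y) + ∫ y, AA h η f y ^ 2 * cv η h y := by
  have hfm : Measurable f := hf.continuous.measurable
  have ig : Integrable fun x => f x ^ 2 * h x := bdd_int hi (hfm.pow_const 2) (Wt.sq_bdd hA)
  have hAm : Measurable (AA h η f) := (H.AA_diff hη hfm hA).continuous.measurable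
  have i2 : Integrable fun y => AA h η f y ^ 2 * cv η h y :=
    fub_int hη hi H.meas (hAm.pow_const 2) (Wt.sq_bdd (H.AA_abs_le hη hfm hA))
  rw [← fub_one hη ig ((hfm.pow_const 2).mul H.meas), ← integral_add (VV_int H hi hη hf hA) i2]
  refine integral_congr_ae (Eventually.of_forall fun y => ?_)
  exact H.VV_eq hη hfm hA y

include H hi hη hf hA in
/-- Energy of the conditional expectation. -/
lemma step_e : ∫ y, ‖fderiv ℝ (AA h η f) y‖ ^ 2 * cv η h y ≤ (1 / η) * ∫ y, VV h η f y := by
  have hfm : Measurable f := hf.continuous.measurable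
  have hA0 : 0 ≤ A := (abs_nonneg _).trans (hA 0)
  have hgL := H.AA_lip hη hfm hA0 hA
  have hdm : Measurable fun x => ‖fderiv ℝ (AA h η f) x‖ ^ 2 :=
    (measurable_fderiv ℝ _).norm.pow_const 2
  rw [← integral_const_mul]
  exact integral_mono (fub_int hη hi H.meas hdm (sq_fderiv_bdd hgL))
    ((VV_int H hi hη hf hA).const_mul _) fun y => H.grad_AA hη hfm hA y

include H hi hη hf hA in
lemma step_e' : ∫ y, ‖fderiv ℝ (AA h η f) y‖ ^ 2 * cv η h y ≤ (∫ z : F, ker η z) * En h f := by
  refine (step_e H hi hη hf hA).trans ?_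
  have := mul_le_mul_of_nonneg_left (step_c H hi hη hf hA) (by positivity : 0 ≤ 1 / η)
  refine this.trans (le_of_eq ?_)
  field_simp

include H hi hη hf hA in
/-- Step (b)+(d). -/
lemma step_b : ∫ y, AA h η f y ^ 2 * cv η h y ≤
    η * ((∫ z : F, ker η z) * En h f) + (∫ z : F, ker η z) * ∫ x, RT h η f x ^ 2 * h x := by
  have hfm : Measurable f := hf.continuous.measurable
  have hA0 : 0 ≤ A := (abs_nonneg _).trans (hA 0)
  set g := AA h η f with hg
  have hgL := H.AA_lip hη hfm hA0 hA
  have hgA : ∀ y, |g y| ≤ A := H.AA_abs_le hη hfm hA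
  have hgm : Measurable g := hgL.continuous.measurable
  set c : ℝ := ∫ z : F, ker η z with hc
  have hdm : Measurable fun x => ‖fderiv ℝ g x‖ ^ 2 := (measurable_fderiv ℝ _).norm.pow_const 2
  rw [fub_eq hη hi H.meas (hgm.pow_const 2) (Wt.sq_bdd hgA)]
  have hSA : ∀ x, |SS η g x| ≤ A := wt_one.AA_abs_le hη hgm hgA
  have hSm : Measurable (SS η g) := (wt_one.AA_diff hη hgm hgA).continuous.measurable
  have pt : ∀ x, cv η (fun y => g y ^ 2) x ≤ η * cv η (fun y => ‖fderiv ℝ g y‖ ^ 2) x +
      c * SS η g x ^ 2 := by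
    intro x
    have h1 := wt_one.VV_eq hη hgm hgA x
    have h2 := wt_one.poin hη hgL hgA x
    simp only [mul_one] at h1 h2
    rw [cv_one, ← hc] at h1
    rw [h1]
    have h3 : AA (fun _ => 1) η g x = SS η g x := rfl
    rw [h3]
    linarith
  have i1 : Integrable fun x => h x * cv η (fun y => g y ^ 2) x :=
    fub_int' hη hi H.meas (hgm.pow_const 2) (Wt.sq_bdd hgA)
  have i2 : Integrable fun x => h x * cv η (fun y => ‖fderiv ℝ g y‖ ^ 2) x :=
    fub_int' hη hi H.meas hdm (sq_fderiv_bdd hgL)
  have i3 : Integrable fun x => SS η g x ^ 2 * h x := bdd_int hi (hSm.pow_const 2) (Wt.sq_bdd hSA)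
  have h4 : ∫ x, h x * cv η (fun y => g y ^ 2) x ≤
      ∫ x, (η * (h x * cv η (fun y => ‖fderiv ℝ g y‖ ^ 2) x) + c * (SS η g x ^ 2 * h x)) := by
    refine integral_mono i1 ((i2.const_mul _).add (i3.const_mul _)) fun x => ?_
    have := mul_le_mul_of_nonneg_left (pt x) (H.nonneg x)
    simp only
    linarith
  rw [integral_add (i2.const_mul _) (i3.const_mul _), integral_const_mul, integral_const_mul,
    ← fub_eq hη hi H.meas hdm (sq_fderiv_bdd hgL)] at h4
  have h5 := mul_le_mul_of_nonneg_left (step_e' H hi hη hf hA) hη.le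
  have h6 : RT h η f = SS η g := rfl
  rw [h6]
  linarith

include H hi hη hf hA in
/-- The variance part of the round trip. -/
lemma round_var : ∫ x, f x ^ 2 * h x ≤ 2 * η * En h f + ∫ x, RT h η f x ^ 2 * h x := by
  have hc0 : 0 < ∫ z : F, ker η z := ker_int_pos hη
  have h1 := step_a H hi hη hf hA
  have h2 := step_b H hi hη hf hA
  have h3 := step_c H hi hη hf hA
  refine le_of_mul_le_mul_left (a := ∫ z : F, ker η z) ?_ hc0
  rw [h1]
  linarith

include H hi hη hf hA in
/-- The mean is preserved. -/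
lemma round_mean : ∫ x, RT h η f x * h x = ∫ x, f x * h x := by
  have hfm : Measurable f := hf.continuous.measurable
  have hc0 : 0 < ∫ z : F, ker η z := ker_int_pos hη
  set g := AA h η f with hg
  have hgA : ∀ y, |g y| ≤ A := H.AA_abs_le hη hfm hA
  have hgm : Measurable g := (H.AA_diff hη hfm hA).continuous.measurable
  have h1 : ∫ y, g y * cv η h y = ∫ x, h x * cv η g x := fub_eq hη hi H.meas hgm hgA
  have h2 : ∫ y, g y * cv η h y = (∫ z : F, ker η z) * ∫ x, f x * h x := by
    rw [← fub_one hη (bdd_int hi hfm hA) (hfm.mul H.meas)]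
    exact integral_congr_ae (Eventually.of_forall fun y => H.AA_mul hη f y)
  have h3 : ∫ x, h x * cv η g x = (∫ z : F, ker η z) * ∫ x, RT h η f x * h x := by
    rw [← integral_const_mul]
    refine integral_congr_ae (Eventually.of_forall fun x => ?_)
    simp only
    rw [← SS_mul hη g x]
    show h x * (SS η g x * _) = _ * (SS η g x * h x)
    ring
  refine mul_left_cancel₀ hc0.ne' ?_
  rw [← h3, ← h1, h2]

include H hη hf hA in
lemma RT_props : (∀ x, |RT h η f x| ≤ A) ∧ ∃ L' : ℝ≥0, LipschitzWith L' (RT h η f) := by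
  have hfm : Measurable f := hf.continuous.measurable
  have hA0 : 0 ≤ A := (abs_nonneg _).trans (hA 0)
  have hgA : ∀ y, |AA h η f y| ≤ A := H.AA_abs_le hη hfm hA
  have hgm : Measurable (AA h η f) := (H.AA_diff hη hfm hA).continuous.measurable
  exact ⟨wt_one.AA_abs_le hη hgm hgA, _, wt_one.AA_lip hη hgm hA0 hgA⟩

include H hi hη hf hA in
/-- The energy part of the round trip. -/
lemma round_energy {ι : Type*} [Fintype ι] (b : OrthonormalBasis ι ℝ F)
    {G : Set (F ≃ₗᵢ[ℝ] F)} {C : ℝ} (hC : 0 ≤ C) (hN : HessIneq b G h C)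
    (hGh : ∀ T ∈ G, ∀ x, h (T x) = h x) (hGf : ∀ T ∈ G, ∀ x, f (T x) = f x) :
    En h (RT h η f) ≤ (C / (η + C)) * En h f := by
  have hfm : Measurable f := hf.continuous.measurable
  have hA0 : 0 ≤ A := (abs_nonneg _).trans (hA 0)
  set g := AA h η f with hg
  have hgL := H.AA_lip hη hfm hA0 hA
  have hgA : ∀ y, |g y| ≤ A := H.AA_abs_le hη hfm hA
  have hgd : Differentiable ℝ g := H.AA_diff hη hfm hA
  have hgm : Measurable g := hgL.continuous.measurable
  set c : ℝ := ∫ z : F, ker η z with hc
  have hc0 : 0 < c := ker_int_pos hη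
  set f1 := RT h η f with hf1
  have hf1d : Differentiable ℝ f1 := wt_one.AA_diff hη hgm hgA
  set L' : ℝ≥0 := Real.toNNReal (A * Real.sqrt (1 / η)) with hL'
  set u : ι → F → ℝ := fun i y => fderiv ℝ g y (b i) with hu
  have hum : ∀ i, Measurable (u i) := fun i => measurable_fderiv_apply_const ℝ g (b i)
  have huL : ∀ i y, |u i y| ≤ L' := by
    intro i y
    have h1 := (fderiv ℝ g y).le_opNorm (b i)
    rw [b.orthonormal.1 i, mul_one, Real.norm_eq_abs] at h1
    exact h1.trans (norm_fderiv_le_of_lipschitz ℝ hgL)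
  have hfi : ∀ i, (fun x => fderiv ℝ f1 x (b i)) = SS η (u i) := by
    intro i; ext x
    exact SS_fderiv hη hgL hgA hgd x (b i)
  have hfid : ∀ i, Differentiable ℝ fun x => fderiv ℝ f1 x (b i) := by
    intro i
    rw [hfi i]
    exact wt_one.AA_diff hη (hum i) (huL i)
  have hinv : ∀ T ∈ G, ∀ x, f1 (T x) = f1 x := by
    intro T hT x
    exact AA_comp T (fun _ => rfl) (fun y => AA_comp T (hGh T hT) (hGf T hT) y) x
  -- the pointwise identity for the energy
  have hsum : ∀ x, cv η (fun y => ‖fderiv ℝ g y‖ ^ 2) x =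
      ∑ i, VV (fun _ => 1) η (u i) x + c * ‖fderiv ℝ f1 x‖ ^ 2 := by
    intro x
    have e1 : (fun y => ‖fderiv ℝ g y‖ ^ 2) = fun y => ∑ i, u i y ^ 2 := by
      ext y; exact norm_sq_fderiv b _
    have e2 : cv η (fun y => ∑ i, u i y ^ 2) x = ∑ i, cv η (fun y => u i y ^ 2) x := by
      unfold cv
      rw [← integral_finset_sum]
      · refine integral_congr_ae (Eventually.of_forall fun y => ?_)
        simp only
        rw [Finset.sum_mul]
      · intro i _
        exact cv_integrable hη ((hum i).pow_const 2) (Wt.sq_bdd (huL i)) x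
    rw [e1, e2, norm_sq_fderiv b, Finset.mul_sum, ← Finset.sum_add_distrib]
    refine Finset.sum_congr rfl fun i _ => ?_
    have h1 := wt_one.VV_eq hη (hum i) (huL i) x
    simp only [mul_one] at h1
    rw [cv_one, ← hc] at h1
    rw [h1]
    have h2 : fderiv ℝ f1 x (b i) = SS η (u i) x := congrFun (hfi i) x
    rw [h2]
    show _ + SS η (u i) x ^ 2 * c = _
    ring
  have hpt : ∀ x, (1 + C / η) * (c * (‖fderiv ℝ f1 x‖ ^ 2 * h x)) ≤
      (C / η) * (h x * cv η (fun y => ‖fderiv ℝ g y‖ ^ 2) x) := by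
    intro x
    by_cases hx : h x = 0
    · rw [hx]; simp
    have h1 := hN f1 hf1d hfid hinv x hx
    have h2 : ∀ i, ‖fderiv ℝ (fun y => fderiv ℝ f1 y (b i)) x‖ ^ 2 * c ≤
        (1 / η) * VV (fun _ => 1) η (u i) x := by
      intro i
      rw [hfi i]
      have := wt_one.grad_AA hη (hum i) (huL i) x
      rw [cv_one, ← hc] at this
      exact this
    have h3 : c * ‖fderiv ℝ f1 x‖ ^ 2 ≤ (C / η) * ∑ i, VV (fun _ => 1) η (u i) x := by
      calc c * ‖fderiv ℝ f1 x‖ ^ 2
          ≤ c * (C * ∑ i, ‖fderiv ℝ (fun y => fderiv ℝ f1 y (b i)) x‖ ^ 2) :=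
            mul_le_mul_of_nonneg_left h1 hc0.le
        _ = C * ∑ i, ‖fderiv ℝ (fun y => fderiv ℝ f1 y (b i)) x‖ ^ 2 * c := by
            rw [← Finset.sum_mul]; ring
        _ ≤ C * ∑ i, (1 / η) * VV (fun _ => 1) η (u i) x :=
            mul_le_mul_of_nonneg_left (Finset.sum_le_sum fun i _ => h2 i) hC
        _ = _ := by rw [← Finset.mul_sum]; ring
    rw [hsum x]
    have h4 := mul_le_mul_of_nonneg_right h3 (H.nonneg x)
    nlinarith [h4]
  have hdm : Measurable fun x => ‖fderiv ℝ g x‖ ^ 2 := (measurable_fderiv ℝ _).norm.pow_const 2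
  have hdm1 : Measurable fun x => ‖fderiv ℝ f1 x‖ ^ 2 := (measurable_fderiv ℝ _).norm.pow_const 2
  have hf1L : LipschitzWith L' f1 := wt_one.AA_lip hη hgm hA0 hgA
  have i1 : Integrable fun x => ‖fderiv ℝ f1 x‖ ^ 2 * h x := bdd_int hi hdm1 (sq_fderiv_bdd hf1L)
  have i2 : Integrable fun x => h x * cv η (fun y => ‖fderiv ℝ g y‖ ^ 2) x :=
    fub_int' hη hi H.meas hdm (sq_fderiv_bdd hgL)
  have h5 := integral_mono ((i1.const_mul c).const_mul (1 + C / η)) (i2.const_mul (C / η)) hpt
  rw [integral_const_mul, integral_const_mul, integral_const_mul,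
    ← fub_eq hη hi H.meas hdm (sq_fderiv_bdd hgL)] at h5
  have h6 : (C / η) * (∫ y, ‖fderiv ℝ g y‖ ^ 2 * cv η h y) ≤ (C / η) * (c * En h f) :=
    mul_le_mul_of_nonneg_left (step_e' H hi hη hf hA) (by positivity)
  have h7 : (1 + C / η) * (c * En h f1) ≤ (C / η) * (c * En h f) := h5.trans h6
  have h8 : (η + C) * En h f1 ≤ C * En h f := by
    have h9 : (c / η) * ((η + C) * En h f1) ≤ (c / η) * (C * En h f) := by
      calc (c / η) * ((η + C) * En h f1) = (1 + C / η) * (c * En h f1) := by field_simp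
        _ ≤ (C / η) * (c * En h f) := h7
        _ = (c / η) * (C * En h f) := by ring
    exact le_of_mul_le_mul_left h9 (by positivity)
  rw [div_mul_eq_mul_div, le_div_iff₀ (by positivity), mul_comm]
  exact h8

end main

end Pool.Agent.Lib.MP_8d00da_gt.h25
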