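import Mathlib
import Pool.Agent.Lib.MP_8d00da_gt.h25.Chain
import Pool.Agent.Lib.MP_8d00da_gt.h25.Ker

section

/-!
# Rotations acting on the right on `p × q` matrices
-/

namespace Pool.Agent.Lib.MP_8d00da_gt.h25

open MeasureTheory Set Filter Matrix
open scoped Topology NNReal

variable {p q : ℕ}

/-- The space of `p × q` matrices with the Frobenius norm. -/
abbrev E (p q : ℕ) := EuclideanSpace ℝ (Fin p × Fin q)

/-- Right multiplication by a matrix. -/
noncomputable def rm (M : Matrix (Fin q) (Fin q) ℝ) (x : E p q) : E p q :=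
  WithLp.toLp 2 fun a => ∑ l, x (a.1, l) * M l a.2

lemma rm_apply (M : Matrix (Fin q) (Fin q) ℝ) (x : E p q) (k : Fin p) (j : Fin q) :
    rm M x (k, j) = ∑ l, x (k, l) * M l j := rfl

lemma rm_add (M : Matrix (Fin q) (Fin q) ℝ) (x y : E p q) : rm M (x + y) = rm M x + rm M y := by
  ext ⟨k, j⟩
  simp only [rm_apply, PiLp.add_apply, add_mul, Finset.sum_add_distrib]

lemma rm_smul (M : Matrix (Fin q) (Fin q) ℝ) (c : ℝ) (x : E p q) : rm M (c • x) = c • rm M x := by
  ext ⟨k, j⟩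
  simp only [rm_apply, PiLp.smul_apply, smul_eq_mul, Finset.mul_sum, mul_assoc]

lemma rm_mul (M N : Matrix (Fin q) (Fin q) ℝ) (x : E p q) : rm N (rm M x) = rm (M * N) x := by
  ext ⟨k, j⟩
  simp only [rm_apply, Matrix.mul_apply, Finset.sum_mul, Finset.mul_sum]
  rw [Finset.sum_comm]
  refine Finset.sum_congr rfl fun i _ => Finset.sum_congr rfl fun l _ => by ring

lemma rm_one (x : E p q) : rm (1 : Matrix (Fin q) (Fin q) ℝ) x = x := by
  ext ⟨k, j⟩
  simp [rm_apply, Matrix.one_apply]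

lemma rm_norm {O : Matrix (Fin q) (Fin q) ℝ} (hO : O * Oᵀ = 1) (x : E p q) : ‖rm O x‖ = ‖x‖ := by
  have key : ‖rm O x‖ ^ 2 = ‖x‖ ^ 2 := by
    rw [EuclideanSpace.norm_sq_eq, EuclideanSpace.norm_sq_eq, Fintype.sum_prod_type,
      Fintype.sum_prod_type]
    refine Finset.sum_congr rfl fun k _ => ?_
    simp only [Real.norm_eq_abs, sq_abs]
    set v : Fin q → ℝ := fun l => x (k, l) with hv
    have h1 : ∀ j, rm O x (k, j) = (v ᵥ* O) j := fun j => rfl
    have h2 : ∑ j, rm O x (k, j) ^ 2 = (v ᵥ* O) ⬝ᵥ (v ᵥ* O) := by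
      simp only [h1, dotProduct]
      exact Finset.sum_congr rfl fun j _ => by ring
    have h3 : ∑ j, x (k, j) ^ 2 = v ⬝ᵥ v := by
      simp only [dotProduct, hv]
      exact Finset.sum_congr rfl fun j _ => by ring
    rw [h2, h3, ← Matrix.dotProduct_mulVec, ← Matrix.vecMul_transpose, Matrix.vecMul_vecMul,
      hO, Matrix.vecMul_one]
  exact (sq_eq_sq₀ (norm_nonneg _) (norm_nonneg _)).1 key

/-- Right multiplication by an orthogonal matrix as an isometry. -/
noncomputable def rme (O : Matrix (Fin q) (Fin q) ℝ) (hO : O * Oᵀ = 1) : E p q ≃ₗᵢ[ℝ] E p q :=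
  { toFun := rm O
    invFun := rm Oᵀ
    map_add' := rm_add O
    map_smul' := rm_smul O
    left_inv := fun x => by rw [rm_mul, hO, rm_one]
    right_inv := fun x => by rw [rm_mul, mul_eq_one_comm.1 hO, rm_one]
    norm_map' := fun x => rm_norm hO x }

lemma rme_apply (O : Matrix (Fin q) (Fin q) ℝ) (hO : O * Oᵀ = 1) (x : E p q) :
    rme O hO x = rm O x := rfl

/-- The projection on a coordinate plane. -/
def pr (a b : Fin q) : Matrix (Fin q) (Fin q) ℝ := single a a 1 + single b b 1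

/-- The generator of rotations. -/
def gen (a b : Fin q) : Matrix (Fin q) (Fin q) ℝ := single a b 1 - single b a 1

/-- Plane rotations. -/
noncomputable def gv (a b : Fin q) (t : ℝ) : Matrix (Fin q) (Fin q) ℝ :=
  1 + (Real.cos t - 1) • pr a b + Real.sin t • gen a b

lemma pr_sq {a b : Fin q} (h : a ≠ b) : pr a b * pr a b = pr a b := by
  unfold pr
  simp [add_mul, mul_add, single_mul_single_of_ne, h, h.symm]

lemma gen_sq {a b : Fin q} (h : a ≠ b) : gen a b * gen a b = -pr a b := by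
  unfold pr gen
  simp [sub_mul, mul_sub, single_mul_single_of_ne, h, h.symm]
  abel

lemma pr_gen {a b : Fin q} (h : a ≠ b) : pr a b * gen a b = gen a b := by
  unfold pr gen
  simp [add_mul, mul_sub, single_mul_single_of_ne, h, h.symm]

lemma gen_pr {a b : Fin q} (h : a ≠ b) : gen a b * pr a b = gen a b := by
  unfold pr gen
  simp [sub_mul, mul_add, single_mul_single_of_ne, h, h.symm]
  abel

lemma pr_t (a b : Fin q) : (pr a b)ᵀ = pr a b := by
  unfold pr; simp

lemma gen_t (a b : Fin q) : (gen a b)ᵀ = -gen a b := by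
  unfold gen; simp

lemma gv_orth {a b : Fin q} (h : a ≠ b) (t : ℝ) : gv a b t * (gv a b t)ᵀ = 1 := by
  unfold gv
  rw [transpose_add, transpose_add, transpose_one, transpose_smul, transpose_smul, pr_t, gen_t]
  set P := pr a b
  set A := gen a b
  set c := Real.cos t
  set s := Real.sin t
  have e : (1 + (c - 1) • P + s • A) * (1 + (c - 1) • P + s • -A) =
      1 + (2 * (c - 1)) • P + ((c - 1) * (c - 1)) • (P * P) - (s * s) • (A * A)
        - ((c - 1) * s) • (P * A) + (s * (c - 1)) • (A * P) := by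
    simp only [add_mul, mul_add, one_mul, mul_one, smul_mul_assoc, mul_smul_comm, smul_neg,
      mul_neg, smul_smul]
    module
  rw [e, pr_sq h, gen_sq h, pr_gen h, gen_pr h]
  have h1 : s * s = 1 - c * c := by
    have := Real.sin_sq_add_cos_sq t
    nlinarith
  rw [h1]
  module

lemma gv_zero (a b : Fin q) : gv a b 0 = 1 := by
  unfold gv; simp

/-- The plane rotations acting on the right. -/
def GO (p q : ℕ) : Set (E p q ≃ₗᵢ[ℝ] E p q) := {T | ∃ (a b : Fin q) (hab : a ≠ b) (t : ℝ),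
  T = rme (gv a b t) (gv_orth hab t)}

lemma rm_gen_apply (a b : Fin q) (x : E p q) (k : Fin p) (j : Fin q) :
    rm (gen a b) x (k, j) = (if j = b then x (k, a) else 0) - (if j = a then x (k, b) else 0) := by
  rw [rm_apply]
  simp only [gen, Matrix.sub_apply, Matrix.single_apply, mul_sub, Finset.sum_sub_distrib]
  congr 1
  · by_cases h : j = b
    · subst h; simp
    · simp [h, Ne.symm h]
  · by_cases h : j = a
    · subst h; simp
    · simp [h, Ne.symm h]

/-- Coordinate derivatives. -/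
noncomputable def dc (f : E p q → ℝ) (i : Fin p × Fin q) (x : E p q) : ℝ :=
  fderiv ℝ f x (EuclideanSpace.basisFun (Fin p × Fin q) ℝ i)

lemma clm_expand (D : E p q →L[ℝ] ℝ) (v : E p q) :
    D v = ∑ i, v i * D (EuclideanSpace.basisFun (Fin p × Fin q) ℝ i) := by
  have h := (EuclideanSpace.basisFun (Fin p × Fin q) ℝ).sum_repr v
  conv_lhs => rw [← h]
  rw [map_sum]
  refine Finset.sum_congr rfl fun i _ => ?_
  rw [map_smul, smul_eq_mul]
  rfl

/-- Derivative in the direction of the infinitesimal rotation. -/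
lemma fderiv_gen (f : E p q → ℝ) (a b : Fin q) (x : E p q) :
    fderiv ℝ f x (rm (gen a b) x) = ∑ k, (x (k, a) * dc f (k, b) x - x (k, b) * dc f (k, a) x) := by
  rw [clm_expand, Fintype.sum_prod_type]
  refine Finset.sum_congr rfl fun k _ => ?_
  simp only [rm_gen_apply, sub_mul, Finset.sum_sub_distrib, ite_mul, zero_mul,
    Finset.sum_ite_eq', Finset.mem_univ, if_true, dc]

/-- Derivative of the rotation. -/
lemma hasDerivAt_gv (a b : Fin q) (x : E p q) :
    HasDerivAt (fun t => rm (gv a b t) x) (rm (gen a b) x) 0 := by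
  have e : ∀ t, rm (gv a b t) x = x + (Real.cos t - 1) • rm (pr a b) x +
      Real.sin t • rm (gen a b) x := by
    intro t
    ext ⟨k, j⟩
    simp only [rm_apply, gv, Matrix.add_apply, Matrix.smul_apply, smul_eq_mul, mul_add,
      Finset.sum_add_distrib, PiLp.add_apply, PiLp.smul_apply, Finset.mul_sum]
    congr 1
    · congr 1
      · simp [Matrix.one_apply]
      · exact Finset.sum_congr rfl fun l _ => by ring
    · exact Finset.sum_congr rfl fun l _ => by ring
  have h1 : HasDerivAt (fun t => x + (Real.cos t - 1) • rm (pr a b) x +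
      Real.sin t • rm (gen a b) x) (-Real.sin 0 • rm (pr a b) x + Real.cos 0 • rm (gen a b) x) 0 := by
    have c1 := ((Real.hasDerivAt_cos 0).sub_const 1).smul_const (rm (pr a b) x)
    have c2 := (Real.hasDerivAt_sin 0).smul_const (rm (gen a b) x)
    exact (c1.const_add x).add c2
  simp only [e]
  simpa using h1

/-- Invariance under plane rotations, infinitesimally. -/
lemma fderiv_gen_zero {f : E p q → ℝ} (hd : Differentiable ℝ f)
    (hinv : ∀ T ∈ GO p q, ∀ x, f (T x) = f x) (a b : Fin q) (x : E p q) :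
    fderiv ℝ f x (rm (gen a b) x) = 0 := by
  rcases eq_or_ne a b with rfl | hab
  · have : rm (gen a a) x = 0 := by
      ext ⟨k, j⟩
      rw [rm_gen_apply]; simp
    rw [this, map_zero]
  · have h1 : (fun t => f (rm (gv a b t) x)) = fun _ => f x := by
      ext t
      exact hinv (rme (gv a b t) (gv_orth hab t)) ⟨a, b, hab, t, rfl⟩ x
    have h0 : rm (gv a b 0) x = x := by rw [gv_zero, rm_one]
    have h2 : HasDerivAt (fun t => f (rm (gv a b t) x)) (fderiv ℝ f x (rm (gen a b) x)) 0 := by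
      have h3 : HasFDerivAt f (fderiv ℝ f x) (rm (gv a b 0) x) := by
        rw [h0]; exact (hd x).hasFDerivAt
      exact h3.comp_hasDerivAt 0 (hasDerivAt_gv a b x)
    rw [h1] at h2
    exact h2.unique (hasDerivAt_const _ _)

/-- The operator norm hypothesis on `xᵀ`. -/
def OpLe (R : ℝ) (x : E p q) : Prop :=
  ∀ v : Fin p → ℝ, ∑ a, (∑ k, x (k, a) * v k) ^ 2 ≤ R ^ 2 * ∑ k, v k ^ 2

/-- The second order identity differentiated. -/
lemma second_id {f : E p q → ℝ} (hd : Differentiable ℝ f) (hd2 : ∀ i, Differentiable ℝ (dc f i))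
    (hinv : ∀ T ∈ GO p q, ∀ x, f (T x) = f x) (a b : Fin q) (x : E p q) (i : Fin p × Fin q) :
    (if i.2 = a then dc f (i.1, b) x else 0) - (if i.2 = b then dc f (i.1, a) x else 0) +
      ∑ k, (x (k, a) * dc (dc f (k, b)) i x - x (k, b) * dc (dc f (k, a)) i x) = 0 := by
  set e : E p q := EuclideanSpace.basisFun (Fin p × Fin q) ℝ i with he
  set Φ : E p q → ℝ := fun x => ∑ k, (x (k, a) * dc f (k, b) x - x (k, b) * dc f (k, a) x) with hΦ
  have h0 : Φ = fun _ => 0 := by
    ext y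
    rw [hΦ]; simp only
    rw [← fderiv_gen f a b y]
    exact fderiv_gen_zero hd hinv a b y
  have hc : HasDerivAt (fun t : ℝ => x + t • e) e 0 := by
    have := ((hasDerivAt_id (0 : ℝ)).smul_const e).const_add x
    simpa using this
  have hx0 : x + (0 : ℝ) • e = x := by simp
  have hco : ∀ j : Fin p × Fin q, HasDerivAt (fun t : ℝ => (x + t • e) j) (e j) 0 := by
    intro j
    have h1 : HasFDerivAt (fun y : E p q => y j)
      (EuclideanSpace.proj j : E p q →L[ℝ] ℝ) (x + (0 : ℝ) • e) :=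
      (EuclideanSpace.proj j : E p q →L[ℝ] ℝ).hasFDerivAt
    exact h1.comp_hasDerivAt 0 hc
  have hw : ∀ j : Fin p × Fin q, HasDerivAt (fun t : ℝ => dc f j (x + t • e))
      (dc (dc f j) i x) 0 := by
    intro j
    have h1 : HasFDerivAt (dc f j) (fderiv ℝ (dc f j) x) (x + (0 : ℝ) • e) := by
      rw [hx0]; exact (hd2 j x).hasFDerivAt
    exact h1.comp_hasDerivAt 0 hc
  have hsum : HasDerivAt (fun t : ℝ => Φ (x + t • e))
      (∑ k, ((e (k, a) * dc f (k, b) (x + (0 : ℝ) • e) +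
        (x + (0 : ℝ) • e) (k, a) * dc (dc f (k, b)) i x) -
        (e (k, b) * dc f (k, a) (x + (0 : ℝ) • e) +
        (x + (0 : ℝ) • e) (k, b) * dc (dc f (k, a)) i x))) 0 := by
    exact HasDerivAt.fun_sum fun k _ =>
      ((hco (k, a)).mul (hw (k, b))).sub ((hco (k, b)).mul (hw (k, a)))
  rw [h0] at hsum
  have h2 := hsum.unique (hasDerivAt_const 0 (0 : ℝ))
  rw [hx0] at h2
  have he1 : ∀ j, e j = if j = i then 1 else 0 := by
    intro j
    rw [he, EuclideanSpace.basisFun_apply]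
    simp [PiLp.single_apply]
  have h3 : ∀ c d : Fin q, ∑ k, e (k, c) * dc f (k, d) x = if i.2 = c then dc f (i.1, d) x else 0 := by
    intro c d
    obtain ⟨i1, i2⟩ := i
    simp only [he1, Prod.mk.injEq, ite_mul, one_mul, zero_mul]
    by_cases hc : i2 = c
    · subst hc; simp
    · simp [hc, Ne.symm hc]
  have h4 : ∑ k, ((e (k, a) * dc f (k, b) x + x (k, a) * dc (dc f (k, b)) i x) -
      (e (k, b) * dc f (k, a) x + x (k, b) * dc (dc f (k, a)) i x)) =
      (∑ k, e (k, a) * dc f (k, b) x) - (∑ k, e (k, b) * dc f (k, a) x) +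
      ∑ k, (x (k, a) * dc (dc f (k, b)) i x - x (k, b) * dc (dc f (k, a)) i x) := by
    rw [← Finset.sum_sub_distrib, ← Finset.sum_add_distrib]
    exact Finset.sum_congr rfl fun k _ => by ring
  rw [h4, h3, h3] at h2
  exact h2

lemma sum_anti_sq (M : Fin q → Fin q → ℝ) :
    ∑ a, ∑ b, (M a b - M b a) ^ 2 ≤ 4 * ∑ a, ∑ b, M a b ^ 2 := by
  have h1 : ∑ a, ∑ b, (M a b - M b a) ^ 2 ≤ ∑ a, ∑ b, (2 * M a b ^ 2 + 2 * M b a ^ 2) :=
    Finset.sum_le_sum fun a _ => Finset.sum_le_sum fun b _ => by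
      nlinarith [sq_nonneg (M a b + M b a)]
  refine h1.trans (le_of_eq ?_)
  simp only [Finset.sum_add_distrib, ← Finset.mul_sum]
  have h2 : ∑ a, ∑ b, M b a ^ 2 = ∑ a, ∑ b, M a b ^ 2 := Finset.sum_comm
  rw [h2]; ring

lemma sum_delta_sq (w : Fin p → Fin q → ℝ) :
    ∑ i : Fin p × Fin q, ∑ a, ∑ b, ((if i.2 = a then w i.1 b else 0) -
      (if i.2 = b then w i.1 a else 0)) ^ 2 = 2 * ((q : ℝ) - 1) * ∑ k, ∑ a, w k a ^ 2 := by
  rw [Fintype.sum_prod_type]
  rw [Finset.mul_sum]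
  refine Finset.sum_congr rfl fun k _ => ?_
  simp only
  have e : ∀ l a b : Fin q, ((if l = a then w k b else 0) - (if l = b then w k a else 0)) ^ 2 =
      (if l = a then w k b ^ 2 else 0) + (if l = b then w k a ^ 2 else 0) -
        2 * (if l = a then (if l = b then w k a ^ 2 else 0) else 0) := by
    intro l a b
    by_cases h1 : l = a
    · by_cases h2 : l = b
      · subst h1; subst h2; simp; ring
      · simp [h1, h2]
        subst h1
        simp [h2]
    · by_cases h2 : l = b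
      · simp [h1, h2]
        subst h2
        simp [h1]
      · simp [h1, h2]
  simp only [e, Finset.sum_sub_distrib, Finset.sum_add_distrib, ← Finset.mul_sum]
  simp only [Finset.sum_ite_eq, Finset.mem_univ, if_true]
  have e2 : ∑ l : Fin q, ∑ a, ∑ b, (if l = b then w k a ^ 2 else 0) = (q : ℝ) * ∑ a, w k a ^ 2 := by
    have : ∀ l : Fin q, ∑ a, ∑ b, (if l = b then w k a ^ 2 else 0) = ∑ a, w k a ^ 2 := by
      intro l; simp
    simp [this]
  have e1 : ∑ l : Fin q, ∑ a, ∑ b, (if l = a then w k b ^ 2 else 0) = (q : ℝ) * ∑ a, w k a ^ 2 := by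
    have : ∀ l : Fin q, ∑ a, ∑ b, (if l = a then w k b ^ 2 else 0) = ∑ a, w k a ^ 2 := by
      intro l
      rw [Finset.sum_comm]; simp
    simp [this]
  have e3 : ∑ l : Fin q, ∑ a, ∑ b, (if l = a then (if l = b then w k a ^ 2 else 0) else 0) =
      ∑ a, w k a ^ 2 := by
    refine Finset.sum_congr rfl fun l _ => ?_
    rw [Finset.sum_comm]; simp
  first
    | (rw [e1, e2, e3]; ring)
    | (simp; ring)

/-- **The second order inequality** for functions invariant under right multiplication by `O(q)`. -/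
theorem hess_ineq (hq : 2 ≤ q) {h : E p q → ℝ} {R : ℝ} (hR : ∀ x, h x ≠ 0 → OpLe R x) :
    HessIneq (EuclideanSpace.basisFun (Fin p × Fin q) ℝ) (GO p q) h (2 * R ^ 2 / ((q : ℝ) - 1)) := by
  intro f hd hd2 hinv x hx
  have hop := hR x hx
  have hq1 : (0 : ℝ) < (q : ℝ) - 1 := by
    have : (2 : ℝ) ≤ q := by exact_mod_cast hq
    linarith
  have hd2' : ∀ i, Differentiable ℝ (dc f i) := hd2
  -- gradient and Hessian in coordinates
  have e1 : ‖fderiv ℝ f x‖ ^ 2 = ∑ k, ∑ a, dc f (k, a) x ^ 2 := by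
    rw [norm_sq_fderiv (EuclideanSpace.basisFun (Fin p × Fin q) ℝ), Fintype.sum_prod_type]
    rfl
  have e2 : ∑ j, ‖fderiv ℝ (fun y => fderiv ℝ f y
      (EuclideanSpace.basisFun (Fin p × Fin q) ℝ j)) x‖ ^ 2 =
      ∑ i, ∑ k, ∑ b, dc (dc f (k, b)) i x ^ 2 := by
    have : ∀ j, ‖fderiv ℝ (fun y => fderiv ℝ f y
      (EuclideanSpace.basisFun (Fin p × Fin q) ℝ j)) x‖ ^ 2 = ∑ i, dc (dc f j) i x ^ 2 := by
      intro j
      rw [norm_sq_fderiv (EuclideanSpace.basisFun (Fin p × Fin q) ℝ)]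
      rfl
    simp only [this]
    rw [Finset.sum_comm]
    refine Finset.sum_congr rfl fun i _ => ?_
    rw [Fintype.sum_prod_type]
  have key : ∀ i : Fin p × Fin q, ∑ a, ∑ b, ((if i.2 = a then dc f (i.1, b) x else 0) -
      (if i.2 = b then dc f (i.1, a) x else 0)) ^ 2 ≤
      4 * (R ^ 2 * ∑ k, ∑ b, dc (dc f (k, b)) i x ^ 2) := by
    intro i
    set M : Fin q → Fin q → ℝ := fun a b => ∑ k, x (k, a) * dc (dc f (k, b)) i x with hM
    have h1 : ∀ a b, ((if i.2 = a then dc f (i.1, b) x else 0) -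
        (if i.2 = b then dc f (i.1, a) x else 0)) ^ 2 = (M a b - M b a) ^ 2 := by
      intro a b
      have h2 := second_id hd hd2' hinv a b x i
      have h3 : ∑ k, (x (k, a) * dc (dc f (k, b)) i x - x (k, b) * dc (dc f (k, a)) i x) =
          M a b - M b a := by
        rw [hM]; simp only
        rw [Finset.sum_sub_distrib]
      rw [h3] at h2
      have h4 : (if i.2 = a then dc f (i.1, b) x else 0) -
        (if i.2 = b then dc f (i.1, a) x else 0) = -(M a b - M b a) := by linarith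
      rw [h4]; ring
    simp only [h1]
    refine (sum_anti_sq M).trans ?_
    refine mul_le_mul_of_nonneg_left ?_ (by norm_num)
    rw [Finset.sum_comm]
    have h5 : ∀ b, ∑ a, M a b ^ 2 ≤ R ^ 2 * ∑ k, dc (dc f (k, b)) i x ^ 2 := fun b =>
      hop fun k => dc (dc f (k, b)) i x
    calc ∑ b, ∑ a, M a b ^ 2 ≤ ∑ b, R ^ 2 * ∑ k, dc (dc f (k, b)) i x ^ 2 :=
          Finset.sum_le_sum fun b _ => h5 b
      _ = _ := by
          rw [← Finset.mul_sum, Finset.sum_comm]
  have tot := Finset.sum_le_sum (s := Finset.univ) fun i (_ : i ∈ Finset.univ) => key i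
  rw [sum_delta_sq (fun k a => dc f (k, a) x)] at tot
  rw [e1, e2]
  have tot2 : ∑ i : Fin p × Fin q, 4 * (R ^ 2 * ∑ k, ∑ b, dc (dc f (k, b)) i x ^ 2) =
      4 * R ^ 2 * ∑ i, ∑ k, ∑ b, dc (dc f (k, b)) i x ^ 2 := by
    simp only [← mul_assoc]
    rw [← Finset.mul_sum]
  rw [tot2] at tot
  rw [div_mul_eq_mul_div, le_div_iff₀ hq1]
  linarith

end Pool.Agent.Lib.MP_8d00da_gt.h25
end

section

/-!
# Log-concave weights of bounded support and the operator norm
-/

namespace Pool.Agent.Lib.MP_8d00da_gt.h25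

open MeasureTheory Set Filter Matrix
open Pool.Agent.Lib.MP_8d00da_gt.h42
open scoped Topology NNReal

section LCW

variable {F : Type*} [NormedAddCommGroup F] [InnerProductSpace ℝ F]
    [FiniteDimensional ℝ F] [MeasurableSpace F] [BorelSpace F]

/-- A bounded log-concave weight of bounded support and positive mass. -/
structure LCW (h : F → ℝ) (r B : ℝ) : Prop where
  meas : Measurable h
  nonneg : ∀ x, 0 ≤ h x
  bdd : ∀ x, h x ≤ B
  conc : LogConc h
  supp : ∀ x, r < ‖x‖ → h x = 0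
  mass : 0 < ∫ x, h x

variable {h : F → ℝ} {r B : ℝ}

lemma LCW.int (H : LCW h r B) : Integrable h := by
  by_contra hc
  have := H.mass
  rw [integral_undef hc] at this
  exact lt_irrefl _ this

lemma LCW.wt (H : LCW h r B) : Wt h B where
  meas := H.meas
  nonneg := H.nonneg
  bdd := H.bdd
  mid := by
    intro x y
    have h1 := H.conc (1 / 2) (by norm_num) (by norm_num) x y
    have h2 : (1 - 1 / 2 : ℝ) • x + (1 / 2 : ℝ) • y = (1 / 2 : ℝ) • (x + y) := by
      rw [smul_add]; norm_num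
    rw [h2] at h1
    have hx := H.nonneg x
    have hy := H.nonneg y
    have h3 : (h x ^ (1 - 1 / 2 : ℝ) * h y ^ (1 / 2 : ℝ)) ^ 2 = h x * h y := by
      rw [mul_pow, ← Real.rpow_natCast, ← Real.rpow_natCast, ← Real.rpow_mul hx, ← Real.rpow_mul hy]
      norm_num
    rw [← h3]
    exact pow_le_pow_left₀ (mul_nonneg (Real.rpow_nonneg hx _) (Real.rpow_nonneg hy _)) h1 2
  ne := by
    intro hc
    have := H.mass
    rw [integral_congr_ae hc] at this
    simp at this

/-- Restriction to a measurable convex set. -/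
lemma LCW.restrict (H : LCW h r B) {A : Set F} (hA : Convex ℝ A) (hAm : MeasurableSet A)
    (hpos : 0 < ∫ x in A, h x) : LCW (A.indicator h) r B where
  meas := H.meas.indicator hAm
  nonneg := fun x => indicator_nonneg (fun x _ => H.nonneg x) x
  bdd := by
    intro x
    by_cases hx : x ∈ A
    · rw [indicator_of_mem hx]; exact H.bdd x
    · rw [indicator_of_notMem hx]
      exact (H.nonneg x).trans (H.bdd x)
  conc := by
    intro a ha0 ha1 x y
    by_cases hx : x ∈ A
    · by_cases hy : y ∈ A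
      · rw [indicator_of_mem hx, indicator_of_mem hy,
          indicator_of_mem (hA hx hy (by linarith) ha0.le (by ring))]
        exact H.conc a ha0 ha1 x y
      · rw [indicator_of_notMem hy, Real.zero_rpow ha0.ne', mul_zero]
        exact indicator_nonneg (fun x _ => H.nonneg x) _
    · rw [indicator_of_notMem hx, Real.zero_rpow (by linarith), zero_mul]
      exact indicator_nonneg (fun x _ => H.nonneg x) _
  supp := by
    intro x hx
    by_cases hxA : x ∈ A
    · rw [indicator_of_mem hxA]; exact H.supp x hx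
    · rw [indicator_of_notMem hxA]
  mass := by rwa [integral_indicator hAm]

end LCW

variable {p q : ℕ}

/-- The linear map `v ↦ xᵀ v`. -/
noncomputable def tv (v : Fin p → ℝ) (x : E p q) : EuclideanSpace ℝ (Fin q) :=
  WithLp.toLp 2 fun a => ∑ k, x (k, a) * v k

/-- The operator norm of a matrix: the largest `|xᵀ v|` for `|v| ≤ 1`. -/
noncomputable def NN (x : E p q) : ℝ := ⨆ v : {v : Fin p → ℝ // ∑ k, v k ^ 2 ≤ 1}, ‖tv v.1 x‖

lemma tv_sq (v : Fin p → ℝ) (x : E p q) : ‖tv v x‖ ^ 2 = ∑ a, (∑ k, x (k, a) * v k) ^ 2 := by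
  rw [EuclideanSpace.norm_sq_eq]
  exact Finset.sum_congr rfl fun a _ => by rw [Real.norm_eq_abs, sq_abs]; rfl

lemma tv_add (v : Fin p → ℝ) (x y : E p q) : tv v (x + y) = tv v x + tv v y := by
  ext a
  simp only [tv, PiLp.add_apply, add_mul, Finset.sum_add_distrib]

lemma tv_smul (v : Fin p → ℝ) (c : ℝ) (x : E p q) : tv v (c • x) = c • tv v x := by
  ext a
  simp only [tv, PiLp.smul_apply, smul_eq_mul, Finset.mul_sum, mul_assoc]

lemma tv_smul_left (v : Fin p → ℝ) (c : ℝ) (x : E p q) : tv (c • v) x = c • tv v x := by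
  ext a
  simp only [tv, PiLp.smul_apply, Pi.smul_apply, smul_eq_mul, Finset.mul_sum]
  exact Finset.sum_congr rfl fun k _ => by ring

lemma tv_add_left (v w : Fin p → ℝ) (x : E p q) : tv (v + w) x = tv v x + tv w x := by
  ext a
  simp only [tv, PiLp.add_apply, Pi.add_apply, mul_add, Finset.sum_add_distrib]

lemma tv_le (v : Fin p → ℝ) (x : E p q) : ‖tv v x‖ ^ 2 ≤ (∑ k, v k ^ 2) * ‖x‖ ^ 2 := by
  rw [tv_sq, EuclideanSpace.norm_sq_eq, Fintype.sum_prod_type_right, Finset.mul_sum]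
  refine Finset.sum_le_sum fun a _ => ?_
  have h1 := Finset.sum_mul_sq_le_sq_mul_sq Finset.univ (fun k => x (k, a)) v
  simp only [Real.norm_eq_abs, sq_abs]
  linarith

lemma tv_le' {v : Fin p → ℝ} (hv : ∑ k, v k ^ 2 ≤ 1) (x : E p q) : ‖tv v x‖ ≤ ‖x‖ := by
  have h1 := tv_le v x
  have h2 : ‖tv v x‖ ^ 2 ≤ ‖x‖ ^ 2 := h1.trans (by nlinarith [sq_nonneg ‖x‖])
  exact (pow_le_pow_iff_left₀ (norm_nonneg _) (norm_nonneg _) two_ne_zero).1 h2

instance : Nonempty {v : Fin p → ℝ // ∑ k, v k ^ 2 ≤ 1} := ⟨⟨0, by simp⟩⟩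

lemma NN_bdd (x : E p q) :
    BddAbove (range fun v : {v : Fin p → ℝ // ∑ k, v k ^ 2 ≤ 1} => ‖tv v.1 x‖) := by
  refine ⟨‖x‖, ?_⟩
  rintro _ ⟨v, rfl⟩
  exact tv_le' v.2 x

lemma tv_le_NN {v : Fin p → ℝ} (hv : ∑ k, v k ^ 2 ≤ 1) (x : E p q) : ‖tv v x‖ ≤ NN x :=
  le_ciSup (NN_bdd x) ⟨v, hv⟩

lemma NN_nonneg (x : E p q) : 0 ≤ NN x :=
  (norm_nonneg _).trans (tv_le_NN (v := 0) (by simp) x)

lemma NN_le_norm (x : E p q) : NN x ≤ ‖x‖ := ciSup_le fun v => tv_le' v.2 x

lemma NN_add (x y : E p q) : NN (x + y) ≤ NN x + NN y := by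
  refine ciSup_le fun v => ?_
  rw [tv_add]
  exact (norm_add_le _ _).trans (add_le_add (tv_le_NN v.2 x) (tv_le_NN v.2 y))

lemma NN_smul_le {c : ℝ} (hc : 0 ≤ c) (x : E p q) : NN (c • x) ≤ c * NN x := by
  refine ciSup_le fun v => ?_
  rw [tv_smul, norm_smul, Real.norm_eq_abs, abs_of_nonneg hc]
  exact mul_le_mul_of_nonneg_left (tv_le_NN v.2 x) hc

lemma NN_lip : LipschitzWith 1 (NN : E p q → ℝ) := by
  refine LipschitzWith.of_le_add fun x y => ?_
  have h1 := NN_add y (x - y)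
  rw [add_sub_cancel] at h1
  have h2 := NN_le_norm (x - y)
  rw [dist_eq_norm]
  linarith

lemma NN_convex (R : ℝ) : Convex ℝ {x : E p q | NN x ≤ R} := by
  intro x hx y hy a b ha hb hab
  simp only [mem_setOf_eq] at hx hy ⊢
  have h1 := NN_add (a • x) (b • y)
  have h2 := NN_smul_le ha x
  have h3 := NN_smul_le hb y
  have h4 : a * NN x ≤ a * R := mul_le_mul_of_nonneg_left hx ha
  have h5 : b * NN y ≤ b * R := mul_le_mul_of_nonneg_left hy hb
  have : a * R + b * R = R := by rw [← add_mul, hab, one_mul]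
  linarith

lemma opLe_of_NN {R : ℝ} {x : E p q} (hx : NN x ≤ R) : OpLe R x := by
  intro v
  rcases eq_or_lt_of_le (show (0 : ℝ) ≤ ∑ k, v k ^ 2 from Finset.sum_nonneg fun _ _ => sq_nonneg _)
    with h0 | h0
  · have h1 := tv_le v x
    rw [← h0, zero_mul] at h1
    rw [← tv_sq, ← h0, mul_zero]
    exact h1
  · set s := Real.sqrt (∑ k, v k ^ 2) with hs
    have hs0 : 0 < s := Real.sqrt_pos.2 h0
    have hs2 : s ^ 2 = ∑ k, v k ^ 2 := Real.sq_sqrt h0.le
    have h1 : ‖tv (s⁻¹ • v) x‖ ≤ R := (tv_le_NN (by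
      simp only [Pi.smul_apply, smul_eq_mul, mul_pow, ← Finset.mul_sum]
      rw [← hs2, ← mul_pow, inv_mul_cancel₀ hs0.ne']; simp) x).trans hx
    rw [tv_smul_left, norm_smul, Real.norm_eq_abs, abs_of_pos (by positivity)] at h1
    have h2 : ‖tv v x‖ ≤ R * s := by
      rw [inv_mul_le_iff₀ hs0] at h1
      linarith
    rw [← tv_sq, ← hs2, ← mul_pow]
    exact pow_le_pow_left₀ (norm_nonneg _) h2 2

/-- Right multiplication by an orthogonal matrix preserves the norms of vectors. -/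
lemma vecMul_norm {O : Matrix (Fin q) (Fin q) ℝ} (hO : O * Oᵀ = 1) (v : Fin q → ℝ) :
    ∑ j, (∑ l, v l * O l j) ^ 2 = ∑ l, v l ^ 2 := by
  have h2 : ∑ j, (∑ l, v l * O l j) ^ 2 = (v ᵥ* O) ⬝ᵥ (v ᵥ* O) := by
    simp only [dotProduct]
    exact Finset.sum_congr rfl fun j _ => by rw [sq]; rfl
  have h3 : ∑ j, v j ^ 2 = v ⬝ᵥ v := by
    simp only [dotProduct]
    exact Finset.sum_congr rfl fun j _ => by ring
  rw [h2, h3, ← Matrix.dotProduct_mulVec, ← Matrix.vecMul_transpose, Matrix.vecMul_vecMul,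
    hO, Matrix.vecMul_one]

lemma tv_rm {O : Matrix (Fin q) (Fin q) ℝ} (hO : O * Oᵀ = 1) (v : Fin p → ℝ) (x : E p q) :
    ‖tv v (rm O x)‖ = ‖tv v x‖ := by
  rw [← sq_eq_sq₀ (norm_nonneg _) (norm_nonneg _), tv_sq, tv_sq,
    ← vecMul_norm hO fun a => ∑ k, x (k, a) * v k]
  refine Finset.sum_congr rfl fun a _ => ?_
  congr 1
  simp only [rm_apply, Finset.sum_mul]
  rw [Finset.sum_comm]
  exact Finset.sum_congr rfl fun l _ => Finset.sum_congr rfl fun k _ => by ring

lemma NN_rm {O : Matrix (Fin q) (Fin q) ℝ} (hO : O * Oᵀ = 1) (x : E p q) :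
    NN (rm O x) = NN x := by
  unfold NN
  simp only [tv_rm hO]

/-- Comparison of the Frobenius norm and the operator norm. -/
lemma norm_sq_le_NN_p (x : E p q) : ‖x‖ ^ 2 ≤ p * NN x ^ 2 := by
  have h1 : ‖x‖ ^ 2 = ∑ k : Fin p, ‖tv (Pi.single k 1) x‖ ^ 2 := by
    rw [EuclideanSpace.norm_sq_eq, Fintype.sum_prod_type]
    refine Finset.sum_congr rfl fun k _ => ?_
    rw [tv_sq]
    refine Finset.sum_congr rfl fun a _ => ?_
    simp [Pi.single_apply]
  rw [h1]
  calc ∑ k : Fin p, ‖tv (Pi.single k 1) x‖ ^ 2 ≤ ∑ _k : Fin p, NN x ^ 2 := by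
        refine Finset.sum_le_sum fun k _ => pow_le_pow_left₀ (norm_nonneg _) (tv_le_NN ?_ x) 2
        simp [Pi.single_apply]
    _ = p * NN x ^ 2 := by simp

lemma norm_sq_le_NN_q (x : E p q) : ‖x‖ ^ 2 ≤ q * NN x ^ 2 := by
  rw [EuclideanSpace.norm_sq_eq, Fintype.sum_prod_type_right]
  have key : ∀ a : Fin q, ∑ k, ‖x (k, a)‖ ^ 2 ≤ NN x ^ 2 := by
    intro a
    set v : Fin p → ℝ := fun k => x (k, a) with hv
    set S := ∑ k, v k ^ 2 with hS
    have hS0 : 0 ≤ S := Finset.sum_nonneg fun _ _ => sq_nonneg _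
    have h1 : ∑ k, ‖x (k, a)‖ ^ 2 = S :=
      Finset.sum_congr rfl fun k _ => by rw [Real.norm_eq_abs, sq_abs]
    rw [h1]
    have h2 := opLe_of_NN (le_refl (NN x)) v
    have h3 : S ^ 2 ≤ ∑ b, (∑ k, x (k, b) * v k) ^ 2 := by
      have h4 : S ^ 2 = (∑ k, x (k, a) * v k) ^ 2 := by
        congr 1
        exact Finset.sum_congr rfl fun k _ => by simp only [hv]; ring
      rw [h4]
      exact Finset.single_le_sum (f := fun b => (∑ k, x (k, b) * v k) ^ 2)
        (fun b _ => sq_nonneg _) (Finset.mem_univ a)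
    have h5 : S ^ 2 ≤ NN x ^ 2 * S := h3.trans h2
    rcases eq_or_lt_of_le hS0 with h0 | h0
    · rw [← h0]; positivity
    · nlinarith
  calc ∑ a : Fin q, ∑ k, ‖x (k, a)‖ ^ 2 ≤ ∑ _a : Fin q, NN x ^ 2 :=
        Finset.sum_le_sum fun a _ => key a
    _ = q * NN x ^ 2 := by simp

end Pool.Agent.Lib.MP_8d00da_gt.h25
end
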