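import Mathlib
import Pool.Agent.Lib.MP_8d00da_gt.h25.Cls

/-!
# From weights of bounded support to log-concave probability measures
-/

namespace Pool.Agent.Lib.MP_8d00da_gt.h25

open MeasureTheory Set Filter Matrix
open Pool.Agent.Lib.MP_8d00da_gt.h42
open scoped Topology NNReal

variable {p q : ℕ}

/-- as in Results/MP_8d00da_gt/SignedPosetKLS.lean -/
def PoincareWith {V : Type*} [NormedAddCommGroup V] [NormedSpace ℝ V] [MeasurableSpace V]
    (μ : Measure V) (D : ℝ) : Prop :=
  ∀ f : V → ℝ, (∃ L : NNReal, LipschitzWith L f) →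
    eLpNorm (fun x => f x - ∫ y, f y ∂μ) 2 μ ≤
      ENNReal.ofReal D * eLpNorm (fun x => ‖fderiv ℝ f x‖) 2 μ

/-- The Poincare inequality for linear functions only. -/
def LinPoincareWith {V : Type*} [NormedAddCommGroup V] [NormedSpace ℝ V] [MeasurableSpace V]
    (μ : Measure V) (D : ℝ) : Prop :=
  ∀ θ : V →L[ℝ] ℝ, eLpNorm (fun x => θ x - ∫ y, θ y ∂μ) 2 μ ≤ ENNReal.ofReal (D * ‖θ‖)

/-- The inequality for weights of bounded support. -/
def CoreStmt (p q : ℕ) (K : ℝ) : Prop :=
  ∀ (h : E p q → ℝ) (r B : ℝ), LCW h r B →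
    (∀ O : Matrix (Fin q) (Fin q) ℝ, O * Oᵀ = 1 → ∀ x, h (rm O x) = h x) →
    ∀ σ : ℝ, 0 < σ → (∀ θ : E p q, ∫ x, (inner ℝ θ x) ^ 2 * h x ≤ σ ^ 2 * ‖θ‖ ^ 2 * ∫ x, h x) →
    ∀ (f : E p q → ℝ) (L : ℝ≥0), LipschitzWith L f → ∀ m : ℝ, ∫ x, f x * h x = m * ∫ x, h x →
      ∫ x, (f x - m) ^ 2 * h x ≤ (K * σ) ^ 2 * ∫ x, ‖fderiv ℝ f x‖ ^ 2 * h x

section Bdd

variable {F : Type*} [NormedAddCommGroup F] [InnerProductSpace ℝ F]
    [FiniteDimensional ℝ F] [MeasurableSpace F] [BorelSpace F]

/-- An integrable log-concave function of positive mass is bounded. -/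
theorem logConc_bdd {h : F → ℝ} (h0 : ∀ x, 0 ≤ h x) (hm : Measurable h) (hi : Integrable h)
    (hpos : 0 < ∫ x, h x) (hlc : LogConc h) : ∃ B, ∀ x, h x ≤ B := by
  -- a level set of positive measure
  obtain ⟨k, hk⟩ : ∃ k : ℕ, volume {x | 1 / ((k : ℝ) + 1) ≤ h x} ≠ 0 := by
    by_contra hcon
    push Not at hcon
    have h1 : volume {x | ¬ h x = 0} = 0 := by
      refine measure_mono_null (t := ⋃ k : ℕ, {x | 1 / ((k : ℝ) + 1) ≤ h x}) ?_
        (measure_iUnion_null hcon)
      intro x hx
      have hx' : 0 < h x := lt_of_le_of_ne (h0 x) (Ne.symm hx)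
      obtain ⟨k, hk⟩ := exists_nat_one_div_lt hx'
      exact mem_iUnion.2 ⟨k, hk.le⟩
    have h2 : h =ᵐ[volume] 0 := by
      rw [Filter.EventuallyEq, ae_iff]
      exact h1
    rw [integral_congr_ae h2] at hpos
    simp at hpos
  set δ : ℝ := 1 / ((k : ℝ) + 1) with hδ
  have hδ0 : 0 < δ := by positivity
  set A : Set F := {x | δ ≤ h x} with hA
  have hAm : MeasurableSet A := measurableSet_le measurable_const hm
  have hAfin : volume A ≠ ⊤ := by
    have h1 := hi.measure_norm_ge_lt_top hδ0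
    refine (lt_of_le_of_lt (measure_mono fun x hx => ?_) h1).ne
    simp only [mem_ofPred_eq, Real.norm_eq_abs, abs_of_nonneg (h0 x)]
    exact hx
  set a : ℝ := (volume A).toReal with ha
  have ha0 : 0 < a := ENNReal.toReal_pos hk hAfin
  set n := Module.finrank ℝ F with hn
  set I := ∫ x, h x with hI
  refine ⟨(2 ^ n * I / a) ^ 2 / δ, fun x0 => ?_⟩
  have hint : Integrable (fun x : F => h ((1 / 2 : ℝ) • (x + x0))) := by
    have h1 : Integrable (fun x : F => h ((1 / 2 : ℝ) • x)) :=
      hi.comp_smul (by norm_num)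
    exact h1.comp_add_right x0
  have hval : ∫ x : F, h ((1 / 2 : ℝ) • (x + x0)) = 2 ^ n * I := by
    rw [integral_add_right_eq_self (fun x : F => h ((1 / 2 : ℝ) • x)) x0,
      Measure.integral_comp_smul]
    rw [← hn, smul_eq_mul, one_div, inv_pow, inv_inv, abs_of_nonneg (by positivity)]
  have hpt : ∀ x ∈ A, Real.sqrt (δ * h x0) ≤ h ((1 / 2 : ℝ) • (x + x0)) := by
    intro x hx
    have h1 := hlc (1 / 2) (by norm_num) (by norm_num) x x0
    have h2 : (1 - 1 / 2 : ℝ) • x + (1 / 2 : ℝ) • x0 = (1 / 2 : ℝ) • (x + x0) := by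
      rw [smul_add]; norm_num
    rw [h2] at h1
    refine le_trans ?_ h1
    rw [show (1 - 1 / 2 : ℝ) = 1 / 2 by norm_num, ← Real.mul_rpow (h0 x) (h0 x0),
      ← Real.sqrt_eq_rpow]
    exact Real.sqrt_le_sqrt (mul_le_mul_of_nonneg_right hx (h0 x0))
  have h1 : Real.sqrt (δ * h x0) * a ≤ 2 ^ n * I := by
    rw [← hval]
    calc Real.sqrt (δ * h x0) * a = ∫ x in A, Real.sqrt (δ * h x0) := by
          rw [setIntegral_const, smul_eq_mul, mul_comm]; rfl
      _ ≤ ∫ x in A, h ((1 / 2 : ℝ) • (x + x0)) :=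
          setIntegral_mono_on (integrableOn_const hAfin) hint.integrableOn hAm hpt
      _ ≤ ∫ x, h ((1 / 2 : ℝ) • (x + x0)) :=
          setIntegral_le_integral hint (Eventually.of_forall fun x => h0 _)
  have h2 : Real.sqrt (δ * h x0) ≤ 2 ^ n * I / a := by rwa [le_div_iff₀ ha0]
  have h3 : δ * h x0 ≤ (2 ^ n * I / a) ^ 2 := by
    rw [← Real.sq_sqrt (mul_nonneg hδ0.le (h0 x0))]
    exact pow_le_pow_left₀ (Real.sqrt_nonneg _) h2 2
  rw [le_div_iff₀ hδ0]
  linarith

end Bdd

lemma rm_neg_one (x : E p q) : rm (-1 : Matrix (Fin q) (Fin q) ℝ) x = -x := by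
  ext ⟨k, j⟩
  simp [rm_apply, Matrix.one_apply]

/-- Restriction of an integrable log-concave function to a ball. -/
lemma trunc_LCW {h : E p q → ℝ} (h0 : ∀ x, 0 ≤ h x) (hm : Measurable h) (hlc : LogConc h)
    {B : ℝ} (hB : ∀ x, h x ≤ B) {T : ℝ} (hpos : 0 < ∫ x, (Metric.closedBall 0 T).indicator h x) :
    LCW ((Metric.closedBall 0 T).indicator h) T B where
  meas := hm.indicator Metric.isClosed_closedBall.measurableSet
  nonneg := fun x => indicator_nonneg (fun x _ => h0 x) x
  bdd := by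
    intro x
    by_cases hx : x ∈ Metric.closedBall (0 : E p q) T
    · rw [indicator_of_mem hx]; exact hB x
    · rw [indicator_of_notMem hx]
      exact (h0 x).trans (hB x)
  conc := by
    intro a ha0 ha1 x y
    by_cases hx : x ∈ Metric.closedBall (0 : E p q) T
    · by_cases hy : y ∈ Metric.closedBall (0 : E p q) T
      · rw [indicator_of_mem hx, indicator_of_mem hy,
          indicator_of_mem ((convex_closedBall (0 : E p q) T) hx hy (by linarith) ha0.le (by ring))]
        exact hlc a ha0 ha1 x y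
      · rw [indicator_of_notMem hy, Real.zero_rpow ha0.ne', mul_zero]
        exact indicator_nonneg (fun x _ => h0 x) _
    · rw [indicator_of_notMem hx, Real.zero_rpow (by linarith), zero_mul]
      exact indicator_nonneg (fun x _ => h0 x) _
  supp := by
    intro x hx
    refine indicator_of_notMem (fun hc => ?_) _
    rw [mem_closedBall_zero_iff] at hc
    linarith
  mass := hpos

section Limit

variable {h : E p q → ℝ} {μ : Measure (E p q)}

lemma integral_mu (h0 : ∀ x, 0 ≤ h x) (hm : Measurable h)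
    (hμ : μ = volume.withDensity fun x => ENNReal.ofReal (h x)) (g : E p q → ℝ) :
    ∫ x, g x ∂μ = ∫ x, g x * h x := by
  rw [hμ, integral_withDensity_eq_integral_toReal_smul hm.ennreal_ofReal
    (Eventually.of_forall fun x => ENNReal.ofReal_lt_top)]
  refine integral_congr_ae (Eventually.of_forall fun x => ?_)
  simp only [smul_eq_mul, ENNReal.toReal_ofReal (h0 x)]
  ring

lemma integrable_mu (h0 : ∀ x, 0 ≤ h x) (hm : Measurable h)
    (hμ : μ = volume.withDensity fun x => ENNReal.ofReal (h x)) {g : E p q → ℝ} :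
    Integrable g μ ↔ Integrable fun x => g x * h x := by
  rw [hμ, integrable_withDensity_iff hm.ennreal_ofReal
    (Eventually.of_forall fun x => ENNReal.ofReal_lt_top)]
  simp only [ENNReal.toReal_ofReal (h0 _)]

/-- Convergence of truncated integrals. -/
lemma trunc_lim (h0 : ∀ x, 0 ≤ h x) (hm : Measurable h)
    (hμ : μ = volume.withDensity fun x => ENNReal.ofReal (h x)) {g : E p q → ℝ}
    (hg : Integrable g μ) :
    Tendsto (fun n : ℕ => ∫ x, g x * (Metric.closedBall (0 : E p q) n).indicator h x) atTop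
      (𝓝 (∫ x, g x ∂μ)) := by
  have h1 : ∀ n : ℕ, ∫ x, g x * (Metric.closedBall (0 : E p q) n).indicator h x =
      ∫ x, (Metric.closedBall (0 : E p q) n).indicator g x ∂μ := by
    intro n
    rw [integral_mu h0 hm hμ]
    refine integral_congr_ae (Eventually.of_forall fun x => ?_)
    by_cases hx : x ∈ Metric.closedBall (0 : E p q) n
    · simp only [indicator_of_mem hx]
    · simp only [indicator_of_notMem hx, mul_zero, zero_mul]
  simp only [h1]
  refine tendsto_integral_of_dominated_convergence (fun x => ‖g x‖)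
    (fun n => hg.aestronglyMeasurable.indicator Metric.isClosed_closedBall.measurableSet)
    hg.norm (fun n => Eventually.of_forall fun x => ?_) (Eventually.of_forall fun x => ?_)
  · exact norm_indicator_le_norm_self _ _
  · obtain ⟨N, hN⟩ := exists_nat_ge ‖x‖
    refine tendsto_const_nhds.congr' ?_
    filter_upwards [eventually_ge_atTop N] with n hn
    rw [indicator_of_mem]
    rw [mem_closedBall_zero_iff]
    exact hN.trans (by exact_mod_cast hn)

end Limit

/-- Passage from weights of bounded support to probability measures. -/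
theorem final_of_core {K : ℝ} (hK : 0 ≤ K) (core : CoreStmt p q K)
    (h : E p q → ℝ) (h0 : ∀ x, 0 ≤ h x) (hm : Measurable h)
    (hlc : ∀ (x y : E p q) (a b : ℝ), 0 ≤ a → 0 ≤ b → a + b = 1 →
      h x ^ a * h y ^ b ≤ h (a • x + b • y))
    (hinv : ∀ O : Matrix (Fin q) (Fin q) ℝ, O * Oᵀ = 1 → ∀ x, h (rm O x) = h x)
    (μ : Measure (E p q)) (hμ : μ = volume.withDensity fun x => ENNReal.ofReal (h x))
    [IsProbabilityMeasure μ] (D : ℝ) (hD : LinPoincareWith μ D) : PoincareWith μ (K * D) := by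
  have hLC : LogConc h := fun a ha0 ha1 x y =>
    hlc x y (1 - a) a (by linarith) ha0.le (by ring)
  have hIm : ∀ g : E p q → ℝ, ∫ x, g x ∂μ = ∫ x, g x * h x := integral_mu h0 hm hμ
  have hii : ∀ {g : E p q → ℝ}, Integrable g μ ↔ Integrable fun x => g x * h x :=
    integrable_mu h0 hm hμ
  have hi : Integrable h := by
    have h1 : Integrable (fun _ : E p q => (1 : ℝ)) μ := integrable_const 1
    rw [hii] at h1
    simpa using h1
  have hI1 : ∫ x, h x = 1 := by
    have h1 := hIm fun _ => 1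
    simp only [one_mul, integral_const, probReal_univ, smul_eq_mul, mul_one] at h1
    exact h1.symm
  obtain ⟨B, hB⟩ := logConc_bdd h0 hm hi (by rw [hI1]; norm_num) hLC
  have heven : ∀ x, h (-x) = h x := by
    intro x
    rw [← rm_neg_one]
    exact hinv _ (by simp) x
  -- the linear functions
  have hmean : ∀ θ : E p q →L[ℝ] ℝ, ∫ y, θ y ∂μ = 0 := by
    intro θ
    rw [hIm]
    have h1 := integral_neg_eq_self (fun x => θ x * h x) (volume : Measure (E p q))
    simp only [map_neg, heven, neg_mul, integral_neg] at h1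
    linarith
  set D' : ℝ := max D 0 with hD'
  have hD'0 : 0 ≤ D' := le_max_right _ _
  have hlin : ∀ v : E p q, MemLp (fun x => inner ℝ v x) 2 μ ∧
      ∫ x, (inner ℝ v x) ^ 2 ∂μ ≤ D' ^ 2 * ‖v‖ ^ 2 := by
    intro v
    have h1 := hD (innerSL ℝ v)
    rw [hmean] at h1
    simp only [sub_zero, innerSL_apply_apply, innerSL_apply_norm] at h1
    have hml : MemLp (fun x => inner ℝ v x) 2 μ :=
      ⟨(continuous_const.inner continuous_id).aestronglyMeasurable,
        lt_of_le_of_lt h1 ENNReal.ofReal_lt_top⟩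
    refine ⟨hml, ?_⟩
    rw [hml.eLpNorm_eq_integral_rpow_norm (by norm_num) (by norm_num)] at h1
    simp only [ENNReal.toReal_ofNat, Real.norm_eq_abs] at h1
    have h2 : (fun x : E p q => |(inner ℝ v x : ℝ)| ^ (2 : ℝ)) = fun x => (inner ℝ v x) ^ 2 := by
      funext x
      rw [Real.rpow_two, sq_abs]
    rw [h2] at h1
    set J := ∫ x, (inner ℝ v x) ^ 2 ∂μ with hJ
    have hJ0 : 0 ≤ J := integral_nonneg fun x => sq_nonneg _
    have h3 : J ^ (2 : ℝ)⁻¹ ≤ D' * ‖v‖ := by
      rcases ENNReal.ofReal_le_ofReal_iff'.1 h1 with h | h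
      · exact h.trans (mul_le_mul_of_nonneg_right (le_max_left _ _) (norm_nonneg _))
      · exact h.trans (mul_nonneg hD'0 (norm_nonneg _))
    have h4 : J = (J ^ (2 : ℝ)⁻¹) ^ 2 := by
      rw [← Real.rpow_natCast, ← Real.rpow_mul hJ0]
      norm_num
    rw [h4, ← mul_pow]
    exact pow_le_pow_left₀ (Real.rpow_nonneg hJ0 _) h3 2
  have hnorm2 : Integrable (fun x : E p q => ‖x‖ ^ 2) μ := by
    have h1 : (fun x : E p q => ‖x‖ ^ 2) =
        fun x => ∑ i, (inner ℝ (EuclideanSpace.single i (1 : ℝ)) x) ^ 2 := by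
      funext x
      rw [EuclideanSpace.norm_sq_eq]
      refine Finset.sum_congr rfl fun i _ => ?_
      rw [EuclideanSpace.inner_single_left]
      simp
    rw [h1]
    exact integrable_finsetSum _ fun i _ => (hlin _).1.integrable_sq
  -- the test function
  rintro f ⟨L, hf⟩
  have hfm : AEStronglyMeasurable f μ := hf.continuous.aestronglyMeasurable
  have hnm : MemLp (fun x : E p q => ‖x‖) 2 μ :=
    (memLp_two_iff_integrable_sq continuous_norm.aestronglyMeasurable).2 hnorm2
  have hf2 : MemLp f 2 μ := by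
    have h0a : MemLp (fun _ : E p q => |f 0|) 2 μ := memLp_const _
    have h0b : MemLp (fun x : E p q => (L : ℝ) * ‖x‖) 2 μ := hnm.const_mul (L : ℝ)
    have h1 : MemLp (fun x : E p q => |f 0| + L * ‖x‖) 2 μ := h0a.add h0b
    refine h1.mono hfm (Eventually.of_forall fun x => ?_)
    have h2 := hf.dist_le_mul x 0
    rw [Real.dist_eq, dist_zero_right] at h2
    have h3 : |f x| ≤ |f 0| + |f x - f 0| := by
      have := abs_add_le (f 0) (f x - f 0)
      rwa [add_sub_cancel] at this
    rw [Real.norm_eq_abs, Real.norm_eq_abs]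
    refine (h3.trans (add_le_add_right h2 _)).trans (le_abs_self _)
  have hfi : Integrable f μ := hf2.integrable (by norm_num)
  have hf2i : Integrable (fun x => f x ^ 2) μ := hf2.integrable_sq
  have hgm : Measurable fun x : E p q => ‖fderiv ℝ f x‖ := (measurable_fderiv ℝ f).norm
  have hgb : ∀ x, ‖fderiv ℝ f x‖ ≤ L := fun x => norm_fderiv_le_of_lipschitz ℝ hf
  have hg2 : MemLp (fun x => ‖fderiv ℝ f x‖) 2 μ :=
    MemLp.of_bound hgm.aestronglyMeasurable L (Eventually.of_forall fun x => by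
      rw [norm_norm]; exact hgb x)
  have hg2i : Integrable (fun x => ‖fderiv ℝ f x‖ ^ 2) μ := hg2.integrable_sq
  set m := ∫ y, f y ∂μ with hmdef
  set G := ∫ x, ‖fderiv ℝ f x‖ ^ 2 ∂μ with hG
  have hG0 : 0 ≤ G := integral_nonneg fun x => sq_nonneg _
  have key : ∫ x, (f x - m) ^ 2 ∂μ ≤ (K * D') ^ 2 * G := by
    set hT : ℕ → E p q → ℝ := fun n => (Metric.closedBall (0 : E p q) n).indicator h with hhT
    have hT0 : ∀ n x, 0 ≤ hT n x := fun n x => indicator_nonneg (fun x _ => h0 x) x
    have hTm : ∀ n, Measurable (hT n) := fun n =>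
      hm.indicator Metric.isClosed_closedBall.measurableSet
    have hTle : ∀ n x, hT n x ≤ h x := fun n x => indicator_le_self' (fun x _ => h0 x) x
    have hTi : ∀ n, Integrable (hT n) := fun n =>
      hi.indicator Metric.isClosed_closedBall.measurableSet
    have hgT : ∀ {g : E p q → ℝ}, Measurable g → Integrable g μ → ∀ n,
        Integrable fun x => g x * hT n x := by
      intro g hgm' hg n
      refine (hii.1 hg).mono (hgm'.mul (hTm n)).aestronglyMeasurable
        (Eventually.of_forall fun x => ?_)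
      rw [norm_mul, norm_mul]
      refine mul_le_mul_of_nonneg_left ?_ (norm_nonneg _)
      rw [Real.norm_eq_abs, Real.norm_eq_abs, abs_of_nonneg (hT0 n x), abs_of_nonneg (h0 x)]
      exact hTle n x
    set M : ℕ → ℝ := fun n => ∫ x, hT n x with hM
    set A1 : ℕ → ℝ := fun n => ∫ x, f x * hT n x with hA1
    set A2 : ℕ → ℝ := fun n => ∫ x, f x ^ 2 * hT n x with hA2
    set Gn : ℕ → ℝ := fun n => ∫ x, ‖fderiv ℝ f x‖ ^ 2 * hT n x with hGn
    have hMlim : Tendsto M atTop (𝓝 1) := by
      have h1 := trunc_lim h0 hm hμ (integrable_const (1 : ℝ))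
      simp only [one_mul, integral_const, probReal_univ, smul_eq_mul, mul_one] at h1
      exact h1
    have hA1lim : Tendsto A1 atTop (𝓝 m) := trunc_lim h0 hm hμ hfi
    have hA2lim : Tendsto A2 atTop (𝓝 (∫ x, f x ^ 2 ∂μ)) := trunc_lim h0 hm hμ hf2i
    have hGlim : Tendsto Gn atTop (𝓝 G) := trunc_lim h0 hm hμ hg2i
    have hev : ∀ᶠ n : ℕ in atTop, 0 < M n := hMlim.eventually_const_lt (by norm_num)
    have hineq : ∀ᶠ n : ℕ in atTop, A2 n - A1 n ^ 2 / M n ≤
        K ^ 2 * (D' + 1 / ((n : ℝ) + 1)) ^ 2 / M n * Gn n := by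
      filter_upwards [hev] with n hn
      have hW : LCW (hT n) n B := trunc_LCW h0 hm hLC hB hn
      set s : ℝ := D' + 1 / ((n : ℝ) + 1) with hs
      have hs0 : 0 < s := by positivity
      have hsD : D' ≤ s := by rw [hs]; have : (0 : ℝ) < 1 / ((n : ℝ) + 1) := by positivity
                              linarith
      set σ : ℝ := s / Real.sqrt (M n) with hσ
      have hsq : 0 < Real.sqrt (M n) := Real.sqrt_pos.2 hn
      have hσ0 : 0 < σ := div_pos hs0 hsq
      have hσ2 : σ ^ 2 = s ^ 2 / M n := by rw [hσ, div_pow, Real.sq_sqrt hn.le]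
      have hTinv : ∀ O : Matrix (Fin q) (Fin q) ℝ, O * Oᵀ = 1 → ∀ x, hT n (rm O x) = hT n x := by
        intro O hO x
        simp only [hhT]
        by_cases hx : x ∈ Metric.closedBall (0 : E p q) n
        · have hx' : rm O x ∈ Metric.closedBall (0 : E p q) n := by
            rw [mem_closedBall_zero_iff] at hx ⊢
            rwa [rm_norm hO]
          rw [indicator_of_mem hx, indicator_of_mem hx', hinv O hO x]
        · have hx' : rm O x ∉ Metric.closedBall (0 : E p q) n := by
            rw [mem_closedBall_zero_iff] at hx ⊢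
            rwa [rm_norm hO]
          rw [indicator_of_notMem hx, indicator_of_notMem hx']
      have hTlin : ∀ θ : E p q, ∫ x, (inner ℝ θ x) ^ 2 * hT n x ≤
          σ ^ 2 * ‖θ‖ ^ 2 * ∫ x, hT n x := by
        intro θ
        have hsqi : Integrable (fun x => (inner ℝ θ x) ^ 2) μ := (hlin θ).1.integrable_sq
        have hsm : Measurable fun x : E p q => (inner ℝ θ x : ℝ) ^ 2 :=
          ((continuous_const.inner continuous_id).pow 2).measurable
        have h1 : ∫ x, (inner ℝ θ x) ^ 2 * hT n x ≤ ∫ x, (inner ℝ θ x) ^ 2 ∂μ := by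
          rw [hIm]
          refine integral_mono (hgT hsm hsqi n) (hii.1 hsqi) fun x => ?_
          exact mul_le_mul_of_nonneg_left (hTle n x) (sq_nonneg _)
        have h2 : σ ^ 2 * ‖θ‖ ^ 2 * ∫ x, hT n x = s ^ 2 * ‖θ‖ ^ 2 := by
          rw [hσ2]
          change s ^ 2 / M n * ‖θ‖ ^ 2 * M n = _
          field_simp
        rw [h2]
        refine (h1.trans (hlin θ).2).trans (mul_le_mul_of_nonneg_right ?_ (sq_nonneg _))
        exact pow_le_pow_left₀ hD'0 hsD 2
      have hm' : ∫ x, f x * hT n x = (A1 n / M n) * ∫ x, hT n x := by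
        change A1 n = A1 n / M n * M n
        field_simp
      have hcore := core (hT n) n B hW hTinv σ hσ0 hTlin f L hf (A1 n / M n) hm'
      have hexp : ∫ x, (f x - A1 n / M n) ^ 2 * hT n x = A2 n - A1 n ^ 2 / M n := by
        set c := A1 n / M n with hc
        have h1 : ∀ x, (f x - c) ^ 2 * hT n x =
            f x ^ 2 * hT n x - 2 * c * (f x * hT n x) + c ^ 2 * hT n x := fun x => by ring
        have hi1 : Integrable fun x => f x ^ 2 * hT n x :=
          hgT (hf.continuous.pow 2).measurable hf2i n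
        have hi2 : Integrable fun x => 2 * c * (f x * hT n x) :=
          (hgT hf.continuous.measurable hfi n).const_mul _
        have hi3 : Integrable fun x => c ^ 2 * hT n x := (hTi n).const_mul _
        simp only [h1]
        have hi12 : Integrable fun x => f x ^ 2 * hT n x - 2 * c * (f x * hT n x) := hi1.sub hi2
        rw [integral_add hi12 hi3, integral_sub hi1 hi2, integral_const_mul, integral_const_mul]
        change A2 n - 2 * c * A1 n + c ^ 2 * M n = _
        rw [hc]
        field_simp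
        ring
      rw [hexp] at hcore
      refine hcore.trans (le_of_eq ?_)
      change (K * σ) ^ 2 * Gn n = _
      rw [mul_pow, hσ2]
      ring
    have hsmall : Tendsto (fun n : ℕ => D' + 1 / ((n : ℝ) + 1)) atTop (𝓝 (D' + 0)) :=
      tendsto_const_nhds.add tendsto_one_div_add_atTop_nhds_zero_nat
    have hL : Tendsto (fun n => A2 n - A1 n ^ 2 / M n) atTop
        (𝓝 ((∫ x, f x ^ 2 ∂μ) - m ^ 2 / 1)) :=
      hA2lim.sub ((hA1lim.pow 2).div hMlim one_ne_zero)
    have hR : Tendsto (fun n : ℕ => K ^ 2 * (D' + 1 / ((n : ℝ) + 1)) ^ 2 / M n * Gn n) atTop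
        (𝓝 (K ^ 2 * (D' + 0) ^ 2 / 1 * G)) :=
      (((tendsto_const_nhds.mul (hsmall.pow 2)).div hMlim one_ne_zero)).mul hGlim
    have hfin := le_of_tendsto_of_tendsto hL hR hineq
    have hvar : ∫ x, (f x - m) ^ 2 ∂μ = (∫ x, f x ^ 2 ∂μ) - m ^ 2 := by
      have h1 : ∀ x, (f x - m) ^ 2 = f x ^ 2 - 2 * m * f x + m ^ 2 := fun x => by ring
      simp only [h1]
      have hi12 : Integrable (fun x => f x ^ 2 - 2 * m * f x) μ := hf2i.sub (hfi.const_mul _)
      rw [integral_add hi12 (integrable_const _), integral_sub hf2i (hfi.const_mul _),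
        integral_const_mul, integral_const, probReal_univ, ← hmdef]
      simp only [smul_eq_mul, one_mul]
      ring
    rw [hvar]
    rw [add_zero, div_one, div_one] at hfin
    rw [mul_pow]
    exact hfin
  have hFm : MemLp (fun x => f x - m) 2 μ := hf2.sub (memLp_const _)
  rw [hFm.eLpNorm_eq_integral_rpow_norm (by norm_num) (by norm_num),
    hg2.eLpNorm_eq_integral_rpow_norm (by norm_num) (by norm_num)]
  have hKD : ENNReal.ofReal (K * D) = ENNReal.ofReal (K * D') := by
    rcases le_total 0 D with hd | hd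
    · rw [hD', max_eq_left hd]
    · rw [hD', max_eq_right hd, mul_zero, ENNReal.ofReal_zero]
      exact ENNReal.ofReal_of_nonpos (mul_nonpos_of_nonneg_of_nonpos hK hd)
  rw [hKD, ← ENNReal.ofReal_mul (mul_nonneg hK hD'0)]
  refine ENNReal.ofReal_le_ofReal ?_
  simp only [ENNReal.toReal_ofNat, Real.norm_eq_abs, Real.rpow_two, sq_abs, abs_norm]
  rw [← hG]
  have h1 : (K * D') * G ^ (2 : ℝ)⁻¹ = ((K * D') ^ 2 * G) ^ (2 : ℝ)⁻¹ := by
    rw [Real.mul_rpow (sq_nonneg _) hG0, ← Real.rpow_natCast, ← Real.rpow_mul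
      (mul_nonneg hK hD'0)]
    norm_num
  rw [h1]
  exact Real.rpow_le_rpow (integral_nonneg fun x => sq_nonneg _) key (by norm_num)

end Pool.Agent.Lib.MP_8d00da_gt.h25
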