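import Mathlib
import Pool.Agent.Lib.MP_8d00da_gt.h25.Chain

/-!
# Poincaré inequality for invariant functions
-/

namespace Pool.Agent.Lib.MP_8d00da_gt.h25

open MeasureTheory Set Filter
open scoped Topology NNReal

variable {F : Type*} [NormedAddCommGroup F] [InnerProductSpace ℝ F]
    [FiniteDimensional ℝ F] [MeasurableSpace F] [BorelSpace F]

variable {h : F → ℝ} {B : ℝ} {L : ℝ≥0}

/-- A crude a priori Poincaré inequality on bounded supports. -/
lemma a_priori (H : Wt h B) (hi : Integrable h) {r : ℝ} (hr : ∀ x, r < ‖x‖ → h x = 0)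
    {f : F → ℝ} (hf : LipschitzWith L f) {A : ℝ} (hA : ∀ x, |f x| ≤ A)
    (hm : ∫ x, f x * h x = 0) :
    ∫ x, f x ^ 2 * h x ≤ Real.exp (r ^ 2 / 2) * En h f := by
  have hfm : Measurable f := hf.continuous.measurable
  set a := AA h 1 f 0 with ha
  have hdm : Measurable fun x => ‖fderiv ℝ f x‖ ^ 2 := (measurable_fderiv ℝ f).norm.pow_const 2
  have i1 : Integrable fun x => ‖fderiv ℝ f x‖ ^ 2 * h x := bdd_int hi hdm (sq_fderiv_bdd hf)
  have i2 : Integrable fun x => (f x - a) ^ 2 * h x :=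
    bdd_int hi ((hfm.sub_const a).pow_const 2) (Wt.sq_bdd (Wt.sub_bdd hA))
  have i3 : Integrable fun x => f x ^ 2 * h x := bdd_int hi (hfm.pow_const 2) (Wt.sq_bdd hA)
  have i4 : Integrable fun x => f x * h x := bdd_int hi hfm hA
  have h1 : VV h 1 f 0 ≤ En h f := by
    refine (H.poin one_pos hf hA 0).trans ?_
    rw [one_mul]
    refine integral_mono (cv_integrable one_pos (hdm.mul H.meas) (H.mul_bdd (sq_fderiv_bdd hf)) 0) i1
      fun x => ?_
    have h2 : 0 ≤ ‖fderiv ℝ f x‖ ^ 2 * h x := mul_nonneg (sq_nonneg _) (H.nonneg x)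
    calc ‖fderiv ℝ f x‖ ^ 2 * h x * ker 1 (0 - x) ≤ ‖fderiv ℝ f x‖ ^ 2 * h x * 1 :=
          mul_le_mul_of_nonneg_left (ker_le_one one_pos _) h2
      _ = _ := mul_one _
  have h2 : Real.exp (-(r ^ 2 / 2)) * ∫ x, (f x - a) ^ 2 * h x ≤ VV h 1 f 0 := by
    unfold VV
    rw [← integral_const_mul]
    refine integral_mono (i2.const_mul _) (H.tilt_integrable one_pos ((hfm.sub_const a).pow_const 2)
      (Wt.sq_bdd (Wt.sub_bdd hA)) 0) fun x => ?_
    simp only
    by_cases hx : r < ‖x‖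
    · rw [hr x hx]; simp
    · push Not at hx
      have h3 : Real.exp (-(r ^ 2 / 2)) ≤ ker 1 (0 - x) := by
        unfold ker
        apply Real.exp_le_exp.2
        rw [zero_sub, norm_neg]
        have : ‖x‖ ^ 2 ≤ r ^ 2 := pow_le_pow_left₀ (norm_nonneg _) hx 2
        linarith
      have h4 : 0 ≤ (f x - a) ^ 2 * h x := mul_nonneg (sq_nonneg _) (H.nonneg x)
      rw [← ha]
      calc Real.exp (-(r ^ 2 / 2)) * ((f x - a) ^ 2 * h x)
          ≤ ker 1 (0 - x) * ((f x - a) ^ 2 * h x) := mul_le_mul_of_nonneg_right h3 h4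
        _ = _ := by ring
  have h3 : ∫ x, f x ^ 2 * h x ≤ ∫ x, (f x - a) ^ 2 * h x := by
    have e : (fun x => (f x - a) ^ 2 * h x) =
        fun x => f x ^ 2 * h x - (2 * a) * (f x * h x) + a ^ 2 * h x := by ext x; ring
    have i5 : Integrable fun x => f x ^ 2 * h x - (2 * a) * (f x * h x) := i3.sub (i4.const_mul _)
    rw [e, integral_add i5 (hi.const_mul _), integral_sub i3 (i4.const_mul _),
      integral_const_mul, hm, integral_const_mul]
    have : 0 ≤ a ^ 2 * ∫ x, h x := mul_nonneg (sq_nonneg _) (integral_nonneg H.nonneg)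
    linarith
  have h4 : Real.exp (r ^ 2 / 2) * Real.exp (-(r ^ 2 / 2)) = 1 := by
    rw [← Real.exp_add]; simp
  calc ∫ x, f x ^ 2 * h x ≤ ∫ x, (f x - a) ^ 2 * h x := h3
    _ = Real.exp (r ^ 2 / 2) * (Real.exp (-(r ^ 2 / 2)) * ∫ x, (f x - a) ^ 2 * h x) := by
        rw [← mul_assoc, h4, one_mul]
    _ ≤ _ := mul_le_mul_of_nonneg_left (h2.trans h1) (Real.exp_pos _).le

/-- **Poincaré inequality for invariant functions.** If `|∇f|² ≤ C |D²f|²` holds on the support of
the log-concave weight `h` for all smooth `G`-invariant functions, then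
`∫ f² h ≤ 2 C ∫ |∇f|² h` for all `G`-invariant functions of mean zero. -/
theorem inv_poincare (H : Wt h B) (hi : Integrable h) {r : ℝ} (hr : ∀ x, r < ‖x‖ → h x = 0)
    {ι : Type*} [Fintype ι] (b : OrthonormalBasis ι ℝ F)
    {G : Set (F ≃ₗᵢ[ℝ] F)} {C : ℝ} (hC : 0 ≤ C) (hN : HessIneq b G h C)
    (hGh : ∀ T ∈ G, ∀ x, h (T x) = h x)
    {f : F → ℝ} (hf : LipschitzWith L f) {A : ℝ} (hA : ∀ x, |f x| ≤ A)
    (hGf : ∀ T ∈ G, ∀ x, f (T x) = f x) (hm : ∫ x, f x * h x = 0) :
    ∫ x, f x ^ 2 * h x ≤ 2 * C * En h f := by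
  -- for every η
  have key : ∀ η : ℝ, 0 < η → ∫ x, f x ^ 2 * h x ≤ 2 * (η + C) * En h f := by
    intro η hη
    set θ : ℝ := C / (η + C) with hθ
    have hθ0 : 0 ≤ θ := by positivity
    have hθ1 : θ < 1 := by
      rw [hθ, div_lt_one (by positivity)]; linarith
    have hθM : θ * (2 * (η + C)) = 2 * C := by rw [hθ]; field_simp
    set C0 : ℝ := Real.exp (r ^ 2 / 2) with hC0
    have it : ∀ k : ℕ, ∀ (f : F → ℝ) (L : ℝ≥0), LipschitzWith L f → ∀ A : ℝ, (∀ x, |f x| ≤ A) →
        (∀ T ∈ G, ∀ x, f (T x) = f x) → ∫ x, f x * h x = 0 →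
        ∫ x, f x ^ 2 * h x ≤ (2 * (η + C) + θ ^ k * (C0 - 2 * (η + C))) * En h f := by
      intro k
      induction k with
      | zero =>
        intro f L hf A hA _ hm
        have := a_priori H hi hr hf hA hm
        rw [← hC0] at this
        simpa using this
      | succ k ih =>
        intro f L hf A hA hGf hm
        obtain ⟨hA', L', hL'⟩ := RT_props H hη hf hA
        have h1 := round_var H hi hη hf hA
        have h2 := round_energy H hi hη hf hA b hC hN hGh hGf
        have hinv : ∀ T ∈ G, ∀ x, RT h η f (T x) = RT h η f x := fun T hT x =>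
          AA_comp T (fun _ => rfl) (fun y => AA_comp T (hGh T hT) (hGf T hT) y) x
        have hm' : ∫ x, RT h η f x * h x = 0 := by
          rw [round_mean H hi hη hf hA, hm]
        have h3 := ih (RT h η f) L' hL' A hA' hinv hm'
        rw [← hθ] at h2
        have hM : 0 ≤ 2 * (η + C) + θ ^ k * (C0 - 2 * (η + C)) := by
          have h4 : 0 ≤ θ ^ k := pow_nonneg hθ0 k
          have h5 : θ ^ k ≤ 1 := pow_le_one₀ hθ0 hθ1.le
          have h6 : 0 ≤ C0 := (Real.exp_pos _).le
          have h7 : 0 ≤ 2 * (η + C) := by positivity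
          nlinarith [mul_nonneg h4 h6, mul_nonneg (sub_nonneg.2 h5) h7]
        have h4 := mul_le_mul_of_nonneg_left h2 hM
        calc ∫ x, f x ^ 2 * h x ≤ 2 * η * En h f + ∫ x, RT h η f x ^ 2 * h x := h1
          _ ≤ 2 * η * En h f + (2 * (η + C) + θ ^ k * (C0 - 2 * (η + C))) * (θ * En h f) := by
              linarith
          _ = (2 * η + θ * (2 * (η + C)) + θ ^ (k + 1) * (C0 - 2 * (η + C))) * En h f := by
              rw [pow_succ]; ring
          _ = _ := by rw [hθM]; ring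
    have hlim : Tendsto (fun k : ℕ => (2 * (η + C) + θ ^ k * (C0 - 2 * (η + C))) * En h f) atTop
        (𝓝 ((2 * (η + C) + 0 * (C0 - 2 * (η + C))) * En h f)) :=
      (((tendsto_pow_atTop_nhds_zero_of_lt_one hθ0 hθ1).mul_const _).const_add _).mul_const _
    have := ge_of_tendsto' hlim fun k => it k f L hf A hA hGf hm
    simpa using this
  have hlim : Tendsto (fun n : ℕ => 2 * (1 / ((n : ℝ) + 1) + C) * En h f) atTop
      (𝓝 (2 * (0 + C) * En h f)) :=
    ((tendsto_one_div_add_atTop_nhds_zero_nat.add_const C).const_mul 2).mul_const _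
  have := ge_of_tendsto' hlim fun n => key (1 / ((n : ℝ) + 1)) (by positivity)
  simpa using this

end Pool.Agent.Lib.MP_8d00da_gt.h25
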