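import Mathlib
import Pool.Agent.Lib.MP_8d00da_gt.h25.Cls

/-!
# The far tail
-/

namespace Pool.Agent.Lib.MP_8d00da_gt.h25

open MeasureTheory Set Filter Matrix
open Pool.Agent.Lib.MP_8d00da_gt.h42
open scoped Topology NNReal

section LL

variable {F : Type*} [NormedAddCommGroup F] [InnerProductSpace ℝ F]
    [FiniteDimensional ℝ F]

/-- The local Lipschitz constant of `g` at `x` is at most `c`. -/
def LL (g : F → ℝ) (x : F) (c : ℝ) : Prop :=
  ∀ ε > 0, ∀ᶠ y in 𝓝 x, |g y - g x| ≤ (c + ε) * ‖y - x‖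

lemma LL.of_diff {g : F → ℝ} {x : F} (hg : DifferentiableAt ℝ g x) : LL g x ‖fderiv ℝ g x‖ := by
  intro ε hε
  have h := hg.hasFDerivAt.isLittleO
  rw [Asymptotics.isLittleO_iff] at h
  filter_upwards [h hε] with y hy
  have h1 : |fderiv ℝ g x (y - x)| ≤ ‖fderiv ℝ g x‖ * ‖y - x‖ := by
    rw [← Real.norm_eq_abs]; exact ContinuousLinearMap.le_opNorm _ _
  have h2 : g y - g x = (g y - g x - fderiv ℝ g x (y - x)) + fderiv ℝ g x (y - x) := by ring
  rw [h2]
  refine (abs_add_le _ _).trans ?_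
  rw [Real.norm_eq_abs] at hy
  linarith

lemma LL.fderiv_le {g : F → ℝ} {x : F} {c : ℝ} (hc : 0 ≤ c) (h : LL g x c) :
    ‖fderiv ℝ g x‖ ≤ c := by
  refine le_of_forall_pos_le_add fun ε hε => ?_
  exact norm_fderiv_le_of_lip' ℝ (by positivity) (by
    filter_upwards [h ε hε] with y hy
    rw [Real.norm_eq_abs]; exact hy)

lemma LL.cont {g : F → ℝ} {x : F} {c : ℝ} (h : LL g x c) : ContinuousAt g x := by
  rw [Metric.continuousAt_iff']
  intro ε hε
  have h1 := h 1 one_pos
  have h2 : ∀ᶠ y in 𝓝 x, (|c| + 1) * ‖y - x‖ < ε := by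
    have : Tendsto (fun y => (|c| + 1) * ‖y - x‖) (𝓝 x) (𝓝 ((|c| + 1) * ‖x - x‖)) := by
      refine Continuous.tendsto (by fun_prop) x
    rw [sub_self, norm_zero, mul_zero] at this
    exact this.eventually (gt_mem_nhds hε)
  filter_upwards [h1, h2] with y hy1 hy2
  rw [Real.dist_eq]
  have h3 : (c + 1) * ‖y - x‖ ≤ (|c| + 1) * ‖y - x‖ :=
    mul_le_mul_of_nonneg_right (by linarith [le_abs_self c]) (norm_nonneg _)
  linarith

lemma LL.mul {g g' : F → ℝ} {x : F} {c c' : ℝ} (hc' : 0 ≤ c') (h : LL g x c)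
    (h' : LL g' x c') : LL (fun y => g y * g' y) x (|g x| * c' + |g' x| * c) := by
  intro ε hε
  obtain ⟨δ, hδ, hδ'⟩ : ∃ δ > 0, (|g x| + δ) * (c' + δ) + |g' x| * (c + δ) ≤
      |g x| * c' + |g' x| * c + ε := by
    have t : Tendsto (fun δ : ℝ => (|g x| + δ) * (c' + δ) + |g' x| * (c + δ)) (𝓝[>] 0)
        (𝓝 ((|g x| + 0) * (c' + 0) + |g' x| * (c + 0))) :=
      (Continuous.tendsto (by fun_prop) 0).mono_left nhdsWithin_le_nhds
    have h1 : (|g x| + 0) * (c' + 0) + |g' x| * (c + 0) < |g x| * c' + |g' x| * c + ε := by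
      simp only [add_zero]; linarith
    obtain ⟨δ, hδ1, hδ2⟩ := ((t.eventually (gt_mem_nhds h1)).and self_mem_nhdsWithin).exists
    exact ⟨δ, hδ2, hδ1.le⟩
  have h3 : ∀ᶠ y in 𝓝 x, |g y| < |g x| + δ :=
    h.cont.abs.eventually (gt_mem_nhds (by linarith))
  filter_upwards [h δ hδ, h' δ hδ, h3] with y hy hy' hy3
  have e : g y * g' y - g x * g' x = g y * (g' y - g' x) + (g y - g x) * g' x := by ring
  rw [e]
  refine (abs_add_le _ _).trans ?_
  rw [abs_mul, abs_mul]
  have hn : 0 ≤ ‖y - x‖ := norm_nonneg _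
  have i1 : |g y| * |g' y - g' x| ≤ (|g x| + δ) * ((c' + δ) * ‖y - x‖) :=
    mul_le_mul hy3.le hy' (abs_nonneg _) (by positivity)
  have i2 : |g y - g x| * |g' x| ≤ ((c + δ) * ‖y - x‖) * |g' x| :=
    mul_le_mul_of_nonneg_right hy (abs_nonneg _)
  have i3 := mul_le_mul_of_nonneg_right hδ' hn
  calc |g y| * |g' y - g' x| + |g y - g x| * |g' x|
      ≤ (|g x| + δ) * ((c' + δ) * ‖y - x‖) + ((c + δ) * ‖y - x‖) * |g' x| := add_le_add i1 i2
    _ = ((|g x| + δ) * (c' + δ) + |g' x| * (c + δ)) * ‖y - x‖ := by ring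
    _ ≤ _ := i3

end LL

/-- The cut-off profile. -/
noncomputable def wf (R s : ℝ) : ℝ := min (1 / R - 1 / max s R) (1 / max s R)

section wf

variable {R s t : ℝ}

lemma wf_nonneg (hR : 0 < R) (s : ℝ) : 0 ≤ wf R s := by
  have h1 : R ≤ max s R := le_max_right _ _
  refine le_min ?_ (by positivity)
  rw [sub_nonneg]
  exact one_div_le_one_div_of_le hR h1

lemma wf_zero (hR : 0 < R) (hs : s ≤ R) : wf R s = 0 := by
  unfold wf
  rw [max_eq_right hs, sub_self]
  exact min_eq_left (by positivity)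

lemma wf_far (hR : 0 < R) (hs : 2 * R ≤ s) : s * wf R s = 1 := by
  have hs0 : 0 < s := by linarith
  unfold wf
  rw [max_eq_left (by linarith), min_eq_right]
  · field_simp
  · have h1 : 1 / s ≤ 1 / (2 * R) := one_div_le_one_div_of_le (by positivity) hs
    have h2 : 1 / (2 * R) + 1 / (2 * R) = 1 / R := by field_simp; norm_num
    linarith

lemma wf_mul_le (hR : 0 < R) (hs : 0 ≤ s) : s * wf R s ≤ 1 := by
  have h1 : wf R s ≤ 1 / max s R := min_le_right _ _
  have h2 : 0 < max s R := lt_max_of_lt_right hR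
  calc s * wf R s ≤ s * (1 / max s R) := mul_le_mul_of_nonneg_left h1 hs
    _ ≤ 1 := by
      rw [mul_one_div, div_le_one h2]
      exact le_max_left _ _

lemma wf_sub (hR : 0 < R) (s t : ℝ) : |wf R s - wf R t| ≤ |s - t| / (max s R * max t R) := by
  have h1 : |wf R s - wf R t| ≤ max |(1 / R - 1 / max s R) - (1 / R - 1 / max t R)|
      |1 / max s R - 1 / max t R| := abs_min_sub_min_le_max _ _ _ _
  have e1 : |(1 / R - 1 / max s R) - (1 / R - 1 / max t R)| = |1 / max s R - 1 / max t R| := by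
    rw [show (1 / R - 1 / max s R) - (1 / R - 1 / max t R) = -(1 / max s R - 1 / max t R) by ring,
      abs_neg]
  rw [e1, max_self] at h1
  refine h1.trans ?_
  have hs : 0 < max s R := lt_max_of_lt_right hR
  have ht : 0 < max t R := lt_max_of_lt_right hR
  have e2 : 1 / max s R - 1 / max t R = (max t R - max s R) / (max s R * max t R) := by
    field_simp
  rw [e2, abs_div, abs_of_pos (mul_pos hs ht)]
  refine div_le_div_of_nonneg_right ?_ (by positivity)
  have h3 := abs_max_sub_max_le_abs t s R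
  rw [abs_sub_comm s t]
  exact h3

lemma wf_lip (hR : 0 < R) (s t : ℝ) : |wf R s - wf R t| ≤ 1 / R ^ 2 * |s - t| := by
  refine (wf_sub hR s t).trans ?_
  rw [div_eq_inv_mul, one_div]
  refine mul_le_mul_of_nonneg_right ?_ (abs_nonneg _)
  refine inv_anti₀ (by positivity) ?_
  rw [sq]
  exact mul_le_mul (le_max_right _ _) (le_max_right _ _) hR.le (hR.le.trans (le_max_right _ _))

lemma wf_le (hR : 0 < R) (s : ℝ) : wf R s ≤ 1 / R := by
  have h1 : wf R s ≤ 1 / max s R := min_le_right _ _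
  exact h1.trans (one_div_le_one_div_of_le hR (le_max_right _ _))

end wf

variable {p q : ℕ}

lemma LL_wf {R : ℝ} (hR : 0 < R) {x : E p q} (hx : R ≤ NN x) :
    LL (fun y => wf R (NN y)) x (1 / NN x ^ 2) := by
  intro ε hε
  have hN0 : 0 < NN x := lt_of_lt_of_le hR hx
  have hcont : Continuous (NN : E p q → ℝ) := NN_lip.continuous
  have h1 : ∀ᶠ y in 𝓝 x, 1 / (max (NN y) R * max (NN x) R) < 1 / NN x ^ 2 + ε := by
    have t : Tendsto (fun y => 1 / (max (NN y) R * max (NN x) R)) (𝓝 x)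
        (𝓝 (1 / (max (NN x) R * max (NN x) R))) := by
      refine Tendsto.div tendsto_const_nhds ?_ ?_
      · exact (Continuous.tendsto (by fun_prop) x)
      · have : 0 < max (NN x) R := lt_max_of_lt_right hR
        positivity
    refine t.eventually (gt_mem_nhds ?_)
    rw [max_eq_left hx, ← sq]
    linarith
  filter_upwards [h1] with y hy
  have h2 := wf_sub hR (NN y) (NN x)
  have h3 : |NN y - NN x| ≤ ‖y - x‖ := by
    have := NN_lip.dist_le_mul y x
    rw [Real.dist_eq, dist_eq_norm] at this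
    simpa using this
  have h4 : 0 < max (NN y) R * max (NN x) R :=
    mul_pos (lt_max_of_lt_right hR) (lt_max_of_lt_right hR)
  calc |wf R (NN y) - wf R (NN x)| ≤ |NN y - NN x| / (max (NN y) R * max (NN x) R) := h2
    _ = (1 / (max (NN y) R * max (NN x) R)) * |NN y - NN x| := by ring
    _ ≤ (1 / NN x ^ 2 + ε) * ‖y - x‖ := mul_le_mul hy.le h3 (abs_nonneg _) (by positivity)

/-- The test function. -/
noncomputable def ph (R : ℝ) (u : E p q → ℝ) (x : E p q) : ℝ := u x ^ 2 * wf R (NN x)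

lemma ph_nonneg {R : ℝ} (hR : 0 < R) (u : E p q → ℝ) (x : E p q) : 0 ≤ ph R u x :=
  mul_nonneg (sq_nonneg _) (wf_nonneg hR _)

lemma ph_lip {R : ℝ} (hR : 0 < R) {u : E p q → ℝ} {L : ℝ≥0} (hu : LipschitzWith L u) {A : ℝ}
    (hA : ∀ x, |u x| ≤ A) : ∃ L' : ℝ≥0, LipschitzWith L' (ph R u) := by
  have hA0 : 0 ≤ A := (abs_nonneg _).trans (hA 0)
  refine ⟨.mk (2 * A * L * (1 / R) + A ^ 2 * (1 / R ^ 2)) (by positivity), ?_⟩
  refine LipschitzWith.of_dist_le_mul fun x y => ?_
  rw [Real.dist_eq, NNReal.coe_mk, dist_eq_norm]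
  unfold ph
  have e : u x ^ 2 * wf R (NN x) - u y ^ 2 * wf R (NN y) =
      (u x - u y) * (u x + u y) * wf R (NN x) + u y ^ 2 * (wf R (NN x) - wf R (NN y)) := by ring
  rw [e]
  refine (abs_add_le _ _).trans ?_
  have h1 : |u x - u y| ≤ L * ‖x - y‖ := by
    have := hu.dist_le_mul x y
    rwa [Real.dist_eq, dist_eq_norm] at this
  have h2 : |u x + u y| ≤ 2 * A := (abs_add_le _ _).trans (by linarith [hA x, hA y])
  have h3 : |wf R (NN x) - wf R (NN y)| ≤ 1 / R ^ 2 * ‖x - y‖ := by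
    refine (wf_lip hR _ _).trans (mul_le_mul_of_nonneg_left ?_ (by positivity))
    have := NN_lip.dist_le_mul x y
    rw [Real.dist_eq, dist_eq_norm] at this
    simpa using this
  have h4 : |wf R (NN x)| ≤ 1 / R := by
    rw [abs_of_nonneg (wf_nonneg hR _)]; exact wf_le hR _
  have h5 : u y ^ 2 ≤ A ^ 2 := by
    rw [← sq_abs]; exact pow_le_pow_left₀ (abs_nonneg _) (hA y) 2
  rw [abs_mul, abs_mul, abs_mul, abs_of_nonneg (sq_nonneg (u y))]
  have h6 : |u x - u y| * |u x + u y| * |wf R (NN x)| ≤ (L * ‖x - y‖) * (2 * A) * (1 / R) := by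
    gcongr
  have h7 : u y ^ 2 * |wf R (NN x) - wf R (NN y)| ≤ A ^ 2 * (1 / R ^ 2 * ‖x - y‖) := by
    gcongr
  calc _ ≤ (L * ‖x - y‖) * (2 * A) * (1 / R) + A ^ 2 * (1 / R ^ 2 * ‖x - y‖) := add_le_add h6 h7
    _ = _ := by ring

lemma ph_fderiv_zero {R : ℝ} (hR : 0 < R) {u : E p q → ℝ} {x : E p q} (hx : NN x < R) :
    fderiv ℝ (ph R u) x = 0 := by
  have h1 : ph R u =ᶠ[𝓝 x] fun _ => 0 := by
    have h2 : {y : E p q | NN y < R} ∈ 𝓝 x :=
      (isOpen_lt NN_lip.continuous continuous_const).mem_nhds hx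
    filter_upwards [h2] with y hy
    unfold ph
    rw [wf_zero hR (le_of_lt hy), mul_zero]
  rw [h1.fderiv_eq]
  simp

lemma ph_fderiv_le {R : ℝ} (hR : 0 < R) {u : E p q → ℝ} {x : E p q} (hx : R ≤ NN x)
    (hu : DifferentiableAt ℝ u x) :
    ‖fderiv ℝ (ph R u) x‖ ≤ 2 * |u x| * ‖fderiv ℝ u x‖ * wf R (NN x) + u x ^ 2 * (1 / NN x ^ 2) := by
  have h1 := LL.of_diff hu
  have h2 := LL.mul (norm_nonneg _) h1 h1
  have h3 := LL.mul (by positivity : (0 : ℝ) ≤ 1 / NN x ^ 2) h2 (LL_wf hR hx)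
  have h4 : (fun y => u y * u y * wf R (NN y)) = ph R u := by
    ext y; unfold ph; ring
  rw [h4] at h3
  have h5 := h3.fderiv_le (by positivity)
  refine h5.trans (le_of_eq ?_)
  rw [abs_of_nonneg (wf_nonneg hR _), abs_mul_self]
  ring

/-- **The far tail.** -/
theorem far_tail {h : E p q → ℝ} {r B : ℝ} (H : LCW h r B) {β κ s R : ℝ} (hβ : 0 < β) (hR : 0 < R)
    (hs : 0 ≤ s) (hκ : κ ≤ β * R / 2) (hsR : s ≤ Real.sqrt q * R)
    (hent : ∀ (φ : E p q → ℝ) (L : ℝ≥0), LipschitzWith L φ → (∀ x, 0 ≤ φ x) →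
      ∫ x, φ x * (β * NN x) * h x ≤ (∫ x, φ x * h x) * κ +
        ∫ x, (‖x‖ + s) * ‖fderiv ℝ φ x‖ * h x)
    {u : E p q → ℝ} {L : ℝ≥0} (hu : LipschitzWith L u) {A : ℝ} (hA : ∀ x, |u x| ≤ A) :
    β / 2 * ∫ x, {x | 2 * R ≤ NN x}.indicator (fun x => u x ^ 2) x * h x ≤
      2 * Real.sqrt q * ∫ x, (2 * |u x| * ‖fderiv ℝ u x‖ + u x ^ 2 / R) * h x := by
  have hA0 : 0 ≤ A := (abs_nonneg _).trans (hA 0)
  obtain ⟨L', hL'⟩ := ph_lip hR hu hA
  have h1 := hent (ph R u) L' hL' (ph_nonneg hR u)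
  have hφm : Measurable (ph R u) := hL'.continuous.measurable
  have hum : Measurable u := hu.continuous.measurable
  have hNm : Measurable (NN : E p q → ℝ) := NN_lip.continuous.measurable
  have hsup : ∀ x, h x ≠ 0 → ‖x‖ ≤ r := fun x hx => by
    by_contra hc
    exact hx (H.supp x (not_le.1 hc))
  -- integrability of products with a function bounded on the support
  have hint : ∀ {g : E p q → ℝ}, Measurable g → ∀ M : ℝ, (∀ x, ‖x‖ ≤ r → |g x| ≤ M) →
      Integrable fun x => g x * h x := by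
    intro g hg M hM
    refine (H.int.const_mul M).mono' (hg.mul H.meas).aestronglyMeasurable
      (Eventually.of_forall fun x => ?_)
    by_cases hx : h x = 0
    · simp [hx]
    · rw [norm_mul, Real.norm_eq_abs, Real.norm_eq_abs, abs_of_nonneg (H.nonneg x)]
      exact mul_le_mul_of_nonneg_right (hM x (hsup x hx)) (H.nonneg x)
  have hφb : ∀ x, |ph R u x| ≤ A ^ 2 * (1 / R) := by
    intro x
    unfold ph
    rw [abs_mul, abs_of_nonneg (sq_nonneg _), abs_of_nonneg (wf_nonneg hR _)]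
    have h5 : u x ^ 2 ≤ A ^ 2 := by
      rw [← sq_abs]; exact pow_le_pow_left₀ (abs_nonneg _) (hA x) 2
    exact mul_le_mul h5 (wf_le hR _) (wf_nonneg hR _) (by positivity)
  have hNb : ∀ x : E p q, ‖x‖ ≤ r → |NN x| ≤ r := fun x hx => by
    rw [abs_of_nonneg (NN_nonneg x)]; exact (NN_le_norm x).trans hx
  have hubd : ∀ x, ‖fderiv ℝ u x‖ ≤ L := fun x => norm_fderiv_le_of_lipschitz ℝ hu
  have hφbd : ∀ x, ‖fderiv ℝ (ph R u) x‖ ≤ L' := fun x => norm_fderiv_le_of_lipschitz ℝ hL'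
  have i1 : Integrable fun x => ph R u x * (β * NN x) * h x := by
    refine hint (hφm.mul (hNm.const_mul β)) (A ^ 2 * (1 / R) * (β * r)) fun x hx => ?_
    rw [abs_mul, abs_mul, abs_of_pos hβ]
    exact mul_le_mul (hφb x) (mul_le_mul_of_nonneg_left (hNb x hx) hβ.le) (by positivity)
      (by positivity)
  have i2 : Integrable fun x => ph R u x * h x := hint hφm _ fun x _ => hφb x
  have i3 : Integrable fun x => (‖x‖ + s) * ‖fderiv ℝ (ph R u) x‖ * h x := by
    refine hint ((measurable_norm.add_const s).mul (measurable_fderiv ℝ _).norm) ((r + s) * L')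
      fun x hx => ?_
    rw [abs_mul, abs_norm, abs_of_nonneg (by positivity)]
    exact mul_le_mul (by linarith) (hφbd x) (norm_nonneg _)
      (by linarith [norm_nonneg x])
  have i4 : Integrable fun x => (2 * |u x| * ‖fderiv ℝ u x‖ + u x ^ 2 / R) * h x := by
    refine hint (((hum.abs.const_mul 2).mul (measurable_fderiv ℝ _).norm).add
      ((hum.pow_const 2).div_const R)) (2 * A * L + A ^ 2 / R) fun x _ => ?_
    have h5 : u x ^ 2 ≤ A ^ 2 := by
      rw [← sq_abs]; exact pow_le_pow_left₀ (abs_nonneg _) (hA x) 2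
    rw [abs_of_nonneg (by positivity)]
    refine add_le_add ?_ (div_le_div_of_nonneg_right h5 hR.le)
    exact mul_le_mul (by linarith [hA x]) (hubd x) (norm_nonneg _) (by positivity)
  have i5 : Integrable fun x => {x | 2 * R ≤ NN x}.indicator (fun x => u x ^ 2) x * h x := by
    refine hint ((hum.pow_const 2).indicator (measurableSet_le measurable_const hNm)) (A ^ 2)
      fun x _ => ?_
    have h5 : u x ^ 2 ≤ A ^ 2 := by
      rw [← sq_abs]; exact pow_le_pow_left₀ (abs_nonneg _) (hA x) 2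
    by_cases hx : x ∈ {x : E p q | 2 * R ≤ NN x}
    · rw [indicator_of_mem hx, abs_of_nonneg (sq_nonneg _)]; exact h5
    · rw [indicator_of_notMem hx, abs_zero]; positivity
  -- the right-hand side
  have h2 : ∫ x, (‖x‖ + s) * ‖fderiv ℝ (ph R u) x‖ * h x ≤
      2 * Real.sqrt q * ∫ x, (2 * |u x| * ‖fderiv ℝ u x‖ + u x ^ 2 / R) * h x := by
    rw [← integral_const_mul]
    refine integral_mono_ae i3 (i4.const_mul _) ?_
    filter_upwards [hu.ae_differentiableAt] with x hx
    rcases lt_or_ge (NN x) R with hlt | hge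
    · rw [ph_fderiv_zero hR hlt, norm_zero, mul_zero, zero_mul]
      have := H.nonneg x
      positivity
    · have hN0 : 0 < NN x := lt_of_lt_of_le hR hge
      have h3 := ph_fderiv_le hR hge hx
      have h4 : ‖x‖ ≤ Real.sqrt q * NN x := by
        have := norm_sq_le_NN_q x
        rw [← Real.sqrt_sq (norm_nonneg x)]
        calc Real.sqrt (‖x‖ ^ 2) ≤ Real.sqrt (q * NN x ^ 2) := Real.sqrt_le_sqrt this
          _ = Real.sqrt q * NN x := by
            rw [Real.sqrt_mul (Nat.cast_nonneg q), Real.sqrt_sq (NN_nonneg x)]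
      have h5 : ‖x‖ + s ≤ 2 * Real.sqrt q * NN x := by
        have : Real.sqrt q * R ≤ Real.sqrt q * NN x :=
          mul_le_mul_of_nonneg_left hge (Real.sqrt_nonneg _)
        linarith
      have h6 : (‖x‖ + s) * ‖fderiv ℝ (ph R u) x‖ ≤ 2 * Real.sqrt q *
          (2 * |u x| * ‖fderiv ℝ u x‖ + u x ^ 2 / R) := by
        calc (‖x‖ + s) * ‖fderiv ℝ (ph R u) x‖ ≤ (2 * Real.sqrt q * NN x) *
              (2 * |u x| * ‖fderiv ℝ u x‖ * wf R (NN x) + u x ^ 2 * (1 / NN x ^ 2)) :=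
              mul_le_mul h5 h3 (norm_nonneg _) (by positivity)
          _ = 2 * Real.sqrt q * (2 * |u x| * ‖fderiv ℝ u x‖ * (NN x * wf R (NN x)) +
              u x ^ 2 * (1 / NN x)) := by field_simp
          _ ≤ 2 * Real.sqrt q * (2 * |u x| * ‖fderiv ℝ u x‖ * 1 + u x ^ 2 * (1 / R)) := by
              refine mul_le_mul_of_nonneg_left (add_le_add ?_ ?_) (by positivity)
              · exact mul_le_mul_of_nonneg_left (wf_mul_le hR hN0.le) (by positivity)
              · exact mul_le_mul_of_nonneg_left (one_div_le_one_div_of_le hR hge) (sq_nonneg _)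
          _ = _ := by rw [mul_one, mul_one_div]
      calc (‖x‖ + s) * ‖fderiv ℝ (ph R u) x‖ * h x ≤ (2 * Real.sqrt q *
          (2 * |u x| * ‖fderiv ℝ u x‖ + u x ^ 2 / R)) * h x :=
            mul_le_mul_of_nonneg_right h6 (H.nonneg x)
        _ = _ := by ring
  -- the left-hand side
  have h3 : β / 2 * ∫ x, {x | 2 * R ≤ NN x}.indicator (fun x => u x ^ 2) x * h x ≤
      (∫ x, ph R u x * (β * NN x) * h x) - (∫ x, ph R u x * h x) * κ := by
    rw [← integral_mul_const, ← integral_sub i1 (i2.mul_const κ), ← integral_const_mul]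
    refine integral_mono (i5.const_mul _) (i1.sub (i2.mul_const κ)) fun x => ?_
    simp only
    have e : ph R u x * (β * NN x) * h x - ph R u x * h x * κ =
        u x ^ 2 * (wf R (NN x) * (β * NN x - κ)) * h x := by unfold ph; ring
    rw [e]
    have hwf := wf_nonneg hR (NN x)
    rcases lt_or_ge (NN x) R with hlt | hge
    · have hni : x ∉ {x : E p q | 2 * R ≤ NN x} := by
        simp only [mem_ofPred_eq, not_le]; linarith
      rw [indicator_of_notMem hni, wf_zero hR hlt.le]; simp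
    · have h4 : β * NN x / 2 ≤ β * NN x - κ := by
        have : β * R / 2 ≤ β * NN x / 2 := by
          have := mul_le_mul_of_nonneg_left hge hβ.le
          linarith
        linarith
      have hN0 : 0 < NN x := lt_of_lt_of_le hR hge
      by_cases hmem : x ∈ {x : E p q | 2 * R ≤ NN x}
      · rw [indicator_of_mem hmem]
        have h5 := wf_far hR hmem
        have h6 : β / 2 ≤ wf R (NN x) * (β * NN x - κ) := by
          calc β / 2 = β / 2 * (NN x * wf R (NN x)) := by rw [h5, mul_one]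
            _ = wf R (NN x) * (β * NN x / 2) := by ring
            _ ≤ _ := mul_le_mul_of_nonneg_left h4 hwf
        calc β / 2 * (u x ^ 2 * h x) = u x ^ 2 * (β / 2) * h x := by ring
          _ ≤ _ := mul_le_mul_of_nonneg_right (mul_le_mul_of_nonneg_left h6 (sq_nonneg _))
            (H.nonneg x)
      · rw [indicator_of_notMem hmem, zero_mul, mul_zero]
        have h7 : 0 ≤ β * NN x - κ := le_trans (by positivity) h4
        have := H.nonneg x
        positivity
  linarith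

end Pool.Agent.Lib.MP_8d00da_gt.h25
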