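import Mathlib
import Pool.Agent.Lib.MP_8d00da_gt.h25.Rot

/-!
# Infinitesimal rotations on polynomials
-/

namespace Pool.Agent.Lib.MP_8d00da_gt.h25

open MeasureTheory Set Filter MvPolynomial
open scoped Topology NNReal

variable {p q : ℕ}

/-- Polynomials in the entries of a `p × q` matrix. -/
abbrev Pol (p q : ℕ) := MvPolynomial (Fin p × Fin q) ℝ

/-- Evaluation of a polynomial at a matrix. -/
noncomputable def ev (P : Pol p q) (x : E p q) : ℝ := MvPolynomial.eval (fun i => x i) P

lemma ev_add (P Q : Pol p q) (a : E p q) : ev (P + Q) a = ev P a + ev Q a := by simp [ev]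

lemma ev_sub (P Q : Pol p q) (a : E p q) : ev (P - Q) a = ev P a - ev Q a := by simp [ev]

lemma ev_neg (P : Pol p q) (a : E p q) : ev (-P) a = -ev P a := by simp [ev]

lemma ev_mul (P Q : Pol p q) (a : E p q) : ev (P * Q) a = ev P a * ev Q a := by simp [ev]

lemma ev_smul (c : ℝ) (P : Pol p q) (a : E p q) : ev (c • P) a = c * ev P a := by
  simp [ev, MvPolynomial.smul_eval]

lemma ev_zero (a : E p q) : ev (0 : Pol p q) a = 0 := by simp [ev]

lemma ev_one (a : E p q) : ev (1 : Pol p q) a = 1 := by simp [ev]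

lemma ev_C (c : ℝ) (a : E p q) : ev (C c) a = c := by simp [ev]

lemma ev_X (i : Fin p × Fin q) (a : E p q) : ev (X i) a = a i := by simp [ev]

lemma ev_sum {ι : Type*} (s : Finset ι) (f : ι → Pol p q) (a : E p q) :
    ev (∑ i ∈ s, f i) a = ∑ i ∈ s, ev (f i) a := by
  simp [ev, map_sum]

lemma ev_contDiff (P : Pol p q) : ContDiff ℝ (⊤ : ℕ∞) (ev P) := by
  induction P using MvPolynomial.induction_on with
  | C c =>
    have : ev (C c : Pol p q) = fun _ => c := by ext a; exact ev_C c a
    rw [this]; exact contDiff_const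
  | add P Q hP hQ =>
    have : ev (P + Q) = fun a => ev P a + ev Q a := by ext a; exact ev_add P Q a
    rw [this]; exact hP.add hQ
  | mul_X P i hP =>
    have : ev (P * X i) = fun a => ev P a * a i := by ext a; rw [ev_mul, ev_X]
    rw [this]
    exact hP.mul (by fun_prop)

lemma ev_cont (P : Pol p q) : Continuous (ev P) := (ev_contDiff P).continuous

lemma ev_diff (P : Pol p q) : Differentiable ℝ (ev P) :=
  (ev_contDiff P).differentiable (by simp)

lemma ev_fderiv_mul_X (P : Pol p q) (i : Fin p × Fin q) (x v : E p q) :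
    fderiv ℝ (ev (P * X i)) x v = fderiv ℝ (ev P) x v * x i + ev P x * v i := by
  have : ev (P * X i) = fun a => ev P a * (EuclideanSpace.proj i : E p q →L[ℝ] ℝ) a := by
    ext a; rw [ev_mul, ev_X]; rfl
  rw [this]
  have h := ((ev_diff P x).hasFDerivAt).fun_mul
    ((EuclideanSpace.proj i : E p q →L[ℝ] ℝ).hasFDerivAt (x := x))
  rw [h.fderiv]
  simp only [_root_.add_apply, _root_.smul_apply, smul_eq_mul]
  rw [add_comm]
  congr 1
  rw [mul_comm]; rfl

lemma ev_fderiv_add (P Q : Pol p q) (x v : E p q) :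
    fderiv ℝ (ev (P + Q)) x v = fderiv ℝ (ev P) x v + fderiv ℝ (ev Q) x v := by
  have : ev (P + Q) = fun a => ev P a + ev Q a := by ext a; exact ev_add P Q a
  rw [this, (((ev_diff P x).hasFDerivAt).fun_add ((ev_diff Q x).hasFDerivAt)).fderiv]
  rfl

lemma ev_fderiv_C (c : ℝ) (x v : E p q) : fderiv ℝ (ev (C c : Pol p q)) x v = 0 := by
  have : ev (C c : Pol p q) = fun _ => c := by ext a; exact ev_C c a
  rw [this]; simp

/-- Partial derivatives. -/
lemma dc_ev (P : Pol p q) (i : Fin p × Fin q) (x : E p q) :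
    dc (ev P) i x = ev (pderiv i P) x := by
  unfold dc
  induction P using MvPolynomial.induction_on with
  | C c => rw [ev_fderiv_C]; simp [ev_zero]
  | add P Q hP hQ => rw [ev_fderiv_add, hP, hQ, map_add, ev_add]
  | mul_X P j hP =>
    rw [ev_fderiv_mul_X, hP, pderiv_mul, ev_add, ev_mul, ev_mul, ev_X, pderiv_X]
    congr 1
    congr 1
    rw [EuclideanSpace.basisFun_apply, PiLp.single_apply, Pi.single_apply]
    by_cases h : j = i
    · simp [h, ev_one]
    · simp [h, Ne.symm h, ev_zero]

/-- The infinitesimal rotation as a derivation. -/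
noncomputable def Rd (a b : Fin q) : Derivation ℝ (Pol p q) (Pol p q) :=
  mkDerivation ℝ fun i => (if i.2 = b then X (i.1, a) else 0) - (if i.2 = a then X (i.1, b) else 0)

lemma Rd_X (a b : Fin q) (i : Fin p × Fin q) : Rd a b (X i : Pol p q) =
    (if i.2 = b then X (i.1, a) else 0) - (if i.2 = a then X (i.1, b) else 0) :=
  mkDerivation_X ℝ _ i

lemma ev_Rd (a b : Fin q) (P : Pol p q) (x : E p q) :
    ev (Rd a b P) x = fderiv ℝ (ev P) x (rm (gen a b) x) := by
  induction P using MvPolynomial.induction_on with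
  | C c =>
    rw [ev_fderiv_C, ← MvPolynomial.algebraMap_eq, Derivation.map_algebraMap, ev_zero]
  | add P Q hP hQ => rw [map_add, ev_add, ev_fderiv_add, hP, hQ]
  | mul_X P j hP =>
    rw [ev_fderiv_mul_X, ← hP, Derivation.leibniz, ev_add, smul_eq_mul, smul_eq_mul, ev_mul, ev_mul,
      ev_X, Rd_X]
    obtain ⟨k, j⟩ := j
    rw [rm_gen_apply]
    have : ev ((if j = b then X (k, a) else 0) - (if j = a then X (k, b) else 0) : Pol p q) x =
        (if j = b then x (k, a) else 0) - (if j = a then x (k, b) else 0) := by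
      rw [ev_sub]
      split_ifs <;> simp [ev_X, ev_zero]
    simp only
    rw [this]
    ring

lemma Rd_anti (a b : Fin q) (P : Pol p q) : Rd a b P = -Rd b a P := by
  have h : (Rd a b : Derivation ℝ (Pol p q) (Pol p q)) = -Rd b a := by
    apply MvPolynomial.derivation_ext
    intro i
    rw [Derivation.neg_apply, Rd_X, Rd_X]
    ring
  rw [h]; rfl

/-- Kronecker delta as a polynomial. -/
noncomputable def dl (p : ℕ) {q : ℕ} (a b : Fin q) : Pol p q := if a = b then 1 else 0

lemma dl_symm (a b : Fin q) : dl p a b = dl p b a := by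
  unfold dl
  simp [eq_comm]

lemma ite_dl (a b : Fin q) (P : Pol p q) : (if a = b then P else 0) = dl p a b * P := by
  unfold dl
  split_ifs <;> simp

lemma Rd_X' (a b : Fin q) (k : Fin p) (j : Fin q) : Rd a b (X (k, j) : Pol p q) =
    dl p j b * X (k, a) - dl p j a * X (k, b) := by
  rw [Rd_X, ite_dl, ite_dl]

lemma Rd_dl (a b c d : Fin q) (P : Pol p q) : Rd a b (dl p c d * P) = dl p c d * Rd a b P := by
  unfold dl
  split_ifs <;> simp

/-- Commutation relations. -/
lemma Rd_comm (a b c d : Fin q) (P : Pol p q) :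
    Rd a b (Rd c d P) = Rd c d (Rd a b P) + (dl p b c * Rd a d P - dl p a c * Rd b d P -
      dl p b d * Rd a c P + dl p a d * Rd b c P) := by
  have h : ⁅(Rd a b : Derivation ℝ (Pol p q) (Pol p q)), (Rd c d : Derivation ℝ (Pol p q) (Pol p q))⁆ =
      dl p b c • (Rd a d : Derivation ℝ (Pol p q) (Pol p q)) -
      dl p a c • (Rd b d : Derivation ℝ (Pol p q) (Pol p q)) -
      dl p b d • (Rd a c : Derivation ℝ (Pol p q) (Pol p q)) +
      dl p a d • (Rd b c : Derivation ℝ (Pol p q) (Pol p q)) := by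
    apply MvPolynomial.derivation_ext
    rintro ⟨k, j⟩
    rw [Derivation.commutator_apply, Derivation.add_apply, Derivation.sub_apply,
      Derivation.sub_apply, Derivation.smul_apply, Derivation.smul_apply, Derivation.smul_apply,
      Derivation.smul_apply]
    simp only [Rd_X', map_sub, Rd_dl, smul_eq_mul]
    rw [dl_symm c b, dl_symm c a, dl_symm d b, dl_symm d a]
    ring
  have h2 := congrArg (fun D : Derivation ℝ (Pol p q) (Pol p q) => D P) h
  simp only [Derivation.commutator_apply, Derivation.add_apply, Derivation.sub_apply,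
    Derivation.smul_apply, smul_eq_mul] at h2
  rw [← h2]
  ring

/-- The Casimir operator (twice). -/
noncomputable def Cas (P : Pol p q) : Pol p q := ∑ a, ∑ b, Rd a b (Rd a b P)

lemma sum_dl_right (G : Fin q → Fin q → Pol p q) (c : Fin q) :
    ∑ a, ∑ b, dl p b c * G a b = ∑ a, G a c := by
  simp only [← ite_dl]
  simp

lemma sum_dl_left (G : Fin q → Fin q → Pol p q) (c : Fin q) :
    ∑ a, ∑ b, dl p a c * G a b = ∑ b, G c b := by
  rw [Finset.sum_comm]
  simp only [← ite_dl]
  simp

lemma Cas_comm (c d : Fin q) (P : Pol p q) : Cas (Rd c d P) = Rd c d (Cas P) := by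
  have h1 : ∀ a b : Fin q, Rd a b (Rd a b (Rd c d P)) = Rd c d (Rd a b (Rd a b P)) +
      (dl p b c * Rd a d (Rd a b P) - dl p a c * Rd b d (Rd a b P) -
      dl p b d * Rd a c (Rd a b P) + dl p a d * Rd b c (Rd a b P)) +
      (dl p b c * Rd a b (Rd a d P) - dl p a c * Rd a b (Rd b d P) -
      dl p b d * Rd a b (Rd a c P) + dl p a d * Rd a b (Rd b c P)) := by
    intro a b
    rw [Rd_comm a b c d P, map_add, Rd_comm a b c d (Rd a b P), map_add, map_sub, map_sub,
      Rd_dl, Rd_dl, Rd_dl, Rd_dl]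
  unfold Cas
  simp only [h1, Finset.sum_add_distrib, Finset.sum_sub_distrib, map_sum]
  rw [sum_dl_right (fun a b => Rd a d (Rd a b P)), sum_dl_left (fun a b => Rd b d (Rd a b P)),
    sum_dl_right (fun a b => Rd a c (Rd a b P)), sum_dl_left (fun a b => Rd b c (Rd a b P)),
    sum_dl_right (fun a b => Rd a b (Rd a d P)), sum_dl_left (fun a b => Rd a b (Rd b d P)),
    sum_dl_right (fun a b => Rd a b (Rd a c P)), sum_dl_left (fun a b => Rd a b (Rd b c P))]
  have t1 : ∑ b, Rd b d (Rd c b P) = -∑ a, Rd a d (Rd a c P) := by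
    rw [← Finset.sum_neg_distrib]
    refine Finset.sum_congr rfl fun b _ => ?_
    rw [Rd_anti c b P, map_neg]
  have t2 : ∑ b, Rd b c (Rd d b P) = -∑ a, Rd a c (Rd a d P) := by
    rw [← Finset.sum_neg_distrib]
    refine Finset.sum_congr rfl fun b _ => ?_
    rw [Rd_anti d b P, map_neg]
  have t3 : ∑ b, Rd c b (Rd b d P) = -∑ a, Rd a c (Rd a d P) := by
    rw [← Finset.sum_neg_distrib]
    refine Finset.sum_congr rfl fun b _ => ?_
    rw [Rd_anti c b]
  have t4 : ∑ b, Rd d b (Rd b c P) = -∑ a, Rd a d (Rd a c P) := by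
    rw [← Finset.sum_neg_distrib]
    refine Finset.sum_congr rfl fun b _ => ?_
    rw [Rd_anti d b]
  rw [t1, t2, t3, t4]
  abel

end Pool.Agent.Lib.MP_8d00da_gt.h25
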