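import Mathlib
import Pool.Agent.Lib.MP_8d00da_gt.h25.Poly

/-!
# The spectral gap of infinitesimal rotations on polynomials
-/

namespace Pool.Agent.Lib.MP_8d00da_gt.h25

open MeasureTheory Set Filter MvPolynomial
open scoped Topology NNReal

variable {p q : ℕ}

/-- A compactly supported rotation invariant weight. -/
structure PW (h : E p q → ℝ) (r : ℝ) : Prop where
  meas : Measurable h
  nonneg : ∀ x, 0 ≤ h x
  int : Integrable h
  supp : ∀ x, r < ‖x‖ → h x = 0
  inv : ∀ T ∈ GO p q, ∀ x, h (T x) = h x
  pos : ∃ U : Set (E p q), IsOpen U ∧ U.Nonempty ∧ ∀ x ∈ U, 0 < h x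

/-- The bilinear form. -/
noncomputable def Bf (h : E p q → ℝ) (P Q : Pol p q) : ℝ := ∫ x, ev P x * ev Q x * h x

namespace PW

variable {h : E p q → ℝ} {r : ℝ}

lemma cont_int (H : PW h r) {g : E p q → ℝ} (hg : Continuous g) :
    Integrable fun x => g x * h x := by
  obtain ⟨M, hM⟩ := (isCompact_closedBall (0 : E p q) r).exists_bound_of_continuousOn
    hg.continuousOn
  refine (H.int.const_mul (|M|)).mono' (hg.measurable.mul H.meas).aestronglyMeasurable
    (Eventually.of_forall fun x => ?_)
  by_cases hx : r < ‖x‖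
  · rw [H.supp x hx]; simp
  · push Not at hx
    rw [norm_mul, Real.norm_eq_abs (h x), abs_of_nonneg (H.nonneg x)]
    exact mul_le_mul_of_nonneg_right ((hM x (by simpa using hx)).trans (le_abs_self M)) (H.nonneg x)

lemma Bint (H : PW h r) (P Q : Pol p q) : Integrable fun x => ev P x * ev Q x * h x :=
  H.cont_int ((ev_cont P).mul (ev_cont Q))

/-- The path of rotations. -/
lemma path_eq (a b : Fin q) (x : E p q) (t : ℝ) : rm (gv a b t) x =
    x + (Real.cos t - 1) • rm (pr a b) x + Real.sin t • rm (gen a b) x := by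
  ext ⟨k, j⟩
  simp only [rm_apply, gv, Matrix.add_apply, Matrix.smul_apply, smul_eq_mul, mul_add,
    Finset.sum_add_distrib, PiLp.add_apply, PiLp.smul_apply, Finset.mul_sum]
  congr 1
  · congr 1
    · simp [Matrix.one_apply]
    · exact Finset.sum_congr rfl fun l _ => by ring
  · exact Finset.sum_congr rfl fun l _ => by ring

lemma rm_cont (M : Matrix (Fin q) (Fin q) ℝ) : Continuous (rm M : E p q → E p q) := by
  unfold rm
  refine (PiLp.continuous_toLp 2 _).comp (continuous_pi fun a => ?_)
  exact continuous_finsetSum _ fun l _ => by fun_prop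

/-- Integration by parts: the integral of an infinitesimal rotation vanishes. -/
lemma int_Rd (H : PW h r) (a b : Fin q) (P : Pol p q) : ∫ x, ev (Rd a b P) x * h x = 0 := by
  rcases eq_or_ne a b with rfl | hab
  · have : Rd a a P = 0 := by
      have := Rd_anti a a P
      have h2 : (2 : ℝ) • Rd a a P = 0 := by
        rw [two_smul]; nth_rewrite 1 [this]; simp
      exact (smul_eq_zero.1 h2).resolve_left two_ne_zero
    rw [this]
    simp [ev_zero]
  set c : ℝ → E p q → E p q := fun t x =>
    x + (Real.cos t - 1) • rm (pr a b) x + Real.sin t • rm (gen a b) x with hc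
  set c' : ℝ → E p q → E p q := fun t x =>
    (-Real.sin t) • rm (pr a b) x + Real.cos t • rm (gen a b) x with hc'
  have hcd : ∀ t x, HasDerivAt (fun t => c t x) (c' t x) t := by
    intro t x
    have c1 := ((Real.hasDerivAt_cos t).sub_const 1).smul_const (rm (pr a b) x)
    have c2 := (Real.hasDerivAt_sin t).smul_const (rm (gen a b) x)
    exact (c1.const_add x).add c2
  have hcc : Continuous fun z : ℝ × E p q => c z.1 z.2 := by
    have h1 := rm_cont (p := p) (pr a b)
    have h2 := rm_cont (p := p) (gen a b)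
    simp only [hc]
    fun_prop
  have hcc' : Continuous fun z : ℝ × E p q => c' z.1 z.2 := by
    have h1 := rm_cont (p := p) (pr a b)
    have h2 := rm_cont (p := p) (gen a b)
    simp only [hc']
    fun_prop
  have hfd : Continuous fun x => fderiv ℝ (ev P) x := (ev_contDiff P).continuous_fderiv (by simp)
  have hGc : Continuous fun z : ℝ × E p q => fderiv ℝ (ev P) (c z.1 z.2) (c' z.1 z.2) :=
    (hfd.comp hcc).clm_apply hcc'
  obtain ⟨M, hM⟩ := ((isCompact_Icc (a := (-1 : ℝ)) (b := 1)).prod
    (isCompact_closedBall (0 : E p q) r)).exists_bound_of_continuousOn hGc.continuousOn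
  have hconst : ∀ t, ∫ x, ev P (c t x) * h x = ∫ x, ev P x * h x := by
    intro t
    set T := rme (p := p) (gv a b t) (gv_orth hab t) with hT
    have h1 := T.measurePreserving.integral_comp T.toHomeomorph.measurableEmbedding
      (fun x => ev P x * h x)
    rw [← h1]
    refine integral_congr_ae (Eventually.of_forall fun x => ?_)
    simp only
    rw [H.inv T ⟨a, b, hab, t, rfl⟩ x]
    congr 2
    exact (path_eq a b x t).symm
  have hder : HasDerivAt (fun t => ∫ x, ev P (c t x) * h x)
      (∫ x, fderiv ℝ (ev P) (c 0 x) (c' 0 x) * h x) 0 := by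
    refine (hasDerivAt_integral_of_dominated_loc_of_deriv_le (bound := fun x => |M| * h x)
      (F' := fun t x => fderiv ℝ (ev P) (c t x) (c' t x) * h x)
      (Metric.ball_mem_nhds (0 : ℝ) one_pos) ?_ ?_ ?_ ?_ (H.int.const_mul _) ?_).2
    · refine Eventually.of_forall fun t => ?_
      exact (((ev_cont P).comp (hcc.comp (by fun_prop : Continuous fun x => (t, x)))).measurable.mul
        H.meas).aestronglyMeasurable
    · exact H.cont_int ((ev_cont P).comp (hcc.comp (by fun_prop : Continuous fun x => ((0 : ℝ), x))))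
    · exact ((hGc.comp (by fun_prop : Continuous fun x => ((0 : ℝ), x))).measurable.mul
        H.meas).aestronglyMeasurable
    · refine Eventually.of_forall fun x t ht => ?_
      by_cases hx : r < ‖x‖
      · rw [H.supp x hx]; simp
      · push Not at hx
        rw [norm_mul, Real.norm_eq_abs (h x), abs_of_nonneg (H.nonneg x)]
        refine mul_le_mul_of_nonneg_right ?_ (H.nonneg x)
        have h1 := hM (t, x) ⟨by
          have := Metric.mem_ball.1 ht
          rw [Real.dist_eq, sub_zero] at this
          exact ⟨(abs_lt.1 this).1.le, (abs_lt.1 this).2.le⟩, by simpa using hx⟩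
        exact h1.trans (le_abs_self M)
    · refine Eventually.of_forall fun x t _ => ?_
      exact (((ev_diff P (c t x)).hasFDerivAt).comp_hasDerivAt t (hcd t x)).mul_const (h x)
  simp only [hconst] at hder
  have h2 := hder.unique (hasDerivAt_const _ _)
  rw [← h2]
  refine integral_congr_ae (Eventually.of_forall fun x => ?_)
  simp only
  rw [ev_Rd]
  simp [hc, hc']

lemma Bf_comm (P Q : Pol p q) : Bf h P Q = Bf h Q P := by
  unfold Bf
  exact integral_congr_ae (Eventually.of_forall fun x => by simp only; ring)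

lemma Bf_add (H : PW h r) (P Q R : Pol p q) : Bf h (P + Q) R = Bf h P R + Bf h Q R := by
  unfold Bf
  rw [← integral_add (H.Bint P R) (H.Bint Q R)]
  exact integral_congr_ae (Eventually.of_forall fun x => by simp only [ev_add]; ring)

lemma Bf_smul (c : ℝ) (P Q : Pol p q) : Bf h (c • P) Q = c * Bf h P Q := by
  unfold Bf
  rw [← integral_const_mul]
  exact integral_congr_ae (Eventually.of_forall fun x => by simp only [ev_smul]; ring)

lemma Bf_sum (H : PW h r) {ι : Type*} (s : Finset ι) (f : ι → Pol p q) (Q : Pol p q) :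
    Bf h (∑ i ∈ s, f i) Q = ∑ i ∈ s, Bf h (f i) Q := by
  unfold Bf
  rw [← integral_finsetSum _ fun i _ => H.Bint (f i) Q]
  refine integral_congr_ae (Eventually.of_forall fun x => ?_)
  simp only [ev_sum, Finset.sum_mul]

lemma Bf_nonneg (H : PW h r) (P : Pol p q) : 0 ≤ Bf h P P :=
  integral_nonneg fun x => mul_nonneg (mul_self_nonneg _) (H.nonneg x)

lemma skew (H : PW h r) (a b : Fin q) (P Q : Pol p q) :
    Bf h (Rd a b P) Q = -Bf h P (Rd a b Q) := by
  have h1 := H.int_Rd a b (P * Q)
  rw [Derivation.leibniz] at h1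
  simp only [smul_eq_mul, ev_add, ev_mul, add_mul] at h1
  have h2 : ∫ x, (ev P x * ev (Rd a b Q) x * h x + ev Q x * ev (Rd a b P) x * h x) = 0 := h1
  rw [integral_add (H.Bint _ _) (H.Bint _ _)] at h2
  have h3 : ∫ x, ev Q x * ev (Rd a b P) x * h x = Bf h (Rd a b P) Q := by
    rw [Bf_comm]; rfl
  have h4 : ∫ x, ev P x * ev (Rd a b Q) x * h x = Bf h P (Rd a b Q) := rfl
  linarith

lemma definite (H : PW h r) (P : Pol p q) (hP : Bf h P P = 0) : P = 0 := by
  unfold Bf at hP
  rw [integral_eq_zero_iff_of_nonneg (fun x => mul_nonneg (mul_self_nonneg _) (H.nonneg x))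
    (H.Bint P P)] at hP
  obtain ⟨U, hU, hUne, hpos⟩ := H.pos
  have h3 : ∀ᵐ x ∂(volume.restrict U), ev P x = 0 := by
    rw [ae_restrict_iff' hU.measurableSet]
    filter_upwards [hP] with x hx hxU
    have : ev P x * ev P x * h x = 0 := hx
    rcases mul_eq_zero.1 this with h0 | h0
    · exact mul_self_eq_zero.1 h0
    · exact absurd h0 (hpos x hxU).ne'
  have h5 := Measure.eqOn_open_of_ae_eq (g := fun _ => (0 : ℝ)) h3 hU (ev_cont P).continuousOn
    continuousOn_const
  obtain ⟨x0, hx0⟩ := hUne
  obtain ⟨ε, hε, hball⟩ := Metric.isOpen_iff.1 hU x0 hx0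
  set n : ℕ := Fintype.card (Fin p × Fin q) with hn
  set δ : ℝ := ε / ((n : ℝ) + 1) with hδ
  have hδ0 : 0 < δ := by positivity
  refine MvPolynomial.funext_set (fun i => Set.Ioo (x0 i - δ) (x0 i + δ))
    (fun _ => Set.Ioo_infinite (by linarith)) fun x hx => ?_
  have h6 : (WithLp.toLp 2 x : E p q) ∈ U := by
    apply hball
    rw [Metric.mem_ball, dist_eq_norm]
    have h7 : ‖(WithLp.toLp 2 x : E p q) - x0‖ ^ 2 < ε ^ 2 := by
      rw [EuclideanSpace.norm_sq_eq]
      calc ∑ i, ‖((WithLp.toLp 2 x : E p q) - x0) i‖ ^ 2 ≤ ∑ _i : Fin p × Fin q, δ ^ 2 := by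
            refine Finset.sum_le_sum fun i _ => ?_
            have h8 := hx i (Set.mem_univ i)
            rw [Real.norm_eq_abs]
            refine pow_le_pow_left₀ (abs_nonneg _) (abs_le.2 ⟨?_, ?_⟩) 2
            · have := h8.1
              simp only [PiLp.sub_apply]
              linarith
            · have := h8.2
              simp only [PiLp.sub_apply]
              linarith
        _ = n * δ ^ 2 := by simp [hn]
        _ < ε ^ 2 := by
            have hn : (0 : ℝ) ≤ n := Nat.cast_nonneg n
            rw [hδ, div_pow, ← mul_div_assoc, div_lt_iff₀ (by positivity)]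
            have h1 : 0 < ε ^ 2 := by positivity
            have h2 : (0 : ℝ) < (n : ℝ) ^ 2 + n + 1 := by positivity
            nlinarith [mul_pos h1 h2]
    exact lt_of_pow_lt_pow_left₀ 2 hε.le h7
  have h7 := h5 h6
  rw [map_zero]
  exact h7

end PW

end Pool.Agent.Lib.MP_8d00da_gt.h25
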