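import Mathlib
import Pool.Agent.Lib.MP_8d00da_gt.h25.NonInv

/-!
# The spectral gap
-/

namespace Pool.Agent.Lib.MP_8d00da_gt.h25

open MeasureTheory Set Filter MvPolynomial
open scoped Topology NNReal

variable {p q : ℕ}

/-- explicit form -/
lemma Rd_eq (a b : Fin q) (P : Pol p q) : Rd a b P =
    ∑ k, (X (k, a) * pderiv (k, b) P - X (k, b) * pderiv (k, a) P) := by
  have h : (Rd a b : Derivation ℝ (Pol p q) (Pol p q)) =
      ∑ k : Fin p, ((X (k, a) : Pol p q) • (pderiv (k, b) : Derivation ℝ (Pol p q) (Pol p q)) -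
        (X (k, b) : Pol p q) • (pderiv (k, a) : Derivation ℝ (Pol p q) (Pol p q))) := by
    apply MvPolynomial.derivation_ext
    rintro ⟨k, j⟩
    rw [Rd_X', ← Derivation.coeFnAddMonoidHom_apply (∑ k : Fin p, _), map_sum, Finset.sum_apply]
    simp only [Derivation.coeFnAddMonoidHom_apply, Derivation.sub_apply, Derivation.smul_apply,
      smul_eq_mul, pderiv_X, Pi.single_apply, Prod.mk.injEq, Finset.sum_sub_distrib]
    congr 1
    · by_cases hj : j = b
      · subst hj; simp [dl]
      · simp [dl, hj]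
    · by_cases hj : j = a
      · subst hj; simp [dl]
      · simp [dl, hj]
  rw [h, ← Derivation.coeFnAddMonoidHom_apply (∑ k : Fin p, _), map_sum, Finset.sum_apply]
  rfl

lemma pderiv_zero_of_hom' {P : Pol p q} (h : P.IsHomogeneous 0) (j : Fin p × Fin q) :
    pderiv j P = 0 := by
  have h1 : P.totalDegree = 0 := Nat.le_zero.1 h.totalDegree_le
  rw [totalDegree_eq_zero_iff_eq_C] at h1
  rw [h1, pderiv_C]

lemma Rd_hom (a b : Fin q) {P : Pol p q} {n : ℕ} (h : P.IsHomogeneous n) :
    (Rd a b P).IsHomogeneous n := by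
  rw [Rd_eq]
  refine IsHomogeneous.sum _ _ _ fun k _ => ?_
  rcases Nat.eq_zero_or_pos n with h0 | h0
  · subst h0
    rw [pderiv_zero_of_hom' h, pderiv_zero_of_hom' h]
    simp only [mul_zero, sub_zero]
    exact isHomogeneous_zero _ _ _
  · have e : 1 + (n - 1) = n := by omega
    have h1 := (isHomogeneous_X ℝ (k, a)).mul (h.pderiv (i := (k, b)))
    have h2 := (isHomogeneous_X ℝ (k, b)).mul (h.pderiv (i := (k, a)))
    rw [e] at h1 h2
    exact h1.sub h2

lemma Rd_deg (a b : Fin q) {P : Pol p q} {M : ℕ} (hP : P ∈ restrictTotalDegree (Fin p × Fin q) ℝ M) :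
    Rd a b P ∈ restrictTotalDegree (Fin p × Fin q) ℝ M := by
  classical
  rw [mem_restrictTotalDegree] at hP
  rw [← sum_homogeneousComponent P, map_sum]
  refine Submodule.sum_mem _ fun d hd => ?_
  have hd' : d ≤ M := by
    have : d ≤ P.totalDegree := by simpa [Nat.lt_succ_iff] using hd
    omega
  rw [mem_restrictTotalDegree]
  exact (Rd_hom a b (homogeneousComponent_isHomogeneous d P)).totalDegree_le.trans hd'

lemma Cas_deg {P : Pol p q} {M : ℕ} (hP : P ∈ restrictTotalDegree (Fin p × Fin q) ℝ M) :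
    Cas P ∈ restrictTotalDegree (Fin p × Fin q) ℝ M :=
  Submodule.sum_mem _ fun a _ => Submodule.sum_mem _ fun b _ => Rd_deg a b (Rd_deg a b hP)

/-- Casimir as a linear map. -/
noncomputable def CasL : Pol p q →ₗ[ℝ] Pol p q where
  toFun := Cas
  map_add' P Q := by simp only [Cas, map_add, Finset.sum_add_distrib]
  map_smul' c P := by simp only [Cas, Derivation.map_smul, Finset.smul_sum, RingHom.id_apply]

/-- A linear algebra fact. -/
lemma ker_range {V : Type*} [AddCommGroup V] [Module ℝ V] [FiniteDimensional ℝ V] (T : V →ₗ[ℝ] V)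
    (h : ∀ x, T (T x) = 0 → T x = 0) (f : V) : ∃ f0 g, T f0 = 0 ∧ f = f0 + T g := by
  have hm : ∀ x ∈ LinearMap.range T, T x ∈ LinearMap.range T := fun x _ => ⟨x, rfl⟩
  set S := T.restrict hm with hS
  have hinj : Function.Injective S := by
    rw [injective_iff_map_eq_zero]
    rintro ⟨x, y, rfl⟩ hx
    have : T (T y) = 0 := congrArg Subtype.val hx
    exact Subtype.ext (h y this)
  have hsurj : Function.Surjective S := LinearMap.injective_iff_surjective.1 hinj
  obtain ⟨⟨w, g, rfl⟩, hw⟩ := hsurj ⟨T f, f, rfl⟩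
  have hw' : T (T g) = T f := congrArg Subtype.val hw
  exact ⟨f - T g, g, by rw [map_sub, hw', sub_self], by abel⟩

namespace PW

variable {h : E p q → ℝ} {r : ℝ}

/-- The rotation energy. -/
noncomputable def Qf (h : E p q → ℝ) (P Q : Pol p q) : ℝ := ∑ a, ∑ b, Bf h (Rd a b P) (Rd a b Q)

lemma Bf_Cas (H : PW h r) (P Q : Pol p q) : Bf h (Cas P) Q = -Qf h P Q := by
  unfold Cas Qf
  rw [H.Bf_sum, ← Finset.sum_neg_distrib]
  refine Finset.sum_congr rfl fun a _ => ?_
  rw [H.Bf_sum, ← Finset.sum_neg_distrib]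
  exact Finset.sum_congr rfl fun b _ => H.skew a b _ _

lemma Qf_nonneg (H : PW h r) (P : Pol p q) : 0 ≤ Qf h P P :=
  Finset.sum_nonneg fun a _ => Finset.sum_nonneg fun b _ => H.Bf_nonneg _

lemma Qf_zero (H : PW h r) {P : Pol p q} (hP : Qf h P P = 0) (a b : Fin q) : Rd a b P = 0 := by
  unfold Qf at hP
  rw [Finset.sum_eq_zero_iff_of_nonneg fun a _ => Finset.sum_nonneg fun b _ => H.Bf_nonneg _] at hP
  have h1 := hP a (Finset.mem_univ _)
  rw [Finset.sum_eq_zero_iff_of_nonneg fun b _ => H.Bf_nonneg _] at h1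
  exact H.definite _ (h1 b (Finset.mem_univ _))

lemma Qf_comm (P Q : Pol p q) : Qf h P Q = Qf h Q P :=
  Finset.sum_congr rfl fun _ _ => Finset.sum_congr rfl fun _ _ => Bf_comm _ _

lemma Bf_Cas_symm (H : PW h r) (P Q : Pol p q) : Bf h (Cas P) Q = Bf h P (Cas Q) := by
  rw [H.Bf_Cas, Bf_comm P, H.Bf_Cas, Qf_comm]

lemma Cas_zero (H : PW h r) {P : Pol p q} (hP : Cas P = 0) (a b : Fin q) : Rd a b P = 0 := by
  refine H.Qf_zero ?_ a b
  have h1 := H.Bf_Cas P P
  rw [hP] at h1
  have h2 : Bf h (0 : Pol p q) P = 0 := by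
    have := Bf_smul (h := h) 0 P P
    simpa using this
  rw [h2] at h1
  linarith

/-- Decomposition of a polynomial. -/
lemma decomp (H : PW h r) (P : Pol p q) : ∃ P0 g : Pol p q,
    (∀ a b, Rd a b P0 = 0) ∧ P = P0 + Cas g := by
  set M := P.totalDegree
  have hmem : ∀ Q ∈ restrictTotalDegree (Fin p × Fin q) ℝ M,
      CasL Q ∈ restrictTotalDegree (Fin p × Fin q) ℝ M := fun Q hQ => Cas_deg hQ
  set T := (CasL (p := p) (q := q)).restrict hmem with hT
  obtain ⟨f0, g, h1, h2⟩ := ker_range T (by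
    intro x hx
    have hx' : Cas (Cas x.1) = 0 := congrArg Subtype.val hx
    have h4 : Bf h (Cas x.1) (Cas x.1) = 0 := by
      rw [← H.Bf_Cas_symm, hx']
      have := Bf_smul (h := h) 0 (x.1) x.1
      simpa using this
    exact Subtype.ext (H.definite _ h4))
    ⟨P, by rw [mem_restrictTotalDegree]⟩
  exact ⟨f0.1, g.1, fun a b => H.Cas_zero (congrArg Subtype.val h1) a b, congrArg Subtype.val h2⟩

end PW

/-- Selecting disjoint families of quadruples. -/
lemma quad_sum {q : ℕ} (n : Fin q → Fin q → Fin q → Fin q → ℝ) (h0 : ∀ w x y z, 0 ≤ n w x y z)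
    (N : Fin q → Fin q → Fin q → ℝ)
    (h1 : ∀ a b d, n a b b d = N a b d) (h2 : ∀ a b d, n a b d b = N a b d)
    (h3 : ∀ a b d, n b a b d = N a b d) (h4 : ∀ a b d, n b a d b = N a b d) :
    4 * ∑ a, ∑ b, ∑ d, (if a ≠ b ∧ a ≠ d ∧ b ≠ d then N a b d else 0) ≤
      ∑ w, ∑ x, ∑ y, ∑ z, n w x y z := by
  set A1 : Fin q → Fin q → Fin q → Fin q → ℝ := fun w x y z =>
    if x = y then (if w ≠ x ∧ w ≠ z ∧ x ≠ z then N w x z else 0) else 0 with hA1
  set A2 : Fin q → Fin q → Fin q → Fin q → ℝ := fun w x y z =>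
    if x = z then (if w ≠ x ∧ w ≠ y ∧ x ≠ y then N w x y else 0) else 0 with hA2
  set A3 : Fin q → Fin q → Fin q → Fin q → ℝ := fun w x y z =>
    if w = y then (if x ≠ w ∧ x ≠ z ∧ w ≠ z then N x w z else 0) else 0 with hA3
  set A4 : Fin q → Fin q → Fin q → Fin q → ℝ := fun w x y z =>
    if w = z then (if x ≠ w ∧ x ≠ y ∧ w ≠ y then N x w y else 0) else 0 with hA4
  set S := ∑ a, ∑ b, ∑ d, (if a ≠ b ∧ a ≠ d ∧ b ≠ d then N a b d else 0) with hS
  have s1 : ∑ w, ∑ x, ∑ y, ∑ z, A1 w x y z = S := by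
    refine Finset.sum_congr rfl fun w _ => Finset.sum_congr rfl fun x _ => ?_
    rw [Finset.sum_comm]
    refine Finset.sum_congr rfl fun z _ => ?_
    simp only [hA1, Finset.sum_ite_eq, Finset.mem_univ, if_true]
  have s2 : ∑ w, ∑ x, ∑ y, ∑ z, A2 w x y z = S := by
    refine Finset.sum_congr rfl fun w _ => Finset.sum_congr rfl fun x _ => ?_
    refine Finset.sum_congr rfl fun z _ => ?_
    simp only [hA2, Finset.sum_ite_eq, Finset.mem_univ, if_true]
  have s3 : ∑ w, ∑ x, ∑ y, ∑ z, A3 w x y z = S := by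
    rw [Finset.sum_comm]
    refine Finset.sum_congr rfl fun w _ => Finset.sum_congr rfl fun x _ => ?_
    rw [Finset.sum_comm]
    refine Finset.sum_congr rfl fun z _ => ?_
    simp only [hA3, Finset.sum_ite_eq, Finset.mem_univ, if_true]
  have s4 : ∑ w, ∑ x, ∑ y, ∑ z, A4 w x y z = S := by
    rw [Finset.sum_comm]
    refine Finset.sum_congr rfl fun w _ => Finset.sum_congr rfl fun x _ => ?_
    refine Finset.sum_congr rfl fun z _ => ?_
    simp only [hA4, Finset.sum_ite_eq, Finset.mem_univ, if_true]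
  have tot : 4 * S = ∑ w, ∑ x, ∑ y, ∑ z, (A1 w x y z + A2 w x y z + A3 w x y z + A4 w x y z) := by
    simp only [Finset.sum_add_distrib]
    rw [s1, s2, s3, s4]; ring
  rw [tot]
  refine Finset.sum_le_sum fun w _ => Finset.sum_le_sum fun x _ => Finset.sum_le_sum fun y _ =>
    Finset.sum_le_sum fun z _ => ?_
  have hn := h0 w x y z
  simp only [hA1, hA2, hA3, hA4]
  by_cases e1 : x = y
  · by_cases e2 : w ≠ x ∧ w ≠ z ∧ x ≠ z
    · subst e1
      have := h1 w x z
      simp [e2.1, e2.2.1, e2.2.2, Ne.symm e2.1, this]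
    · subst e1
      by_cases e3 : x = z
      · subst e3; simp; exact hn
      · by_cases e4 : w = x
        · subst e4; simp; exact hn
        · by_cases e5 : w = z
          · subst e5; simp; exact hn
          · exact absurd ⟨e4, e5, e3⟩ e2
  · rw [if_neg e1, zero_add]
    by_cases e2 : x = z
    · subst e2
      rw [if_pos rfl]
      by_cases e3 : w = x
      · subst e3; simp; exact hn
      · by_cases e4 : w = y
        · subst e4; simp; exact hn
        · have := h2 w x y
          simp [e1, e3, e4, this]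
    · rw [if_neg e2, zero_add]
      by_cases e3 : w = y
      · subst e3
        rw [if_pos rfl]
        by_cases e4 : w = z
        · subst e4; simp; exact hn
        · have := h3 x w z
          simp only [e4, if_false, add_zero]
          split_ifs with h
          · exact this.ge
          · exact hn
      · rw [if_neg e3, zero_add]
        by_cases e4 : w = z
        · subst e4
          rw [if_pos rfl]
          split_ifs with h
          · exact (h4 x w y).ge
          · exact hn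
        · rw [if_neg e4]; exact hn

namespace PW

variable {h : E p q → ℝ} {r : ℝ}

lemma Bf_neg_neg (P Q : Pol p q) : Bf h (-P) (-Q) = Bf h P Q := by
  unfold Bf
  exact integral_congr_ae (Eventually.of_forall fun x => by simp only [ev_neg]; ring)

lemma Bf_sq_sub (H : PW h r) (P Q : Pol p q) :
    Bf h (P - Q) (P - Q) ≤ 2 * (Bf h P P + Bf h Q Q) := by
  unfold Bf
  rw [← integral_add (H.Bint P P) (H.Bint Q Q), ← integral_const_mul]
  refine integral_mono (H.Bint _ _) (((H.Bint P P).add (H.Bint Q Q)).const_mul 2) fun x => ?_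
  simp only [ev_sub]
  have h1 := H.nonneg x
  have h2 : (ev P x - ev Q x) * (ev P x - ev Q x) ≤ 2 * (ev P x * ev P x + ev Q x * ev Q x) := by
    nlinarith [sq_nonneg (ev P x + ev Q x)]
  nlinarith [mul_le_mul_of_nonneg_right h2 h1]

/-- The key inequality `‖Cas P‖² ≥ (q - 2) Σ ‖R P‖²`. -/
lemma gap0 (H : PW h r) (hq : 2 ≤ q) (P : Pol p q) :
    ((q : ℝ) - 2) * Qf h P P ≤ Bf h (Cas P) (Cas P) := by
  set n : Fin q → Fin q → Fin q → Fin q → ℝ := fun w x y z =>
    Bf h (Rd w x (Rd y z P)) (Rd w x (Rd y z P)) with hn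
  have e1 : Bf h (Cas P) (Cas P) = ∑ w, ∑ x, ∑ y, ∑ z, n w x y z := by
    have e2 : Bf h (Cas P) (Cas P) = ∑ y, ∑ z, Qf h (Rd y z P) (Rd y z P) := by
      rw [← H.Bf_Cas_symm, H.Bf_Cas]
      unfold Qf
      rw [← Finset.sum_neg_distrib]
      refine Finset.sum_congr rfl fun y _ => ?_
      rw [← Finset.sum_neg_distrib]
      refine Finset.sum_congr rfl fun z _ => ?_
      rw [← Cas_comm, H.Bf_Cas, neg_neg]
      rfl
    rw [e2]
    unfold Qf
    have c1 : ∀ (G : Fin q → Fin q → Fin q → Fin q → ℝ), ∑ y, ∑ z, ∑ w, ∑ x, G w x y z =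
        ∑ w, ∑ x, ∑ y, ∑ z, G w x y z := by
      intro G
      have d1 : ∀ y, ∑ z, ∑ w, ∑ x, G w x y z = ∑ w, ∑ z, ∑ x, G w x y z := fun y =>
        Finset.sum_comm
      simp only [d1]
      rw [Finset.sum_comm]
      refine Finset.sum_congr rfl fun w _ => ?_
      have d2 : ∀ y, ∑ z, ∑ x, G w x y z = ∑ x, ∑ z, G w x y z := fun y => Finset.sum_comm
      simp only [d2]
      rw [Finset.sum_comm]
    exact c1 n
  set N : Fin q → Fin q → Fin q → ℝ := fun a b d => n a b b d with hN
  have hanti1 : ∀ w x y z, n w x y z = n x w y z := by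
    intro w x y z
    simp only [hn]
    rw [Rd_anti w x, Bf_neg_neg]
  have hanti2 : ∀ w x y z, n w x y z = n w x z y := by
    intro w x y z
    simp only [hn]
    rw [Rd_anti y z, map_neg, Bf_neg_neg]
  have hquad := quad_sum n (fun w x y z => H.Bf_nonneg _) N (fun a b d => rfl)
    (fun a b d => hanti2 a b d b) (fun a b d => hanti1 b a b d)
    (fun a b d => (hanti1 b a d b).trans (hanti2 a b d b))
  -- lower bound for the selected sum
  set Dd : Fin q → Fin q → Fin q → Prop := fun a b d => a ≠ b ∧ a ≠ d ∧ b ≠ d with hDd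
  set SN := ∑ a, ∑ b, ∑ d, (if a ≠ b ∧ a ≠ d ∧ b ≠ d then N a b d else 0) with hSN
  have hswap : SN = ∑ a, ∑ b, ∑ d, (if a ≠ b ∧ a ≠ d ∧ b ≠ d then n b d a b else 0) := by
    have d1 : SN = ∑ d, ∑ b, ∑ a, (if d ≠ b ∧ d ≠ a ∧ b ≠ a then N d b a else 0) := rfl
    have d2 : ∀ G : Fin q → Fin q → Fin q → ℝ, ∑ d, ∑ b, ∑ a, G d b a = ∑ a, ∑ b, ∑ d, G d b a := by
      intro G
      rw [Finset.sum_comm]
      have : ∀ b, ∑ d, ∑ a, G d b a = ∑ a, ∑ d, G d b a := fun b => Finset.sum_comm
      simp only [this]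
      rw [Finset.sum_comm]
    rw [d1, d2]
    refine Finset.sum_congr rfl fun a _ => Finset.sum_congr rfl fun b _ =>
      Finset.sum_congr rfl fun d _ => ?_
    have : N d b a = n b d a b := by
      simp only [hN]
      rw [hanti1, hanti2]
    rw [this]
    by_cases h1 : a = b
    · subst h1; simp
    · by_cases h2 : a = d
      · subst h2; simp
      · by_cases h3 : b = d
        · subst h3; simp
        · simp [h1, h2, h3, Ne.symm h1, Ne.symm h2, Ne.symm h3]
  have hlow : (1 / 2 : ℝ) * (((q : ℝ) - 2) * Qf h P P) ≤ SN + SN := by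
    nth_rewrite 2 [hswap]
    rw [hSN]
    simp only [← Finset.sum_add_distrib]
    have e3 : ((q : ℝ) - 2) * Qf h P P = ∑ a, ∑ b, ∑ d, (if a ≠ b ∧ a ≠ d ∧ b ≠ d then
        Bf h (Rd a d P) (Rd a d P) else 0) := by
      unfold Qf
      have d3 : ∀ a, ∑ b, ∑ d, (if a ≠ b ∧ a ≠ d ∧ b ≠ d then Bf h (Rd a d P) (Rd a d P) else 0) =
          ∑ d, ∑ b, (if a ≠ b ∧ a ≠ d ∧ b ≠ d then Bf h (Rd a d P) (Rd a d P) else 0) := fun a =>
        Finset.sum_comm
      simp only [d3]
      rw [Finset.mul_sum]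
      refine Finset.sum_congr rfl fun a _ => ?_
      rw [Finset.mul_sum]
      refine Finset.sum_congr rfl fun d _ => ?_
      rcases eq_or_ne a d with rfl | had
      · have : Rd a a P = 0 := by
          have h1 := Rd_anti a a P
          have h2 : (2 : ℝ) • Rd a a P = 0 := by
            rw [two_smul]; nth_rewrite 1 [h1]; simp
          exact (smul_eq_zero.1 h2).resolve_left two_ne_zero
        rw [this]
        have h0 : Bf h (0 : Pol p q) 0 = 0 := by
          have := Bf_smul (h := h) 0 (0 : Pol p q) 0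
          simpa using this
        simp [h0]
      · have hc : ∑ b, (if a ≠ b ∧ a ≠ d ∧ b ≠ d then Bf h (Rd a d P) (Rd a d P) else 0) =
            ((Finset.univ.filter fun b : Fin q => a ≠ b ∧ a ≠ d ∧ b ≠ d).card : ℝ) *
              Bf h (Rd a d P) (Rd a d P) := by
          rw [← Finset.sum_filter, Finset.sum_const, nsmul_eq_mul]
        rw [hc]
        congr 1
        have hset : (Finset.univ.filter fun b : Fin q => a ≠ b ∧ a ≠ d ∧ b ≠ d) =
            Finset.univ \ {a, d} := by
          ext b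
          simp only [Finset.mem_filter, Finset.mem_univ, true_and, Finset.mem_sdiff,
            Finset.mem_insert, Finset.mem_singleton, not_or]
          constructor
          · rintro ⟨h1, -, h3⟩; exact ⟨Ne.symm h1, h3⟩
          · rintro ⟨h1, h3⟩; exact ⟨Ne.symm h1, had, h3⟩
        rw [hset, Finset.card_sdiff_of_subset (Finset.subset_univ _), Finset.card_pair had]
        simp only [Finset.card_univ, Fintype.card_fin]
        rw [Nat.cast_sub hq]; simp
    rw [e3, Finset.mul_sum]
    refine Finset.sum_le_sum fun a _ => ?_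
    rw [Finset.mul_sum]
    refine Finset.sum_le_sum fun b _ => ?_
    rw [Finset.mul_sum]
    refine Finset.sum_le_sum fun d _ => ?_
    by_cases hD : a ≠ b ∧ a ≠ d ∧ b ≠ d
    · rw [if_pos hD, if_pos hD, if_pos hD]
      have hcomm := Rd_comm a b b d P
      have hd1 : dl p b b = 1 := by simp [dl]
      have hd2 : dl p a b = 0 := by simp [dl, hD.1]
      have hd3 : dl p b d = 0 := by simp [dl, hD.2.2]
      have hd4 : dl p a d = 0 := by simp [dl, hD.2.1]
      rw [hd1, hd2, hd3, hd4] at hcomm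
      have hc2 : Rd a d P = Rd a b (Rd b d P) - Rd b d (Rd a b P) := by
        rw [hcomm]; ring
      rw [hc2]
      have := H.Bf_sq_sub (Rd a b (Rd b d P)) (Rd b d (Rd a b P))
      simp only [hN, hn]
      linarith
    · rw [if_neg hD, if_neg hD, if_neg hD]; simp
  rw [e1]
  linarith

end PW

end Pool.Agent.Lib.MP_8d00da_gt.h25
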