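import Mathlib
import Pool.Agent.Lib.MP_8d00da_gt.h25.InvPart
import Pool.Agent.Lib.MP_8d00da_gt.h25.Gap

/-!
# The Poincaré inequality for polynomials
-/

namespace Pool.Agent.Lib.MP_8d00da_gt.h25

open MeasureTheory Set Filter MvPolynomial
open scoped Topology NNReal

variable {p q : ℕ}

lemma pd_comm (i j : Fin p × Fin q) (P : Pol p q) :
    pderiv i (pderiv j P) = pderiv j (pderiv i P) := by
  have h : (⁅(pderiv i : Derivation ℝ (Pol p q) (Pol p q)), (pderiv j :
      Derivation ℝ (Pol p q) (Pol p q))⁆ : Derivation ℝ (Pol p q) (Pol p q)) = 0 := by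
    apply MvPolynomial.derivation_ext
    intro k
    rw [Derivation.commutator_apply, pderiv_X, pderiv_X, Derivation.zero_apply]
    have key : ∀ i j : Fin p × Fin q, pderiv i ((Pi.single j (1 : Pol p q) : Fin p × Fin q →
        Pol p q) k) = 0 := by
      intro i j
      rw [Pi.single_apply]
      split_ifs <;> simp
    rw [key, key, sub_zero]
  have h2 := congrArg (fun D : Derivation ℝ (Pol p q) (Pol p q) => D P) h
  simp only [Derivation.commutator_apply, Derivation.zero_apply] at h2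
  exact sub_eq_zero.1 h2

/-- `∂_{kl} (R_{ab} P) = R_{ab} (∂_{kl} P) + [l = a] ∂_{kb} P - [l = b] ∂_{ka} P`. -/
lemma pderiv_Rd (a b : Fin q) (k : Fin p) (l : Fin q) (P : Pol p q) :
    pderiv (k, l) (Rd a b P) = Rd a b (pderiv (k, l) P) + dl p l a * pderiv (k, b) P -
      dl p l b * pderiv (k, a) P := by
  rw [Rd_eq, Rd_eq, map_sum]
  have key : ∀ k' : Fin p, pderiv (k, l) (X (k', a) * pderiv (k', b) P - X (k', b) * pderiv (k', a) P)
      = (X (k', a) * pderiv (k', b) (pderiv (k, l) P) - X (k', b) * pderiv (k', a) (pderiv (k, l) P))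
        + ((if k' = k then dl p l a * pderiv (k, b) P else 0) -
          (if k' = k then dl p l b * pderiv (k, a) P else 0)) := by
    intro k'
    rw [map_sub, pderiv_mul, pderiv_mul, pd_comm _ (k', b), pd_comm _ (k', a), pderiv_X, pderiv_X]
    by_cases hk : k' = k
    · subst hk
      have e1 : (Pi.single (k', l) (1 : Pol p q) : Fin p × Fin q → Pol p q) (k', a) = dl p l a := by
        simp [dl, Pi.single_apply, eq_comm]
      have e2 : (Pi.single (k', l) (1 : Pol p q) : Fin p × Fin q → Pol p q) (k', b) = dl p l b := by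
        simp [dl, Pi.single_apply, eq_comm]
      simp only [if_true]
      simp only [e1, e2]
      ring
    · simp [hk]
  rw [Finset.sum_congr rfl fun k' _ => key k']
  simp only [Finset.sum_add_distrib, Finset.sum_sub_distrib, Finset.sum_ite_eq', Finset.mem_univ,
    if_true]
  ring

/-- The polynomial `Σ ∂_i P ∂_i Q`. -/
noncomputable def gg (P Q : Pol p q) : Pol p q := ∑ k, ∑ l, pderiv (k, l) P * pderiv (k, l) Q

lemma gg_rot (a b : Fin q) (P Q : Pol p q) :
    gg (Rd a b P) Q + gg P (Rd a b Q) = Rd a b (gg P Q) := by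
  unfold gg
  rw [map_sum, ← Finset.sum_add_distrib]
  refine Finset.sum_congr rfl fun k _ => ?_
  rw [map_sum, ← Finset.sum_add_distrib]
  have key : ∀ l, pderiv (k, l) (Rd a b P) * pderiv (k, l) Q + pderiv (k, l) P *
      pderiv (k, l) (Rd a b Q) = Rd a b (pderiv (k, l) P * pderiv (k, l) Q) +
      (dl p l a * (pderiv (k, b) P * pderiv (k, l) Q + pderiv (k, l) P * pderiv (k, b) Q) -
       dl p l b * (pderiv (k, a) P * pderiv (k, l) Q + pderiv (k, l) P * pderiv (k, a) Q)) := by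
    intro l
    rw [pderiv_Rd, pderiv_Rd, Derivation.leibniz]
    simp only [smul_eq_mul]
    ring
  rw [Finset.sum_congr rfl fun l _ => key l, Finset.sum_add_distrib]
  have h0 : ∑ l, (dl p l a * (pderiv (k, b) P * pderiv (k, l) Q + pderiv (k, l) P * pderiv (k, b) Q) -
       dl p l b * (pderiv (k, a) P * pderiv (k, l) Q + pderiv (k, l) P * pderiv (k, a) Q)) = 0 := by
    rw [Finset.sum_sub_distrib]
    have e1 : ∀ (c : Fin q) (G : Fin q → Pol p q), ∑ l, dl p l c * G l = G c := by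
      intro c G
      simp only [dl, ite_mul, one_mul, zero_mul, Finset.sum_ite_eq', Finset.mem_univ, if_true]
    rw [e1, e1]
    ring
  rw [h0, add_zero]

lemma ev_gg (P : Pol p q) (x : E p q) : ev (gg P P) x = ‖fderiv ℝ (ev P) x‖ ^ 2 := by
  rw [norm_sq_fderiv (EuclideanSpace.basisFun (Fin p × Fin q) ℝ), Fintype.sum_prod_type]
  unfold gg
  rw [ev_sum]
  refine Finset.sum_congr rfl fun k _ => ?_
  rw [ev_sum]
  refine Finset.sum_congr rfl fun l _ => ?_
  rw [ev_mul, ← dc_ev, sq]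
  rfl

/-- Pointwise bound of the rotational energy. -/
lemma rot_le {R : ℝ} {x : E p q} (hx : OpLe R x) (P : Pol p q) :
    ∑ a, ∑ b, ev (Rd a b P) x ^ 2 ≤ 4 * R ^ 2 * ‖fderiv ℝ (ev P) x‖ ^ 2 := by
  set M : Fin q → Fin q → ℝ := fun a b => ∑ k, x (k, a) * dc (ev P) (k, b) x with hM
  have h1 : ∀ a b, ev (Rd a b P) x = M a b - M b a := by
    intro a b
    rw [ev_Rd, fderiv_gen, Finset.sum_sub_distrib]
  have h2 : ∑ a, ∑ b, ev (Rd a b P) x ^ 2 ≤ 4 * ∑ a, ∑ b, M a b ^ 2 := by
    simp only [h1]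
    exact sum_anti_sq M
  refine h2.trans ?_
  rw [mul_assoc]
  refine mul_le_mul_of_nonneg_left ?_ (by norm_num)
  rw [Finset.sum_comm, norm_sq_fderiv (EuclideanSpace.basisFun (Fin p × Fin q) ℝ),
    Fintype.sum_prod_type_right, Finset.mul_sum]
  exact Finset.sum_le_sum fun b _ => hx fun k => dc (ev P) (k, b) x

namespace PW

variable {h : E p q → ℝ} {r : ℝ}

lemma Qf_add (H : PW h r) (P Q R : Pol p q) : Qf h (P + Q) R = Qf h P R + Qf h Q R := by
  unfold Qf
  simp only [map_add, H.Bf_add, Finset.sum_add_distrib]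

lemma Qf_smul (c : ℝ) (P Q : Pol p q) : Qf h (c • P) Q = c * Qf h P Q := by
  unfold Qf
  simp only [Derivation.map_smul, Bf_smul, Finset.mul_sum]

lemma Qf_expand (H : PW h r) (c : ℝ) (P Q : Pol p q) :
    Qf h (c • P + Q) (c • P + Q) = c ^ 2 * Qf h P P + 2 * c * Qf h P Q + Qf h Q Q := by
  rw [H.Qf_add, Qf_smul, Qf_comm P, Qf_comm Q, H.Qf_add, H.Qf_add, Qf_smul, Qf_smul, Qf_comm Q P]
  ring

/-- The spectral gap for `Cas g`. -/
lemma gap1 (H : PW h r) (hq : 3 ≤ q) (g : Pol p q) :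
    ((q : ℝ) - 2) * Bf h (Cas g) (Cas g) ≤ Qf h (Cas g) (Cas g) := by
  set s : ℝ := (q : ℝ) - 2 with hs
  have hs0 : 0 < s := by
    have : (3 : ℝ) ≤ q := by exact_mod_cast hq
    linarith
  have h1 := H.gap0 (by omega) g
  have h2 := H.Bf_Cas g (Cas g)
  have h3 := H.Qf_nonneg (s • g + Cas g)
  rw [H.Qf_expand] at h3
  have h4 : s ^ 2 * Qf h g g ≤ s * Bf h (Cas g) (Cas g) := by
    have := mul_le_mul_of_nonneg_left h1 hs0.le
    nlinarith
  nlinarith

/-- The energy form. -/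
noncomputable def EE (h : E p q → ℝ) (P Q : Pol p q) : ℝ := ∫ x, ev (gg P Q) x * h x

lemma ev_int (H : PW h r) (P : Pol p q) : Integrable fun x => ev P x * h x :=
  H.cont_int (ev_cont P)

lemma evi_add (H : PW h r) (P Q : Pol p q) :
    ∫ x, ev (P + Q) x * h x = (∫ x, ev P x * h x) + ∫ x, ev Q x * h x := by
  rw [← integral_add (H.ev_int _) (H.ev_int _)]
  exact integral_congr_ae (Eventually.of_forall fun x => by simp only [ev_add]; ring)

lemma EE_rot (H : PW h r) (a b : Fin q) (P Q : Pol p q) :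
    EE h (Rd a b P) Q = -EE h P (Rd a b Q) := by
  have h1 := H.int_Rd a b (gg P Q)
  rw [← gg_rot] at h1
  simp only [ev_add, add_mul] at h1
  rw [integral_add (H.ev_int _) (H.ev_int _)] at h1
  unfold EE
  linarith

lemma gg_comm (P Q : Pol p q) : gg P Q = gg Q P := by
  unfold gg
  exact Finset.sum_congr rfl fun _ _ => Finset.sum_congr rfl fun _ _ => mul_comm _ _

lemma gg_add (P Q R : Pol p q) : gg P (Q + R) = gg P Q + gg P R := by
  unfold gg
  simp only [map_add, mul_add, Finset.sum_add_distrib]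

lemma gg_zero (P : Pol p q) : gg (0 : Pol p q) P = 0 := by
  unfold gg
  simp

lemma EE_Cas (H : PW h r) {P : Pol p q} (hP : ∀ a b, Rd a b P = 0) (g : Pol p q) :
    EE h P (Cas g) = 0 := by
  have h1 : EE h P (Cas g) = ∑ a, ∑ b, EE h P (Rd a b (Rd a b g)) := by
    unfold EE
    have h2 : gg P (Cas g) = ∑ a, ∑ b, gg P (Rd a b (Rd a b g)) := by
      unfold gg Cas
      simp only [map_sum, Finset.mul_sum]
      have c1 : ∀ (G : Fin p → Fin q → Fin q → Fin q → Pol p q), ∑ k, ∑ l, ∑ a, ∑ b, G k l a b =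
          ∑ a, ∑ b, ∑ k, ∑ l, G k l a b := by
        intro G
        have d1 : ∀ k, ∑ l, ∑ a, ∑ b, G k l a b = ∑ a, ∑ b, ∑ l, G k l a b := by
          intro k
          rw [Finset.sum_comm]
          exact Finset.sum_congr rfl fun a _ => Finset.sum_comm
        simp only [d1]
        rw [Finset.sum_comm]
        exact Finset.sum_congr rfl fun a _ => Finset.sum_comm
      exact c1 _
    rw [h2]
    simp only [ev_sum, Finset.sum_mul]
    rw [integral_finsetSum _ fun a _ => integrable_finsetSum _ fun b _ => H.ev_int _]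
    exact Finset.sum_congr rfl fun a _ => integral_finsetSum _ fun b _ => H.ev_int _
  rw [h1]
  refine Finset.sum_eq_zero fun a _ => Finset.sum_eq_zero fun b _ => ?_
  have h3 := H.EE_rot a b P (Rd a b g)
  rw [hP] at h3
  have h4 : EE h (0 : Pol p q) (Rd a b g) = 0 := by
    unfold EE
    rw [gg_zero]
    simp [ev_zero]
  linarith

lemma EE_split (H : PW h r) {P : Pol p q} (hP : ∀ a b, Rd a b P = 0) (g : Pol p q) :
    EE h (P + Cas g) (P + Cas g) = EE h P P + EE h (Cas g) (Cas g) := by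
  have h1 := H.EE_Cas hP g
  have h2 : gg (P + Cas g) (P + Cas g) = (gg P P + gg (Cas g) (Cas g)) + (gg P (Cas g) +
      gg P (Cas g)) := by
    rw [gg_add, gg_comm _ P, gg_comm _ (Cas g), gg_add, gg_add, gg_comm (Cas g) P]
    ring
  have h3 : EE h (P + Cas g) (P + Cas g) = (EE h P P + EE h (Cas g) (Cas g)) + (EE h P (Cas g) +
      EE h P (Cas g)) := by
    unfold EE
    rw [h2, H.evi_add, H.evi_add, H.evi_add]
  rw [h3, h1]; ring

/-- Rotational energy bounded by the energy. -/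
lemma Qf_le (H : PW h r) {R : ℝ} (hR : ∀ x, h x ≠ 0 → OpLe R x) (P : Pol p q) :
    Qf h P P ≤ 4 * R ^ 2 * EE h P P := by
  unfold Qf EE Bf
  rw [← integral_const_mul]
  have h1 : ∑ a, ∑ b, ∫ x, ev (Rd a b P) x * ev (Rd a b P) x * h x =
      ∫ x, ∑ a, ∑ b, ev (Rd a b P) x * ev (Rd a b P) x * h x := by
    rw [integral_finsetSum _ fun a _ => integrable_finsetSum _ fun b _ => H.Bint _ _]
    exact Finset.sum_congr rfl fun a _ => (integral_finsetSum _ fun b _ => H.Bint _ _).symm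
  rw [h1]
  refine integral_mono (integrable_finsetSum _ fun a _ => integrable_finsetSum _ fun b _ =>
    H.Bint _ _) ((H.ev_int _).const_mul _) fun x => ?_
  simp only
  by_cases hx : h x = 0
  · simp [hx]
  · have h2 := rot_le (hR x hx) P
    rw [← ev_gg] at h2
    have h3 : ∑ a, ∑ b, ev (Rd a b P) x * ev (Rd a b P) x * h x =
        (∑ a, ∑ b, ev (Rd a b P) x ^ 2) * h x := by
      simp only [Finset.sum_mul, sq]
    rw [h3]
    calc (∑ a, ∑ b, ev (Rd a b P) x ^ 2) * h x ≤ (4 * R ^ 2 * ev (gg P P) x) * h x :=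
          mul_le_mul_of_nonneg_right h2 (H.nonneg x)
      _ = _ := by ring

end PW

/-- Polynomials killed by the infinitesimal rotations are invariant. -/
lemma ev_inv {P : Pol p q} (hP : ∀ a b, Rd a b P = 0) {a b : Fin q} (hab : a ≠ b) (t : ℝ)
    (x : E p q) : ev P (rm (gv a b t) x) = ev P x := by
  set c : ℝ → E p q := fun t => x + (Real.cos t - 1) • rm (pr a b) x + Real.sin t • rm (gen a b) x
    with hc
  have hcd : ∀ t, HasDerivAt c (rm (gen a b) (c t)) t := by
    intro t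
    have c1 := ((Real.hasDerivAt_cos t).sub_const 1).smul_const (rm (pr a b) x)
    have c2 := (Real.hasDerivAt_sin t).smul_const (rm (gen a b) x)
    have c3 := (c1.const_add x).add c2
    have e : rm (gen a b) (c t) = -Real.sin t • rm (pr a b) x + Real.cos t • rm (gen a b) x := by
      simp only [hc]
      rw [rm_add, rm_add, rm_smul, rm_smul, rm_mul, rm_mul, gen_sq hab, pr_gen hab]
      have e2 : rm (-pr a b) x = -rm (pr a b) x := by
        ext ⟨k, j⟩
        simp [rm_apply]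
      rw [e2]
      module
    rw [e]
    exact c3
  have hd : ∀ t, HasDerivAt (fun t => ev P (c t)) 0 t := by
    intro t
    have h1 := ((ev_diff P (c t)).hasFDerivAt).comp_hasDerivAt t (hcd t)
    have h2 : fderiv ℝ (ev P) (c t) (rm (gen a b) (c t)) = 0 := by
      rw [← ev_Rd, hP, ev_zero]
    rw [h2] at h1
    exact h1
  have h3 := is_const_of_deriv_eq_zero (fun t => (hd t).differentiableAt) (fun t => (hd t).deriv) t 0
  have e0 : c 0 = x := by simp [hc]
  have et : c t = rm (gv a b t) x := (PW.path_eq a b x t).symm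
  rw [← et, h3, e0]

/-- A smooth radial cut-off. -/
noncomputable def cut (r : ℝ) (x : E p q) : ℝ := Real.smoothTransition (r ^ 2 + 2 - ‖x‖ ^ 2)

lemma cut_contDiff (r : ℝ) : ContDiff ℝ (⊤ : ℕ∞) (cut r : E p q → ℝ) :=
  Real.smoothTransition.contDiff.comp (contDiff_const.sub (contDiff_norm_sq ℝ))

lemma cut_one {r : ℝ} {x : E p q} (hx : ‖x‖ ^ 2 ≤ r ^ 2 + 1) : cut r x = 1 :=
  Real.smoothTransition.one_of_one_le (by linarith)

lemma cut_zero {r : ℝ} {x : E p q} (hx : r ^ 2 + 2 ≤ ‖x‖ ^ 2) : cut r x = 0 :=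
  Real.smoothTransition.zero_of_nonpos (by linarith)

lemma cut_supp (r : ℝ) : HasCompactSupport (cut r : E p q → ℝ) := by
  refine HasCompactSupport.intro (isCompact_closedBall (0 : E p q) (|r| + 2)) fun x hx => ?_
  apply cut_zero
  rw [mem_closedBall_zero_iff, not_le] at hx
  have h1 : (|r| + 2) ^ 2 ≤ ‖x‖ ^ 2 := pow_le_pow_left₀ (by positivity) hx.le 2
  have h2 : |r| ^ 2 = r ^ 2 := sq_abs r
  nlinarith [abs_nonneg r]

/-- The Poincaré inequality for invariant polynomials. -/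
lemma inv_poly {h : E p q → ℝ} {r B : ℝ} (H : PW h r) (W : Wt h B) (hq : 2 ≤ q) {R : ℝ}
    (hR : ∀ x, h x ≠ 0 → OpLe R x) {P : Pol p q} (hP : ∀ a b, Rd a b P = 0)
    (hm : ∫ x, ev P x * h x = 0) :
    Bf h P P ≤ 2 * (2 * R ^ 2 / ((q : ℝ) - 1)) * PW.EE h P P := by
  have hq1 : (0 : ℝ) < (q : ℝ) - 1 := by
    have : (2 : ℝ) ≤ q := by exact_mod_cast hq
    linarith
  set f : E p q → ℝ := fun x => ev P x * cut r x with hf
  have hfd : ContDiff ℝ (⊤ : ℕ∞) f := (ev_contDiff P).mul (cut_contDiff r)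
  have hfs : HasCompactSupport f := (cut_supp r).mul_left
  obtain ⟨L, hL⟩ := ContDiff.lipschitzWith_of_hasCompactSupport (𝕂 := ℝ) hfs hfd (by simp)
  obtain ⟨A, hA⟩ := hfs.exists_bound_of_continuous hfd.continuous
  have hnear : ∀ x, h x ≠ 0 → f =ᶠ[𝓝 x] ev P := by
    intro x hx
    have h1 : ‖x‖ ≤ r := by
      by_contra hc
      exact hx (H.supp x (not_le.1 hc))
    have h2 : ‖x‖ ^ 2 < r ^ 2 + 1 := by
      have : ‖x‖ ^ 2 ≤ r ^ 2 := pow_le_pow_left₀ (norm_nonneg _) h1 2
      linarith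
    have h3 : {y : E p q | ‖y‖ ^ 2 < r ^ 2 + 1} ∈ 𝓝 x :=
      (isOpen_lt (by fun_prop) continuous_const).mem_nhds h2
    filter_upwards [h3] with y hy
    simp only [hf]
    rw [cut_one (le_of_lt hy), mul_one]
  have e1 : ∀ x, f x * h x = ev P x * h x := by
    intro x
    by_cases hx : h x = 0
    · rw [hx, mul_zero, mul_zero]
    · rw [(hnear x hx).self_of_nhds]
  have e2 : ∀ x, f x ^ 2 * h x = ev P x * ev P x * h x := by
    intro x
    by_cases hx : h x = 0
    · rw [hx, mul_zero, mul_zero]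
    · rw [(hnear x hx).self_of_nhds, sq]
  have e3 : ∀ x, ‖fderiv ℝ f x‖ ^ 2 * h x = ev (gg P P) x * h x := by
    intro x
    by_cases hx : h x = 0
    · rw [hx, mul_zero, mul_zero]
    · rw [(hnear x hx).fderiv_eq, ev_gg]
  have hinv : ∀ T ∈ GO p q, ∀ x, f (T x) = f x := by
    rintro T ⟨a, b, hab, t, rfl⟩ x
    simp only [hf, rme_apply, ev_inv hP hab]
    congr 1
    unfold cut
    rw [rm_norm (gv_orth hab t)]
  have key := inv_poincare W H.int H.supp (EuclideanSpace.basisFun (Fin p × Fin q) ℝ)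
    (by positivity : (0 : ℝ) ≤ 2 * R ^ 2 / ((q : ℝ) - 1)) (hess_ineq hq hR) H.inv hL
    (A := A) (fun x => by rw [← Real.norm_eq_abs]; exact hA x) hinv
    (by simp only [e1]; exact hm)
  unfold En at key
  simp only [e2, e3] at key
  exact key

lemma Cas_one : Cas (1 : Pol p q) = 0 := by
  unfold Cas
  refine Finset.sum_eq_zero fun a _ => Finset.sum_eq_zero fun b _ => ?_
  rw [Derivation.map_one_eq_zero, map_zero]

/-- **The Poincaré inequality for polynomials.** -/
theorem poly_poincare {h : E p q → ℝ} {r B : ℝ} (H : PW h r) (W : Wt h B) (hq : 3 ≤ q) {R : ℝ}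
    (hR : ∀ x, h x ≠ 0 → OpLe R x) (P : Pol p q) {m : ℝ}
    (hm : ∫ x, ev P x * h x = m * ∫ x, h x) :
    ∫ x, (ev P x - m) ^ 2 * h x ≤
      4 * R ^ 2 / ((q : ℝ) - 2) * ∫ x, ‖fderiv ℝ (ev P) x‖ ^ 2 * h x := by
  have hq3 : (3 : ℝ) ≤ q := by exact_mod_cast hq
  obtain ⟨P0, g, hP0, rfl⟩ := H.decomp P
  set P1 : Pol p q := P0 - C m with hP1
  have hP1' : ∀ a b, Rd a b P1 = 0 := by
    intro a b
    rw [hP1, map_sub, hP0, ← MvPolynomial.algebraMap_eq, Derivation.map_algebraMap, sub_zero]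
  have hev1 : ∀ x, ev P1 x = ev P0 x - m := fun x => by rw [hP1, ev_sub, ev_C]
  -- the mean of `Cas g` vanishes
  have hc0 : ∫ x, ev (Cas g) x * h x = 0 := by
    have h1 := H.Bf_Cas_symm g 1
    rw [Cas_one] at h1
    have h2 : Bf h g 0 = 0 := by unfold Bf; simp [ev_zero]
    rw [h2] at h1
    unfold Bf at h1
    simpa [ev_one] using h1
  have hm1 : ∫ x, ev P1 x * h x = 0 := by
    have h1 := H.evi_add P0 (Cas g)
    rw [hc0, add_zero, hm] at h1
    have h2 : ∫ x, ev P1 x * h x = (∫ x, ev P0 x * h x) - m * ∫ x, h x := by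
      rw [← integral_const_mul, ← integral_sub (H.ev_int _) (H.int.const_mul _)]
      exact integral_congr_ae (Eventually.of_forall fun x => by simp only [hev1]; ring)
    rw [h2, ← h1, sub_self]
  have h1 := inv_poly H W (by omega) hR hP1' hm1
  have h2 := H.gap1 hq g
  have h3 := H.Qf_le hR (Cas g)
  -- orthogonality
  have h4 : Bf h (P1 + Cas g) (P1 + Cas g) = Bf h P1 P1 + Bf h (Cas g) (Cas g) := by
    have c1 : Bf h (Cas g) P1 = 0 := by
      rw [H.Bf_Cas]
      unfold PW.Qf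
      have : ∀ a b, Bf h (Rd a b g) (Rd a b P1) = 0 := by
        intro a b
        rw [hP1']; unfold Bf; simp [ev_zero]
      simp [this]
    have c2 : Bf h P1 (Cas g) = 0 := by rw [PW.Bf_comm]; exact c1
    rw [H.Bf_add, PW.Bf_comm P1, PW.Bf_comm (Cas g), H.Bf_add, H.Bf_add, c1, c2]
    ring
  have h5 := H.EE_split hP1' g
  have e0 : ∫ x, (ev (P0 + Cas g) x - m) ^ 2 * h x = Bf h (P1 + Cas g) (P1 + Cas g) := by
    unfold Bf
    exact integral_congr_ae (Eventually.of_forall fun x => by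
      simp only [ev_add, hev1]; ring)
  have hfd : ∀ x, fderiv ℝ (ev (P0 + Cas g)) x = fderiv ℝ (ev (P1 + Cas g)) x := by
    intro x
    have : ev (P0 + Cas g) = fun x => ev (P1 + Cas g) x + m := by
      ext x; simp only [ev_add, hev1]; ring
    rw [this]
    exact fderiv_add_const (f := ev (P1 + Cas g)) (x := x) m
  have e1 : ∫ x, ‖fderiv ℝ (ev (P0 + Cas g)) x‖ ^ 2 * h x = PW.EE h (P1 + Cas g) (P1 + Cas g) := by
    unfold PW.EE
    exact integral_congr_ae (Eventually.of_forall fun x => by simp only [ev_gg, hfd])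
  rw [e0, e1, h4, h5]
  have hE1 : 0 ≤ PW.EE h P1 P1 := integral_nonneg fun x => mul_nonneg (by
    rw [ev_gg]; positivity) (H.nonneg x)
  have hE2 : 0 ≤ PW.EE h (Cas g) (Cas g) := integral_nonneg fun x => mul_nonneg (by
    rw [ev_gg]; positivity) (H.nonneg x)
  have h6 : Bf h (Cas g) (Cas g) ≤ 4 * R ^ 2 / ((q : ℝ) - 2) * PW.EE h (Cas g) (Cas g) := by
    rw [div_mul_eq_mul_div, le_div_iff₀ (by linarith)]
    linarith
  have h7 : Bf h P1 P1 ≤ 4 * R ^ 2 / ((q : ℝ) - 2) * PW.EE h P1 P1 := by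
    refine h1.trans (mul_le_mul_of_nonneg_right ?_ hE1)
    have : 2 * (2 * R ^ 2 / ((q : ℝ) - 1)) = 4 * R ^ 2 / ((q : ℝ) - 1) := by ring
    rw [this]
    exact div_le_div_of_nonneg_left (by positivity) (by linarith) (by linarith)
  linarith

end Pool.Agent.Lib.MP_8d00da_gt.h25
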