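import Mathlib
import Pool.Agent.Lib.MP_8d00da_gt.h25.Cls
import Pool.Agent.Lib.MP_8d00da_gt.h25.Gap2

/-!
# The Poincaré inequality on sets of bounded operator norm
-/

namespace Pool.Agent.Lib.MP_8d00da_gt.h25

open MeasureTheory Set Filter Matrix
open Pool.Agent.Lib.MP_8d00da_gt.h42
open scoped Topology NNReal

variable {p q : ℕ}

lemma LCW.pos_convex {F : Type*} [NormedAddCommGroup F] [InnerProductSpace ℝ F]
    [FiniteDimensional ℝ F] [MeasurableSpace F] [BorelSpace F] {h : F → ℝ} (h0 : ∀ x, 0 ≤ h x)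
    (hc : LogConc h) : Convex ℝ {x | 0 < h x} := by
  intro x hx y hy a b ha hb hab
  simp only [mem_setOf_eq] at hx hy ⊢
  rcases eq_or_lt_of_le ha with h1 | h1
  · subst h1
    have : b = 1 := by linarith
    subst this; simpa using hy
  · rcases eq_or_lt_of_le hb with h2 | h2
    · subst h2
      have : a = 1 := by linarith
      subst this; simpa using hx
    · have h3 := hc b h2 (by linarith) x y
      have e : (1 - b : ℝ) = a := by linarith
      rw [e] at h3
      exact lt_of_lt_of_le (mul_pos (Real.rpow_pos_of_pos hx _) (Real.rpow_pos_of_pos hy _)) h3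

lemma LCW.exists_open {F : Type*} [NormedAddCommGroup F] [InnerProductSpace ℝ F]
    [FiniteDimensional ℝ F] [MeasurableSpace F] [BorelSpace F] {h : F → ℝ} (h0 : ∀ x, 0 ≤ h x)
    (hc : LogConc h) (hmass : 0 < ∫ x, h x) :
    ∃ U : Set F, IsOpen U ∧ U.Nonempty ∧ ∀ x ∈ U, 0 < h x := by
  set S : Set F := {x | 0 < h x} with hS
  have hconv : Convex ℝ S := LCW.pos_convex h0 hc
  refine ⟨interior S, isOpen_interior, ?_, fun x hx => (interior_subset hx : x ∈ S)⟩
  by_contra hne
  rw [not_nonempty_iff_eq_empty] at hne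
  have h1 : (volume : Measure F) (frontier S) = 0 := hconv.addHaar_frontier volume
  have h2 : S ⊆ frontier S := by
    intro x hx
    exact ⟨subset_closure hx, by rw [hne]; simp⟩
  have h3 : (volume : Measure F) S = 0 := measure_mono_null h2 h1
  have h4 : h =ᵐ[volume] 0 := by
    rw [Filter.EventuallyEq, ae_iff]
    refine measure_mono_null (fun x hx => ?_) h3
    exact lt_of_le_of_ne (h0 x) (Ne.symm hx)
  rw [integral_congr_ae h4] at hmass
  simp at hmass

/-- Right orthogonal invariance. -/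
def Inv (h : E p q → ℝ) : Prop :=
  ∀ O : Matrix (Fin q) (Fin q) ℝ, O * Oᵀ = 1 → ∀ x, h (rm O x) = h x

lemma LCW.pw {h : E p q → ℝ} {r B : ℝ} (H : LCW h r B) (hinv : Inv h) : PW h r where
  meas := H.meas
  nonneg := H.nonneg
  int := H.int
  supp := H.supp
  inv := by
    rintro T ⟨a, b, hab, t, rfl⟩ x
    exact hinv _ (gv_orth hab t) x
  pos := LCW.exists_open H.nonneg H.conc H.mass

/-- Approximability by polynomials in `C¹` on balls. -/
def Approx (f : E p q → ℝ) : Prop := ∀ r : ℝ, ∃ P : ℕ → Pol p q,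
  (∀ x, ‖x‖ ≤ r → Tendsto (fun k => ev (P k) x) atTop (𝓝 (f x))) ∧
  (∀ᵐ x : E p q, ‖x‖ ≤ r → Tendsto (fun k => fderiv ℝ (ev (P k)) x) atTop (𝓝 (fderiv ℝ f x))) ∧
  ∃ C : ℝ, ∀ k x, ‖x‖ ≤ r → |ev (P k) x| ≤ C ∧ ‖fderiv ℝ (ev (P k)) x‖ ≤ C

/-- **The Poincaré inequality on sets of bounded operator norm.** -/
theorem t1 {h : E p q → ℝ} {r B : ℝ} (H : LCW h r B) (hinv : Inv h) (hq : 3 ≤ q) {R : ℝ}
    (hR : ∀ x, h x ≠ 0 → NN x ≤ R) {f : E p q → ℝ} (hf : Approx f) {m : ℝ}
    (hm : ∫ x, f x * h x = m * ∫ x, h x) :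
    ∫ x, (f x - m) ^ 2 * h x ≤
      4 * R ^ 2 / ((q : ℝ) - 2) * ∫ x, ‖fderiv ℝ f x‖ ^ 2 * h x := by
  obtain ⟨P, hP1, hP2, C, hC⟩ := hf r
  set Z := ∫ x, h x with hZ
  have hZ0 : 0 < Z := H.mass
  set mk : ℕ → ℝ := fun k => (∫ x, ev (P k) x * h x) / Z with hmk
  have hH := H.pw hinv
  -- convergence of the means
  have hball : ∀ x, h x ≠ 0 → ‖x‖ ≤ r := fun x hx => by
    by_contra hc
    exact hx (H.supp x (not_le.1 hc))
  have t1 : Tendsto (fun k => ∫ x, ev (P k) x * h x) atTop (𝓝 (∫ x, f x * h x)) := by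
    refine tendsto_integral_of_dominated_convergence (fun x => C * h x)
      (fun k => ((ev_cont _).measurable.mul H.meas).aestronglyMeasurable) (H.int.const_mul C)
      (fun k => Eventually.of_forall fun x => ?_) (Eventually.of_forall fun x => ?_)
    · by_cases hx : h x = 0
      · simp [hx]
      · rw [norm_mul, Real.norm_eq_abs, Real.norm_eq_abs, abs_of_nonneg (H.nonneg x)]
        exact mul_le_mul_of_nonneg_right (hC k x (hball x hx)).1 (H.nonneg x)
    · by_cases hx : h x = 0
      · simp [hx]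
      · exact (hP1 x (hball x hx)).mul_const _
  have t2 : Tendsto mk atTop (𝓝 m) := by
    have := t1.div_const Z
    rwa [hm, mul_div_assoc, div_self hZ0.ne', mul_one] at this
  obtain ⟨M, hM⟩ : ∃ M, ∀ k, |mk k| ≤ M := by
    obtain ⟨M, hM⟩ := t2.bddAbove_range
    obtain ⟨M', hM'⟩ := t2.bddBelow_range
    refine ⟨max |M| |M'|, fun k => abs_le.2 ⟨?_, ?_⟩⟩
    · have h1 := hM' (mem_range_self k)
      have h2 := neg_abs_le M'
      have h3 := le_max_right |M| |M'|
      linarith
    · have h1 := hM (mem_range_self k)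
      have h2 := le_abs_self M
      have h3 := le_max_left |M| |M'|
      linarith
  have t3 : Tendsto (fun k => ∫ x, (ev (P k) x - mk k) ^ 2 * h x) atTop
      (𝓝 (∫ x, (f x - m) ^ 2 * h x)) := by
    refine tendsto_integral_of_dominated_convergence (fun x => (C + M) ^ 2 * h x)
      (fun k => ((((ev_cont _).sub continuous_const).pow 2).measurable.mul
        H.meas).aestronglyMeasurable) (H.int.const_mul _)
      (fun k => Eventually.of_forall fun x => ?_) (Eventually.of_forall fun x => ?_)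
    · by_cases hx : h x = 0
      · simp [hx]
      · rw [norm_mul, Real.norm_eq_abs, Real.norm_eq_abs, abs_of_nonneg (H.nonneg x), abs_pow]
        refine mul_le_mul_of_nonneg_right (pow_le_pow_left₀ (abs_nonneg _) ?_ 2) (H.nonneg x)
        exact (abs_sub _ _).trans (add_le_add (hC k x (hball x hx)).1 (hM k))
    · by_cases hx : h x = 0
      · simp [hx]
      · exact (((hP1 x (hball x hx)).sub t2).pow 2).mul_const _
  have t4 : Tendsto (fun k => ∫ x, ‖fderiv ℝ (ev (P k)) x‖ ^ 2 * h x) atTop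
      (𝓝 (∫ x, ‖fderiv ℝ f x‖ ^ 2 * h x)) := by
    refine tendsto_integral_of_dominated_convergence (fun x => C ^ 2 * h x)
      (fun k => ((measurable_fderiv ℝ _).norm.pow_const 2 |>.mul H.meas).aestronglyMeasurable)
      (H.int.const_mul _)
      (fun k => Eventually.of_forall fun x => ?_) ?_
    · by_cases hx : h x = 0
      · simp [hx]
      · rw [norm_mul, Real.norm_eq_abs, Real.norm_eq_abs, abs_of_nonneg (H.nonneg x), abs_pow,
          abs_norm]
        exact mul_le_mul_of_nonneg_right (pow_le_pow_left₀ (norm_nonneg _)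
          (hC k x (hball x hx)).2 2) (H.nonneg x)
    · filter_upwards [hP2] with x hx2
      by_cases hx : h x = 0
      · simp [hx]
      · exact ((hx2 (hball x hx)).norm.pow 2).mul_const _
  refine le_of_tendsto_of_tendsto' t3 (t4.const_mul _) fun k => ?_
  exact poly_poincare hH H.wt hq (fun x hx => opLe_of_NN (hR x hx)) (P k)
    (by simp only [hmk, ← hZ]; field_simp)

end Pool.Agent.Lib.MP_8d00da_gt.h25
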