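import Mathlib
import Pool.Agent.Lib.MP_8d00da_gt.h25.Far
import Pool.Agent.Lib.MP_8d00da_gt.h25.T1

/-!
# The core theorem
-/

namespace Pool.Agent.Lib.MP_8d00da_gt.h25

open MeasureTheory Set Filter Matrix
open Pool.Agent.Lib.MP_8d00da_gt.h42
open scoped Topology NNReal

variable {p q : ℕ}

/-- numerical data: `s0 = 2 e sqrt(2q) σ` -/
noncomputable def s0 (q : ℕ) (σ : ℝ) : ℝ := 2 * Real.exp 1 * (Real.sqrt (2 * q) * σ)

noncomputable def be (q : ℕ) (σ : ℝ) : ℝ := q / (16 * s0 q σ)

noncomputable def La (p q : ℕ) : ℝ := max 1 ((p : ℝ) / q)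

noncomputable def Ra (p q : ℕ) (σ : ℝ) : ℝ := 24 * La p q * s0 q σ

lemma La_one : 1 ≤ La p q := le_max_left _ _

lemma La_p (hq : 1 ≤ q) : (p : ℝ) ≤ La p q * q := by
  have h1 : (p : ℝ) / q ≤ La p q := le_max_right _ _
  have h2 : (0 : ℝ) < q := by exact_mod_cast hq
  rwa [div_le_iff₀ h2] at h1

lemma s0_pos (hq : 1 ≤ q) {σ : ℝ} (hσ : 0 < σ) : 0 < s0 q σ := by
  have h2 : (0 : ℝ) < q := by exact_mod_cast hq
  unfold s0
  positivity

lemma be_pos (hq : 1 ≤ q) {σ : ℝ} (hσ : 0 < σ) : 0 < be q σ := by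
  have h2 : (0 : ℝ) < q := by exact_mod_cast hq
  have := s0_pos hq hσ
  unfold be
  positivity

lemma be_Ra (hq : 1 ≤ q) {σ : ℝ} (hσ : 0 < σ) : be q σ * Ra p q σ = 3 / 2 * q * La p q := by
  have := (s0_pos hq hσ).ne'
  unfold be Ra
  field_simp
  ring

/-- the tail hypothesis -/
def Tail (h : E p q → ℝ) (σ : ℝ) : Prop := ∀ t : ℝ, 1 ≤ t →
  ∫ x in {x | 4 * t * s0 q σ < NN x}, h x ≤ 5 ^ p * (2 ^ q * Real.exp (-(t * q)))

lemma five_le : (5 : ℝ) ≤ Real.exp 2 := by
  have h1 : Real.exp 2 = Real.exp 1 * Real.exp 1 := by rw [← Real.exp_add]; norm_num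
  have h2 := Real.exp_one_gt_d9
  rw [h1]
  nlinarith

lemma tail2 {h : E p q → ℝ} {σ : ℝ} (hq : 1 ≤ q) (hσ : 0 < σ) (ht : Tail h σ) {s : ℝ}
    (hs : Ra p q σ ≤ s) : ∫ x in {x | s < NN x}, h x ≤ Real.exp (-(2 * be q σ * s)) := by
  have hq0 : (0 : ℝ) < q := by exact_mod_cast hq
  have hs0 := s0_pos hq hσ
  set t : ℝ := s / (4 * s0 q σ) with htdef
  have hts : 4 * t * s0 q σ = s := by rw [htdef]; field_simp
  have hL := La_one (p := p) (q := q)
  have ht6 : 6 * La p q ≤ t := by
    rw [htdef, le_div_iff₀ (by positivity)]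
    unfold Ra at hs
    linarith
  have h1 := ht t (by linarith)
  rw [hts] at h1
  refine h1.trans ?_
  have h5 : (5 : ℝ) ^ p ≤ Real.exp (2 * p) := by
    calc (5 : ℝ) ^ p ≤ Real.exp 2 ^ p := pow_le_pow_left₀ (by norm_num) five_le p
      _ = Real.exp (2 * p) := by rw [← Real.exp_nat_mul]; ring_nf
  have h2 : (2 : ℝ) ^ q ≤ Real.exp q := by
    calc (2 : ℝ) ^ q ≤ Real.exp 1 ^ q := by
          refine pow_le_pow_left₀ (by norm_num) ?_ q
          have := Real.exp_one_gt_d9
          linarith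
      _ = Real.exp q := by rw [← Real.exp_nat_mul]; ring_nf
  have hp := La_p (p := p) hq
  calc (5 : ℝ) ^ p * (2 ^ q * Real.exp (-(t * q)))
      ≤ Real.exp (2 * p) * (Real.exp q * Real.exp (-(t * q))) := by gcongr
    _ = Real.exp (2 * p + q - t * q) := by rw [← Real.exp_add, ← Real.exp_add]; ring_nf
    _ ≤ Real.exp (-(2 * be q σ * s)) := by
        apply Real.exp_le_exp.2
        have e1 : 2 * be q σ * s = t * q / 2 := by
          rw [htdef]; unfold be; field_simp; ring
        rw [e1]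
        have h3 : 6 * La p q * q ≤ t * q := mul_le_mul_of_nonneg_right ht6 hq0.le
        nlinarith

/-- Exponential integrability of the operator norm. -/
lemma expmom {h : E p q → ℝ} {r B : ℝ} (H : LCW h r B) (h1 : ∫ x, h x = 1) {σ : ℝ} (hq : 3 ≤ q)
    (hσ : 0 < σ) (ht : Tail h σ) :
    ∫ x, Real.exp (be q σ * NN x) * h x ≤ Real.exp (be q σ * Ra p q σ + 1) := by
  have hq1 : 1 ≤ q := by omega
  set β := be q σ with hβ
  set R := Ra p q σ with hR
  have hβ0 : 0 < β := be_pos hq1 hσ
  have hNm : Measurable (NN : E p q → ℝ) := NN_lip.continuous.measurable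
  obtain ⟨J, hJ⟩ := exists_nat_ge (β * (r - R))
  have hsup : ∀ x, h x ≠ 0 → ‖x‖ ≤ r := fun x hx => by
    by_contra hc
    exact hx (H.supp x (not_le.1 hc))
  set c : ℕ → ℝ := fun j => Real.exp (β * R + j + 1) with hc
  set S : ℕ → Set (E p q) := fun j => {x | R + j / β < NN x} with hS
  have hSm : ∀ j, MeasurableSet (S j) := fun j => measurableSet_lt measurable_const hNm
  have hpt : ∀ x, Real.exp (β * NN x) * h x ≤
      Real.exp (β * R) * h x + ∑ j ∈ Finset.range J, c j * (S j).indicator h x := by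
    intro x
    by_cases hx : h x = 0
    · rw [hx, mul_zero, mul_zero, zero_add]
      exact Finset.sum_nonneg fun j _ => mul_nonneg (Real.exp_pos _).le
        (indicator_nonneg (fun x _ => H.nonneg x) x)
    · have hNr : NN x ≤ r := (NN_le_norm x).trans (hsup x hx)
      rcases le_or_gt (NN x) R with hle | hgt
      · have i1 : Real.exp (β * NN x) * h x ≤ Real.exp (β * R) * h x :=
          mul_le_mul_of_nonneg_right (Real.exp_le_exp.2 (mul_le_mul_of_nonneg_left hle hβ0.le))
            (H.nonneg x)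
        have i2 : 0 ≤ ∑ j ∈ Finset.range J, c j * (S j).indicator h x :=
          Finset.sum_nonneg fun j _ => mul_nonneg (Real.exp_pos _).le
            (indicator_nonneg (fun x _ => H.nonneg x) x)
        linarith
      · set v := β * (NN x - R) with hv
        have hv0 : 0 < v := mul_pos hβ0 (by linarith)
        set j := ⌈v⌉₊ - 1 with hj
        have hcp : 0 < ⌈v⌉₊ := Nat.ceil_pos.2 hv0
        have hj1 : (j : ℝ) + 1 = ⌈v⌉₊ := by
          rw [hj, Nat.cast_sub hcp]; simp
        have hj2 : v ≤ j + 1 := by rw [hj1]; exact Nat.le_ceil v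
        have hj3 : (j : ℝ) < v := by
          have := Nat.ceil_lt_add_one hv0.le
          linarith
        have hjJ : j ∈ Finset.range J := by
          rw [Finset.mem_range]
          have : v ≤ β * (r - R) := mul_le_mul_of_nonneg_left (by linarith) hβ0.le
          have h3 : (j : ℝ) < J := by linarith
          exact_mod_cast h3
        have hxS : x ∈ S j := by
          have : (j : ℝ) / β < NN x - R := by
            rw [div_lt_iff₀ hβ0]; linarith
          show R + j / β < NN x
          linarith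
        have i1 : c j * (S j).indicator h x ≤ ∑ j ∈ Finset.range J, c j * (S j).indicator h x :=
          Finset.single_le_sum (f := fun j => c j * (S j).indicator h x)
            (fun j _ => mul_nonneg (Real.exp_pos _).le
            (indicator_nonneg (fun x _ => H.nonneg x) x)) hjJ
        have i2 : Real.exp (β * NN x) * h x ≤ c j * (S j).indicator h x := by
          rw [indicator_of_mem hxS]
          refine mul_le_mul_of_nonneg_right (Real.exp_le_exp.2 ?_) (H.nonneg x)
          have : β * NN x = v + β * R := by rw [hv]; ring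
          linarith
        have i3 : 0 ≤ Real.exp (β * R) * h x := mul_nonneg (Real.exp_pos _).le (H.nonneg x)
        linarith
  have iL : Integrable fun x => Real.exp (β * NN x) * h x := by
    refine (H.int.const_mul (Real.exp (β * r))).mono'
      ((Real.measurable_exp.comp (hNm.const_mul β)).mul H.meas).aestronglyMeasurable
      (Eventually.of_forall fun x => ?_)
    by_cases hx : h x = 0
    · simp [hx]
    · rw [norm_mul, Real.norm_eq_abs, Real.norm_eq_abs, abs_of_nonneg (H.nonneg x),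
        abs_of_pos (Real.exp_pos _)]
      refine mul_le_mul_of_nonneg_right (Real.exp_le_exp.2 ?_) (H.nonneg x)
      exact mul_le_mul_of_nonneg_left ((NN_le_norm x).trans (hsup x hx)) hβ0.le
  have iR : Integrable fun x => Real.exp (β * R) * h x +
      ∑ j ∈ Finset.range J, c j * (S j).indicator h x :=
    (H.int.const_mul _).add (integrable_finsetSum _ fun j _ =>
      (H.int.indicator (hSm j)).const_mul _)
  have h2 := integral_mono iL iR hpt
  rw [integral_add (H.int.const_mul _) (integrable_finsetSum _ fun j _ =>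
      (H.int.indicator (hSm j)).const_mul _), integral_const_mul, h1, mul_one,
      integral_finsetSum _ fun j _ => (H.int.indicator (hSm j)).const_mul _] at h2
  have h3 : ∀ j, ∫ x, c j * (S j).indicator h x ≤ Real.exp (1 - β * R) * (1 / 2) ^ j := by
    intro j
    rw [integral_const_mul, integral_indicator (hSm j)]
    have h4 : ∫ x in S j, h x ≤ Real.exp (-(2 * β * (R + j / β))) :=
      tail2 hq1 hσ ht (by
        have : (0 : ℝ) ≤ j / β := by positivity
        linarith)
    calc c j * ∫ x in S j, h x ≤ c j * Real.exp (-(2 * β * (R + j / β))) :=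
          mul_le_mul_of_nonneg_left h4 (Real.exp_pos _).le
      _ = Real.exp (1 - β * R) * Real.exp (-1) ^ j := by
          simp only [hc]
          rw [← Real.exp_nat_mul, ← Real.exp_add, ← Real.exp_add]
          congr 1
          field_simp
          ring
      _ ≤ _ := by
          refine mul_le_mul_of_nonneg_left (pow_le_pow_left₀ (Real.exp_pos _).le ?_ j)
            (Real.exp_pos _).le
          rw [Real.exp_neg, one_div]
          have := Real.exp_one_gt_d9
          exact inv_anti₀ (by norm_num) (by linarith)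
  have h4 : ∑ j ∈ Finset.range J, ∫ x, c j * (S j).indicator h x ≤ 2 * Real.exp (1 - β * R) := by
    calc ∑ j ∈ Finset.range J, ∫ x, c j * (S j).indicator h x
        ≤ ∑ j ∈ Finset.range J, Real.exp (1 - β * R) * (1 / 2) ^ j :=
          Finset.sum_le_sum fun j _ => h3 j
      _ = Real.exp (1 - β * R) * ∑ j ∈ Finset.range J, (1 / 2 : ℝ) ^ j := by
          rw [Finset.mul_sum]
      _ ≤ Real.exp (1 - β * R) * 2 := by
          refine mul_le_mul_of_nonneg_left ?_ (Real.exp_pos _).le
          exact sum_geometric_two_le J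
      _ = _ := by ring
  have hβR : 9 / 2 ≤ β * R := by
    have hL := La_one (p := p) (q := q)
    have hq3 : (3 : ℝ) ≤ q := by exact_mod_cast hq
    rw [be_Ra hq1 hσ]
    nlinarith
  have h5 : Real.exp (1 - β * R) ≤ Real.exp (β * R) * Real.exp (-8) := by
    rw [← Real.exp_add]
    exact Real.exp_le_exp.2 (by linarith)
  have h6 : Real.exp (-8) ≤ 1 / 2 := by
    have : Real.exp (-8) ≤ Real.exp (-1) := Real.exp_le_exp.2 (by norm_num)
    refine this.trans ?_
    rw [Real.exp_neg, one_div]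
    have := Real.exp_one_gt_d9
    exact inv_anti₀ (by norm_num) (by linarith)
  have h7 := Real.exp_one_gt_d9
  have h8 := Real.exp_pos (β * R)
  rw [Real.exp_add]
  nlinarith [mul_le_mul_of_nonneg_left h6 h8.le]

/-- the entropy inequality for `h` -/
def EntI (h : E p q → ℝ) : Prop := ∀ (φ : E p q → ℝ) (L : ℝ≥0), LipschitzWith L φ →
  (∀ x, 0 ≤ φ x) → ∀ s : ℝ, 0 < s → 0 < ∫ x in Metric.closedBall 0 s, h x →
  ∀ ψ : E p q → ℝ, Continuous ψ →
    ∫ x, φ x * ψ x * h x ≤
      (∫ x, φ x * h x) * (Real.log (∫ x, Real.exp (ψ x) * h x) -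
        Real.log (∫ x in Metric.closedBall 0 s, h x)) +
      ∫ x, (‖x‖ + s) * ‖fderiv ℝ φ x‖ * h x

lemma num_bound {q : ℕ} (hq : 3 ≤ q) {Λ σ s2 : ℝ} (hΛ : 1 ≤ Λ) (hσ : 0 < σ)
    (hs2 : s2 = 8 * Real.exp 1 ^ 2 * q * σ ^ 2) :
    16 * (96 ^ 2 * Λ ^ 2 * s2) / ((q : ℝ) - 2) + 16 * q / (3 / 10) * (256 * s2 / q ^ 2) ≤
      31 / 100 * (10 ^ 4 * Λ * σ) ^ 2 := by
  have hq3 : (3 : ℝ) ≤ q := by exact_mod_cast hq
  have he : Real.exp 1 ^ 2 ≤ 7.39 := by
    have h1 := Real.exp_one_lt_d9
    have h2 := Real.exp_pos 1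
    nlinarith
  have he0 : 0 < Real.exp 1 ^ 2 := by positivity
  have hσ2 : 0 < σ ^ 2 := by positivity
  have hΛ2 : 1 ≤ Λ ^ 2 := by nlinarith
  have h1 : 16 * (96 ^ 2 * Λ ^ 2 * s2) / ((q : ℝ) - 2) ≤
      3538944 * (Real.exp 1 ^ 2 * (Λ ^ 2 * σ ^ 2)) := by
    rw [div_le_iff₀ (by linarith), hs2]
    have h2 : 0 ≤ Real.exp 1 ^ 2 * (Λ ^ 2 * σ ^ 2) := by positivity
    nlinarith [mul_nonneg h2 (by linarith : (0 : ℝ) ≤ q - 3)]
  have h2 : 16 * (q : ℝ) / (3 / 10) * (256 * s2 / q ^ 2) =
      (327680 / 3) * (Real.exp 1 ^ 2 * σ ^ 2) := by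
    rw [hs2]
    have : (q : ℝ) ≠ 0 := by linarith
    field_simp
    ring
  have h3 : Real.exp 1 ^ 2 * σ ^ 2 ≤ Real.exp 1 ^ 2 * (Λ ^ 2 * σ ^ 2) := by
    have : σ ^ 2 ≤ Λ ^ 2 * σ ^ 2 := by nlinarith
    exact mul_le_mul_of_nonneg_left this he0.le
  have h4 : Real.exp 1 ^ 2 * (Λ ^ 2 * σ ^ 2) ≤ 7.39 * (Λ ^ 2 * σ ^ 2) :=
    mul_le_mul_of_nonneg_right he (by positivity)
  have h5 : (10 ^ 4 * Λ * σ) ^ 2 = 10 ^ 8 * (Λ ^ 2 * σ ^ 2) := by ring
  rw [h2, h5]
  have h6 : 0 < Λ ^ 2 * σ ^ 2 := by positivity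
  nlinarith

lemma var_le {h f : E p q → ℝ} (hi : Integrable h) (h1 : ∫ x, h x = 1) {c m : ℝ}
    (if1 : Integrable fun x => f x * h x) (iV : Integrable fun x => (f x - c) ^ 2 * h x)
    (hm : ∫ x, f x * h x = m) : ∫ x, (f x - m) ^ 2 * h x ≤ ∫ x, (f x - c) ^ 2 * h x := by
  have ig : Integrable fun x => 2 * (c - m) * (f x * h x) + (m ^ 2 - c ^ 2) * h x :=
    (if1.const_mul _).add (hi.const_mul _)
  have e1 : ∫ x, (f x - m) ^ 2 * h x = (∫ x, (f x - c) ^ 2 * h x) +
      ∫ x, (2 * (c - m) * (f x * h x) + (m ^ 2 - c ^ 2) * h x) := by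
    rw [← integral_add iV ig]
    exact integral_congr_ae (Eventually.of_forall fun x => by simp only; ring)
  have e2 : ∫ x, (2 * (c - m) * (f x * h x) + (m ^ 2 - c ^ 2) * h x) =
      2 * (c - m) * m + (m ^ 2 - c ^ 2) := by
    rw [integral_add (if1.const_mul _) (hi.const_mul _), integral_const_mul, integral_const_mul,
      hm, h1, mul_one]
  rw [e1, e2]
  nlinarith [sq_nonneg (m - c)]

lemma coef_bound {q : ℕ} (hq : 3 ≤ q) {Λ : ℝ} (hΛ : 1 ≤ Λ) :
    4 * Real.sqrt q / (6 * q * Λ) ≤ 39 / 100 := by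
  have hq3 : (3 : ℝ) ≤ q := by exact_mod_cast hq
  have hq0 : (0 : ℝ) < q := by linarith
  rw [div_le_iff₀ (by positivity)]
  have hsq : Real.sqrt q * Real.sqrt q = q := Real.mul_self_sqrt hq0.le
  have h2 : (171 / 100 : ℝ) ≤ Real.sqrt q := by
    refine Real.le_sqrt_of_sq_le ?_
    norm_num
    linarith
  have h3 : 39 / 100 * (6 * (q : ℝ)) ≤ 39 / 100 * (6 * q * Λ) := by
    have : (q : ℝ) ≤ q * Λ := le_mul_of_one_le_right hq0.le hΛ
    linarith
  nlinarith

set_option maxHeartbeats 1000000 in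
/-- **Core theorem for weights of mass one.** -/
theorem core1 {h : E p q → ℝ} {r B : ℝ} (H : LCW h r B) (h1 : ∫ x, h x = 1) (hinv : Inv h)
    (hq : 3 ≤ q) {σ : ℝ} (hσ : 0 < σ) (htail : Tail h σ) (hent : EntI h)
    {f : E p q → ℝ} {L : ℝ≥0} (hf : LipschitzWith L f) (happ : Approx f) {m : ℝ}
    (hm : ∫ x, f x * h x = m) :
    ∫ x, (f x - m) ^ 2 * h x ≤
      (10 ^ 4 * La p q * σ) ^ 2 * ∫ x, ‖fderiv ℝ f x‖ ^ 2 * h x := by
  have hq1 : 1 ≤ q := by omega
  have hq3 : (3 : ℝ) ≤ q := by exact_mod_cast hq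
  have hq0 : (0 : ℝ) < q := by linarith
  have hNm : Measurable (NN : E p q → ℝ) := NN_lip.continuous.measurable
  have hfm : Measurable f := hf.continuous.measurable
  have hL := La_one (p := p) (q := q)
  have hs0 := s0_pos hq1 hσ
  set β := be q σ with hβ
  have hβ0 : 0 < β := be_pos hq1 hσ
  set R1 := Ra p q σ with hR1
  have hβR1 : β * R1 = 3 / 2 * q * La p q := be_Ra hq1 hσ
  have hβR1' : 9 / 2 ≤ β * R1 := by rw [hβR1]; nlinarith
  have hR10 : 0 < R1 := by
    by_contra hc
    have := mul_nonneg hβ0.le (by linarith : 0 ≤ -R1)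
    linarith
  set R := 4 * R1 with hR
  have hR0 : 0 < R := by positivity
  have hsup : ∀ x, h x ≠ 0 → ‖x‖ ≤ r := fun x hx => by
    by_contra hc
    exact hx (H.supp x (not_le.1 hc))
  have hint : ∀ {g : E p q → ℝ}, Measurable g → ∀ M : ℝ, (∀ x, ‖x‖ ≤ r → |g x| ≤ M) →
      Integrable fun x => g x * h x := by
    intro g hg M hM
    refine (H.int.const_mul M).mono' (hg.mul H.meas).aestronglyMeasurable
      (Eventually.of_forall fun x => ?_)
    by_cases hx : h x = 0
    · simp [hx]
    · rw [norm_mul, Real.norm_eq_abs, Real.norm_eq_abs, abs_of_nonneg (H.nonneg x)]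
      exact mul_le_mul_of_nonneg_right (hM x (hsup x hx)) (H.nonneg x)
  -- mass of the sublevel sets
  have hsub : ∀ s, R1 ≤ s → 1 / 2 ≤ ∫ x in {x | NN x ≤ s}, h x := by
    intro s hs
    have h2 := tail2 hq1 hσ htail hs
    have hmS : MeasurableSet {x : E p q | NN x ≤ s} := measurableSet_le hNm measurable_const
    have h3 := integral_add_compl hmS H.int
    have h4 : {x : E p q | NN x ≤ s}ᶜ = {x | s < NN x} := by
      ext x; simp
    rw [h4, h1] at h3
    have h5 : Real.exp (-(2 * β * s)) ≤ 1 / 2 := by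
      have : Real.exp (-(2 * β * s)) ≤ Real.exp (-1) := by
        apply Real.exp_le_exp.2
        have := mul_le_mul_of_nonneg_left hs hβ0.le
        linarith
      refine this.trans ?_
      rw [Real.exp_neg, one_div]
      have := Real.exp_one_gt_d9
      exact inv_anti₀ (by norm_num) (by linarith)
    have h6 : (∫ x in {x | s < NN x}, h x) ≤ 1 / 2 := h2.trans h5
    linarith
  -- the entropy inequality with `ψ = β N`
  set s := Real.sqrt q * R with hs
  have hsq0 : 0 < Real.sqrt q := Real.sqrt_pos.2 hq0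
  have hspos : 0 < s := by positivity
  have hball : 1 / 2 ≤ ∫ x in Metric.closedBall 0 s, h x := by
    refine (hsub R (by linarith)).trans ?_
    refine setIntegral_mono_set H.int.integrableOn (Eventually.of_forall H.nonneg) ?_
    refine Eventually.of_forall fun x hx => ?_
    have hx' : NN x ≤ R := hx
    show x ∈ Metric.closedBall 0 s
    rw [mem_closedBall_zero_iff]
    have h2 := norm_sq_le_NN_q x
    calc ‖x‖ = Real.sqrt (‖x‖ ^ 2) := (Real.sqrt_sq (norm_nonneg x)).symm
      _ ≤ Real.sqrt (q * NN x ^ 2) := Real.sqrt_le_sqrt h2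
      _ = Real.sqrt q * NN x := by
        rw [Real.sqrt_mul (Nat.cast_nonneg q), Real.sqrt_sq (NN_nonneg x)]
      _ ≤ s := mul_le_mul_of_nonneg_left hx' hsq0.le
  set κ := β * R1 + 2 with hκ
  have hlog : Real.log (∫ x, Real.exp (β * NN x) * h x) -
      Real.log (∫ x in Metric.closedBall 0 s, h x) ≤ κ := by
    have hZ := expmom H h1 hq hσ htail
    have hZ0 : 0 < ∫ x, Real.exp (β * NN x) * h x := by
      have hmono : ∫ x, h x ≤ ∫ x, Real.exp (β * NN x) * h x := by
        refine integral_mono H.int (hint (Real.measurable_exp.comp (hNm.const_mul β))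
          (Real.exp (β * r)) fun x hx => ?_) fun x => ?_
        · simp only [Function.comp, abs_of_pos (Real.exp_pos _)]
          exact Real.exp_le_exp.2 (mul_le_mul_of_nonneg_left ((NN_le_norm x).trans hx) hβ0.le)
        · have : 1 ≤ Real.exp (β * NN x) :=
            Real.one_le_exp (mul_nonneg hβ0.le (NN_nonneg x))
          simp only [Function.comp]
          nlinarith [H.nonneg x]
      linarith
    have h2 : Real.log (∫ x, Real.exp (β * NN x) * h x) ≤ β * R1 + 1 := by
      have := Real.log_le_log hZ0 hZ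
      rwa [Real.log_exp] at this
    have h3 : -1 ≤ Real.log (∫ x in Metric.closedBall 0 s, h x) := by
      rw [Real.le_log_iff_exp_le (by linarith)]
      refine le_trans ?_ hball
      rw [Real.exp_neg, one_div]
      have := Real.exp_one_gt_d9
      exact inv_anti₀ (by norm_num) (by linarith)
    linarith
  have hent' : ∀ (φ : E p q → ℝ) (L : ℝ≥0), LipschitzWith L φ → (∀ x, 0 ≤ φ x) →
      ∫ x, φ x * (β * NN x) * h x ≤ (∫ x, φ x * h x) * κ +
        ∫ x, (‖x‖ + s) * ‖fderiv ℝ φ x‖ * h x := by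
    intro φ L hφ hφ0
    have h2 := hent φ L hφ hφ0 s hspos (by linarith) (fun x => β * NN x)
      (NN_lip.continuous.const_mul β)
    have h3 : 0 ≤ ∫ x, φ x * h x := integral_nonneg fun x => mul_nonneg (hφ0 x) (H.nonneg x)
    have h4 := mul_le_mul_of_nonneg_left hlog h3
    linarith
  -- the set A
  set A : Set (E p q) := {x | NN x ≤ 2 * R} with hA
  have hAm : MeasurableSet A := measurableSet_le hNm measurable_const
  have hAmass := hsub (2 * R) (by linarith)
  have HA : LCW (A.indicator h) r B := H.restrict (NN_convex _) hAm (by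
    show 0 < ∫ x in A, h x
    linarith)
  have hAinv : Inv (A.indicator h) := by
    intro O hO x
    have hiff : rm O x ∈ A ↔ x ∈ A := by simp only [hA, mem_ofPred_eq, NN_rm hO]
    by_cases hx : x ∈ A
    · rw [indicator_of_mem hx, indicator_of_mem (hiff.2 hx), hinv O hO]
    · rw [indicator_of_notMem hx, indicator_of_notMem (fun h => hx (hiff.1 h))]
  set mA : ℝ := (∫ x, f x * A.indicator h x) / ∫ x, A.indicator h x with hmA
  have ht1 := t1 HA hAinv hq (R := 2 * R) (fun x hx => by
    by_contra hc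
    have hxA : x ∉ A := hc
    exact hx (indicator_of_notMem hxA h)) happ (m := mA) (by
      rw [hmA, div_mul_cancel₀ _ HA.mass.ne'])
  -- the truncated function
  obtain ⟨M, hM⟩ := (isCompact_closedBall (0 : E p q) (r + 1)).exists_bound_of_continuousOn
    (hf.continuous.sub continuous_const : Continuous fun x => f x - mA).continuousOn
  set M' := |M| with hM'
  set u : E p q → ℝ := fun x => max (-M') (min (f x - mA) M') with hu
  have huL : LipschitzWith L u := by
    have h2 : LipschitzWith L fun x => f x - mA := by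
      refine LipschitzWith.of_dist_le_mul fun x y => ?_
      rw [Real.dist_eq, sub_sub_sub_cancel_right, ← Real.dist_eq]
      exact hf.dist_le_mul x y
    exact (h2.min_const M').const_max (-M')
  have hub : ∀ x, |u x| ≤ M' := by
    intro x
    have hM0 : 0 ≤ M' := abs_nonneg _
    exact abs_le.2 ⟨le_max_left _ _, max_le (by linarith) (min_le_right _ _)⟩
  have hueq : ∀ x, ‖x‖ ≤ r + 1 → u x = f x - mA := by
    intro x hx
    have h2 := hM x (by simpa using hx)
    rw [Real.norm_eq_abs] at h2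
    have h3 : |f x - mA| ≤ M' := h2.trans (le_abs_self M)
    obtain ⟨h4, h5⟩ := abs_le.1 h3
    simp only [hu]
    rw [min_eq_left h5, max_eq_right h4]
  have hnear : ∀ x, h x ≠ 0 → u =ᶠ[𝓝 x] fun x => f x - mA := by
    intro x hx
    have h2 : Metric.ball (0 : E p q) (r + 1) ∈ 𝓝 x :=
      Metric.isOpen_ball.mem_nhds (by
        rw [mem_ball_zero_iff]
        have := hsup x hx
        linarith)
    filter_upwards [h2] with y hy
    exact hueq y (by rw [mem_ball_zero_iff] at hy; exact hy.le)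
  have huf : ∀ x, h x ≠ 0 → fderiv ℝ u x = fderiv ℝ f x := by
    intro x hx
    rw [(hnear x hx).fderiv_eq]
    exact fderiv_sub_const (f := f) mA
  have hux : ∀ x, h x ≠ 0 → u x = f x - mA := fun x hx => (hnear x hx).self_of_nhds
  -- the far tail
  have hfar := far_tail H (β := β) (κ := κ) (s := s) (R := R) hβ0 hR0 hspos.le
    (by rw [hκ, hR]; linarith) le_rfl hent' huL hub
  set V := ∫ x, (f x - mA) ^ 2 * h x with hV
  set D := ∫ x, ‖fderiv ℝ f x‖ ^ 2 * h x with hD
  have hbd : ∀ x, ‖fderiv ℝ f x‖ ≤ L := fun x => norm_fderiv_le_of_lipschitz ℝ hf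
  have hum : Measurable u := huL.continuous.measurable
  have iV : Integrable fun x => (f x - mA) ^ 2 * h x := by
    refine hint ((hfm.sub_const _).pow_const 2) (M' ^ 2) fun x hx => ?_
    have h2 := hueq x (by linarith)
    rw [← h2, abs_pow]
    exact pow_le_pow_left₀ (abs_nonneg _) (hub x) 2
  have iD : Integrable fun x => ‖fderiv ℝ f x‖ ^ 2 * h x := by
    refine hint ((measurable_fderiv ℝ f).norm.pow_const 2) (L ^ 2) fun x hx => ?_
    rw [abs_pow, abs_norm]
    exact pow_le_pow_left₀ (norm_nonneg _) (hbd x) 2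
  have iUA : Integrable fun x => (f x - mA) ^ 2 * A.indicator h x := by
    have : (fun x => (f x - mA) ^ 2 * A.indicator h x) = A.indicator fun x => (f x - mA) ^ 2 * h x := by
      ext x
      by_cases hx : x ∈ A
      · rw [indicator_of_mem hx, indicator_of_mem hx]
      · rw [indicator_of_notMem hx, indicator_of_notMem hx, mul_zero]
    rw [this]
    exact iV.indicator hAm
  have iDA : Integrable fun x => ‖fderiv ℝ f x‖ ^ 2 * A.indicator h x := by
    have : (fun x => ‖fderiv ℝ f x‖ ^ 2 * A.indicator h x) =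
        A.indicator fun x => ‖fderiv ℝ f x‖ ^ 2 * h x := by
      ext x
      by_cases hx : x ∈ A
      · rw [indicator_of_mem hx, indicator_of_mem hx]
      · rw [indicator_of_notMem hx, indicator_of_notMem hx, mul_zero]
    rw [this]
    exact iD.indicator hAm
  have i5 : Integrable fun x => {x | 2 * R ≤ NN x}.indicator (fun x => u x ^ 2) x * h x := by
    refine hint ((hum.pow_const 2).indicator (measurableSet_le measurable_const hNm)) (M' ^ 2)
      fun x _ => ?_
    have h5 : u x ^ 2 ≤ M' ^ 2 := by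
      rw [← sq_abs]; exact pow_le_pow_left₀ (abs_nonneg _) (hub x) 2
    by_cases hx : x ∈ {x : E p q | 2 * R ≤ NN x}
    · rw [indicator_of_mem hx, abs_of_nonneg (sq_nonneg _)]; exact h5
    · rw [indicator_of_notMem hx, abs_zero]; positivity
  -- splitting
  have hsplit : V ≤ (∫ x, (f x - mA) ^ 2 * A.indicator h x) +
      ∫ x, {x | 2 * R ≤ NN x}.indicator (fun x => u x ^ 2) x * h x := by
    rw [hV, ← integral_add iUA i5]
    refine integral_mono iV (iUA.add i5) fun x => ?_
    simp only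
    by_cases hx0 : h x = 0
    · rw [hx0, mul_zero, mul_zero, add_zero]
      exact mul_nonneg (sq_nonneg _) (indicator_nonneg (fun x _ => H.nonneg x) x)
    · by_cases hx : x ∈ A
      · rw [indicator_of_mem hx]
        have : 0 ≤ {x | 2 * R ≤ NN x}.indicator (fun x => u x ^ 2) x * h x :=
          mul_nonneg (indicator_nonneg (fun x _ => sq_nonneg _) x) (H.nonneg x)
        linarith
      · have hx2 : x ∈ {x : E p q | 2 * R ≤ NN x} := by
          have : ¬ NN x ≤ 2 * R := hx
          exact (not_le.1 this).le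
        rw [indicator_of_notMem hx, indicator_of_mem hx2, hux x hx0, mul_zero, zero_add]
  have hDA : ∫ x, ‖fderiv ℝ f x‖ ^ 2 * A.indicator h x ≤ D := by
    refine integral_mono iDA iD fun x => ?_
    refine mul_le_mul_of_nonneg_left ?_ (sq_nonneg _)
    exact indicator_le_self' (fun x _ => H.nonneg x) x
  have hD0 : 0 ≤ D := integral_nonneg fun x => mul_nonneg (sq_nonneg _) (H.nonneg x)
  have hV0 : 0 ≤ V := integral_nonneg fun x => mul_nonneg (sq_nonneg _) (H.nonneg x)
  -- bound of the mixed term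
  set a : ℝ := 16 * q / (3 / 10 * β ^ 2) with ha
  have hmix : (4 * Real.sqrt q / β) * ∫ x, (2 * |u x| * ‖fderiv ℝ u x‖ + u x ^ 2 / R) * h x ≤
      (3 / 10 + 4 * Real.sqrt q / (β * R)) * V + a * D := by
    have iR : Integrable fun x => (3 / 10 + 4 * Real.sqrt q / (β * R)) * ((f x - mA) ^ 2 * h x) +
        a * (‖fderiv ℝ f x‖ ^ 2 * h x) := (iV.const_mul _).add (iD.const_mul _)
    have iL : Integrable fun x => (2 * |u x| * ‖fderiv ℝ u x‖ + u x ^ 2 / R) * h x := by
      refine hint (((hum.abs.const_mul 2).mul (measurable_fderiv ℝ _).norm).add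
        ((hum.pow_const 2).div_const R)) (2 * M' * L + M' ^ 2 / R) fun x _ => ?_
      have h5 : u x ^ 2 ≤ M' ^ 2 := by
        rw [← sq_abs]; exact pow_le_pow_left₀ (abs_nonneg _) (hub x) 2
      rw [abs_of_nonneg (by positivity)]
      refine add_le_add ?_ (div_le_div_of_nonneg_right h5 hR0.le)
      exact mul_le_mul (by linarith [hub x]) (norm_fderiv_le_of_lipschitz ℝ huL) (norm_nonneg _)
        (by positivity)
    rw [hV, hD, ← integral_const_mul, ← integral_const_mul, ← integral_const_mul,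
      ← integral_add (iV.const_mul _) (iD.const_mul _)]
    refine integral_mono (iL.const_mul _) iR fun x => ?_
    simp only
    by_cases hx0 : h x = 0
    · rw [hx0]; simp
    · rw [huf x hx0, ← hux x hx0]
      have hsq : Real.sqrt q ^ 2 = q := Real.sq_sqrt hq0.le
      set g := ‖fderiv ℝ f x‖ with hg
      have key : (4 * Real.sqrt q / β) * (2 * |u x| * g) ≤ 3 / 10 * u x ^ 2 + a * g ^ 2 * (1) := by
        have e1 : a * g ^ 2 = (4 * Real.sqrt q * g / β) ^ 2 / (3 / 10) := by
          rw [ha, div_pow, mul_pow, mul_pow, hsq]; field_simp; ring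
        rw [mul_one, e1]
        have e2 : (4 * Real.sqrt q / β) * (2 * |u x| * g) = 2 * |u x| * (4 * Real.sqrt q * g / β) := by
          ring
        rw [e2, ← sq_abs (u x)]
        set y := 4 * Real.sqrt q * g / β
        have : 0 ≤ (3 / 10 * |u x| - y) ^ 2 := sq_nonneg _
        rw [← sub_nonneg]
        have e3 : 3 / 10 * |u x| ^ 2 + y ^ 2 / (3 / 10) - 2 * |u x| * y =
            (3 / 10 * |u x| - y) ^ 2 / (3 / 10) := by ring
        rw [e3]; positivity
      have e4 : (4 * Real.sqrt q / β) * ((2 * |u x| * g + u x ^ 2 / R) * h x) =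
          ((4 * Real.sqrt q / β) * (2 * |u x| * g) + 4 * Real.sqrt q / (β * R) * u x ^ 2) * h x := by
        field_simp
      rw [e4]
      calc _ ≤ ((3 / 10 * u x ^ 2 + a * g ^ 2 * 1) + 4 * Real.sqrt q / (β * R) * u x ^ 2) * h x :=
            mul_le_mul_of_nonneg_right (by linarith) (H.nonneg x)
        _ = _ := by ring
  have hfar2 : ∫ x, {x | 2 * R ≤ NN x}.indicator (fun x => u x ^ 2) x * h x ≤
      (3 / 10 + 4 * Real.sqrt q / (β * R)) * V + a * D := by
    refine le_trans ?_ hmix
    have h2 : (4 * Real.sqrt q / β) * ∫ x, (2 * |u x| * ‖fderiv ℝ u x‖ + u x ^ 2 / R) * h x =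
        (2 * Real.sqrt q * ∫ x, (2 * |u x| * ‖fderiv ℝ u x‖ + u x ^ 2 / R) * h x) * (2 / β) := by
      ring
    rw [h2]
    have h3 := mul_le_mul_of_nonneg_right hfar (by positivity : 0 ≤ 2 / β)
    refine le_trans (le_of_eq ?_) h3
    field_simp
  have hcoef : 4 * Real.sqrt q / (β * R) ≤ 39 / 100 := by
    have e1 : β * R = 6 * q * La p q := by rw [hR]; linarith [hβR1]
    rw [e1]
    exact coef_bound hq hL
  have hmain : V ≤ 4 * (2 * R) ^ 2 / ((q : ℝ) - 2) * D + ((69 / 100) * V + a * D) := by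
    have h2 : 4 * (2 * R) ^ 2 / ((q : ℝ) - 2) * ∫ x, ‖fderiv ℝ f x‖ ^ 2 * A.indicator h x ≤
        4 * (2 * R) ^ 2 / ((q : ℝ) - 2) * D :=
      mul_le_mul_of_nonneg_left hDA (div_nonneg (by positivity) (by linarith))
    have h3 : (3 / 10 + 4 * Real.sqrt q / (β * R)) * V ≤ 69 / 100 * V :=
      mul_le_mul_of_nonneg_right (by linarith) hV0
    linarith
  have hnum := num_bound hq hL hσ (s2 := s0 q σ ^ 2) (by
    unfold s0
    have : Real.sqrt (2 * q) ^ 2 = 2 * q := Real.sq_sqrt (by positivity)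
    calc (2 * Real.exp 1 * (Real.sqrt (2 * q) * σ)) ^ 2 =
        4 * Real.exp 1 ^ 2 * (Real.sqrt (2 * q) ^ 2 * σ ^ 2) := by ring
      _ = _ := by rw [this]; ring)
  have e1 : 4 * (2 * R) ^ 2 / ((q : ℝ) - 2) = 16 * (96 ^ 2 * La p q ^ 2 * s0 q σ ^ 2) / ((q : ℝ) - 2) := by
    rw [hR, hR1]; unfold Ra; ring
  have e2 : a = 16 * q / (3 / 10) * (256 * s0 q σ ^ 2 / q ^ 2) := by
    rw [ha, hβ]; unfold be
    field_simp
    ring
  rw [e1, e2] at hmain
  have hfin : V ≤ (10 ^ 4 * La p q * σ) ^ 2 * D := by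
    have := mul_le_mul_of_nonneg_right hnum hD0
    linarith
  refine le_trans ?_ hfin
  -- the variance is at most `V`
  have if1 : Integrable fun x => f x * h x := by
    refine hint hfm (M' + |mA|) fun x hx => ?_
    have h2 := hueq x (by linarith)
    have h3 : f x = u x + mA := by linarith
    rw [h3]
    exact (abs_add_le _ _).trans (add_le_add (hub x) le_rfl)
  exact var_le H.int h1 if1 iV hm

end Pool.Agent.Lib.MP_8d00da_gt.h25
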