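import Mathlib
import Pool.Agent.Lib.MP_8d00da_gt.h25.Cls

/-!
# The entropy/displacement inequality for log-concave weights
-/

namespace Pool.Agent.Lib.MP_8d00da_gt.h25

open MeasureTheory Set Filter Matrix
open Pool.Agent.Lib.MP_8d00da_gt.h42
open scoped Topology NNReal

variable {V : Type*} [NormedAddCommGroup V] [InnerProductSpace ℝ V]

/-- The supremum of `φ` over the ball of centre `x` and radius `τ (‖x‖ + s)`. -/
noncomputable def Qs (φ : V → ℝ) (s τ : ℝ) (x : V) : ℝ :=
  ⨆ e : {e : V // ‖e‖ ≤ 1}, φ (x + (τ * (‖x‖ + s)) • e.1)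

section Qs

variable {φ : V → ℝ} {L : ℝ≥0} {s τ : ℝ}

instance instNonemptyUnitBall : Nonempty {e : V // ‖e‖ ≤ 1} := ⟨⟨0, by simp⟩⟩

omit [InnerProductSpace ℝ V] in
lemma lip_le (hφ : LipschitzWith L φ) (x y : V) : φ x ≤ φ y + L * ‖x - y‖ := by
  have h := hφ.dist_le_mul x y
  rw [Real.dist_eq, dist_eq_norm] at h
  linarith [(abs_le.1 h).2]

lemma Qs_term_le (hφ : LipschitzWith L φ) (hs : 0 ≤ s) (hτ : 0 ≤ τ) (x : V)
    (e : {e : V // ‖e‖ ≤ 1}) :
    φ (x + (τ * (‖x‖ + s)) • e.1) ≤ φ x + L * (τ * (‖x‖ + s)) := by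
  have h1 := lip_le hφ (x + (τ * (‖x‖ + s)) • e.1) x
  rw [add_sub_cancel_left, norm_smul, Real.norm_eq_abs,
    abs_of_nonneg (by positivity : 0 ≤ τ * (‖x‖ + s))] at h1
  have h2 : τ * (‖x‖ + s) * ‖e.1‖ ≤ τ * (‖x‖ + s) :=
    mul_le_of_le_one_right (by positivity) e.2
  have h3 : (L : ℝ) * (τ * (‖x‖ + s) * ‖e.1‖) ≤ L * (τ * (‖x‖ + s)) :=
    mul_le_mul_of_nonneg_left h2 L.coe_nonneg
  linarith

lemma Qs_bdd (hφ : LipschitzWith L φ) (hs : 0 ≤ s) (hτ : 0 ≤ τ) (x : V) :
    BddAbove (range fun e : {e : V // ‖e‖ ≤ 1} => φ (x + (τ * (‖x‖ + s)) • e.1)) := by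
  refine ⟨φ x + L * (τ * (‖x‖ + s)), ?_⟩
  rintro _ ⟨e, rfl⟩
  exact Qs_term_le hφ hs hτ x e

lemma le_Qs (hφ : LipschitzWith L φ) (hs : 0 ≤ s) (hτ : 0 ≤ τ) (x : V) {e : V} (he : ‖e‖ ≤ 1) :
    φ (x + (τ * (‖x‖ + s)) • e) ≤ Qs φ s τ x :=
  le_ciSup (Qs_bdd hφ hs hτ x) ⟨e, he⟩

lemma self_le_Qs (hφ : LipschitzWith L φ) (hs : 0 ≤ s) (hτ : 0 ≤ τ) (x : V) :
    φ x ≤ Qs φ s τ x := by
  have := le_Qs hφ hs hτ x (e := 0) (by simp)
  simpa using this

lemma Qs_le (hφ : LipschitzWith L φ) (hs : 0 ≤ s) (hτ : 0 ≤ τ) (x : V) :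
    Qs φ s τ x ≤ φ x + L * (τ * (‖x‖ + s)) :=
  ciSup_le fun e => Qs_term_le hφ hs hτ x e

lemma Qs_cont (hφ : LipschitzWith L φ) (hs : 0 ≤ s) (hτ : 0 ≤ τ) : Continuous (Qs φ s τ) := by
  have key : ∀ x y : V, Qs φ s τ x ≤ Qs φ s τ y + (L * (1 + τ)) * dist x y := by
    intro x y
    refine ciSup_le fun e => ?_
    have h1 := lip_le hφ (x + (τ * (‖x‖ + s)) • e.1) (y + (τ * (‖y‖ + s)) • e.1)
    have h2 := le_Qs hφ hs hτ y e.2
    have h3 : x + (τ * (‖x‖ + s)) • e.1 - (y + (τ * (‖y‖ + s)) • e.1) =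
        (x - y) + (τ * (‖x‖ - ‖y‖)) • e.1 := by
      have : τ * (‖x‖ - ‖y‖) = τ * (‖x‖ + s) - τ * (‖y‖ + s) := by ring
      rw [this, sub_smul]
      abel
    have h4 : ‖x + (τ * (‖x‖ + s)) • e.1 - (y + (τ * (‖y‖ + s)) • e.1)‖ ≤
        (1 + τ) * ‖x - y‖ := by
      rw [h3]
      refine (norm_add_le _ _).trans ?_
      rw [norm_smul, Real.norm_eq_abs, abs_mul, abs_of_nonneg hτ]
      have h5 : |‖x‖ - ‖y‖| ≤ ‖x - y‖ := abs_norm_sub_norm_le x y
      have h6 : τ * |‖x‖ - ‖y‖| * ‖e.1‖ ≤ τ * ‖x - y‖ := by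
        calc τ * |‖x‖ - ‖y‖| * ‖e.1‖ ≤ τ * |‖x‖ - ‖y‖| * 1 :=
              mul_le_mul_of_nonneg_left e.2 (by positivity)
          _ ≤ τ * ‖x - y‖ := by
              rw [mul_one]; exact mul_le_mul_of_nonneg_left h5 hτ
      linarith
    have h7 : (L : ℝ) * ‖x + (τ * (‖x‖ + s)) • e.1 - (y + (τ * (‖y‖ + s)) • e.1)‖ ≤
        L * ((1 + τ) * ‖x - y‖) := mul_le_mul_of_nonneg_left h4 L.coe_nonneg
    rw [dist_eq_norm]
    linarith
  have hl : LipschitzWith (Real.toNNReal (L * (1 + τ))) (Qs φ s τ) := by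
    refine LipschitzWith.of_le_add_mul _ fun x y => ?_
    rw [Real.coe_toNNReal _ (by positivity)]
    exact key x y
  exact hl.continuous

/-- Behaviour at a point of differentiability. -/
lemma Qs_asymp {x : V} (hx : DifferentiableAt ℝ φ x) (hs : 0 < s) {δ : ℝ} (hδ : 0 < δ) :
    ∃ τ0 > 0, ∀ τ, 0 < τ → τ < τ0 →
      Qs φ s τ x ≤ φ x + τ * ((‖x‖ + s) * (‖fderiv ℝ φ x‖ + δ)) := by
  have h := hx.hasFDerivAt.isLittleO
  rw [Asymptotics.isLittleO_iff] at h
  have h2 := h hδ
  obtain ⟨r, hr, hball⟩ := Metric.eventually_nhds_iff.1 h2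
  have hxs : 0 < ‖x‖ + s := by positivity
  refine ⟨r / (‖x‖ + s), by positivity, fun τ hτ hτr => ?_⟩
  rw [lt_div_iff₀ hxs] at hτr
  refine ciSup_le fun e => ?_
  set z : V := (τ * (‖x‖ + s)) • e.1 with hz
  have hzn : ‖z‖ ≤ τ * (‖x‖ + s) := by
    rw [hz, norm_smul, Real.norm_eq_abs, abs_of_pos (by positivity)]
    exact mul_le_of_le_one_right (by positivity) e.2
  have h3 := hball (y := x + z) (by
    rw [dist_eq_norm, add_sub_cancel_left]; linarith)
  simp only [add_sub_cancel_left] at h3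
  rw [Real.norm_eq_abs] at h3
  have h4 := (abs_le.1 h3).2
  have h5 : fderiv ℝ φ x z ≤ ‖fderiv ℝ φ x‖ * ‖z‖ := by
    have := (fderiv ℝ φ x).le_opNorm z
    rw [Real.norm_eq_abs] at this
    exact (abs_le.1 this).2
  have h6 : (‖fderiv ℝ φ x‖ + δ) * ‖z‖ ≤ (‖fderiv ℝ φ x‖ + δ) * (τ * (‖x‖ + s)) :=
    mul_le_mul_of_nonneg_left hzn (by positivity)
  nlinarith

end Qs

lemma exp_le_two {x : ℝ} (hx : |x| ≤ 1) : Real.exp x ≤ 1 + x + x ^ 2 := by
  have h := Real.abs_exp_sub_one_sub_id_le hx
  linarith [(abs_le.1 h).2]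

/-- The elementary pointwise bound. -/
lemma rpow_bound {t Q c A M : ℝ} (ht0 : 0 < t) (ht1 : t < 1) (hQ0 : 0 ≤ Q) (hQA : Q ≤ A)
    (hc0 : 0 < c) (hcA : c ≤ A) (hM : |Real.log c| ≤ M) (htM : t * M ≤ 1) :
    Q ^ (1 - t) ≤ Q + t * (c - Q) - t * (Q * Real.log c) + t ^ 2 * (M * A + M ^ 2 * A) := by
  have hM0 : 0 ≤ M := (abs_nonneg _).trans hM
  have hA0 : 0 ≤ A := hQ0.trans hQA
  have h1 : Q ^ (1 - t) * c ^ t ≤ (1 - t) * Q + t * c :=
    Real.geom_mean_le_arith_mean2_weighted (by linarith) ht0.le hQ0 hc0.le (by ring)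
  have h2 : c ^ t = Real.exp (t * Real.log c) := by
    rw [Real.rpow_def_of_pos hc0, mul_comm]
  have h3 : Q ^ (1 - t) ≤ Real.exp (-(t * Real.log c)) * ((1 - t) * Q + t * c) := by
    rw [Real.exp_neg, ← h2, ← div_eq_inv_mul, le_div_iff₀ (Real.rpow_pos_of_pos hc0 _)]
    exact h1
  have h4 : |-(t * Real.log c)| ≤ 1 := by
    rw [abs_neg, abs_mul, abs_of_pos ht0]
    exact (mul_le_mul_of_nonneg_left hM ht0.le).trans htM
  have h5 := exp_le_two h4
  have h6 : (-(t * Real.log c)) ^ 2 ≤ t ^ 2 * M ^ 2 := by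
    have : (Real.log c) ^ 2 ≤ M ^ 2 := sq_le_sq' (by linarith [(abs_le.1 hM).1]) (abs_le.1 hM).2
    have h7 : (-(t * Real.log c)) ^ 2 = t ^ 2 * (Real.log c) ^ 2 := by ring
    rw [h7]
    exact mul_le_mul_of_nonneg_left this (by positivity)
  have h8 : 0 ≤ (1 - t) * Q + t * c := by
    have := mul_nonneg (by linarith : (0:ℝ) ≤ 1 - t) hQ0
    have := mul_nonneg ht0.le hc0.le
    linarith
  have h9 : (1 - t) * Q + t * c ≤ A := by
    have e1 : (1 - t) * Q ≤ (1 - t) * A := mul_le_mul_of_nonneg_left hQA (by linarith)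
    have e2 : t * c ≤ t * A := mul_le_mul_of_nonneg_left hcA ht0.le
    linarith
  have h10 : Q ^ (1 - t) ≤ (1 - t * Real.log c + t ^ 2 * M ^ 2) * ((1 - t) * Q + t * c) := by
    refine h3.trans (mul_le_mul_of_nonneg_right ?_ h8)
    linarith
  have h11 : t ^ 2 * M ^ 2 * ((1 - t) * Q + t * c) ≤ t ^ 2 * M ^ 2 * A :=
    mul_le_mul_of_nonneg_left h9 (by positivity)
  have h12 : -(Real.log c * (c - Q)) ≤ M * A := by
    have e1 : |Real.log c * (c - Q)| ≤ M * A := by
      rw [abs_mul]
      refine mul_le_mul hM ?_ (abs_nonneg _) hM0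
      rw [abs_le]
      constructor <;> linarith
    linarith [(abs_le.1 e1).1]
  have h13 : t ^ 2 * (-(Real.log c * (c - Q))) ≤ t ^ 2 * (M * A) :=
    mul_le_mul_of_nonneg_left h12 (by positivity)
  nlinarith

variable [FiniteDimensional ℝ V] [MeasurableSpace V] [BorelSpace V]

lemma LCW.r_nonneg {h : V → ℝ} {r B : ℝ} (H : LCW h r B) : 0 ≤ r := by
  by_contra hr
  push Not at hr
  have : h = 0 := by
    ext x
    exact H.supp x (lt_of_lt_of_le hr (norm_nonneg x))
  have h1 := H.mass
  rw [this] at h1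
  simp at h1

lemma LCW.int_mul {h : V → ℝ} {r B : ℝ} (H : LCW h r B) {g : V → ℝ} (hg : Measurable g) {M : ℝ}
    (hM : ∀ x, ‖x‖ ≤ r → |g x| ≤ M) : Integrable (fun x => g x * h x) := by
  have hM0 : 0 ≤ M := (abs_nonneg _).trans (hM 0 (by simpa using H.r_nonneg))
  have h1 : Integrable (fun x => (Metric.closedBall (0 : V) r).indicator g x * h x) := by
    refine H.int.bdd_mul (hg.indicator Metric.isClosed_closedBall.measurableSet).aestronglyMeasurable
      (c := M) (Eventually.of_forall fun x => ?_)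
    by_cases hx : x ∈ Metric.closedBall (0 : V) r
    · rw [indicator_of_mem hx, Real.norm_eq_abs]
      exact hM x (by simpa using hx)
    · rw [indicator_of_notMem hx]
      simpa using hM0
  refine h1.congr (Eventually.of_forall fun x => ?_)
  by_cases hx : x ∈ Metric.closedBall (0 : V) r
  · simp only [indicator_of_mem hx]
  · simp only [indicator_of_notMem hx, zero_mul]
    rw [H.supp x (by simpa using hx), mul_zero]

lemma LCW.int_mul_cont {h : V → ℝ} {r B : ℝ} (H : LCW h r B) {g : V → ℝ} (hg : Continuous g) :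
    Integrable (fun x => g x * h x) := by
  obtain ⟨M, hM⟩ := (isCompact_closedBall (0 : V) r).exists_bound_of_continuousOn hg.continuousOn
  exact H.int_mul hg.measurable (M := M) fun x hx => by
    have := hM x (by simpa using hx)
    rwa [Real.norm_eq_abs] at this

lemma LCW.mul_le_mul {h : V → ℝ} {r B : ℝ} (H : LCW h r B) {f g : V → ℝ}
    (hfg : ∀ x, ‖x‖ ≤ r → f x ≤ g x) (x : V) : f x * h x ≤ g x * h x := by
  rcases le_or_gt ‖x‖ r with hx | hx
  · exact mul_le_mul_of_nonneg_right (hfg x hx) (H.nonneg x)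
  · rw [H.supp x hx, mul_zero, mul_zero]

theorem ent_ineq {h : V → ℝ} {r B : ℝ} (H : LCW h r B) (h1 : ∫ x, h x = 1)
    {φ : V → ℝ} {L : ℝ≥0} (hφ : LipschitzWith L φ) (h0 : ∀ x, 0 ≤ φ x)
    {s : ℝ} (hs : 0 < s) (hB : 0 < ∫ x in Metric.closedBall 0 s, h x)
    {ψ : V → ℝ} (hψ : Continuous ψ) :
    ∫ x, φ x * ψ x * h x ≤
      (∫ x, φ x * h x) * (Real.log (∫ x, Real.exp (ψ x) * h x) -
        Real.log (∫ x in Metric.closedBall 0 s, h x)) +
      ∫ x, (‖x‖ + s) * ‖fderiv ℝ φ x‖ * h x := by
  have hr0 := H.r_nonneg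
  have hfdL : ∀ x, ‖fderiv ℝ φ x‖ ≤ L := fun x => norm_fderiv_le_of_lipschitz ℝ hφ
  have hfdm : Measurable fun x => ‖fderiv ℝ φ x‖ := (measurable_fderiv ℝ φ).norm
  set m : ℝ := ∫ x, φ x * h x with hm
  set Z : ℝ := ∫ x, Real.exp (ψ x) * h x with hZ
  set b : ℝ := ∫ x in Metric.closedBall 0 s, h x with hb
  set G : V → ℝ := fun x => (‖x‖ + s) * ‖fderiv ℝ φ x‖ with hG
  have hG0 : ∀ x, 0 ≤ G x := fun x => by rw [hG]; positivity
  have hGm : Measurable G := by fun_prop
  have hm0 : 0 ≤ m := integral_nonneg fun x => mul_nonneg (h0 x) (H.nonneg x)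
  have hφi : Integrable fun x => φ x * h x := H.int_mul_cont hφ.continuous
  have hI0 : 0 ≤ ∫ x, G x * h x := integral_nonneg fun x => mul_nonneg (hG0 x) (H.nonneg x)
  rcases eq_or_lt_of_le hm0 with hm00 | hmpos
  · have hae : (fun x => φ x * h x) =ᵐ[volume] 0 :=
      (integral_eq_zero_iff_of_nonneg (fun x => mul_nonneg (h0 x) (H.nonneg x)) hφi).1 hm00.symm
    have e1 : ∫ x, φ x * ψ x * h x = 0 := by
      rw [integral_eq_zero_of_ae]
      filter_upwards [hae] with x hx
      have : φ x * h x = 0 := hx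
      calc φ x * ψ x * h x = ψ x * (φ x * h x) := by ring
        _ = 0 := by rw [this, mul_zero]
    rw [e1, ← hm00, zero_mul, zero_add]
    exact hI0
  -- the main case
  have hZi : Integrable fun x => Real.exp (ψ x) * h x := H.int_mul_cont (by fun_prop)
  have hZpos : 0 < Z := by
    have hZ0 : 0 ≤ Z := integral_nonneg fun x => mul_nonneg (Real.exp_pos _).le (H.nonneg x)
    rcases eq_or_lt_of_le hZ0 with h00 | hp
    · exfalso
      have hae : (fun x => Real.exp (ψ x) * h x) =ᵐ[volume] 0 :=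
        (integral_eq_zero_iff_of_nonneg
          (fun x => mul_nonneg (Real.exp_pos _).le (H.nonneg x)) hZi).1 h00.symm
      have : ∫ x, h x = 0 := by
        rw [integral_eq_zero_of_ae]
        filter_upwards [hae] with x hx
        have hx' : Real.exp (ψ x) * h x = 0 := hx
        rcases mul_eq_zero.1 hx' with h3 | h3
        · exact absurd h3 (Real.exp_pos _).ne'
        · exact h3
      linarith
    · exact hp
  set c : V → ℝ := fun x => m / Z * Real.exp (ψ x) with hc
  have hcpos : ∀ x, 0 < c x := fun x => by rw [hc]; positivity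
  have hcc : Continuous c := by fun_prop
  have hlogc : ∀ x, Real.log (c x) = Real.log m - Real.log Z + ψ x := by
    intro x
    rw [hc]
    simp only
    rw [Real.log_mul (by positivity) (Real.exp_pos _).ne', Real.log_div hmpos.ne' hZpos.ne',
      Real.log_exp]
  have hlc : Continuous fun x => Real.log (c x) := by
    simp only [hlogc]; fun_prop
  have hcint : ∫ x, c x * h x = m := by
    have : (fun x => c x * h x) = fun x => m / Z * (Real.exp (ψ x) * h x) := by
      ext x; rw [hc]; ring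
    rw [this, integral_const_mul, ← hZ]
    field_simp
  -- bounds on the ball
  obtain ⟨M, hM⟩ := (isCompact_closedBall (0 : V) r).exists_bound_of_continuousOn hlc.continuousOn
  obtain ⟨A1, hA1⟩ := (isCompact_closedBall (0 : V) r).exists_bound_of_continuousOn hcc.continuousOn
  obtain ⟨A2, hA2⟩ := (isCompact_closedBall (0 : V) r).exists_bound_of_continuousOn
    hφ.continuous.continuousOn
  have hM' : ∀ x, ‖x‖ ≤ r → |Real.log (c x)| ≤ M := fun x hx => by
    simpa using hM x (by simpa using hx)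
  have hM0 : 0 ≤ M := (abs_nonneg _).trans (hM' 0 (by simpa using hr0))
  have hA1' : ∀ x, ‖x‖ ≤ r → c x ≤ A1 := fun x hx => by
    have := hA1 x (by simpa using hx)
    rw [Real.norm_eq_abs] at this
    exact (le_abs_self _).trans this
  have hA2' : ∀ x, ‖x‖ ≤ r → φ x ≤ A2 := fun x hx => by
    have := hA2 x (by simpa using hx)
    rw [Real.norm_eq_abs] at this
    exact (le_abs_self _).trans this
  set R : ℝ := L * (r + s) with hR
  have hR0 : 0 ≤ R := by positivity
  set A : ℝ := max A1 (A2 + R) with hA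
  have hA0 : 0 ≤ A := (hcpos 0).le.trans ((hA1' 0 (by simpa using hr0)).trans (le_max_left _ _))
  -- the difference quotient
  set ρ : ℝ → V → ℝ := fun τ x => (Qs φ s τ x - φ x) / τ with hρ
  have hρ0 : ∀ τ, 0 < τ → ∀ x, 0 ≤ ρ τ x := fun τ hτ x =>
    div_nonneg (by linarith [self_le_Qs hφ hs.le hτ.le x]) hτ.le
  have hρR : ∀ τ, 0 < τ → ∀ x, ‖x‖ ≤ r → ρ τ x ≤ R := by
    intro τ hτ x hx
    rw [hρ]
    simp only
    rw [div_le_iff₀ hτ]
    have h2 := Qs_le hφ hs.le hτ.le x
    have h3 : (L : ℝ) * (τ * (‖x‖ + s)) ≤ L * (τ * (r + s)) := by gcongr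
    rw [hR]
    linarith
  have hρc : ∀ τ, 0 < τ → Continuous (ρ τ) := fun τ hτ =>
    ((Qs_cont hφ hs.le hτ.le).sub hφ.continuous).div_const τ
  set D : ℝ := M * A + M ^ 2 * A with hD
  have hD0 : 0 ≤ D := by positivity
  -- main inequality
  set τ1 : ℝ := min 1 (1 / (M + 1)) with hτ1
  have hτ1pos : 0 < τ1 := by positivity
  have main : ∀ τ, 0 < τ → τ ≤ τ1 → m * (Real.log b - Real.log m) ≤
      (∫ x, ρ τ x * h x) - (∫ x, φ x * Real.log (c x) * h x) + τ * (R + R * M + D) := by
    intro τ hτ hτle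
    have hτ1' : τ ≤ 1 := hτle.trans (min_le_left _ _)
    have hτM : τ * M ≤ 1 := by
      have h2 : τ ≤ 1 / (M + 1) := hτle.trans (min_le_right _ _)
      rw [le_div_iff₀ (by positivity)] at h2
      nlinarith
    set t : ℝ := τ / (1 + τ) with ht
    have ht0 : 0 < t := by positivity
    have ht1 : t < 1 := by rw [ht, div_lt_one (by positivity)]; linarith
    have h1t : 1 - t = 1 / (1 + τ) := by rw [ht]; field_simp; ring
    have htτ : t ≤ τ := by
      rw [ht]; exact div_le_self hτ.le (by linarith)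
    have htM : t * M ≤ 1 := (mul_le_mul_of_nonneg_right htτ hM0).trans hτM
    set Q : V → ℝ := Qs φ s τ with hQ
    have hQc : Continuous Q := Qs_cont hφ hs.le hτ.le
    have hQφ : ∀ x, φ x ≤ Q x := fun x => self_le_Qs hφ hs.le hτ.le x
    have hQ0 : ∀ x, 0 ≤ Q x := fun x => (h0 x).trans (hQφ x)
    have hQρ : ∀ x, Q x = φ x + τ * ρ τ x := by
      intro x
      rw [hρ]
      simp only
      rw [mul_div_cancel₀ _ hτ.ne']
      ring
    have hQR : ∀ x, ‖x‖ ≤ r → Q x ≤ φ x + τ * R := by
      intro x hx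
      rw [hQρ x]
      have := mul_le_mul_of_nonneg_left (hρR τ hτ x hx) hτ.le
      linarith
    have hQA : ∀ x, ‖x‖ ≤ r → Q x ≤ A := by
      intro x hx
      have h2 := hQR x hx
      have h3 := hA2' x hx
      have h4 : τ * R ≤ R := mul_le_of_le_one_left hR0 hτ1'
      exact (by linarith : Q x ≤ A2 + R).trans (le_max_right _ _)
    -- Prekopa-Leindler
    have hind : Integrable ((Metric.closedBall (0 : V) s).indicator h) :=
      H.int.indicator Metric.isClosed_closedBall.measurableSet
    have hQpow : Continuous fun x => Q x ^ (1 - t) :=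
      hQc.rpow_const fun x => Or.inr (by linarith)
    have hPL : m ^ (1 - t) * b ^ t ≤ ∫ x, Q x ^ (1 - t) * h x := by
      have key := pl_integral (a := t) ht0 ht1 (u := fun x => φ x * h x)
        (v := (Metric.closedBall (0 : V) s).indicator h) (w := fun x => Q x ^ (1 - t) * h x)
        (fun x => mul_nonneg (h0 x) (H.nonneg x))
        (fun x => indicator_nonneg (fun x _ => H.nonneg x) x)
        (fun x => mul_nonneg (Real.rpow_nonneg (hQ0 x) _) (H.nonneg x))
        (hφ.continuous.measurable.mul H.meas)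
        (H.meas.indicator Metric.isClosed_closedBall.measurableSet)
        (hQpow.measurable.mul H.meas) hφi hind (H.int_mul_cont hQpow) ?_
      · rw [integral_indicator Metric.isClosed_closedBall.measurableSet] at key
        exact key
      · intro x y
        by_cases hy : y ∈ Metric.closedBall (0 : V) s
        · rw [indicator_of_mem hy]
          set z : V := (1 - t) • x + t • y with hz
          have hyn : ‖y‖ ≤ s := by simpa using hy
          have hzs : 0 < ‖z‖ + s := by positivity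
          have hxz : x = z + (τ * (‖z‖ + s)) • ((‖z‖ + s)⁻¹ • (z - y)) := by
            rw [smul_smul, mul_assoc, mul_inv_cancel₀ hzs.ne', mul_one]
            have e1 : z - y = (1 - t) • (x - y) := by
              rw [hz, smul_sub, sub_smul, sub_smul, one_smul, one_smul]
              abel
            have e2 : τ * (1 - t) = t := by rw [h1t, ht]; ring
            rw [e1, smul_smul, e2, hz, smul_sub, sub_smul, one_smul]
            abel
          have hen : ‖(‖z‖ + s)⁻¹ • (z - y)‖ ≤ 1 := by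
            rw [norm_smul, norm_inv, Real.norm_eq_abs, abs_of_pos hzs, inv_mul_le_iff₀ hzs, mul_one]
            exact (norm_sub_le _ _).trans (by linarith)
          have hφx : φ x ≤ Q z := by
            have := le_Qs hφ hs.le hτ.le z hen
            rwa [← hxz] at this
          rw [Real.mul_rpow (h0 x) (H.nonneg x), mul_assoc]
          exact mul_le_mul (Real.rpow_le_rpow (h0 x) hφx (by linarith)) (H.conc t ht0 ht1 x y)
            (mul_nonneg (Real.rpow_nonneg (H.nonneg _) _) (Real.rpow_nonneg (H.nonneg _) _))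
            (Real.rpow_nonneg (hQ0 _) _)
        · rw [indicator_of_notMem hy, Real.zero_rpow ht0.ne', mul_zero]
          exact mul_nonneg (Real.rpow_nonneg (hQ0 _) _) (H.nonneg _)
    -- lower bound of the left side
    have hleft : m + t * (m * (Real.log b - Real.log m)) ≤ m ^ (1 - t) * b ^ t := by
      have e1 : m ^ (1 - t) * b ^ t = m * Real.exp (t * (Real.log b - Real.log m)) := by
        rw [Real.rpow_def_of_pos hmpos, Real.rpow_def_of_pos hB, ← Real.exp_add]
        nth_rewrite 2 [← Real.exp_log hmpos]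
        rw [← Real.exp_add]
        congr 1
        ring
      rw [e1]
      have e2 := Real.add_one_le_exp (t * (Real.log b - Real.log m))
      have e3 := mul_le_mul_of_nonneg_left e2 hm0
      linarith
    -- upper bound of the right side
    have hiQ : Integrable fun x => Q x * h x := H.int_mul_cont hQc
    have hic : Integrable fun x => c x * h x := H.int_mul_cont hcc
    have hiQl : Integrable fun x => Q x * Real.log (c x) * h x := H.int_mul_cont (hQc.mul hlc)
    have hiφl : Integrable fun x => φ x * Real.log (c x) * h x :=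
      H.int_mul_cont (hφ.continuous.mul hlc)
    have hiρ : Integrable fun x => ρ τ x * h x := H.int_mul_cont (hρc τ hτ)
    have hright : ∫ x, Q x ^ (1 - t) * h x ≤ (∫ x, Q x * h x) + t * (m - ∫ x, Q x * h x) -
        t * (∫ x, Q x * Real.log (c x) * h x) + t ^ 2 * D := by
      have e1 : ∫ x, Q x ^ (1 - t) * h x ≤
          ∫ x, (Q x * h x + t * (c x * h x - Q x * h x) - t * (Q x * Real.log (c x) * h x) +
            t ^ 2 * D * h x) := by
        refine integral_mono (H.int_mul_cont hQpow) (((hiQ.add ((hic.sub hiQ).const_mul t)).sub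
          (hiQl.const_mul t)).add (H.int.const_mul (t ^ 2 * D))) fun x => ?_
        have e2 := H.mul_le_mul (f := fun x => Q x ^ (1 - t))
          (g := fun x => Q x + t * (c x - Q x) - t * (Q x * Real.log (c x)) + t ^ 2 * D)
          (fun x hx => rpow_bound ht0 ht1 (hQ0 x) (hQA x hx) (hcpos x)
            ((hA1' x hx).trans (le_max_left _ _)) (hM' x hx) htM) x
        simp only at e2 ⊢
        refine e2.trans (le_of_eq ?_)
        ring
      refine e1.trans (le_of_eq ?_)
      rw [integral_add, integral_sub, integral_add, integral_const_mul, integral_sub hic hiQ,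
        integral_const_mul, integral_const_mul, hcint, h1, mul_one]
      · exact hiQ
      · exact (hic.sub hiQ).const_mul t
      · exact hiQ.add ((hic.sub hiQ).const_mul t)
      · exact hiQl.const_mul t
      · exact (hiQ.add ((hic.sub hiQ).const_mul t)).sub (hiQl.const_mul t)
      · exact H.int.const_mul (t ^ 2 * D)
    have hQint : ∫ x, Q x * h x = m + τ * ∫ x, ρ τ x * h x := by
      rw [hm, ← integral_const_mul, ← integral_add hφi (hiρ.const_mul τ)]
      refine integral_congr_ae (Eventually.of_forall fun x => ?_)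
      simp only
      rw [hQρ x]
      ring
    have hρint0 : 0 ≤ ∫ x, ρ τ x * h x :=
      integral_nonneg fun x => mul_nonneg (hρ0 τ hτ x) (H.nonneg x)
    have hρintR : ∫ x, ρ τ x * h x ≤ R := by
      have e1 : ∫ x, ρ τ x * h x ≤ ∫ x, R * h x :=
        integral_mono hiρ (H.int.const_mul R) fun x => H.mul_le_mul (hρR τ hτ) x
      rwa [integral_const_mul, h1, mul_one] at e1
    have hQlint : -(∫ x, Q x * Real.log (c x) * h x) ≤
        -(∫ x, φ x * Real.log (c x) * h x) + τ * (R * M) := by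
      have e1 : (∫ x, φ x * Real.log (c x) * h x) - τ * (R * M) ≤
          ∫ x, Q x * Real.log (c x) * h x := by
        have e2 : (∫ x, φ x * Real.log (c x) * h x) - τ * (R * M) =
            ∫ x, (φ x * Real.log (c x) * h x - τ * (R * M) * h x) := by
          rw [integral_sub hiφl (H.int.const_mul _), integral_const_mul, h1, mul_one]
        rw [e2]
        refine integral_mono (hiφl.sub (H.int.const_mul _)) hiQl fun x => ?_
        have e3 := H.mul_le_mul (f := fun x => φ x * Real.log (c x) - τ * (R * M))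
          (g := fun x => Q x * Real.log (c x)) (fun x hx => by
            have f1 := hρR τ hτ x hx
            have f2 := hρ0 τ hτ x
            have f3 := hM' x hx
            have f4 : |ρ τ x * Real.log (c x)| ≤ R * M := by
              rw [abs_mul, abs_of_nonneg f2]
              exact _root_.mul_le_mul f1 f3 (abs_nonneg _) hR0
            have f5 := (abs_le.1 f4).1
            have f6 := mul_le_mul_of_nonneg_left f5 hτ.le
            rw [hQρ x]
            nlinarith) x
        simp only at e3 ⊢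
        refine le_trans (le_of_eq ?_) e3
        ring
      linarith
    -- combine
    set I := ∫ x, ρ τ x * h x with hI
    set J := ∫ x, φ x * Real.log (c x) * h x with hJ
    have hfin : t * (m * (Real.log b - Real.log m)) ≤
        τ * I + t * (-(τ * I)) + t * (-J + τ * (R * M)) + t ^ 2 * D := by
      have e1 := hleft.trans (hPL.trans hright)
      rw [hQint] at e1
      have e2 := mul_le_mul_of_nonneg_left hQlint ht0.le
      linarith
    have hτt : τ = t * (1 + τ) := by rw [ht]; field_simp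
    have hfin2 : t * (m * (Real.log b - Real.log m)) ≤
        t * (I - J + τ * (R + R * M + D)) := by
      have e1 : τ * I = t * ((1 + τ) * I) := by
        nth_rewrite 1 [hτt]
        ring
      have e2 : t * (-(τ * I)) ≤ 0 := by
        have : 0 ≤ t * (τ * I) := by positivity
        linarith
      have e3 : t ^ 2 * D ≤ t * (τ * D) := by
        have : t * D ≤ τ * D := mul_le_mul_of_nonneg_right htτ hD0
        nlinarith
      have e4 : t * ((1 + τ) * I) ≤ t * (I + τ * R) := by
        have : τ * I ≤ τ * R := mul_le_mul_of_nonneg_left hρintR hτ.le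
        exact mul_le_mul_of_nonneg_left (by linarith) ht0.le
      nlinarith
    exact le_of_mul_le_mul_left hfin2 ht0
  -- passage to the limit
  have hGR : ∀ x, ‖x‖ ≤ r → |G x| ≤ R := by
    intro x hx
    rw [abs_of_nonneg (hG0 x), hG, hR]
    simp only
    rw [mul_comm]
    exact _root_.mul_le_mul (hfdL x) (by linarith) (by positivity) L.coe_nonneg
  have hGi : Integrable fun x => G x * h x := H.int_mul hGm hGR
  set τn : ℕ → ℝ := fun n => τ1 / (n + 1) with hτn
  have hτn0 : ∀ n, 0 < τn n := fun n => by positivity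
  have hτn1 : ∀ n, τn n ≤ τ1 := fun n => by
    rw [hτn]
    simp only
    rw [div_le_iff₀ (by positivity)]
    nlinarith [Nat.cast_nonneg (α := ℝ) n]
  have hτnlim : Tendsto τn atTop (𝓝 0) := by
    have := (tendsto_one_div_add_atTop_nhds_zero_nat (𝕜 := ℝ)).const_mul τ1
    simpa [hτn, div_eq_mul_inv] using this
  set sn : ℕ → V → ℝ := fun n x => max (ρ (τn n) x - G x) 0 with hsn
  have hsnm : ∀ n, Measurable (sn n) := fun n =>
    ((hρc _ (hτn0 n)).measurable.sub hGm).max measurable_const
  have hsnR : ∀ n x, ‖x‖ ≤ r → |sn n x| ≤ R := by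
    intro n x hx
    rw [hsn, abs_of_nonneg (le_max_right _ _)]
    simp only
    refine max_le ?_ hR0
    have e1 := hρR _ (hτn0 n) x hx
    have e2 := hG0 x
    linarith
  have hsn_lim : Tendsto (fun n => ∫ x, sn n x * h x) atTop (𝓝 (∫ _x : V, (0 : ℝ))) := by
    refine tendsto_integral_of_dominated_convergence (fun x => R * h x)
      (fun n => ((hsnm n).mul H.meas).aestronglyMeasurable) (H.int.const_mul _) ?_ ?_
    · intro n
      refine Eventually.of_forall fun x => ?_
      rw [norm_mul, Real.norm_eq_abs, Real.norm_eq_abs, abs_of_nonneg (H.nonneg x)]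
      exact H.mul_le_mul (f := fun x => |sn n x|) (g := fun _ => R) (hsnR n) x
    · filter_upwards [hφ.ae_differentiableAt (μ := (volume : Measure V))] with x hx
      have e1 : Tendsto (fun n => sn n x) atTop (𝓝 0) := by
        rw [Metric.tendsto_atTop]
        intro e he
        have hxs : 0 < ‖x‖ + s := by positivity
        obtain ⟨τ0, hτ0, hall⟩ := Qs_asymp hx hs (δ := e / (2 * (‖x‖ + s))) (by positivity)
        have h6 : ∀ᶠ n in atTop, τn n < τ0 := hτnlim.eventually (gt_mem_nhds hτ0)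
        obtain ⟨N, hN⟩ := eventually_atTop.1 h6
        refine ⟨N, fun n hn => ?_⟩
        have h7 := hall _ (hτn0 n) (hN n hn)
        have h8 : ρ (τn n) x ≤ G x + e / 2 := by
          rw [hρ]
          simp only
          rw [div_le_iff₀ (hτn0 n)]
          have h9 : (‖x‖ + s) * (‖fderiv ℝ φ x‖ + e / (2 * (‖x‖ + s))) = G x + e / 2 := by
            rw [hG]
            field_simp
          rw [h9] at h7
          linarith
        rw [Real.dist_eq, sub_zero, abs_of_nonneg (le_max_right _ _)]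
        refine max_lt ?_ he
        linarith
      simpa using e1.mul_const (h x)
  rw [integral_zero] at hsn_lim
  have hfinal : ∀ n, m * (Real.log b - Real.log m) ≤
      (∫ x, G x * h x) + (∫ x, sn n x * h x) - (∫ x, φ x * Real.log (c x) * h x) +
        τn n * (R + R * M + D) := by
    intro n
    have e1 := main _ (hτn0 n) (hτn1 n)
    have e2 : ∫ x, ρ (τn n) x * h x ≤ (∫ x, G x * h x) + (∫ x, sn n x * h x) := by
      rw [← integral_add hGi (H.int_mul (hsnm n) (hsnR n))]
      refine integral_mono (H.int_mul_cont (hρc _ (hτn0 n)))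
        (hGi.add (H.int_mul (hsnm n) (hsnR n))) fun x => ?_
      have e3 : ρ (τn n) x ≤ G x + sn n x := by
        have := le_max_left (ρ (τn n) x - G x) 0
        rw [hsn]
        simp only
        linarith
      have := mul_le_mul_of_nonneg_right e3 (H.nonneg x)
      simp only
      linarith
    linarith
  have hlim : Tendsto (fun n => (∫ x, G x * h x) + (∫ x, sn n x * h x) -
      (∫ x, φ x * Real.log (c x) * h x) + τn n * (R + R * M + D)) atTop
      (𝓝 ((∫ x, G x * h x) - (∫ x, φ x * Real.log (c x) * h x))) := by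
    have := ((hsn_lim.const_add (∫ x, G x * h x)).sub_const
      (∫ x, φ x * Real.log (c x) * h x)).add (hτnlim.mul_const (R + R * M + D))
    simpa using this
  have hV := ge_of_tendsto' hlim hfinal
  have hJ : ∫ x, φ x * Real.log (c x) * h x =
      m * (Real.log m - Real.log Z) + ∫ x, φ x * ψ x * h x := by
    have e1 : (fun x => φ x * Real.log (c x) * h x) =
        fun x => (Real.log m - Real.log Z) * (φ x * h x) + φ x * ψ x * h x := by
      ext x
      rw [hlogc]
      ring
    have e2 : Integrable fun x => φ x * ψ x * h x := H.int_mul_cont (hφ.continuous.mul hψ)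
    rw [e1, integral_add (hφi.const_mul _) e2, integral_const_mul, ← hm]
    ring
  rw [hJ] at hV
  change _ ≤ m * (Real.log Z - Real.log b) + ∫ x, G x * h x
  linarith

end Pool.Agent.Lib.MP_8d00da_gt.h25
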