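import Mathlib
import Pool.Agent.Lib.MP_8d00da_gt.h25.Cls

/-!
# Net of the unit sphere and a union bound for the operator norm
-/

namespace Pool.Agent.Lib.MP_8d00da_gt.h25

open MeasureTheory Set Filter Matrix
open Pool.Agent.Lib.MP_8d00da_gt.h42
open scoped Topology NNReal

variable {p q : ℕ}

/-- A half separated subset of the unit sphere. -/
def SepS (p : ℕ) (S : Finset (EuclideanSpace ℝ (Fin p))) : Prop :=
  (∀ v ∈ S, ‖v‖ = 1) ∧ ∀ v ∈ S, ∀ w ∈ S, v ≠ w → 1 / 2 ≤ ‖v - w‖

lemma SepS.card_le {p : ℕ} {S : Finset (EuclideanSpace ℝ (Fin p))} (hS : SepS p S) :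
    S.card ≤ 5 ^ p := by
  classical
  have hinj : Function.Injective fun v : EuclideanSpace ℝ (Fin p) => (2 : ℝ) • v := by
    intro v w h
    exact smul_right_injective _ (two_ne_zero) h
  have h1 := Besicovitch.card_le_of_separated (S.image fun v => (2 : ℝ) • v) (by
    intro c hc
    obtain ⟨v, hv, rfl⟩ := Finset.mem_image.1 hc
    rw [norm_smul, hS.1 v hv]
    norm_num) (by
    intro c hc d hd hcd
    obtain ⟨v, hv, rfl⟩ := Finset.mem_image.1 hc
    obtain ⟨w, hw, rfl⟩ := Finset.mem_image.1 hd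
    have hvw : v ≠ w := fun h => hcd (by rw [h])
    rw [← smul_sub, norm_smul]
    have := hS.2 v hv w hw hvw
    rw [Real.norm_eq_abs, abs_of_pos (by norm_num : (0 : ℝ) < 2)]
    linarith)
  rw [Finset.card_image_of_injective _ hinj, finrank_euclideanSpace, Fintype.card_fin] at h1
  exact h1

lemma exists_max_sepS (p : ℕ) : ∃ S, SepS p S ∧ ∀ S', SepS p S' → S'.card ≤ S.card := by
  classical
  let A : Set ℕ := {n | ∃ S, SepS p S ∧ S.card = n}
  have hne : A.Nonempty := ⟨0, ∅, ⟨by simp, by simp⟩, rfl⟩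
  have hb : BddAbove A := ⟨5 ^ p, by
    rintro n ⟨S, hS, rfl⟩
    exact hS.card_le⟩
  obtain ⟨S, hS, hc⟩ := Nat.sSup_mem hne hb
  exact ⟨S, hS, fun S' hS' => hc ▸ le_csSup hb ⟨S', hS', rfl⟩⟩

lemma sum_sq_eq (v : EuclideanSpace ℝ (Fin p)) : ∑ k, v k ^ 2 = ‖v‖ ^ 2 := by
  rw [EuclideanSpace.norm_sq_eq]
  exact Finset.sum_congr rfl fun k _ => by rw [Real.norm_eq_abs, sq_abs]

theorem net (p : ℕ) : ∃ S : Finset (Fin p → ℝ), S.card ≤ 5 ^ p ∧ (∀ v ∈ S, ∑ k, v k ^ 2 = 1) ∧
    ∀ (q : ℕ) (x : E p q) (c : ℝ), 0 ≤ c → (∀ v ∈ S, ‖tv v x‖ ≤ c) → NN x ≤ 2 * c := by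
  classical
  obtain ⟨S, hS, hmax⟩ := exists_max_sepS p
  have hnear : ∀ u : EuclideanSpace ℝ (Fin p), ‖u‖ = 1 → ∃ v ∈ S, ‖u - v‖ < 1 / 2 := by
    intro u hu
    by_contra hc
    push Not at hc
    have hu2 : u ∉ S := by
      intro h
      have := hc u h
      rw [sub_self, norm_zero] at this
      norm_num at this
    have h1 := hmax (insert u S) ⟨by
      intro v hv
      rcases Finset.mem_insert.1 hv with rfl | hv
      · exact hu
      · exact hS.1 v hv, by
      intro v hv w hw hvw
      rcases Finset.mem_insert.1 hv with hv | hv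
      · rcases Finset.mem_insert.1 hw with hw | hw
        · exact absurd (hv.trans hw.symm) hvw
        · rw [hv]; exact hc w hw
      · rcases Finset.mem_insert.1 hw with hw | hw
        · rw [hw, norm_sub_rev]; exact hc v hv
        · exact hS.2 v hv w hw hvw⟩
    rw [Finset.card_insert_of_notMem hu2] at h1
    omega
  refine ⟨S.image fun v : EuclideanSpace ℝ (Fin p) => (WithLp.ofLp v : Fin p → ℝ),
    Finset.card_image_le.trans hS.card_le, ?_, ?_⟩
  · intro v hv
    obtain ⟨w, hw, rfl⟩ := Finset.mem_image.1 hv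
    exact (sum_sq_eq w).trans (by rw [hS.1 w hw, one_pow])
  · intro q x c hc0 hc
    have key : NN x ≤ c + NN x / 2 := by
      refine ciSup_le fun u => ?_
      obtain ⟨u, hu⟩ := u
      set s := Real.sqrt (∑ k, u k ^ 2) with hs
      have hsum0 : 0 ≤ ∑ k, u k ^ 2 := Finset.sum_nonneg fun _ _ => sq_nonneg _
      have hs0 : 0 ≤ s := Real.sqrt_nonneg _
      have hs1 : s ≤ 1 := by exact Real.sqrt_le_one.2 hu
      have hs2 : s ^ 2 = ∑ k, u k ^ 2 := Real.sq_sqrt hsum0
      rcases eq_or_lt_of_le hs0 with h0 | h0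
      · have hu0 : ∑ k, u k ^ 2 = 0 := by rw [← hs2, ← h0]; norm_num
        have h1 := tv_le u x
        rw [hu0, zero_mul] at h1
        have h2 : ‖tv u x‖ = 0 := by nlinarith [norm_nonneg (tv u x)]
        show ‖tv u x‖ ≤ _
        rw [h2]
        have := NN_nonneg x
        linarith
      · set u' : EuclideanSpace ℝ (Fin p) := WithLp.toLp 2 (s⁻¹ • u) with hu'
        have hu'1 : ‖u'‖ = 1 := by
          have h1 : ‖u'‖ ^ 2 = 1 := by
            rw [← sum_sq_eq]
            simp only [hu', Pi.smul_apply, smul_eq_mul, mul_pow, ← Finset.mul_sum]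
            rw [← hs2, ← mul_pow, inv_mul_cancel₀ h0.ne', one_pow]
          exact (pow_eq_one_iff_of_nonneg (norm_nonneg _) two_ne_zero).1 h1
        obtain ⟨v, hv, hd⟩ := hnear u' hu'1
        have h1 := hc v (Finset.mem_image_of_mem _ hv)
        set w : Fin p → ℝ := fun k => (2 : ℝ) * (u' k - v k) with hw
        have hw1 : ∑ k, w k ^ 2 ≤ 1 := by
          have h2 : ∑ k, w k ^ 2 = 4 * ‖u' - v‖ ^ 2 := by
            rw [← sum_sq_eq, Finset.mul_sum]
            refine Finset.sum_congr rfl fun k _ => ?_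
            rw [hw, PiLp.sub_apply]
            ring
          rw [h2]
          nlinarith [norm_nonneg (u' - v)]
        have h2 := tv_le_NN hw1 x
        have h3 : (fun k => u' k) = (fun k => v k) + (1 / 2 : ℝ) • w := by
          funext k
          simp only [Pi.add_apply, Pi.smul_apply, smul_eq_mul, hw]
          ring
        have h4 : ‖tv (fun k => u' k) x‖ ≤ c + NN x / 2 := by
          rw [h3, tv_add_left, tv_smul_left]
          refine (norm_add_le _ _).trans (add_le_add h1 ?_)
          rw [norm_smul, Real.norm_eq_abs, abs_of_pos (by norm_num)]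
          linarith
        have h5 : u = s • (fun k => u' k) := by
          funext k
          simp only [hu', Pi.smul_apply, smul_eq_mul]
          field_simp
        show ‖tv u x‖ ≤ _
        rw [h5, tv_smul_left, norm_smul, Real.norm_eq_abs, abs_of_pos h0]
        have h6 := norm_nonneg (tv (fun k => u' k) x)
        nlinarith
    linarith

lemma tv_cont (v : Fin p → ℝ) : Continuous fun x : E p q => tv v x := by
  unfold tv
  fun_prop

theorem op_tail {h : E p q → ℝ} {r B : ℝ} (H : LCW h r B) {s M : ℝ} (hs : 0 ≤ s) (hM : 0 ≤ M)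
    (hrow : ∀ u : Fin p → ℝ, ∑ k, u k ^ 2 = 1 → ∫ x in {x | s < ‖tv u x‖}, h x ≤ M) :
    ∫ x in {x | 2 * s < NN x}, h x ≤ 5 ^ p * M := by
  classical
  obtain ⟨S, hcard, hS1, hS⟩ := net p
  have hmA : MeasurableSet {x : E p q | 2 * s < NN x} :=
    measurableSet_lt measurable_const NN_lip.continuous.measurable
  have hmB : ∀ v : Fin p → ℝ, MeasurableSet {x : E p q | s < ‖tv v x‖} := fun v =>
    measurableSet_lt measurable_const (tv_cont v).norm.measurable
  have hint : ∀ v : Fin p → ℝ, Integrable ({x : E p q | s < ‖tv v x‖}.indicator h) := fun v =>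
    H.int.indicator (hmB v)
  calc ∫ x in {x | 2 * s < NN x}, h x = ∫ x, {x : E p q | 2 * s < NN x}.indicator h x :=
        (integral_indicator hmA).symm
    _ ≤ ∫ x, ∑ v ∈ S, {x : E p q | s < ‖tv v x‖}.indicator h x := by
        refine integral_mono (H.int.indicator hmA) (integrable_finsetSum _ fun v _ => hint v) ?_
        intro x
        have hnn : ∀ v ∈ S, 0 ≤ {x : E p q | s < ‖tv v x‖}.indicator h x := fun v _ =>
          indicator_nonneg (fun x _ => H.nonneg x) x
        by_cases hx : 2 * s < NN x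
        · obtain ⟨v, hv, hvx⟩ : ∃ v ∈ S, s < ‖tv v x‖ := by
            by_contra hc
            push Not at hc
            exact absurd (hS q x s hs hc) (not_le.2 hx)
          have h1 := Finset.single_le_sum hnn hv
          have h2 : {x : E p q | s < ‖tv v x‖}.indicator h x = h x :=
            indicator_of_mem (show x ∈ {x : E p q | s < ‖tv v x‖} from hvx) h
          have h3 : {x : E p q | 2 * s < NN x}.indicator h x = h x :=
            indicator_of_mem (show x ∈ {x : E p q | 2 * s < NN x} from hx) h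
          show {x : E p q | 2 * s < NN x}.indicator h x ≤
            ∑ v ∈ S, {x : E p q | s < ‖tv v x‖}.indicator h x
          rw [h3]
          rw [h2] at h1
          exact h1
        · have h3 : {x : E p q | 2 * s < NN x}.indicator h x = 0 :=
            indicator_of_notMem (show x ∉ {x : E p q | 2 * s < NN x} from hx) h
          show {x : E p q | 2 * s < NN x}.indicator h x ≤
            ∑ v ∈ S, {x : E p q | s < ‖tv v x‖}.indicator h x
          rw [h3]
          exact Finset.sum_nonneg hnn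
    _ = ∑ v ∈ S, ∫ x in {x | s < ‖tv v x‖}, h x := by
        rw [integral_finsetSum _ fun v _ => hint v]
        exact Finset.sum_congr rfl fun v _ => integral_indicator (hmB v)
    _ ≤ ∑ _v ∈ S, M := Finset.sum_le_sum fun v hv => hrow v (hS1 v hv)
    _ = S.card * M := by rw [Finset.sum_const, nsmul_eq_mul]
    _ ≤ 5 ^ p * M := mul_le_mul_of_nonneg_right (by exact_mod_cast hcard) hM

end Pool.Agent.Lib.MP_8d00da_gt.h25
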