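import Mathlib
import Pool.Agent.Lib.MP_8d00da_gt.h25.Poly

/-!
# Polynomials are `C¹`-dense in Lipschitz functions on balls
-/

namespace Pool.Agent.Lib.MP_8d00da_gt.h25

open MeasureTheory Set Filter Matrix
open Pool.Agent.Lib.MP_8d00da_gt.h42
open scoped Topology NNReal

variable {p q : ℕ}

/-- Stone–Weierstrass for polynomials in the entries of a matrix. -/
lemma pol_dense {K : Set (E p q)} (hK : IsCompact K)
    {f : E p q → ℝ} (hf : Continuous f) {ε : ℝ} (hε : 0 < ε) :
    ∃ P : Pol p q, ∀ a ∈ K, |f a - ev P a| ≤ ε := by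
  have : CompactSpace K := isCompact_iff_compactSpace.1 hK
  let φ : Fin p × Fin q → C(K, ℝ) := fun i => ⟨fun a => a.1 i, by fun_prop⟩
  let A : Subalgebra ℝ C(K, ℝ) := (MvPolynomial.aeval φ : Pol p q →ₐ[ℝ] _).range
  have hval : ∀ (P : Pol p q) (a : K), (MvPolynomial.aeval φ P) a = ev P a.1 := by
    intro P a
    induction P using MvPolynomial.induction_on with
    | C c => rw [ev_C]; simp
    | add P Q hP hQ => rw [map_add, ContinuousMap.add_apply, hP, hQ, ev_add]
    | mul_X P i hP =>
      rw [map_mul, ContinuousMap.mul_apply, hP, ev_mul, ev_X, MvPolynomial.aeval_X]; rfl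
  have hsep : A.SeparatesPoints := by
    intro a b hab
    have h1 : ∃ i, a.1 i ≠ b.1 i := by
      by_contra h
      push Not at h
      exact hab (Subtype.ext (by ext i; exact h i))
    obtain ⟨i, hi⟩ := h1
    refine ⟨φ i, ⟨φ i, ?_, rfl⟩, hi⟩
    exact ⟨MvPolynomial.X i, by simp⟩
  obtain ⟨⟨g, P, hP⟩, hg⟩ :=
    ContinuousMap.exists_mem_subalgebra_near_continuousMap_of_separatesPoints
    A hsep ⟨fun a : K => f a.1, by fun_prop⟩ ε hε
  refine ⟨P, fun a ha => ?_⟩
  have h1 := (ContinuousMap.norm_coe_le_norm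
    (g - (⟨fun a : K => f a.1, by fun_prop⟩ : C(K, ℝ))) ⟨a, ha⟩).trans hg.le
  rw [ContinuousMap.sub_apply, Real.norm_eq_abs, abs_sub_comm] at h1
  have h2 : g ⟨a, ha⟩ = ev P a := by
    rw [← hval P ⟨a, ha⟩]
    exact congrArg (fun F : C(K, ℝ) => F ⟨a, ha⟩) hP.symm
  rw [h2] at h1
  exact h1

/-- The convolution of a compactly supported function with a polynomial is a polynomial. -/
lemma poly_conv (Q : Pol p q) : ∀ f : E p q → ℝ, Continuous f → HasCompactSupport f →
    ∃ P : Pol p q, ∀ x, ∫ y, f y * ev Q (x - y) = ev P x := by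
  induction Q using MvPolynomial.induction_on with
  | C c =>
    intro f _ _
    refine ⟨MvPolynomial.C (∫ y, f y * c), fun x => ?_⟩
    simp only [ev_C]
  | add P Q hP hQ =>
    intro f hf hc
    obtain ⟨P', hP'⟩ := hP f hf hc
    obtain ⟨Q', hQ'⟩ := hQ f hf hc
    refine ⟨P' + Q', fun x => ?_⟩
    have i1 : Integrable fun y => f y * ev P (x - y) :=
      (hf.mul ((ev_cont P).comp (by fun_prop))).integrable_of_hasCompactSupport hc.mul_right
    have i2 : Integrable fun y => f y * ev Q (x - y) :=
      (hf.mul ((ev_cont Q).comp (by fun_prop))).integrable_of_hasCompactSupport hc.mul_right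
    rw [ev_add, ← hP' x, ← hQ' x, ← integral_add i1 i2]
    exact integral_congr_ae (Eventually.of_forall fun y => by
      simp only [ev_add]; ring)
  | mul_X Q i hQ =>
    intro f hf hc
    obtain ⟨P1, hP1⟩ := hQ f hf hc
    obtain ⟨P2, hP2⟩ := hQ (fun y => f y * y i) (hf.mul (by fun_prop)) hc.mul_right
    refine ⟨MvPolynomial.X i * P1 - P2, fun x => ?_⟩
    have i1 : Integrable fun y => f y * ev Q (x - y) :=
      (hf.mul ((ev_cont Q).comp (by fun_prop))).integrable_of_hasCompactSupport hc.mul_right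
    have i2 : Integrable fun y => (f y * y i) * ev Q (x - y) :=
      ((hf.mul (by fun_prop)).mul ((ev_cont Q).comp (by fun_prop))).integrable_of_hasCompactSupport
        (hc.mul_right.mul_right)
    rw [ev_sub, ev_mul, ev_X, ← hP1 x, ← hP2 x, ← integral_const_mul,
      ← integral_sub (i1.const_mul _) i2]
    refine integral_congr_ae (Eventually.of_forall fun y => ?_)
    simp only [ev_mul, ev_X, PiLp.sub_apply]
    ring

/-- Differentiation of a convolution of a compactly supported Lipschitz function with a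
continuous kernel. -/
lemma fderiv_conv {f : E p q → ℝ} {L : ℝ≥0} (hf : LipschitzWith L f) {R : ℝ}
    (hR : ∀ x, R < ‖x‖ → f x = 0) {K : E p q → ℝ} (hK : Continuous K) {x : E p q}
    (hd : DifferentiableAt ℝ (fun x => ∫ y, f y * K (x - y)) x) (v : E p q) :
    fderiv ℝ (fun x => ∫ y, f y * K (x - y)) x v = ∫ y, fderiv ℝ f y v * K (x - y) := by
  set G : E p q → ℝ := fun x => ∫ y, f y * K (x - y) with hG
  have hn : ∀ n : ℕ, (0 : ℝ) < 1 / ((n : ℝ) + 1) := fun n => by positivity
  have hn1 : ∀ n : ℕ, 1 / ((n : ℝ) + 1) ≤ 1 := fun n => by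
    rw [div_le_one (by positivity)]
    have : (0 : ℝ) ≤ n := Nat.cast_nonneg n
    linarith
  have hsupp : HasCompactSupport f :=
    HasCompactSupport.intro (isCompact_closedBall (0 : E p q) R) fun x hx => hR x (by
      simpa using hx)
  have hint : ∀ z : E p q, Integrable fun y => f y * K (z - y) := fun z =>
    (hf.continuous.mul (hK.comp (by fun_prop))).integrable_of_hasCompactSupport hsupp.mul_right
  -- shifted form
  have hshift : ∀ (z w : E p q), G (z + w) = ∫ y, f (y + w) * K (z - y) := by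
    intro z w
    simp only [hG]
    rw [← integral_add_right_eq_self (μ := volume) (fun y => f y * K (z + w - y)) w]
    refine integral_congr_ae (Eventually.of_forall fun y => ?_)
    simp only
    rw [show z + w - (y + w) = z - y by abel]
  have hints : ∀ (z w : E p q), Integrable fun y => f (y + w) * K (z - y) := by
    intro z w
    have h1 := (hint (z + w)).comp_add_right w
    refine h1.congr (Eventually.of_forall fun y => ?_)
    simp only
    rw [show z + w - (y + w) = z - y by abel]
  have h1 : HasLineDerivAt ℝ G (fderiv ℝ G x v) x v := hd.hasFDerivAt.hasLineDerivAt _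
  have h2 := HasDerivAt.tendsto_slope_zero h1
  simp only [zero_add, zero_smul, add_zero] at h2
  have hs : Tendsto (fun k : ℕ => 1 / ((k : ℝ) + 1)) atTop (𝓝[≠] 0) := by
    rw [tendsto_nhdsWithin_iff]
    exact ⟨tendsto_one_div_add_atTop_nhds_zero_nat, Eventually.of_forall fun k => (hn k).ne'⟩
  have h3 := h2.comp hs
  refine tendsto_nhds_unique h3 ?_
  have h4 : ∀ k : ℕ, (fun t : ℝ => t⁻¹ • (G (x + t • v) - G x)) (1 / ((k : ℝ) + 1)) =
      ∫ y, ((1 / ((k : ℝ) + 1))⁻¹ * (f (y + (1 / ((k : ℝ) + 1)) • v) - f y)) * K (x - y) := by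
    intro k
    simp only
    rw [hshift x _, show G x = ∫ y, f y * K (x - y) from rfl,
      ← integral_sub (hints x _) (hint x), smul_eq_mul, ← integral_const_mul]
    refine integral_congr_ae (Eventually.of_forall fun y => ?_)
    simp only
    ring
  have h5 : Tendsto (fun k : ℕ => ∫ y, ((1 / ((k : ℝ) + 1))⁻¹ *
        (f (y + (1 / ((k : ℝ) + 1)) • v) - f y)) * K (x - y)) atTop
      (𝓝 (∫ y, fderiv ℝ f y v * K (x - y))) := by
    refine tendsto_integral_of_dominated_convergence
      (fun y => (Metric.closedBall (0 : E p q) (R + ‖v‖)).indicator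
        (fun y => L * ‖v‖ * |K (x - y)|) y) ?_ ?_ ?_ ?_
    · intro k
      refine Continuous.aestronglyMeasurable ?_
      exact (continuous_const.mul ((hf.continuous.comp (by fun_prop)).sub hf.continuous)).mul
        (hK.comp (by fun_prop))
    · rw [integrable_indicator_iff measurableSet_closedBall]
      refine ContinuousOn.integrableOn_compact (isCompact_closedBall _ _) ?_
      exact (continuous_const.mul (hK.comp (by fun_prop)).abs).continuousOn
    · intro k
      filter_upwards with y
      by_cases hy : y ∈ Metric.closedBall (0 : E p q) (R + ‖v‖)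
      · rw [indicator_of_mem hy, norm_mul, Real.norm_eq_abs (K _)]
        apply mul_le_mul_of_nonneg_right _ (abs_nonneg _)
        have h6 := hf.dist_le_mul (y + (1 / ((k : ℝ) + 1)) • v) y
        rw [dist_self_add_left, Real.dist_eq, norm_smul, Real.norm_eq_abs, abs_of_pos (hn k)] at h6
        rw [Real.norm_eq_abs, abs_mul, abs_of_pos (inv_pos.2 (hn k))]
        calc (1 / ((k : ℝ) + 1))⁻¹ * |f (y + (1 / ((k : ℝ) + 1)) • v) - f y|
            ≤ (1 / ((k : ℝ) + 1))⁻¹ * (L * (1 / ((k : ℝ) + 1) * ‖v‖)) :=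
              mul_le_mul_of_nonneg_left h6 (inv_pos.2 (hn k)).le
          _ = L * ‖v‖ := by
              have := (hn k).ne'
              field_simp
      · rw [indicator_of_notMem hy]
        have hy' : R + ‖v‖ < ‖y‖ := by simpa using hy
        have e1 : f y = 0 := hR y (by linarith [norm_nonneg v])
        have e2 : f (y + (1 / ((k : ℝ) + 1)) • v) = 0 := by
          apply hR
          have h7 : ‖y‖ ≤ ‖y + (1 / ((k : ℝ) + 1)) • v‖ + ‖(1 / ((k : ℝ) + 1)) • v‖ := by
            have := norm_sub_le (y + (1 / ((k : ℝ) + 1)) • v) ((1 / ((k : ℝ) + 1)) • v)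
            rwa [add_sub_cancel_right] at this
          have h8 : ‖(1 / ((k : ℝ) + 1)) • v‖ ≤ ‖v‖ := by
            rw [norm_smul, Real.norm_eq_abs, abs_of_pos (hn k)]
            exact mul_le_of_le_one_left (norm_nonneg v) (hn1 k)
          linarith
        rw [e1, e2]
        simp
    · filter_upwards [hf.ae_differentiableAt (μ := volume)] with y hy
      apply Tendsto.mul_const
      have h9 : HasLineDerivAt ℝ f (fderiv ℝ f y v) y v := hy.hasFDerivAt.hasLineDerivAt _
      have h10 := HasDerivAt.tendsto_slope_zero h9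
      simp only [zero_add, zero_smul, add_zero] at h10
      exact h10.comp hs
  exact h5.congr fun k => (h4 k).symm

/-- Cutting off a Lipschitz function. -/
lemma exists_cutoff {f : E p q → ℝ} {L : ℝ≥0} (hf : LipschitzWith L f) {r : ℝ} (hr : 0 ≤ r) :
    ∃ (g : E p q → ℝ) (L' : ℝ≥0), LipschitzWith L' g ∧ (∀ x, r + 2 < ‖x‖ → g x = 0) ∧
      ∀ x, ‖x‖ < r + 1 → g x = f x := by
  set M : ℝ := |f 0| + L * (r + 2) with hM
  have hM0 : 0 ≤ M := by positivity
  set f1 : E p q → ℝ := fun x => max (-M) (min (f x) M) with hf1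
  set χ : E p q → ℝ := fun x => max 0 (min 1 (r + 2 - ‖x‖)) with hχ
  have hf1lip : LipschitzWith L f1 := (hf.min_const M).const_max (-M)
  have hf1b : ∀ x, |f1 x| ≤ M := fun x => abs_le.2
    ⟨le_max_left _ _, max_le (by linarith) (min_le_right _ _)⟩
  have hχlip : LipschitzWith 1 χ := by
    have h1 : LipschitzWith 1 fun x : E p q => r + 2 - ‖x‖ := by
      refine LipschitzWith.of_dist_le_mul fun x y => ?_
      rw [Real.dist_eq, NNReal.coe_one, one_mul, dist_eq_norm]
      have := abs_norm_sub_norm_le x y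
      rw [show r + 2 - ‖x‖ - (r + 2 - ‖y‖) = -(‖x‖ - ‖y‖) by ring, abs_neg]
      exact this
    exact (h1.const_min 1).const_max 0
  have hχb : ∀ x, |χ x| ≤ 1 := fun x => by
    rw [abs_of_nonneg (le_max_left _ _)]
    exact max_le zero_le_one (min_le_left _ _)
  refine ⟨fun x => f1 x * χ x, M.toNNReal + L, ?_, ?_, ?_⟩
  · refine LipschitzWith.of_dist_le_mul fun x y => ?_
    have h1 := hf1lip.dist_le_mul x y
    have h2 := hχlip.dist_le_mul x y
    rw [Real.dist_eq] at h1 h2 ⊢
    rw [NNReal.coe_one, one_mul] at h2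
    have e : f1 x * χ x - f1 y * χ y = f1 x * (χ x - χ y) + χ y * (f1 x - f1 y) := by ring
    rw [e]
    refine (abs_add_le _ _).trans ?_
    rw [abs_mul, abs_mul]
    have h3 : |f1 x| * |χ x - χ y| ≤ M * dist x y :=
      mul_le_mul (hf1b x) h2 (abs_nonneg _) hM0
    have h4 : |χ y| * |f1 x - f1 y| ≤ 1 * (L * dist x y) :=
      mul_le_mul (hχb y) h1 (abs_nonneg _) zero_le_one
    rw [NNReal.coe_add, Real.coe_toNNReal M hM0]
    linarith
  · intro x hx
    have : χ x = 0 := by
      simp only [hχ]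
      rw [max_eq_left]
      exact (min_le_right _ _).trans (by linarith)
    simp only [this, mul_zero]
  · intro x hx
    have h1 : χ x = 1 := by
      simp only [hχ]
      rw [min_eq_left (by linarith), max_eq_right zero_le_one]
    have h2 : |f x| ≤ M := by
      have h := hf.dist_le_mul x 0
      rw [Real.dist_eq, dist_zero_right] at h
      have h3 := abs_sub_abs_le_abs_sub (f x) (f 0)
      have h4 : (L : ℝ) * ‖x‖ ≤ L * (r + 2) :=
        mul_le_mul_of_nonneg_left (by linarith) L.coe_nonneg
      linarith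
    have h3 := abs_le.1 h2
    simp only [h1, mul_one, hf1]
    rw [min_eq_left h3.2, max_eq_right h3.1]

theorem exists_poly_lip {f : E p q → ℝ} {L : ℝ≥0} (hf : LipschitzWith L f) (r : ℝ) :
    ∃ P : ℕ → Pol p q,
      (∀ x, ‖x‖ ≤ r → Tendsto (fun k => ev (P k) x) atTop (𝓝 (f x))) ∧
      (∀ᵐ x : E p q, ‖x‖ ≤ r →
        Tendsto (fun k => fderiv ℝ (ev (P k)) x) atTop (𝓝 (fderiv ℝ f x))) ∧
      ∃ C : ℝ, ∀ k x, ‖x‖ ≤ r → |ev (P k) x| ≤ C ∧ ‖fderiv ℝ (ev (P k)) x‖ ≤ C := by
  -- replace `r` by `|r|`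
  suffices H : ∀ r : ℝ, 0 ≤ r → ∃ P : ℕ → Pol p q,
      (∀ x, ‖x‖ ≤ r → Tendsto (fun k => ev (P k) x) atTop (𝓝 (f x))) ∧
      (∀ᵐ x : E p q, ‖x‖ ≤ r →
        Tendsto (fun k => fderiv ℝ (ev (P k)) x) atTop (𝓝 (fderiv ℝ f x))) ∧
      ∃ C : ℝ, ∀ k x, ‖x‖ ≤ r → |ev (P k) x| ≤ C ∧ ‖fderiv ℝ (ev (P k)) x‖ ≤ C by
    obtain ⟨P, h1, h2, C, h3⟩ := H |r| (abs_nonneg r)
    refine ⟨P, fun x hx => h1 x (hx.trans (le_abs_self r)), ?_, C,
      fun k x hx => h3 k x (hx.trans (le_abs_self r))⟩
    filter_upwards [h2] with x hx hx' using hx (hx'.trans (le_abs_self r))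
  intro r hr
  obtain ⟨g, L', hg, hgs, hgf⟩ := exists_cutoff hf hr
  have hn : ∀ n : ℕ, (0 : ℝ) < 1 / ((n : ℝ) + 1) := fun n => by positivity
  have hn1 : ∀ n : ℕ, 1 / ((n : ℝ) + 1) ≤ 1 := fun n => by
    rw [div_le_one (by positivity)]
    have : (0 : ℝ) ≤ n := Nat.cast_nonneg n
    linarith
  let φ : ℕ → ContDiffBump (0 : E p q) := fun n =>
    ⟨1 / ((n : ℝ) + 1) / 2, 1 / ((n : ℝ) + 1), half_pos (hn n), half_lt_self (hn n)⟩
  let ρ : ℕ → E p q → ℝ := fun n => (φ n).normed volume
  have hρc : ∀ n, Continuous (ρ n) := fun n => (φ n).continuous_normed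
  have hgsupp : HasCompactSupport g :=
    HasCompactSupport.intro (isCompact_closedBall (0 : E p q) (r + 2)) fun x hx => hgs x (by
      simpa using hx)
  -- polynomial kernels
  have hQ : ∀ n : ℕ, ∃ Q : Pol p q, ∀ a ∈ Metric.closedBall (0 : E p q) (r + (r + 2)),
      |ρ n a - ev Q a| ≤ 1 / ((n : ℝ) + 1) := fun n =>
    pol_dense (isCompact_closedBall _ _) (hρc n) (hn n)
  choose Q hQ using hQ
  have hP : ∀ n : ℕ, ∃ P : Pol p q, ∀ x, ∫ y, g y * ev (Q n) (x - y) = ev P x := fun n =>
    poly_conv (Q n) g hg.continuous hgsupp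
  choose P hP using hP
  -- the mollified functions
  let G : ℕ → E p q → ℝ := fun n x => ∫ y, g y * ρ n (x - y)
  have hGconv : ∀ n x, G n x =
      (MeasureTheory.convolution (ρ n) g (ContinuousLinearMap.lsmul ℝ ℝ) volume) x := by
    intro n x
    rw [MeasureTheory.convolution_eq_swap]
    exact integral_congr_ae (Eventually.of_forall fun y => by
      simp only [ContinuousLinearMap.lsmul_apply, smul_eq_mul]; ring)
  have hGC : ∀ n, ContDiff ℝ 1 (G n) := by
    intro n
    have h2 : G n = MeasureTheory.convolution (ρ n) g (ContinuousLinearMap.lsmul ℝ ℝ) volume :=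
      funext (hGconv n)
    have hs : HasCompactSupport (ρ n) := (φ n).hasCompactSupport_normed
    have hc : ContDiff ℝ 1 (ρ n) := (φ n).contDiff_normed
    rw [h2]
    exact hs.contDiff_convolution_left _ hc (hg.continuous.locallyIntegrable (μ := volume))
  have hGd : ∀ n, Differentiable ℝ (G n) := fun n => (hGC n).differentiable one_ne_zero
  -- the difference of values
  set I0 : ℝ := ∫ y, |g y| with hI0
  have hI00 : 0 ≤ I0 := integral_nonneg fun _ => abs_nonneg _
  have igK : ∀ (K : E p q → ℝ), Continuous K → ∀ x, Integrable fun y => g y * K (x - y) :=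
    fun K hK x => (hg.continuous.mul (hK.comp (by fun_prop))).integrable_of_hasCompactSupport
      hgsupp.mul_right
  have hball : ∀ {x y : E p q}, ‖x‖ ≤ r → ‖y‖ ≤ r + 2 →
      x - y ∈ Metric.closedBall (0 : E p q) (r + (r + 2)) := by
    intro x y hx hy
    rw [mem_closedBall_zero_iff]
    exact (norm_sub_le _ _).trans (add_le_add hx hy)
  have hdiff0 : ∀ n x, ‖x‖ ≤ r → |ev (P n) x - G n x| ≤ 1 / ((n : ℝ) + 1) * I0 := by
    intro n x hx
    rw [← hP n x, show G n x = ∫ y, g y * ρ n (x - y) from rfl,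
      ← integral_sub (igK _ (ev_cont _) x) (igK _ (hρc n) x), ← Real.norm_eq_abs]
    rw [hI0, ← integral_const_mul]
    refine norm_integral_le_of_norm_le ?_ (Eventually.of_forall fun y => ?_)
    · exact (hg.continuous.abs.integrable_of_hasCompactSupport hgsupp.abs).const_mul _
    · rw [← mul_sub, norm_mul, Real.norm_eq_abs, Real.norm_eq_abs, mul_comm]
      by_cases hy : ‖y‖ ≤ r + 2
      · apply mul_le_mul_of_nonneg_right _ (abs_nonneg _)
        rw [abs_sub_comm]
        exact hQ n _ (hball hx hy)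
      · rw [hgs y (not_le.1 hy)]
        simp
  have hG0 : ∀ n x, |G n x - g x| ≤ L' * (1 / ((n : ℝ) + 1)) := by
    intro n x
    have h := (φ n).dist_normed_convolution_le (x₀ := x) (μ := volume)
      hg.continuous.aestronglyMeasurable (ε := L' * (1 / ((n : ℝ) + 1))) (fun y hy => by
        refine (hg.dist_le_mul y x).trans (mul_le_mul_of_nonneg_left ?_ L'.coe_nonneg)
        exact (Metric.mem_ball.1 hy).le)
    rw [hGconv, ← Real.dist_eq]
    exact h
  -- the gradient of `g`
  have hgb : ∀ y, ‖fderiv ℝ g y‖ ≤ L' := fun y => norm_fderiv_le_of_lipschitz ℝ hg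
  have hg0 : ∀ y, r + 2 < ‖y‖ → fderiv ℝ g y = 0 := by
    intro y hy
    have h1 : g =ᶠ[𝓝 y] fun _ => (0 : ℝ) := by
      filter_upwards [(isOpen_lt continuous_const continuous_norm).mem_nhds hy] with z hz
      exact hgs z hz
    rw [h1.fderiv_eq]
    simp
  set V : ℝ := (volume (Metric.closedBall (0 : E p q) (r + 2))).toReal with hV
  have hV0 : 0 ≤ V := ENNReal.toReal_nonneg
  have ivm : ∀ v : E p q, Measurable fun y => fderiv ℝ g y v := fun v =>
    measurable_fderiv_apply_const ℝ g v
  have idK : ∀ (K : E p q → ℝ), Continuous K → ∀ x v,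
      Integrable fun y => fderiv ℝ g y v * K (x - y) := by
    intro K hK x v
    have h1 : Integrable ((Metric.closedBall (0 : E p q) (r + 2)).indicator
        fun y => L' * ‖v‖ * |K (x - y)|) := by
      rw [integrable_indicator_iff measurableSet_closedBall]
      refine ContinuousOn.integrableOn_compact (isCompact_closedBall _ _) ?_
      exact (continuous_const.mul (hK.comp (by fun_prop)).abs).continuousOn
    refine h1.mono' (((ivm v).mul (hK.comp (by fun_prop)).measurable).aestronglyMeasurable)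
      (Eventually.of_forall fun y => ?_)
    by_cases hy : ‖y‖ ≤ r + 2
    · rw [indicator_of_mem (by rwa [mem_closedBall_zero_iff]), norm_mul, Real.norm_eq_abs (K _)]
      exact mul_le_mul_of_nonneg_right (((fderiv ℝ g y).le_opNorm v).trans
        (mul_le_mul_of_nonneg_right (hgb y) (norm_nonneg _))) (abs_nonneg _)
    · rw [hg0 y (not_le.1 hy), indicator_of_notMem (by rwa [mem_closedBall_zero_iff])]
      simp
  have hdiff1 : ∀ n x, ‖x‖ ≤ r →
      ‖fderiv ℝ (ev (P n)) x - fderiv ℝ (G n) x‖ ≤ 1 / ((n : ℝ) + 1) * (L' * V) := by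
    intro n x hx
    refine ContinuousLinearMap.opNorm_le_bound _ (by positivity) fun v => ?_
    have e1 : fderiv ℝ (ev (P n)) x v = ∫ y, fderiv ℝ g y v * ev (Q n) (x - y) := by
      have h1 : ev (P n) = fun x => ∫ y, g y * ev (Q n) (x - y) :=
        funext fun x => (hP n x).symm
      rw [h1]
      refine fderiv_conv hg hgs (ev_cont _) ?_ v
      rw [← h1]
      exact ev_diff _ _
    have e2 : fderiv ℝ (G n) x v = ∫ y, fderiv ℝ g y v * ρ n (x - y) :=
      fderiv_conv hg hgs (hρc n) (hGd n x) v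
    rw [_root_.sub_apply, e1, e2, ← integral_sub (idK _ (ev_cont _) x v) (idK _ (hρc n) x v)]
    have h2 : Integrable ((Metric.closedBall (0 : E p q) (r + 2)).indicator
        fun _ => 1 / ((n : ℝ) + 1) * (L' * ‖v‖)) := by
      rw [integrable_indicator_iff measurableSet_closedBall]
      exact (continuous_const.continuousOn).integrableOn_compact (isCompact_closedBall _ _)
    refine (norm_integral_le_of_norm_le h2 (Eventually.of_forall fun y => ?_)).trans ?_
    · rw [← mul_sub, norm_mul, Real.norm_eq_abs (_ - _)]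
      by_cases hy : ‖y‖ ≤ r + 2
      · rw [indicator_of_mem (by rwa [mem_closedBall_zero_iff]), mul_comm (1 / ((n : ℝ) + 1))]
        refine mul_le_mul (((fderiv ℝ g y).le_opNorm v).trans
          (mul_le_mul_of_nonneg_right (hgb y) (norm_nonneg _))) ?_ (abs_nonneg _) (by positivity)
        rw [abs_sub_comm]
        exact hQ n _ (hball hx hy)
      · rw [hg0 y (not_le.1 hy), indicator_of_notMem (by rwa [mem_closedBall_zero_iff])]
        simp
    · rw [integral_indicator measurableSet_closedBall, setIntegral_const]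
      simp only [Measure.real, smul_eq_mul]
      rw [← hV]
      exact le_of_eq (by ring)
  have hGlip : ∀ n x, ‖fderiv ℝ (G n) x‖ ≤ L' := by
    intro n x
    refine ContinuousLinearMap.opNorm_le_bound _ L'.coe_nonneg fun v => ?_
    rw [fderiv_conv hg hgs (hρc n) (hGd n x) v]
    have h2 : Integrable fun y => L' * ‖v‖ * ρ n (x - y) :=
      ((φ n).integrable_normed.comp_sub_left x).const_mul _
    refine (norm_integral_le_of_norm_le h2 (Eventually.of_forall fun y => ?_)).trans ?_
    · rw [norm_mul, Real.norm_eq_abs (ρ n _), abs_of_nonneg ((φ n).nonneg_normed _)]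
      exact mul_le_mul_of_nonneg_right (((fderiv ℝ g y).le_opNorm v).trans
        (mul_le_mul_of_nonneg_right (hgb y) (norm_nonneg _))) ((φ n).nonneg_normed _)
    · rw [integral_const_mul, integral_sub_left_eq_self (fun y => ρ n y) volume x]
      rw [show ∫ y, ρ n y = 1 from (φ n).integral_normed, mul_one]
  -- convergence of the gradients
  have hloc : LocallyIntegrable (fderiv ℝ g) (volume : Measure (E p q)) := by
    refine (locallyIntegrable_const (L' : ℝ)).mono
      (measurable_fderiv ℝ g).aestronglyMeasurable ?_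
    filter_upwards with y
    rw [Real.norm_eq_abs, abs_of_nonneg L'.coe_nonneg]
    exact hgb y
  have hae := ContDiffBump.ae_convolution_tendsto_right_of_locallyIntegrable
    (μ := (volume : Measure (E p q)))
    (φ := φ) (l := atTop) (K := 2) (tendsto_one_div_add_atTop_nhds_zero_nat)
    (Eventually.of_forall fun n => by
      show 1 / ((n : ℝ) + 1) ≤ 2 * (1 / ((n : ℝ) + 1) / 2)
      linarith) hloc
  have hGder : ∀ n x, fderiv ℝ (G n) x =
      (MeasureTheory.convolution (ρ n) (fderiv ℝ g) (ContinuousLinearMap.lsmul ℝ ℝ) volume) x := by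
    intro n x
    ext v
    rw [fderiv_conv hg hgs (hρc n) (hGd n x) v, MeasureTheory.convolution_eq_swap,
      ContinuousLinearMap.integral_apply]
    · exact integral_congr_ae (Eventually.of_forall fun y => by
        simp only [ContinuousLinearMap.lsmul_apply, _root_.smul_apply, smul_eq_mul]; ring)
    · have h1 : Integrable fun y => L' * ρ n (x - y) :=
        ((φ n).integrable_normed.comp_sub_left x).const_mul _
      refine h1.mono' ?_ (Eventually.of_forall fun y => ?_)
      · refine AEStronglyMeasurable.smul ?_ (measurable_fderiv ℝ g).aestronglyMeasurable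
        exact ((hρc n).comp (by fun_prop)).aestronglyMeasurable
      · simp only [ContinuousLinearMap.lsmul_apply]
        rw [norm_smul, Real.norm_eq_abs, abs_of_nonneg ((φ n).nonneg_normed _), mul_comm]
        exact mul_le_mul_of_nonneg_right (hgb y) ((φ n).nonneg_normed _)
  have hlim0 : Tendsto (fun n : ℕ => 1 / ((n : ℝ) + 1)) atTop (𝓝 0) :=
    tendsto_one_div_add_atTop_nhds_zero_nat
  refine ⟨P, ?_, ?_, |g 0| + L' * r + I0 + L' + L' * V, ?_⟩
  · intro x hx
    rw [← hgf x (by linarith), tendsto_iff_dist_tendsto_zero]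
    have h1 : Tendsto (fun n : ℕ => 1 / ((n : ℝ) + 1) * I0 + L' * (1 / ((n : ℝ) + 1)))
        atTop (𝓝 0) := by
      simpa using (hlim0.mul_const I0).add (hlim0.const_mul (L' : ℝ))
    refine squeeze_zero (fun n => dist_nonneg) (fun n => ?_) h1
    rw [Real.dist_eq]
    have := abs_sub_le (ev (P n) x) (G n x) (g x)
    linarith [hdiff0 n x hx, hG0 n x]
  · filter_upwards [hae] with x hx hxr
    have e1 : fderiv ℝ f x = fderiv ℝ g x := by
      refine Filter.EventuallyEq.fderiv_eq ?_
      filter_upwards [(isOpen_lt continuous_norm continuous_const).mem_nhds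
        (show ‖x‖ < r + 1 by linarith)] with z hz
      exact (hgf z hz).symm
    rw [e1]
    have h1 : Tendsto (fun n => fderiv ℝ (G n) x) atTop (𝓝 (fderiv ℝ g x)) :=
      hx.congr fun n => (hGder n x).symm
    have h2 : Tendsto (fun n => fderiv ℝ (ev (P n)) x - fderiv ℝ (G n) x) atTop (𝓝 0) := by
      rw [tendsto_zero_iff_norm_tendsto_zero]
      have h3 : Tendsto (fun n : ℕ => 1 / ((n : ℝ) + 1) * (L' * V)) atTop (𝓝 0) := by
        simpa using hlim0.mul_const (L' * V)
      exact squeeze_zero (fun n => norm_nonneg _) (fun n => hdiff1 n x hxr) h3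
    have h4 := h2.add h1
    simpa using h4
  · intro n x hx
    have hVL : 0 ≤ L' * V := by positivity
    constructor
    · have h1 := hdiff0 n x hx
      have h2 := hG0 n x
      have h3 : |g x| ≤ |g 0| + L' * r := by
        have h := hg.dist_le_mul x 0
        rw [Real.dist_eq, dist_zero_right] at h
        have h3 := abs_sub_abs_le_abs_sub (g x) (g 0)
        have h4 : (L' : ℝ) * ‖x‖ ≤ L' * r := mul_le_mul_of_nonneg_left hx L'.coe_nonneg
        linarith
      have h4 : 1 / ((n : ℝ) + 1) * I0 ≤ I0 := mul_le_of_le_one_left hI00 (hn1 n)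
      have h5 : L' * (1 / ((n : ℝ) + 1)) ≤ L' := mul_le_of_le_one_right L'.coe_nonneg (hn1 n)
      have h6 := abs_sub_abs_le_abs_sub (ev (P n) x) (G n x)
      have h7 := abs_sub_abs_le_abs_sub (G n x) (g x)
      linarith
    · have h1 := hdiff1 n x hx
      have h2 := hGlip n x
      have h3 : 1 / ((n : ℝ) + 1) * (L' * V) ≤ L' * V := mul_le_of_le_one_left hVL (hn1 n)
      have h4 : ‖fderiv ℝ (ev (P n)) x‖ ≤
          ‖fderiv ℝ (ev (P n)) x - fderiv ℝ (G n) x‖ + ‖fderiv ℝ (G n) x‖ := by
        have := norm_add_le (fderiv ℝ (ev (P n)) x - fderiv ℝ (G n) x) (fderiv ℝ (G n) x)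
        rwa [sub_add_cancel] at this
      have h5 : 0 ≤ L' * r := by positivity
      linarith [abs_nonneg (g 0)]

end Pool.Agent.Lib.MP_8d00da_gt.h25
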