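import Mathlib
import Pool.Agent.Lib.MP_8d00da_gt.h25.Ent
import Pool.Agent.Lib.MP_8d00da_gt.h25.FinalAsm
import Pool.Agent.Lib.MP_8d00da_gt.h25.OpTail
import Pool.Agent.Lib.MP_8d00da_gt.h25.PolyDense
import Pool.Agent.Lib.MP_8d00da_gt.h25.Core

/-!
# The core statement
-/

namespace Pool.Agent.Lib.MP_8d00da_gt.h25

open MeasureTheory Set Filter Matrix
open Pool.Agent.Lib.MP_8d00da_gt.h42
open scoped Topology NNReal

variable {p q : ℕ}

/-- the tail of `|xᵀ u|` -/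
def RowT (p q : ℕ) : Prop := ∀ (h : E p q → ℝ) (r B : ℝ), LCW h r B →
    (∀ O : Matrix (Fin q) (Fin q) ℝ, O * Oᵀ = 1 → ∀ x, h (rm O x) = h x) →
    ∀ σ : ℝ, 0 < σ →
    (∀ θ : E p q, ∫ x, (inner ℝ θ x) ^ 2 * h x ≤ σ ^ 2 * ‖θ‖ ^ 2 * ∫ x, h x) →
    ∀ u : Fin p → ℝ, ∑ k, u k ^ 2 = 1 → ∀ t : ℝ, 1 ≤ t →
    ∫ x in {x | 4 * t * Real.exp 1 * (Real.sqrt (2 * q) * σ) < ‖tv u x‖}, h x ≤
      2 ^ q * Real.exp (-(t * q)) * ∫ x, h x

lemma LCW.scale {h : E p q → ℝ} {r B : ℝ} (H : LCW h r B) {c : ℝ} (hc : 0 < c) :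
    LCW (fun x => c * h x) r (c * B) where
  meas := H.meas.const_mul c
  nonneg := fun x => mul_nonneg hc.le (H.nonneg x)
  bdd := fun x => mul_le_mul_of_nonneg_left (H.bdd x) hc.le
  conc := by
    intro a ha0 ha1 x y
    have h1 := H.conc a ha0 ha1 x y
    rw [Real.mul_rpow hc.le (H.nonneg x), Real.mul_rpow hc.le (H.nonneg y)]
    have h2 : c ^ (1 - a) * c ^ a = c := by
      rw [← Real.rpow_add hc]; simp
    calc c ^ (1 - a) * h x ^ (1 - a) * (c ^ a * h y ^ a) =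
        (c ^ (1 - a) * c ^ a) * (h x ^ (1 - a) * h y ^ a) := by ring
      _ ≤ _ := by rw [h2]; exact mul_le_mul_of_nonneg_left h1 hc.le
  supp := fun x hx => by simp only [H.supp x hx, mul_zero]
  mass := by
    rw [integral_const_mul]
    exact mul_pos hc H.mass

theorem core_stmt (hq : 3 ≤ q) (hrow : RowT p q) : CoreStmt p q (10 ^ 4 * La p q) := by
  intro h r B H hinv σ hσ hlin f L hf m hm
  set Z := ∫ x, h x with hZ
  have hZ0 : 0 < Z := H.mass
  set c := Z⁻¹ with hc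
  have hc0 : 0 < c := by positivity
  have hcZ : c * Z = 1 := inv_mul_cancel₀ hZ0.ne'
  set g : E p q → ℝ := fun x => c * h x with hg
  have G : LCW g r (c * B) := H.scale hc0
  have g1 : ∫ x, g x = 1 := by
    simp only [hg]
    rw [integral_const_mul]; exact hcZ
  have ginv : Inv g := fun O hO x => by simp only [hg, hinv O hO]
  have scale : ∀ φ : E p q → ℝ, ∫ x, φ x * g x = c * ∫ x, φ x * h x := by
    intro φ
    rw [← integral_const_mul]
    exact integral_congr_ae (Eventually.of_forall fun x => by simp only [hg]; ring)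
  have glin : ∀ θ : E p q, ∫ x, (inner ℝ θ x) ^ 2 * g x ≤ σ ^ 2 * ‖θ‖ ^ 2 * ∫ x, g x := by
    intro θ
    rw [scale, g1, mul_one]
    calc c * ∫ x, (inner ℝ θ x) ^ 2 * h x ≤ c * (σ ^ 2 * ‖θ‖ ^ 2 * Z) :=
          mul_le_mul_of_nonneg_left (hlin θ) hc0.le
      _ = σ ^ 2 * ‖θ‖ ^ 2 * (c * Z) := by ring
      _ = _ := by rw [hcZ, mul_one]
  have htail : Tail g σ := by
    intro t ht
    have h2 := op_tail G (s := 4 * t * Real.exp 1 * (Real.sqrt (2 * q) * σ))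
      (M := 2 ^ q * Real.exp (-(t * q))) (by positivity) (by positivity) (fun u hu => by
        have := hrow g r (c * B) G ginv σ hσ glin u hu t ht
        rwa [g1, mul_one] at this)
    have e : 2 * (4 * t * Real.exp 1 * (Real.sqrt (2 * q) * σ)) = 4 * t * s0 q σ := by
      unfold s0; ring
    rw [e] at h2
    exact h2
  have hent : EntI g := fun φ L hφ h0 s hs hB ψ hψ => ent_ineq G g1 hφ h0 hs hB hψ
  have happ : Approx f := fun r => exists_poly_lip hf r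
  have key := core1 G g1 ginv hq hσ htail hent hf happ (m := m) (by
    rw [scale, hm]
    calc c * (m * Z) = m * (c * Z) := by ring
      _ = m := by rw [hcZ, mul_one])
  rw [scale, scale] at key
  have h3 := mul_le_mul_of_nonneg_left key hZ0.le
  have h4 : Z * (c * ∫ x, (f x - m) ^ 2 * h x) = ∫ x, (f x - m) ^ 2 * h x := by
    rw [← mul_assoc, mul_comm Z c, hcZ, one_mul]
  have h5 : Z * ((10 ^ 4 * La p q * σ) ^ 2 * (c * ∫ x, ‖fderiv ℝ f x‖ ^ 2 * h x)) =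
      (10 ^ 4 * La p q * σ) ^ 2 * ∫ x, ‖fderiv ℝ f x‖ ^ 2 * h x := by
    calc _ = (c * Z) * ((10 ^ 4 * La p q * σ) ^ 2 * ∫ x, ‖fderiv ℝ f x‖ ^ 2 * h x) := by ring
      _ = _ := by rw [hcZ, one_mul]
  rw [h4, h5] at h3
  exact h3

end Pool.Agent.Lib.MP_8d00da_gt.h25
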