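import Mathlib
import Pool.Agent.Lib.MP_8d00da_gt.h42.Supergrad

/-!
# Tail of a radial log-concave function
-/

namespace Pool.Agent.Lib.MP_8d00da_gt.h25

open MeasureTheory Set Filter Matrix
open Pool.Agent.Lib.MP_8d00da_gt.h42
open scoped Topology NNReal

section Radial

variable {V : Type*} [NormedAddCommGroup V] [InnerProductSpace ℝ V] [FiniteDimensional ℝ V]
  [MeasurableSpace V] [BorelSpace V]

omit [FiniteDimensional ℝ V] [MeasurableSpace V] [BorelSpace V] in
lemma radial_anti {ρ : V → ℝ} (h0 : ∀ w, 0 ≤ ρ w) (hlc : LogConc ρ)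
    (hrad : ∀ w w', ‖w‖ = ‖w'‖ → ρ w = ρ w') {w w' : V} (h : ‖w'‖ ≤ ‖w‖) : ρ w ≤ ρ w' := by
  rcases eq_or_lt_of_le h with h | h
  · exact (hrad _ _ h).ge
  · have hw : 0 < ‖w‖ := (norm_nonneg _).trans_lt h
    set lam := ‖w'‖ / ‖w‖ with hlam
    have hlam0 : 0 ≤ lam := by positivity
    have hlam1 : lam < 1 := (div_lt_one hw).2 h
    have e : ρ w' = ρ (lam • w) :=
      hrad _ _ (by rw [norm_smul, Real.norm_of_nonneg hlam0, hlam, div_mul_cancel₀ _ hw.ne'])
    have h1 := hlc ((1 + lam) / 2) (by linarith) (by linarith) (-w) w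
    have h2 : ρ (-w) = ρ w := hrad _ _ (norm_neg _)
    rw [h2, ← Real.rpow_add_of_nonneg (h0 w) (by linarith) (by linarith)] at h1
    have h3 : (1 - (1 + lam) / 2) + (1 + lam) / 2 = 1 := by ring
    rw [h3, Real.rpow_one] at h1
    have h4 : (1 - (1 + lam) / 2) • (-w) + ((1 + lam) / 2) • w = lam • w := by
      rw [smul_neg, ← neg_smul, ← add_smul]; congr 1; ring
    rw [h4] at h1
    rw [e]; exact h1

theorem radial_tail (hdim : 1 ≤ Module.finrank ℝ V) {ρ : V → ℝ} (h0 : ∀ w, 0 ≤ ρ w)
    (hm : Measurable ρ) (hi : Integrable ρ) (hlc : LogConc ρ)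
    (hrad : ∀ w w', ‖w‖ = ‖w'‖ → ρ w = ρ w') {r : ℝ} (hr : 0 < r)
    (hhalf : (1 / 2) * ∫ w, ρ w ≤ ∫ w in Metric.closedBall 0 r, ρ w) {t : ℝ} (ht : 1 ≤ t) :
    ∫ w in {w | 4 * t * Real.exp 1 * r < ‖w‖}, ρ w ≤
      2 ^ Module.finrank ℝ V * Real.exp (-(t * Module.finrank ℝ V)) * ∫ w, ρ w := by
  have _ := hm
  set n := Module.finrank ℝ V with hn
  set M := ∫ w, ρ w with hM
  set c := ρ 0 with hc
  have hM0 : 0 ≤ M := integral_nonneg h0
  have hle : ∀ w, ρ w ≤ c := fun w => radial_anti h0 hlc hrad (by simp)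
  have hc0 : 0 ≤ c := h0 0
  rcases eq_or_lt_of_le hc0 with hcz | hcp
  · have hz : ∀ w, ρ w = 0 := fun w => le_antisymm (by rw [hcz]; exact hle w) (h0 w)
    have : ∫ w in {w | 4 * t * Real.exp 1 * r < ‖w‖}, ρ w = 0 := by
      simp [hz]
    rw [this]
    positivity
  set s0 := 2 * Real.exp 1 * r with hs0
  have hs0p : 0 < s0 := by positivity
  have hnR : (1 : ℝ) ≤ n := by exact_mod_cast hdim
  -- (ii)
  have hii : ∀ w, ‖w‖ = s0 → ρ w ≤ c * Real.exp (-n) := by
    intro w hw
    set v1 := (volume : Measure V).real (Metric.closedBall 0 1) with hv1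
    have hv1p : 0 < v1 := by
      rw [hv1, measureReal_def]
      exact ENNReal.toReal_pos (Metric.measure_closedBall_pos _ _ one_pos).ne'
        measure_closedBall_lt_top.ne
    have hvs : (volume : Measure V).real (Metric.closedBall 0 s0) = s0 ^ n * v1 :=
      Measure.addHaar_real_closedBall' _ _ hs0p.le
    have hvr : (volume : Measure V).real (Metric.closedBall 0 r) = r ^ n * v1 :=
      Measure.addHaar_real_closedBall' _ _ hr.le
    have h1 : s0 ^ n * v1 * ρ w ≤ M := by
      rw [← hvs]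
      calc (volume : Measure V).real (Metric.closedBall 0 s0) * ρ w
          = ∫ _x in Metric.closedBall (0 : V) s0, ρ w := by
            rw [setIntegral_const, smul_eq_mul]
        _ ≤ ∫ x in Metric.closedBall (0 : V) s0, ρ x := by
            refine setIntegral_mono_on ?_ hi.integrableOn measurableSet_closedBall ?_
            · exact integrableOn_const (by exact measure_closedBall_lt_top.ne)
            · intro x hx
              apply radial_anti h0 hlc hrad
              rw [hw]
              simpa using hx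
        _ ≤ M := setIntegral_le_integral hi (Eventually.of_forall h0)
    have h2 : (1 / 2) * M ≤ r ^ n * v1 * c := by
      refine hhalf.trans ?_
      rw [← hvr]
      calc ∫ x in Metric.closedBall (0 : V) r, ρ x
          ≤ ∫ _x in Metric.closedBall (0 : V) r, c := by
            refine setIntegral_mono_on hi.integrableOn ?_ measurableSet_closedBall ?_
            · exact integrableOn_const (by exact measure_closedBall_lt_top.ne)
            · intro x _
              exact hle x
        _ = (volume : Measure V).real (Metric.closedBall 0 r) * c := by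
            rw [setIntegral_const, smul_eq_mul]
    have h3 : s0 ^ n = (2 * Real.exp 1) ^ n * r ^ n := by rw [hs0, mul_pow]
    have hrn : 0 < r ^ n * v1 := by positivity
    have h4 : (2 * Real.exp 1) ^ n * ρ w ≤ 2 * c := by
      have : (r ^ n * v1) * ((2 * Real.exp 1) ^ n * ρ w) ≤ (r ^ n * v1) * (2 * c) := by
        calc (r ^ n * v1) * ((2 * Real.exp 1) ^ n * ρ w) = s0 ^ n * v1 * ρ w := by
              rw [h3]; ring
          _ ≤ M := h1
          _ ≤ 2 * (r ^ n * v1 * c) := by linarith
          _ = (r ^ n * v1) * (2 * c) := by ring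
      exact le_of_mul_le_mul_left this hrn
    have h5 : (2 : ℝ) ≤ 2 ^ n := by
      calc (2 : ℝ) = 2 ^ 1 := by norm_num
        _ ≤ 2 ^ n := pow_le_pow_right₀ (by norm_num) hdim
    have h6 : (2 * Real.exp 1) ^ n = 2 ^ n * Real.exp n := by
      rw [mul_pow, ← Real.exp_nat_mul, mul_one]
    have h7 : 2 * (Real.exp n * ρ w) ≤ 2 * c := by
      refine le_trans ?_ h4
      rw [h6, mul_assoc]
      exact mul_le_mul_of_nonneg_right h5 (mul_nonneg (Real.exp_pos _).le (h0 w))
    have h8 : Real.exp n * ρ w ≤ c := by linarith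
    rw [Real.exp_neg]
    rw [← div_eq_mul_inv, le_div_iff₀ (Real.exp_pos _)]
    linarith
  -- (iii)
  have hiii : ∀ w, t * s0 ≤ ‖w‖ → ρ w ≤ c * Real.exp (-(t * n)) := by
    intro w hw
    rcases eq_or_lt_of_le (h0 w) with hz | hp
    · rw [← hz]; positivity
    set t' := ‖w‖ / s0 with ht'
    have htt : t ≤ t' := by rw [ht', le_div_iff₀ hs0p]; exact hw
    have ht'1 : 1 ≤ t' := ht.trans htt
    have ht'p : 0 < t' := by linarith
    have key : ρ w ≤ c * Real.exp (-(t' * n)) := by
      rcases eq_or_lt_of_le ht'1 with h1 | h1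
      · have : ‖w‖ = s0 := by
          rw [ht', eq_div_iff hs0p.ne', one_mul] at h1
          exact h1.symm
        rw [← h1, one_mul]
        exact hii w this
      · have ha1 : 1 / t' < 1 := by rw [div_lt_one ht'p]; exact h1
        have ha0 : 0 < 1 / t' := by positivity
        have h2 := hlc (1 / t') ha0 ha1 0 w
        rw [smul_zero, zero_add] at h2
        have hnorm : ‖(1 / t') • w‖ = s0 := by
          rw [norm_smul, Real.norm_of_nonneg ha0.le, ht']
          have hwp : ‖w‖ ≠ 0 := by
            intro h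
            rw [ht', h, zero_div] at ht'p
            exact lt_irrefl _ ht'p
          field_simp
        have h3 := h2.trans (hii _ hnorm)
        have h4 := Real.log_le_log (by positivity) h3
        rw [Real.log_mul (by positivity) (by positivity), Real.log_rpow hcp, Real.log_rpow hp,
          Real.log_mul (by positivity) (by positivity), Real.log_exp] at h4
        have h5 : Real.log (ρ w) ≤ Real.log c - t' * n := by
          have h6 : t' * ((1 - 1 / t') * Real.log c + 1 / t' * Real.log (ρ w)) ≤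
              t' * (Real.log c + -n) := mul_le_mul_of_nonneg_left h4 ht'p.le
          have h7 : t' * ((1 - 1 / t') * Real.log c + 1 / t' * Real.log (ρ w)) =
              t' * Real.log c - Real.log c + Real.log (ρ w) := by
            field_simp
          rw [h7] at h6
          linarith
        have h8 : Real.log (ρ w) ≤ Real.log (c * Real.exp (-(t' * n))) := by
          rw [Real.log_mul (by positivity) (by positivity), Real.log_exp]
          linarith
        exact (Real.log_le_log_iff hp (by positivity)).1 h8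
    refine key.trans (mul_le_mul_of_nonneg_left (Real.exp_le_exp.2 ?_) hc0)
    have : t * n ≤ t' * n := mul_le_mul_of_nonneg_right htt (by linarith)
    linarith
  -- (iv)
  have hiv : ∀ w, 4 * t * Real.exp 1 * r < ‖w‖ →
      ρ w ≤ Real.exp (-(t * n)) * ρ ((2 : ℝ)⁻¹ • w) := by
    intro w hw
    have h1 : ρ ((2 : ℝ)⁻¹ • w) ≤ c * Real.exp (-(t * n)) := by
      apply hiii
      rw [norm_smul, Real.norm_of_nonneg (by norm_num : (0 : ℝ) ≤ 2⁻¹)]
      rw [hs0]
      linarith
    have h2 := hlc (1 / 2) (by norm_num) (by norm_num) 0 w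
    rw [smul_zero, zero_add, ← hc] at h2
    have e1 : (1 / 2 : ℝ) • w = (2 : ℝ)⁻¹ • w := by norm_num
    rw [e1] at h2
    have h3 : (c ^ (1 - 1 / 2 : ℝ) * ρ w ^ (1 / 2 : ℝ)) ^ 2 = c * ρ w := by
      rw [mul_pow, ← Real.rpow_natCast, ← Real.rpow_natCast, ← Real.rpow_mul hc0,
        ← Real.rpow_mul (h0 w)]
      norm_num
    have h4 : c * ρ w ≤ ρ ((2 : ℝ)⁻¹ • w) ^ 2 := by
      rw [← h3]
      exact pow_le_pow_left₀
        (mul_nonneg (Real.rpow_nonneg hc0 _) (Real.rpow_nonneg (h0 w) _)) h2 2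
    have h5 : ρ ((2 : ℝ)⁻¹ • w) ^ 2 ≤ c * (Real.exp (-(t * n)) * ρ ((2 : ℝ)⁻¹ • w)) := by
      rw [pow_two]
      calc ρ ((2 : ℝ)⁻¹ • w) * ρ ((2 : ℝ)⁻¹ • w)
          ≤ (c * Real.exp (-(t * n))) * ρ ((2 : ℝ)⁻¹ • w) :=
            mul_le_mul_of_nonneg_right h1 (h0 _)
        _ = _ := by ring
    exact le_of_mul_le_mul_left (h4.trans h5) hcp
  -- (v)
  have hSm : MeasurableSet {w : V | 4 * t * Real.exp 1 * r < ‖w‖} :=
    measurableSet_lt measurable_const measurable_norm
  have hi2 : Integrable (fun w => Real.exp (-(t * n)) * ρ ((2 : ℝ)⁻¹ • w)) :=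
    ((integrable_comp_smul_iff (volume : Measure V) ρ (by norm_num : (2 : ℝ)⁻¹ ≠ 0)).2
      hi).const_mul _
  calc ∫ w in {w | 4 * t * Real.exp 1 * r < ‖w‖}, ρ w
      ≤ ∫ w in {w | 4 * t * Real.exp 1 * r < ‖w‖}, Real.exp (-(t * n)) * ρ ((2 : ℝ)⁻¹ • w) :=
        setIntegral_mono_on hi.integrableOn hi2.integrableOn hSm (fun w hw => hiv w hw)
    _ ≤ ∫ w, Real.exp (-(t * n)) * ρ ((2 : ℝ)⁻¹ • w) :=
        setIntegral_le_integral hi2 (Eventually.of_forall fun w =>
          mul_nonneg (Real.exp_pos _).le (h0 _))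
    _ = 2 ^ n * Real.exp (-(t * n)) * M := by
        rw [integral_const_mul, Measure.integral_comp_inv_smul_of_nonneg _ _ (by norm_num),
          smul_eq_mul]
        ring

end Radial

end Pool.Agent.Lib.MP_8d00da_gt.h25
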