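import Mathlib
import Pool.Agent.Lib.MP_8d00da_gt.h25.Radial
import Pool.Agent.Lib.MP_8d00da_gt.h42.Slice
import Pool.Agent.Lib.MP_8d00da_gt.h25.Cls

/-!
# The tail of `|xᵀ u|`
-/

namespace Pool.Agent.Lib.MP_8d00da_gt.h25

open MeasureTheory Set Filter Matrix
open Pool.Agent.Lib.MP_8d00da_gt.h42
open scoped Topology NNReal

variable {p q : ℕ}

/-- The embedding `v ↦ u ⊗ v`. -/
noncomputable def io (u : Fin p → ℝ) (v : EuclideanSpace ℝ (Fin q)) : E p q :=
  WithLp.toLp 2 fun ka => u ka.1 * v ka.2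

lemma io_apply (u : Fin p → ℝ) (v : EuclideanSpace ℝ (Fin q)) (k : Fin p) (a : Fin q) :
    io u v (k, a) = u k * v a := rfl

lemma io_add (u : Fin p → ℝ) (v w : EuclideanSpace ℝ (Fin q)) : io u (v + w) = io u v + io u w := by
  ext ⟨k, a⟩
  simp only [io_apply, PiLp.add_apply, mul_add]

lemma io_smul (u : Fin p → ℝ) (c : ℝ) (v : EuclideanSpace ℝ (Fin q)) : io u (c • v) = c • io u v := by
  ext ⟨k, a⟩
  simp only [io_apply, PiLp.smul_apply, smul_eq_mul]
  ring

lemma tv_apply (u : Fin p → ℝ) (x : E p q) (a : Fin q) : tv u x a = ∑ k, x (k, a) * u k := rfl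

lemma io_inner (u : Fin p → ℝ) (v : EuclideanSpace ℝ (Fin q)) (x : E p q) :
    inner ℝ (io u v) x = inner ℝ v (tv u x) := by
  simp only [PiLp.inner_apply, RCLike.inner_apply, conj_trivial]
  rw [Fintype.sum_prod_type_right]
  refine Finset.sum_congr rfl fun a _ => ?_
  rw [tv_apply, Finset.sum_mul]
  exact Finset.sum_congr rfl fun k _ => by rw [io_apply]; ring

lemma tv_io {u : Fin p → ℝ} (hu : ∑ k, u k ^ 2 = 1) (v : EuclideanSpace ℝ (Fin q)) :
    tv u (io u v) = v := by
  ext a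
  rw [tv_apply]
  have : ∑ k, io u v (k, a) * u k = (∑ k, u k ^ 2) * v a := by
    rw [Finset.sum_mul]
    exact Finset.sum_congr rfl fun k _ => by rw [io_apply]; ring
  rw [this, hu, one_mul]

lemma io_norm {u : Fin p → ℝ} (hu : ∑ k, u k ^ 2 = 1) (v : EuclideanSpace ℝ (Fin q)) :
    ‖io u v‖ = ‖v‖ := by
  have h := io_inner u v (io u v)
  rw [tv_io hu, real_inner_self_eq_norm_sq, real_inner_self_eq_norm_sq] at h
  exact (sq_eq_sq₀ (norm_nonneg _) (norm_nonneg _)).1 h

/-- `io` as a linear isometry. -/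
noncomputable def ioL {u : Fin p → ℝ} (hu : ∑ k, u k ^ 2 = 1) :
    EuclideanSpace ℝ (Fin q) →ₗᵢ[ℝ] E p q where
  toFun := io u
  map_add' := io_add u
  map_smul' := io_smul u
  norm_map' := io_norm hu

/-- The range. -/
noncomputable def WW {u : Fin p → ℝ} (hu : ∑ k, u k ^ 2 = 1) (q : ℕ) : Submodule ℝ (E p q) :=
  LinearMap.range (ioL (q := q) hu).toLinearMap

lemma mem_perp {u : Fin p → ℝ} (hu : ∑ k, u k ^ 2 = 1) {b : E p q} :
    b ∈ (WW hu q)ᗮ ↔ tv u b = 0 := by
  rw [Submodule.mem_orthogonal]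
  constructor
  · intro h
    have h1 := h (io u (tv u b)) ⟨tv u b, rfl⟩
    rw [io_inner] at h1
    exact inner_self_eq_zero.1 h1
  · rintro h _ ⟨v, rfl⟩
    show inner ℝ (io u v) b = 0
    rw [io_inner, h, inner_zero_right]

lemma tv_add_perp {u : Fin p → ℝ} (hu : ∑ k, u k ^ 2 = 1) (v : EuclideanSpace ℝ (Fin q))
    (b : (WW hu q)ᗮ) : tv u (io u v + (b : E p q)) = v := by
  rw [tv_add, tv_io hu, (mem_perp hu).1 b.2, add_zero]

/-- The splitting map. -/
noncomputable def spl {u : Fin p → ℝ} (hu : ∑ k, u k ^ 2 = 1) :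
    EuclideanSpace ℝ (Fin q) × (WW hu q)ᗮ → E p q := fun z => io u z.1 + (z.2 : E p q)

lemma spl_mp {u : Fin p → ℝ} (hu : ∑ k, u k ^ 2 = 1) :
    MeasurePreserving (spl (q := q) hu)
      ((volume : Measure (EuclideanSpace ℝ (Fin q))).prod (volume : Measure (WW hu q)ᗮ)) volume := by
  have h1 := (ioL (q := q) hu).equivRange.measurePreserving
  have h2 := (split_mp (WW hu q)).comp (h1.prod (MeasurePreserving.id (volume : Measure (WW hu q)ᗮ)))
  exact h2

lemma spl_emb {u : Fin p → ℝ} (hu : ∑ k, u k ^ 2 = 1) : MeasurableEmbedding (spl (q := q) hu) := by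
  have h1 := (ioL (q := q) hu).equivRange.toHomeomorph.measurableEmbedding
  have h2 := (split_emb (WW hu q)).comp (h1.prodMap (MeasurableEmbedding.id (α := (WW hu q)ᗮ)))
  exact h2

/-- The marginal density. -/
noncomputable def rh {u : Fin p → ℝ} (hu : ∑ k, u k ^ 2 = 1) (h : E p q → ℝ)
    (v : EuclideanSpace ℝ (Fin q)) : ℝ := ∫ b : (WW hu q)ᗮ, h (io u v + (b : E p q))

section rh

variable {u : Fin p → ℝ} (hu : ∑ k, u k ^ 2 = 1) {h : E p q → ℝ} {r B : ℝ}

include hu

lemma rh_slice_meas (H : LCW h r B) (v : EuclideanSpace ℝ (Fin q)) :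
    Measurable fun b : (WW hu q)ᗮ => h (io u v + (b : E p q)) :=
  H.meas.comp (by fun_prop)

lemma rh_slice_int (H : LCW h r B) (v : EuclideanSpace ℝ (Fin q)) :
    Integrable fun b : (WW hu q)ᗮ => h (io u v + (b : E p q)) := by
  have h1 : Integrable ((Metric.closedBall (0 : (WW hu q)ᗮ) (r + ‖v‖)).indicator
      fun _ => B) := by
    rw [integrable_indicator_iff measurableSet_closedBall]
    exact integrableOn_const (measure_closedBall_lt_top.ne)
  refine h1.mono' (rh_slice_meas hu H v).aestronglyMeasurable (Eventually.of_forall fun b => ?_)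
  rw [Real.norm_eq_abs, abs_of_nonneg (H.nonneg _)]
  by_cases hx : h (io u v + (b : E p q)) = 0
  · rw [hx]
    exact indicator_nonneg (fun _ _ => (H.nonneg 0).trans (H.bdd 0)) _
  · have h2 : ‖io u v + (b : E p q)‖ ≤ r := by
      by_contra hc
      exact hx (H.supp _ (not_le.1 hc))
    have hz : b ∈ Metric.closedBall (0 : (WW hu q)ᗮ) (r + ‖v‖) := by
      rw [mem_closedBall_zero_iff]
      have h3 : ‖(b : E p q)‖ ≤ ‖io u v + (b : E p q)‖ + ‖io u v‖ := by
        have : (b : E p q) = (io u v + (b : E p q)) - io u v := by abel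
        nth_rewrite 1 [this]
        exact norm_sub_le _ _
      rw [io_norm hu] at h3
      have h5 : ‖b‖ = ‖(b : E p q)‖ := rfl
      rw [h5]; linarith
    rw [indicator_of_mem hz]
    exact H.bdd _

lemma rh_nonneg (H : LCW h r B) (v : EuclideanSpace ℝ (Fin q)) : 0 ≤ rh hu h v :=
  integral_nonneg fun _ => H.nonneg _

lemma rh_conc (H : LCW h r B) : LogConc (rh hu h) := by
  intro a ha0 ha1 v v'
  refine pl_integral ha0 ha1 (fun _ => H.nonneg _) (fun _ => H.nonneg _) (fun _ => H.nonneg _)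
    (rh_slice_meas hu H v) (rh_slice_meas hu H v') (rh_slice_meas hu H _)
    (rh_slice_int hu H v) (rh_slice_int hu H v') (rh_slice_int hu H _)
    fun z z' => ?_
  have h1 := H.conc a ha0 ha1 (io u v + (z : E p q)) (io u v' + (z' : E p q))
  refine h1.trans (le_of_eq ?_)
  congr 1
  simp only [io_add, io_smul, Submodule.coe_add, Submodule.coe_smul, smul_add]
  abel

lemma rh_fub_int (H : LCW h r B) {φ : E p q → ℝ} (hφ : Integrable φ) :
    Integrable (fun z => φ (spl hu z)) ((volume : Measure (EuclideanSpace ℝ (Fin q))).prod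
      (volume : Measure (WW hu q)ᗮ)) :=
  (spl_mp hu).integrable_comp_of_integrable hφ

lemma rh_int (H : LCW h r B) : Integrable (rh hu h) :=
  (rh_fub_int hu H H.int).integral_prod_left

lemma rh_meas (H : LCW h r B) : Measurable (rh hu h) := by
  have h1 : StronglyMeasurable (fun z : EuclideanSpace ℝ (Fin q) × (WW hu q)ᗮ => h (spl hu z)) :=
    (H.meas.comp (by unfold spl; simp only [io]; fun_prop)).stronglyMeasurable
  exact h1.integral_prod_right.measurable

/-- Integrals over sets defined by `tv u x`. -/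
lemma rh_set (H : LCW h r B) {S : Set (EuclideanSpace ℝ (Fin q))} (hS : MeasurableSet S) :
    ∫ v in S, rh hu h v = ∫ x in {x | tv u x ∈ S}, h x := by
  have htv : Measurable (tv u : E p q → EuclideanSpace ℝ (Fin q)) := by
    have : Continuous (tv u : E p q → EuclideanSpace ℝ (Fin q)) := by
      unfold tv
      exact (PiLp.continuous_toLp 2 _).comp (continuous_pi fun a =>
        continuous_finsetSum _ fun k _ => by fun_prop)
    exact this.measurable
  have hT : MeasurableSet {x : E p q | tv u x ∈ S} := htv hS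
  rw [← integral_indicator hS, ← integral_indicator hT]
  set g : E p q → ℝ := {x : E p q | tv u x ∈ S}.indicator h with hg
  have hgi : Integrable g := H.int.indicator hT
  rw [← (spl_mp hu).integral_comp (spl_emb hu) g,
    integral_prod _ (rh_fub_int hu H hgi)]
  refine integral_congr_ae (Eventually.of_forall fun v => ?_)
  simp only
  have hiff : ∀ b : (WW hu q)ᗮ, spl hu (v, b) ∈ {x : E p q | tv u x ∈ S} ↔ v ∈ S := by
    intro b
    show tv u (io u v + (b : E p q)) ∈ S ↔ v ∈ S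
    rw [tv_add_perp hu]
  by_cases hv : v ∈ S
  · rw [indicator_of_mem hv]
    unfold rh
    refine integral_congr_ae (Eventually.of_forall fun b => ?_)
    simp only [hg]
    rw [indicator_of_mem ((hiff b).2 hv)]
    rfl
  · rw [indicator_of_notMem hv]
    symm
    have : ∀ b : (WW hu q)ᗮ, g (spl hu (v, b)) = 0 := fun b => by
      simp only [hg]
      exact indicator_of_notMem (fun h => hv ((hiff b).1 h)) _
    simp [this]

end rh

/-- The Householder matrix of a vector. -/
noncomputable def hous (n : Fin q → ℝ) : Matrix (Fin q) (Fin q) ℝ :=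
  1 - (2 / (n ⬝ᵥ n)) • vecMulVec n n

lemma hous_t (n : Fin q → ℝ) : (hous n)ᵀ = hous n := by
  unfold hous
  rw [transpose_sub, transpose_one, transpose_smul, transpose_vecMulVec]

lemma hous_sq {n : Fin q → ℝ} (hn : n ⬝ᵥ n ≠ 0) : hous n * (hous n)ᵀ = 1 := by
  rw [hous_t]
  unfold hous
  have h1 : vecMulVec n n * vecMulVec n n = (n ⬝ᵥ n) • vecMulVec n n := by
    rw [vecMulVec_mul_vecMulVec]
    ext i j
    simp only [vecMulVec_apply, Pi.smul_apply, Matrix.smul_apply, smul_eq_mul]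
    ring
  rw [sub_mul, mul_sub, mul_sub, one_mul, mul_one, one_mul, smul_mul_smul_comm, h1, smul_smul]
  have h2 : 2 / (n ⬝ᵥ n) * (2 / (n ⬝ᵥ n)) * (n ⬝ᵥ n) = 2 * (2 / (n ⬝ᵥ n)) := by
    field_simp
  rw [h2]
  module

/-- There is an orthogonal matrix mapping a vector to another one of the same norm. -/
lemma exists_orth {v w : EuclideanSpace ℝ (Fin q)} (h : ‖v‖ = ‖w‖) :
    ∃ O : Matrix (Fin q) (Fin q) ℝ, O * Oᵀ = 1 ∧ Oᵀ = O ∧ ∀ a, ∑ l, v l * O l a = w a := by
  rcases eq_or_ne v w with rfl | hvw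
  · exact ⟨1, by simp, by simp, fun a => by simp [Matrix.one_apply]⟩
  · set n : Fin q → ℝ := fun a => v a - w a with hn
    have hv2 : ∑ a, v a ^ 2 = ∑ a, w a ^ 2 := by
      have h1 := congrArg (fun t => t ^ 2) h
      simp only [EuclideanSpace.norm_sq_eq, Real.norm_eq_abs, sq_abs] at h1
      exact h1
    have hnn : n ⬝ᵥ n = 2 * ∑ l, v l * n l := by
      simp only [dotProduct, hn]
      have e1 : ∑ i, (v i - w i) * (v i - w i) = ∑ i, v i ^ 2 + ∑ i, w i ^ 2 - 2 * ∑ i, v i * w i := by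
        rw [Finset.mul_sum, ← Finset.sum_add_distrib, ← Finset.sum_sub_distrib]
        exact Finset.sum_congr rfl fun i _ => by ring
      have e2 : ∑ i, v i * (v i - w i) = ∑ i, v i ^ 2 - ∑ i, v i * w i := by
        rw [← Finset.sum_sub_distrib]
        exact Finset.sum_congr rfl fun i _ => by ring
      rw [e1, e2, ← hv2]; ring
    have hne : n ⬝ᵥ n ≠ 0 := by
      intro h0
      have : n = 0 := dotProduct_self_eq_zero.1 h0
      apply hvw
      ext a
      have := congrFun this a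
      simp only [hn, Pi.zero_apply] at this
      linarith
    refine ⟨hous n, hous_sq hne, hous_t n, fun a => ?_⟩
    have e3 : ∀ l, v l * hous n l a = v l * (1 : Matrix (Fin q) (Fin q) ℝ) l a -
        (2 / (n ⬝ᵥ n)) * n a * (v l * n l) := by
      intro l
      simp only [hous, Matrix.sub_apply, Matrix.smul_apply, vecMulVec_apply, smul_eq_mul]
      ring
    rw [Finset.sum_congr rfl fun l _ => e3 l, Finset.sum_sub_distrib, ← Finset.mul_sum]
    have e4 : ∑ l, v l * (1 : Matrix (Fin q) (Fin q) ℝ) l a = v a := by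
      simp [Matrix.one_apply]
    rw [e4]
    have e5 : 2 / (n ⬝ᵥ n) * n a * ∑ l, v l * n l = n a := by
      have : ∑ l, v l * n l = (n ⬝ᵥ n) / 2 := by rw [hnn]; ring
      rw [this]
      field_simp
    rw [e5]
    simp only [hn]
    ring

lemma rm_io (u : Fin p → ℝ) {v w : EuclideanSpace ℝ (Fin q)} {O : Matrix (Fin q) (Fin q) ℝ}
    (h : ∀ a, ∑ l, v l * O l a = w a) : rm O (io u v) = io u w := by
  ext ⟨k, a⟩
  rw [rm_apply, io_apply, ← h a, Finset.mul_sum]
  exact Finset.sum_congr rfl fun l _ => by rw [io_apply]; ring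

lemma tv_rm_zero {u : Fin p → ℝ} {O : Matrix (Fin q) (Fin q) ℝ} (hO : O * Oᵀ = 1) {b : E p q}
    (hb : tv u b = 0) : tv u (rm O b) = 0 := by
  rw [← norm_eq_zero, tv_rm hO, hb, norm_zero]

/-- The restricted isometry. -/
noncomputable def rperp {u : Fin p → ℝ} (hu : ∑ k, u k ^ 2 = 1) {O : Matrix (Fin q) (Fin q) ℝ}
    (hO : O * Oᵀ = 1) (hOt : Oᵀ = O) : (WW hu q)ᗮ ≃ₗᵢ[ℝ] (WW hu q)ᗮ where
  toFun b := ⟨rm O b, (mem_perp hu).2 (tv_rm_zero hO ((mem_perp hu).1 b.2))⟩
  invFun b := ⟨rm O b, (mem_perp hu).2 (tv_rm_zero hO ((mem_perp hu).1 b.2))⟩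
  map_add' b c := Subtype.ext (rm_add O _ _)
  map_smul' c b := Subtype.ext (rm_smul O _ _)
  left_inv b := Subtype.ext (by
    show rm O (rm O (b : E p q)) = b
    rw [rm_mul]
    nth_rewrite 2 [← hOt]
    rw [hO, rm_one])
  right_inv b := Subtype.ext (by
    show rm O (rm O (b : E p q)) = b
    rw [rm_mul]
    nth_rewrite 2 [← hOt]
    rw [hO, rm_one])
  norm_map' b := rm_norm hO _

lemma rh_rad {u : Fin p → ℝ} (hu : ∑ k, u k ^ 2 = 1) {h : E p q → ℝ}
    (hinv : ∀ O : Matrix (Fin q) (Fin q) ℝ, O * Oᵀ = 1 → ∀ x, h (rm O x) = h x)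
    (v w : EuclideanSpace ℝ (Fin q)) (hvw : ‖v‖ = ‖w‖) : rh hu h v = rh hu h w := by
  obtain ⟨O, hO, hOt, hOv⟩ := exists_orth hvw
  have h1 := (rperp (q := q) hu hO hOt).measurePreserving.integral_comp
    (rperp (q := q) hu hO hOt).toHomeomorph.measurableEmbedding
    (fun b : (WW hu q)ᗮ => h (io u w + (b : E p q)))
  unfold rh
  rw [← h1]
  refine integral_congr_ae (Eventually.of_forall fun b => ?_)
  simp only
  have e : io u w + ((rperp (q := q) hu hO hOt b : (WW hu q)ᗮ) : E p q) =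
      rm O (io u v + (b : E p q)) := by
    rw [rm_add, rm_io u hOv]
    rfl
  rw [e, hinv O hO]

theorem row_tail {h : E p q → ℝ} {r B : ℝ} (H : LCW h r B) (hq : 1 ≤ q)
    (hinv : ∀ O : Matrix (Fin q) (Fin q) ℝ, O * Oᵀ = 1 → ∀ x, h (rm O x) = h x)
    {σ : ℝ} (hσ : 0 < σ)
    (hlin : ∀ θ : E p q, ∫ x, (inner ℝ θ x) ^ 2 * h x ≤ σ ^ 2 * ‖θ‖ ^ 2 * ∫ x, h x)
    {u : Fin p → ℝ} (hu : ∑ k, u k ^ 2 = 1) {t : ℝ} (ht : 1 ≤ t) :
    ∫ x in {x | 4 * t * Real.exp 1 * (Real.sqrt (2 * q) * σ) < ‖tv u x‖}, h x ≤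
      2 ^ q * Real.exp (-(t * q)) * ∫ x, h x := by
  have hq0 : (0 : ℝ) < q := by exact_mod_cast hq
  set r1 := Real.sqrt (2 * q) * σ with hr1
  have hr10 : 0 < r1 := by positivity
  have hr1sq : r1 ^ 2 = 2 * q * σ ^ 2 := by
    rw [hr1, mul_pow, Real.sq_sqrt (by positivity)]
  have htvc : Continuous (tv u : E p q → EuclideanSpace ℝ (Fin q)) := by
    unfold tv
    exact (PiLp.continuous_toLp 2 _).comp (continuous_pi fun a =>
      continuous_finsetSum _ fun k _ => by fun_prop)
  have htot : ∫ v, rh hu h v = ∫ x, h x := by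
    have := rh_set hu H (S := (univ : Set (EuclideanSpace ℝ (Fin q)))) MeasurableSet.univ
    simpa using this
  -- integrability
  have hint : ∀ {g : E p q → ℝ}, Measurable g → ∀ M : ℝ, (∀ x, ‖x‖ ≤ r → |g x| ≤ M) →
      Integrable fun x => g x * h x := by
    intro g hg M hM
    refine (H.int.const_mul M).mono' (hg.mul H.meas).aestronglyMeasurable
      (Eventually.of_forall fun x => ?_)
    by_cases hx : h x = 0
    · simp [hx]
    · have hxr : ‖x‖ ≤ r := by
        by_contra hc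
        exact hx (H.supp x (not_le.1 hc))
      rw [norm_mul, Real.norm_eq_abs, Real.norm_eq_abs, abs_of_nonneg (H.nonneg x)]
      exact mul_le_mul_of_nonneg_right (hM x hxr) (H.nonneg x)
  have hu1 : ∑ k, u k ^ 2 ≤ 1 := hu.le
  -- second moment
  have hsm : ∫ x, ‖tv u x‖ ^ 2 * h x ≤ q * σ ^ 2 * ∫ x, h x := by
    have e1 : ∀ x, ‖tv u x‖ ^ 2 * h x = ∑ a : Fin q,
        (inner ℝ (io u (EuclideanSpace.basisFun (Fin q) ℝ a)) x) ^ 2 * h x := by
      intro x
      rw [← Finset.sum_mul]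
      congr 1
      rw [← (EuclideanSpace.basisFun (Fin q) ℝ).sum_sq_norm_inner_right (tv u x)]
      refine Finset.sum_congr rfl fun a _ => ?_
      rw [io_inner, Real.norm_eq_abs, sq_abs]
    simp only [e1]
    rw [integral_finsetSum _ fun a _ => ?_]
    · calc ∑ a : Fin q, ∫ x, (inner ℝ (io u (EuclideanSpace.basisFun (Fin q) ℝ a)) x) ^ 2 * h x
          ≤ ∑ _a : Fin q, σ ^ 2 * ∫ x, h x := by
            refine Finset.sum_le_sum fun a _ => ?_
            have h2 := hlin (io u (EuclideanSpace.basisFun (Fin q) ℝ a))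
            rw [io_norm hu, OrthonormalBasis.norm_eq_one] at h2
            simpa using h2
        _ = q * σ ^ 2 * ∫ x, h x := by simp; ring
    · refine hint (by fun_prop) (r ^ 2) fun x hx => ?_
      rw [abs_pow]
      refine pow_le_pow_left₀ (abs_nonneg _) ?_ 2
      refine (abs_real_inner_le_norm _ _).trans ?_
      rw [io_norm hu, OrthonormalBasis.norm_eq_one, one_mul]
      exact hx
  -- Chebyshev
  have hcheb : ∫ x in {x : E p q | r1 < ‖tv u x‖}, h x ≤ 1 / 2 * ∫ x, h x := by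
    have hmS : MeasurableSet {x : E p q | r1 < ‖tv u x‖} :=
      measurableSet_lt measurable_const htvc.norm.measurable
    have h2 : r1 ^ 2 * ∫ x in {x : E p q | r1 < ‖tv u x‖}, h x ≤ ∫ x, ‖tv u x‖ ^ 2 * h x := by
      rw [← integral_indicator hmS, ← integral_const_mul]
      refine integral_mono ((H.int.indicator hmS).const_mul _)
        (hint (htvc.norm.measurable.pow_const 2) (r ^ 2) fun x hx => ?_) fun x => ?_
      · rw [abs_pow, abs_norm]
        exact pow_le_pow_left₀ (norm_nonneg _) ((tv_le' hu1 x).trans hx) 2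
      · simp only
        by_cases hx : x ∈ {x : E p q | r1 < ‖tv u x‖}
        · rw [indicator_of_mem hx]
          exact mul_le_mul_of_nonneg_right (pow_le_pow_left₀ hr10.le (le_of_lt hx) 2) (H.nonneg x)
        · rw [indicator_of_notMem hx, mul_zero]
          exact mul_nonneg (sq_nonneg _) (H.nonneg x)
    have h3 := h2.trans hsm
    rw [hr1sq] at h3
    have h4 : 0 < q * σ ^ 2 := by positivity
    have h5 : (q * σ ^ 2) * (2 * ∫ x in {x : E p q | r1 < ‖tv u x‖}, h x) ≤
        (q * σ ^ 2) * ∫ x, h x := by linarith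
    have h6 := le_of_mul_le_mul_left h5 h4
    linarith
  have hhalf : (1 / 2) * ∫ w, rh hu h w ≤ ∫ w in Metric.closedBall 0 r1, rh hu h w := by
    rw [rh_set hu H Metric.isClosed_closedBall.measurableSet, htot]
    have hmS : MeasurableSet {x : E p q | r1 < ‖tv u x‖} :=
      measurableSet_lt measurable_const htvc.norm.measurable
    have h2 := integral_add_compl hmS H.int
    have h3 : {x : E p q | r1 < ‖tv u x‖}ᶜ = {x | tv u x ∈ Metric.closedBall 0 r1} := by
      ext x
      simp [mem_closedBall_zero_iff]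
    rw [h3] at h2
    linarith
  have hdim : Module.finrank ℝ (EuclideanSpace ℝ (Fin q)) = q := finrank_euclideanSpace_fin
  have key := radial_tail (ρ := rh hu h) (by rw [hdim]; exact hq) (rh_nonneg hu H) (rh_meas hu H)
    (rh_int hu H) (rh_conc hu H) (rh_rad hu hinv) hr10 hhalf ht
  rw [hdim, htot, rh_set hu H (measurableSet_lt measurable_const continuous_norm.measurable)] at key
  exact key

end Pool.Agent.Lib.MP_8d00da_gt.h25
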