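import Pool.Agent.Lib.MP_8d00da_gt.Bodies
import Pool.Agent.Lib.MP_8d00da_gt.LcdMeas

/-!
# The KLS inequality for i.i.d. log-concave variables conditioned on order relations
between the coordinates (and, for symmetric variables, their opposites)
-/

open MeasureTheory

namespace Pool.Agent.Lib.MP_8d00da_gt.h25.SignedPosetThm

/-- `‖f - ∫ f dμ‖_{L²(μ)} ≤ D · ‖|∇f|‖_{L²(μ)}` for every Lipschitz function `f`.
The Poincaré constant `D_Poin(μ)` of the problem is the least such `D`. -/
def PoincareWith {V : Type*} [NormedAddCommGroup V] [NormedSpace ℝ V] [MeasurableSpace V]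
    (μ : Measure V) (D : ℝ) : Prop :=
  ∀ f : V → ℝ, (∃ L : NNReal, LipschitzWith L f) →
    eLpNorm (fun x => f x - ∫ y, f y ∂μ) 2 μ ≤
      ENNReal.ofReal D * eLpNorm (fun x => ‖fderiv ℝ f x‖) 2 μ

/-- The same inequality tested on linear functions `θ` only (`‖|∇θ|‖_{L²(μ)} = ‖θ‖` for a
probability measure). The constant `D^Lin_Poin(μ)` of the problem is the least such `D`. -/
def LinPoincareWith {V : Type*} [NormedAddCommGroup V] [NormedSpace ℝ V] [MeasurableSpace V]
    (μ : Measure V) (D : ℝ) : Prop :=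
  ∀ θ : V →L[ℝ] ℝ, eLpNorm (fun x => θ x - ∫ y, θ y ∂μ) 2 μ ≤ ENNReal.ofReal (D * ‖θ‖)

/-- A literal is a signed coordinate: `(i, true)` stands for `x i` and `(i, false)` for `-x i`. -/
def literal {n : ℕ} (x : Fin n → ℝ) (a : Fin n × Bool) : ℝ := if a.2 then x a.1 else - x a.1

/-- The vectors which satisfy the inequalities `a ≤ b`, `(a, b) ∈ E`, between literals. -/
def signedCone {n : ℕ} (E : Set ((Fin n × Bool) × (Fin n × Bool))) : Set (Fin n → ℝ) :=
  {x | ∀ e ∈ E, literal x e.1 ≤ literal x e.2}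

/-- The law, on Euclidean space `ℝⁿ`, of a vector with i.i.d. coordinates of law `ρ`, conditioned
on the inequalities `E` between literals. -/
noncomputable def signedLaw (ρ : Measure ℝ) {n : ℕ} (E : Set ((Fin n × Bool) × (Fin n × Bool))) :
    Measure (EuclideanSpace ℝ (Fin n)) :=
  (ProbabilityTheory.cond (Measure.pi fun _ : Fin n => ρ) (signedCone E)).map (WithLp.toLp 2)

/-- **KLS for (signed) ordered laws.** Let `h` be a log-concave probability density on the line,
`n ≥ 1`, and `E` a set of inequalities between literals which has positive probability under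
`(h dx)^{⊗n}`; suppose that `h` is even, or that `E` only contains inequalities `x i ≤ x j` between
coordinates. The law `μ` of an i.i.d. vector conditioned on `E` satisfies
`D_Poin(μ) ≤ 144 · D^Lin_Poin(μ)`. -/
theorem result (h : ℝ → ℝ) (h0 : ∀ x, 0 ≤ h x)
    (hlc : ∀ x y a b : ℝ, 0 ≤ a → 0 ≤ b → a + b = 1 → h x ^ a * h y ^ b ≤ h (a * x + b * y))
    (ρ : Measure ℝ) (hρ : ρ = volume.withDensity fun x => ENNReal.ofReal (h x))
    [IsProbabilityMeasure ρ] (n : ℕ) (hn : 1 ≤ n)
    (E : Set ((Fin n × Bool) × (Fin n × Bool)))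
    (hsign : (∀ x, h (-x) = h x) ∨ ∀ e ∈ E, e.1.2 = true ∧ e.2.2 = true)
    (hE : Measure.pi (fun _ : Fin n => ρ) (signedCone E) ≠ 0) (D : ℝ)
    (hD : LinPoincareWith (signedLaw ρ E) D) :
    PoincareWith (signedLaw ρ E) (144 * D) := by
  subst hρ
  have hp : IsProbabilityMeasure (Pool.Agent.Lib.MP_8d00da_gt.dens h) :=
    ‹IsProbabilityMeasure (volume.withDensity fun x => ENNReal.ofReal (h x))›
  have H := Pool.Agent.Lib.MP_8d00da_gt.LCD.of_lc h0 hlc
  rcases hsign with heven | hpos
  · exact Pool.Agent.Lib.MP_8d00da_gt.kls_lit H heven hn hE hD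
  · -- only positive literals
    set E' : Set (Fin n × Fin n) := {e | ((e.1, true), (e.2, true)) ∈ E} with hE'
    have hcone : (signedCone E : Set (Fin n → ℝ)) = Pool.Agent.Lib.MP_8d00da_gt.ordCone E' := by
      ext x
      constructor
      · intro hx e he
        have := hx _ he
        simpa [literal] using this
      · rintro hx ⟨⟨i, a⟩, ⟨j, b⟩⟩ he
        obtain ⟨h1, h2⟩ := hpos _ he
        simp only at h1 h2
        subst h1 h2
        have := hx (i, j) he
        simpa [literal] using this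
    have hlaw : signedLaw (volume.withDensity fun x => ENNReal.ofReal (h x)) E =
        Pool.Agent.Lib.MP_8d00da_gt.iidCond n (Pool.Agent.Lib.MP_8d00da_gt.dens h)
          (Pool.Agent.Lib.MP_8d00da_gt.ordCone E') := by
      unfold signedLaw
      rw [hcone]
      rfl
    rw [hcone] at hE
    rw [hlaw] at hD ⊢
    have h7 : Pool.Agent.Lib.MP_8d00da_gt.PoincareWith
        (Pool.Agent.Lib.MP_8d00da_gt.iidCond n (Pool.Agent.Lib.MP_8d00da_gt.dens h)
          (Pool.Agent.Lib.MP_8d00da_gt.ordCone E')) (7 * D) :=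
      Pool.Agent.Lib.MP_8d00da_gt.kls_ord H hn hE hD
    rcases le_total 0 D with hD0 | hD0
    · exact h7.mono (by linarith)
    · intro f hf
      have h8 := h7 f hf
      rw [ENNReal.ofReal_of_nonpos (by linarith : 7 * D ≤ 0), zero_mul] at h8
      exact h8.trans (by positivity)

end Pool.Agent.Lib.MP_8d00da_gt.h25.SignedPosetThm
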